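import Mathlib

/-!
# Linear algebra of bases of the self-dual parametric simplex method

`extA A = [A | I]`, `extD A = [-I | Aᵀ]`. A basis is described by a bijection
`e : Fin m ⊕ Fin n ≃ Fin n ⊕ Fin m`: the basic variables are `e (inl k)`, the others `e (inr k)`.
-/

set_option autoImplicit false

namespace Pool.Agent.Lib.MP_84734f_lc

open Matrix Finset

variable {m n : ℕ}

/-- `[A | I]`. -/
def extA (A : Fin m × Fin n → ℝ) : Matrix (Fin m) (Fin n ⊕ Fin m) ℝ :=
  Matrix.of fun r i => Sum.elim (fun j => A (r, j)) (fun l => if r = l then 1 else 0) i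

/-- `[-I | Aᵀ]`. -/
def extD (A : Fin m × Fin n → ℝ) : Matrix (Fin n) (Fin n ⊕ Fin m) ℝ :=
  Matrix.of fun j i => Sum.elim (fun j' => if j = j' then -1 else 0) (fun l => A (l, j)) i

/-- The fundamental identity. -/
theorem dot_eq (A : Fin m × Fin n → ℝ) (z η : Fin n ⊕ Fin m → ℝ) :
    ∑ i, z i * η i = (∑ l, (extA A *ᵥ z) l * η (Sum.inr l))
      - ∑ j, (extD A *ᵥ η) j * z (Sum.inl j) := by
  simp only [extA, extD, mulVec, dotProduct, Matrix.of_apply, Fintype.sum_sum_type, Sum.elim_inl,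
    Sum.elim_inr, ite_mul, one_mul, zero_mul, neg_mul, Finset.sum_ite_eq, Finset.mem_univ, if_true]
  have h1 : ∑ l : Fin m, (∑ j : Fin n, A (l, j) * z (Sum.inl j) + z (Sum.inr l)) * η (Sum.inr l)
      = ∑ l : Fin m, ∑ j : Fin n, A (l, j) * z (Sum.inl j) * η (Sum.inr l)
        + ∑ l : Fin m, z (Sum.inr l) * η (Sum.inr l) := by
    simp only [add_mul, Finset.sum_add_distrib, Finset.sum_mul]
  have h2 : ∑ j : Fin n, (-η (Sum.inl j) + ∑ l : Fin m, A (l, j) * η (Sum.inr l)) * z (Sum.inl j)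
      = -∑ j : Fin n, z (Sum.inl j) * η (Sum.inl j)
        + ∑ l : Fin m, ∑ j : Fin n, A (l, j) * z (Sum.inl j) * η (Sum.inr l) := by
    simp only [add_mul, Finset.sum_add_distrib, Finset.sum_mul, neg_mul, Finset.sum_neg_distrib]
    congr 1
    · congr 1
      exact Finset.sum_congr rfl fun j _ => mul_comm _ _
    · rw [Finset.sum_comm]
      exact Finset.sum_congr rfl fun l _ => Finset.sum_congr rfl fun j _ => by ring
  rw [h1, h2]
  ring

variable (e : Fin m ⊕ Fin n ≃ Fin n ⊕ Fin m)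

/-- Basic columns of `[A | I]`. -/
def Pm (A : Fin m × Fin n → ℝ) : Matrix (Fin m) (Fin m) ℝ :=
  Matrix.of fun r k => extA A r (e (Sum.inl k))

/-- Nonbasic columns of `[-I | Aᵀ]`. -/
def Qm (A : Fin m × Fin n → ℝ) : Matrix (Fin n) (Fin n) ℝ :=
  Matrix.of fun j k => extD A j (e (Sum.inr k))

/-- The vector with given basic entries and zero nonbasic entries. -/
def fullB (z : Fin m → ℝ) : Fin n ⊕ Fin m → ℝ := fun i => Sum.elim z (fun _ => 0) (e.symm i)

/-- The vector with given nonbasic entries and zero basic entries. -/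
def fullN (ζ : Fin n → ℝ) : Fin n ⊕ Fin m → ℝ := fun i => Sum.elim (fun _ => 0) ζ (e.symm i)

@[simp] theorem fullB_inl (z : Fin m → ℝ) (k : Fin m) : fullB e z (e (Sum.inl k)) = z k := by
  simp [fullB]

@[simp] theorem fullB_inr (z : Fin m → ℝ) (k : Fin n) : fullB e z (e (Sum.inr k)) = 0 := by
  simp [fullB]

@[simp] theorem fullN_inl (ζ : Fin n → ℝ) (k : Fin m) : fullN e ζ (e (Sum.inl k)) = 0 := by
  simp [fullN]

@[simp] theorem fullN_inr (ζ : Fin n → ℝ) (k : Fin n) : fullN e ζ (e (Sum.inr k)) = ζ k := by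
  simp [fullN]

theorem extA_fullB (A : Fin m × Fin n → ℝ) (z : Fin m → ℝ) :
    extA A *ᵥ fullB e z = Pm e A *ᵥ z := by
  ext r
  simp only [mulVec, dotProduct]
  rw [← e.sum_comp, Fintype.sum_sum_type]
  simp [Pm]

theorem extD_fullN (A : Fin m × Fin n → ℝ) (ζ : Fin n → ℝ) :
    extD A *ᵥ fullN e ζ = Qm e A *ᵥ ζ := by
  ext r
  simp only [mulVec, dotProduct]
  rw [← e.sum_comp, Fintype.sum_sum_type]
  simp [Qm]

/-- The edge direction of the nonbasic variable `k`. -/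
noncomputable def dir (A : Fin m × Fin n → ℝ) (k : Fin n) : Fin n ⊕ Fin m → ℝ :=
  fullB e (-((Pm e A)⁻¹ *ᵥ fun r => extA A r (e (Sum.inr k)))) + fullN e (Pi.single k 1)

theorem dir_inr (A : Fin m × Fin n → ℝ) (k k' : Fin n) :
    dir e A k (e (Sum.inr k')) = if k' = k then 1 else 0 := by
  simp [dir, Pi.single_apply]

theorem extA_dir {A : Fin m × Fin n → ℝ} (hP : (Pm e A).det ≠ 0) (k : Fin n) :
    extA A *ᵥ dir e A k = 0 := by
  have hu : IsUnit (Pm e A).det := isUnit_iff_ne_zero.2 hP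
  have h1 : extA A *ᵥ fullN e (Pi.single k 1) = fun r => extA A r (e (Sum.inr k)) := by
    ext r
    simp only [mulVec, dotProduct]
    rw [← e.sum_comp, Fintype.sum_sum_type]
    simp [Pi.single_apply]
  rw [dir, mulVec_add, extA_fullB, h1, mulVec_neg, mulVec_mulVec, mul_nonsing_inv _ hu,
    one_mulVec, neg_add_cancel]

/-- Duality between edge directions and the dual basic solution. -/
theorem dual_dir {A : Fin m × Fin n → ℝ} (hP : (Pm e A).det ≠ 0) (k : Fin n) (ζ : Fin n → ℝ) :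
    ζ k = -∑ j, (Qm e A *ᵥ ζ) j * dir e A k (Sum.inl j) := by
  have h := dot_eq A (dir e A k) (fullN e ζ)
  rw [extA_dir e hP, extD_fullN] at h
  rw [← e.sum_comp, Fintype.sum_sum_type] at h
  simpa [dir_inr] using h

theorem det_Qm_ne_zero {A : Fin m × Fin n → ℝ} (hP : (Pm e A).det ≠ 0) : (Qm e A).det ≠ 0 := by
  intro hQ
  obtain ⟨v, hv, hv0⟩ := Matrix.exists_mulVec_eq_zero_iff.2 hQ
  apply hv
  funext k
  rw [dual_dir e hP k v, hv0]
  simp

theorem dir_eq_inv {A : Fin m × Fin n → ℝ} (hP : (Pm e A).det ≠ 0) (k : Fin n) (j : Fin n) :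
    dir e A k (Sum.inl j) = -((Qm e A)⁻¹ *ᵥ Pi.single j 1) k := by
  have hu : IsUnit (Qm e A).det := isUnit_iff_ne_zero.2 (det_Qm_ne_zero e hP)
  have h := dual_dir e hP k ((Qm e A)⁻¹ *ᵥ Pi.single j 1)
  rw [mulVec_mulVec, mul_nonsing_inv _ hu, one_mulVec] at h
  rw [h]
  simp [Pi.single_apply]

theorem det_updateCol {A : Fin m × Fin n → ℝ} (hP : (Pm e A).det ≠ 0) (k : Fin n)
    (v : Fin n → ℝ) : ((Qm e A).updateCol k v).det = (Qm e A).det * ((Qm e A)⁻¹ *ᵥ v) k := by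
  have hu : IsUnit (Qm e A).det := isUnit_iff_ne_zero.2 (det_Qm_ne_zero e hP)
  have h := Matrix.det_smul_inv_mulVec_eq_cramer (Qm e A) v hu
  have h2 := congrFun h k
  rw [Matrix.cramer_apply] at h2
  rw [← h2]
  simp [Pi.smul_apply]

theorem det_updateCol_single {A : Fin m × Fin n → ℝ} (hP : (Pm e A).det ≠ 0) (k j : Fin n) :
    |((Qm e A).updateCol k (Pi.single j 1)).det| = |(Qm e A).det| * |dir e A k (Sum.inl j)| := by
  rw [det_updateCol e hP, abs_mul, dir_eq_inv e hP, abs_neg]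

end Pool.Agent.Lib.MP_84734f_lc
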