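import Pool.Agent.Lib.MP_84734f_lc.Det

/-!
# The bound for the total wall measure
-/

set_option autoImplicit false

namespace Pool.Agent.Lib.MP_84734f_lc

open Matrix Finset MeasureTheory
open scoped ENNReal

variable {m n : ℕ}

theorem l1_triangle {ι : Type*} [Fintype ι] (u v : ι → ℝ) : |l1 u - l1 v| ≤ l1 (u - v) := by
  rw [abs_le]
  have h1 := l1_le_add u v
  have h2 := l1_le_add v u
  rw [l1_sub_comm v u] at h2
  constructor <;> linarith

/-- The size of the data. -/
def Sx (x : X m n) : ℝ := 1 + l1 x.1 + l1 x.2.1 + l1 x.2.2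

theorem Sx_ge (x : X m n) : 1 ≤ Sx x := by
  unfold Sx
  have h1 := l1_nonneg x.1
  have h2 := l1_nonneg x.2.1
  have h3 := l1_nonneg x.2.2
  linarith

theorem continuous_Sx : Continuous (Sx : X m n → ℝ) := by
  unfold Sx
  exact ((continuous_const.add (continuous_l1.comp continuous_fst)).add
    (continuous_l1.comp (continuous_fst.comp continuous_snd))).add
    (continuous_l1.comp (continuous_snd.comp continuous_snd))

theorem abs_entry_le (e : Fin m ⊕ Fin n ≃ Fin n ⊕ Fin m) (A : Fin m × Fin n → ℝ)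
    (b : Fin m → ℝ) (r l : Fin m) : |Pm e A r l| ≤ 1 + l1 A + l1 b := by
  have h1 := l1_nonneg A
  have h2 := l1_nonneg b
  simp only [Pm, extA, Matrix.of_apply]
  rcases e (Sum.inl l) with j | r'
  · simp only [Sum.elim_inl]
    have := abs_le_l1 A (r, j)
    linarith
  · simp only [Sum.elim_inr]
    split_ifs <;> simp <;> linarith

/-- Cramer bound for the basic solution. -/
theorem basic_le (e : Fin m ⊕ Fin n ≃ Fin n ⊕ Fin m) {A : Fin m × Fin n → ℝ}
    (hP : (Pm e A).det ≠ 0) (z : Fin m → ℝ) (l : Fin m) :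
    |z l| ≤ (m.factorial * (1 + l1 A + l1 (Pm e A *ᵥ z)) ^ m) / |(Pm e A).det| := by
  set b := Pm e A *ᵥ z with hb
  have hu : IsUnit (Pm e A).det := isUnit_iff_ne_zero.2 hP
  have h := Matrix.det_smul_inv_mulVec_eq_cramer (Pm e A) b hu
  have hz : (Pm e A)⁻¹ *ᵥ b = z := by
    rw [hb, mulVec_mulVec, nonsing_inv_mul _ hu, one_mulVec]
  rw [hz] at h
  have h2 := congrFun h l
  rw [Pi.smul_apply, smul_eq_mul, Matrix.cramer_apply] at h2
  rw [le_div_iff₀ (abs_pos.2 hP), mul_comm, ← abs_mul, h2]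
  have h3 := Matrix.det_le (A := (Pm e A).updateCol l b) (abv := AbsoluteValue.abs)
    (x := 1 + l1 A + l1 b) (by
      intro i j
      change |(Pm e A).updateCol l b i j| ≤ 1 + l1 A + l1 b
      by_cases hj : j = l
      · subst hj
        rw [updateCol_self]
        have h1 := l1_nonneg A
        have h2 := abs_le_l1 b i
        linarith
      · rw [updateCol_ne hj]
        exact abs_entry_le e A b i j)
  simpa [nsmul_eq_mul] using h3

theorem log_factorial_le (m : ℕ) : Real.log (m.factorial : ℝ) ≤ (m : ℝ) ^ 2 := by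
  rcases Nat.eq_zero_or_pos m with rfl | hm
  · simp
  have hm' : (0 : ℝ) < m := Nat.cast_pos.2 hm
  have h1 : (m.factorial : ℝ) ≤ (m : ℝ) ^ m := by exact_mod_cast Nat.factorial_le_pow m
  have h2 : (0 : ℝ) < m.factorial := Nat.cast_pos.2 (Nat.factorial_pos m)
  calc Real.log (m.factorial : ℝ) ≤ Real.log ((m : ℝ) ^ m) := Real.log_le_log h2 h1
    _ = m * Real.log m := Real.log_pow _ _
    _ ≤ m * m := by
        refine mul_le_mul_of_nonneg_left ?_ hm'.le
        have := Real.log_le_sub_one_of_pos hm'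
        linarith
    _ = (m : ℝ) ^ 2 := by ring

/-- The term of the level bound given by one basis. -/
noncomputable def tm (e : Fin m ⊕ Fin n ≃ Fin n ⊕ Fin m) (L : ℝ) (A : Fin m × Fin n → ℝ) : ℝ :=
  2 * Real.exp (-(L / 2)) * (1 + (Real.sqrt |(Pm e A).det|)⁻¹)

/-- The level bound. -/
noncomputable def Bd (𝓔 : Finset (Fin m ⊕ Fin n ≃ Fin n ⊕ Fin m)) (L : ℝ)
    (A : Fin m × Fin n → ℝ) (b : Fin m → ℝ) : ℝ :=
  (1 + (m : ℝ) ^ 2 + m * (1 + l1 A + l1 b) + L) + ∑ e ∈ 𝓔, tm e L A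

theorem tm_nonneg (e : Fin m ⊕ Fin n ≃ Fin n ⊕ Fin m) (L : ℝ) (A : Fin m × Fin n → ℝ) :
    0 ≤ tm e L A := by
  unfold tm
  positivity

theorem log_le_tm (L : ℝ) {δ : ℝ} (hδ : 0 < δ) :
    Real.log (1 + 1 / δ) ≤ L + 2 * Real.exp (-(L / 2)) * (1 + (Real.sqrt δ)⁻¹) := by
  set x := Real.log (1 + 1 / δ) with hx
  have hpos : 0 < 1 + 1 / δ := by positivity
  have h1 : x - L ≤ 2 * Real.exp ((x - L) / 2) := by
    have := Real.add_one_le_exp ((x - L) / 2)
    linarith
  have h2 : Real.exp ((x - L) / 2) = Real.exp (-(L / 2)) * Real.sqrt (1 + 1 / δ) := by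
    have : Real.exp (x / 2) = Real.sqrt (1 + 1 / δ) := by
      rw [Real.exp_half, hx, Real.exp_log hpos]
    rw [← this, ← Real.exp_add]
    congr 1
    ring
  have h3 : Real.sqrt (1 + 1 / δ) ≤ 1 + (Real.sqrt δ)⁻¹ := by
    rw [Real.sqrt_le_left (by positivity)]
    have h4 : ((Real.sqrt δ)⁻¹) ^ 2 = 1 / δ := by
      rw [inv_pow, Real.sq_sqrt hδ.le, one_div]
    have h5 : 0 ≤ (Real.sqrt δ)⁻¹ := by positivity
    nlinarith
  rw [h2] at h1
  have h6 : 2 * (Real.exp (-(L / 2)) * Real.sqrt (1 + 1 / δ))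
      ≤ 2 * Real.exp (-(L / 2)) * (1 + (Real.sqrt δ)⁻¹) := by
    rw [← mul_assoc]
    exact mul_le_mul_of_nonneg_left h3 (by positivity)
  linarith

theorem level_le_Bd {𝓔 : Finset (Fin m ⊕ Fin n ≃ Fin n ⊕ Fin m)} (L : ℝ)
    {e : Fin m ⊕ Fin n ≃ Fin n ⊕ Fin m} (he : e ∈ 𝓔) {A : Fin m × Fin n → ℝ}
    (hP : (Pm e A).det ≠ 0) {z : Fin m → ℝ} :
    1 + Real.log (1 + xn e z) ≤ Bd 𝓔 L A (Pm e A *ᵥ z) := by
  set Z := 1 + l1 A + l1 (Pm e A *ᵥ z) with hZ
  have hZ1 : 1 ≤ Z := by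
    have h1 := l1_nonneg A
    have h2 := l1_nonneg (Pm e A *ᵥ z)
    linarith
  set δ := |(Pm e A).det| with hδ
  have hδ0 : 0 < δ := abs_pos.2 hP
  set K := (m.factorial : ℝ) * Z ^ m with hK
  have hK1 : 1 ≤ K := by
    have h1 : (1 : ℝ) ≤ m.factorial := by exact_mod_cast Nat.factorial_pos m
    have h2 : 1 ≤ Z ^ m := one_le_pow₀ hZ1
    nlinarith
  have h1 : xn e z ≤ K / δ := by
    unfold xn
    rw [pi_norm_le_iff_of_nonneg (by positivity)]
    intro j
    obtain ⟨l | i, hl⟩ := e.surjective (Sum.inl j)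
    · rw [← hl, fullB_inl]
      exact basic_le e hP z l
    · rw [← hl, fullB_inr]
      simp only [norm_zero]
      positivity
  have h2 : 1 + xn e z ≤ K * (1 + 1 / δ) := by
    have : K / δ = K * (1 / δ) := by ring
    rw [this] at h1
    linarith
  have hx0 := xn_nonneg e z
  have h3 : Real.log (1 + xn e z) ≤ Real.log K + Real.log (1 + 1 / δ) := by
    rw [← Real.log_mul (by positivity) (by positivity)]
    exact Real.log_le_log (by linarith) h2
  have h4 : Real.log K ≤ (m : ℝ) ^ 2 + m * Z := by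
    rw [hK, Real.log_mul (by positivity) (by positivity), Real.log_pow]
    have h5 := log_factorial_le m
    have h6 := Real.log_le_sub_one_of_pos (show 0 < Z by linarith)
    have h7 : (m : ℝ) * Real.log Z ≤ m * Z :=
      mul_le_mul_of_nonneg_left (by linarith) (Nat.cast_nonneg m)
    linarith
  have h5 := log_le_tm L hδ0
  have h6 : L + tm e L A ≤ L + ∑ e ∈ 𝓔, tm e L A := by
    have := Finset.single_le_sum (f := fun e => tm e L A) (fun e _ => tm_nonneg e L A) he
    linarith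
  have h7 : L + tm e L A = L + 2 * Real.exp (-(L / 2)) * (1 + (Real.sqrt δ)⁻¹) := rfl
  unfold Bd
  rw [← hZ]
  linarith

theorem ofReal_inv_sqrt_le (x : ℝ) : ENNReal.ofReal (Real.sqrt |x|)⁻¹ ≤ dd x := by
  unfold dd
  by_cases h : x = 0
  · subst h
    simp
  · rw [ENNReal.ofReal_inv_of_pos (Real.sqrt_pos.2 (abs_pos.2 h))]

/-- The level parameter. -/
noncomputable def L0 (m n : ℕ) (κ : ℝ) : ℝ := 2 * (m + n + 2) + 64 * m * κ

theorem card_fam {𝓔 : Finset (Fin m ⊕ Fin n ≃ Fin n ⊕ Fin m)} (hinj : InjFam 𝓔) :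
    𝓔.card ≤ 2 ^ (n + m) := by
  classical
  have h1 : 𝓔.card ≤ (Finset.univ : Finset (Finset (Fin n ⊕ Fin m))).card := by
    apply Finset.card_le_card_of_injOn
      (fun e => Finset.univ.image fun l => e (Sum.inl l)) (fun e _ => Finset.mem_univ _)
    intro e he e' he' hee
    apply hinj e he e' he'
    intro l
    have : e (Sum.inl l) ∈ Finset.univ.image fun l => e' (Sum.inl l) := by
      simp only at hee
      rw [← hee]
      exact Finset.mem_image_of_mem _ (Finset.mem_univ l)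
    obtain ⟨l', -, hl'⟩ := Finset.mem_image.1 this
    exact ⟨l', hl'.symm⟩
  refine h1.trans (le_of_eq ?_)
  rw [Finset.card_univ, Fintype.card_finset, Fintype.card_sum, Fintype.card_fin, Fintype.card_fin]

theorem numeric_tail {κ : ℝ} (hκ : 1 ≤ κ) (m n : ℕ) :
    (2 : ℝ) ^ (n + m) * (2 * Real.exp (-(L0 m n κ / 2)) *
      (1 + (16 * Real.sqrt (2 * κ)) ^ m)) ≤ 1 := by
  have hκ0 : 0 < κ := by linarith
  have h1 : 16 * Real.sqrt (2 * κ) ≤ Real.exp (32 * κ) := by
    have h2 : Real.sqrt (2 * κ) ≤ 2 * κ := by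
      rw [Real.sqrt_le_left (by positivity)]
      nlinarith
    have h3 := Real.add_one_le_exp (32 * κ)
    linarith
  have h2 : (16 * Real.sqrt (2 * κ)) ^ m ≤ Real.exp (32 * κ * m) := by
    calc (16 * Real.sqrt (2 * κ)) ^ m ≤ (Real.exp (32 * κ)) ^ m :=
          pow_le_pow_left₀ (by positivity) h1 m
      _ = Real.exp (32 * κ * m) := by
          rw [← Real.exp_nat_mul]
          congr 1
          ring
  have h3 : 1 + (16 * Real.sqrt (2 * κ)) ^ m ≤ 2 * Real.exp (32 * κ * m) := by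
    have : 1 ≤ Real.exp (32 * κ * m) := Real.one_le_exp (by positivity)
    linarith
  have h4 : (2 : ℝ) ^ (n + m + 2) ≤ Real.exp (m + n + 2) := by
    have h5 : (2 : ℝ) ≤ Real.exp 1 := by
      have := Real.add_one_le_exp (1 : ℝ)
      linarith
    calc (2 : ℝ) ^ (n + m + 2) ≤ (Real.exp 1) ^ (n + m + 2) :=
          pow_le_pow_left₀ (by norm_num) h5 _
      _ = Real.exp (m + n + 2) := by
          rw [← Real.exp_nat_mul]
          congr 1
          push_cast
          ring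
  have h5 : Real.exp (-(L0 m n κ / 2)) * (Real.exp (m + n + 2) * Real.exp (32 * κ * m)) = 1 := by
    rw [← Real.exp_add, ← Real.exp_add, L0]
    have : -((2 * ((m : ℝ) + n + 2) + 64 * m * κ) / 2) + (m + n + 2 + 32 * κ * m) = 0 := by ring
    rw [this, Real.exp_zero]
  calc (2 : ℝ) ^ (n + m) * (2 * Real.exp (-(L0 m n κ / 2)) *
      (1 + (16 * Real.sqrt (2 * κ)) ^ m))
      ≤ (2 : ℝ) ^ (n + m) * (2 * Real.exp (-(L0 m n κ / 2)) * (2 * Real.exp (32 * κ * m))) := by
        gcongr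
    _ = Real.exp (-(L0 m n κ / 2)) * ((2 : ℝ) ^ (n + m + 2) * Real.exp (32 * κ * m)) := by
        rw [pow_add _ (n + m) 2]
        ring
    _ ≤ Real.exp (-(L0 m n κ / 2)) * (Real.exp (m + n + 2) * Real.exp (32 * κ * m)) := by
        gcongr
    _ = 1 := h5

/-- `Rr` is log-Lipschitz. -/
theorem Rr_LL {κ : ℝ} (hκ : 0 ≤ κ) (A A' : Fin m × Fin n → ℝ) (c : Fin n → ℝ) :
    Rr κ A' c ≤ Real.exp (κ * l1 (A - A')) * Rr κ A c := by
  have h1 := Rr_le hκ A' A c c
  rw [sub_self, l1_zero, add_zero, l1_sub_comm] at h1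
  have h2 := Rr_ge hκ A c
  have h3 := Real.add_one_le_exp (κ * l1 (A - A'))
  have h4 : 0 ≤ κ * l1 (A - A') := mul_nonneg hκ (l1_nonneg _)
  nlinarith

theorem wall_bound {𝓔 : Finset (Fin m ⊕ Fin n ≃ Fin n ⊕ Fin m)} (hinj : InjFam 𝓔) {κ : ℝ}
    (hκ : 1 ≤ κ) {h : X m n → ℝ≥0∞} (hhm : Measurable h) (hh : LL κ h)
    (hfin : ∫⁻ x, h x ≠ ∞) :
    ∑ p ∈ 𝓔 ×ˢ (Finset.univ : Finset (Fin n)), ∫⁻ y, Fw p.1 p.2 κ h y
      ≤ ENNReal.ofReal (16 * Real.exp 1 * C1 m * n ^ 2 * κ ^ 2 *
          (2 + (m : ℝ) ^ 2 + m + L0 m n κ)) *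
        ∫⁻ x, ENNReal.ofReal (Sx x ^ 2) * h x := by
  classical
  have hκ0 : 0 < κ := by linarith
  set L := L0 m n κ with hL
  have hL0 : 0 ≤ L := by
    rw [hL, L0]
    positivity
  have hC := C1_pos m
  refine (wall_total hinj hκ hhm hh hfin (Bd 𝓔 L)
    (fun e he A hP z _ => level_le_Bd L he hP)).trans ?_
  have hRm : Measurable fun x : X m n => Rr κ x.1 x.2.2 := by
    unfold Rr
    exact (continuous_const.add (continuous_const.mul ((continuous_l1.comp continuous_fst).add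
      (continuous_l1.comp (continuous_snd.comp continuous_snd))))).measurable
  set g : X m n → ℝ≥0∞ := fun x => ENNReal.ofReal (Rr κ x.1 x.2.2) * h x with hg
  have hgm : Measurable g := hRm.ennreal_ofReal.mul hhm
  set Q : (Fin m × Fin n → ℝ) → (Fin m → ℝ) → ℝ :=
    fun A b => 1 + (m : ℝ) ^ 2 + m * (1 + l1 A + l1 b) + L with hQ
  have hQ0 : ∀ A b, 0 ≤ Q A b := by
    intro A b
    have h1 := l1_nonneg A
    have h2 := l1_nonneg b
    simp only [hQ]
    positivity
  have hQm : Measurable fun x : X m n => Q x.1 x.2.1 := by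
    simp only [hQ]
    exact ((continuous_const.add (continuous_const.mul ((continuous_const.add
      (continuous_l1.comp continuous_fst)).add
        (continuous_l1.comp (continuous_fst.comp continuous_snd))))).add
          continuous_const).measurable
  have htm : ∀ e, Measurable fun x : X m n => tm e L x.1 := by
    intro e
    unfold tm
    have h1 := ((continuous_detP e).comp (continuous_fst (X := Fin m × Fin n → ℝ)
      (Y := (Fin m → ℝ) × (Fin n → ℝ)))).measurable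
    exact measurable_const.mul (measurable_const.add (h1.sqrt.inv))
  -- rewrite as an integral over the product
  have e1 : ∫⁻ A, ∫⁻ b, ∫⁻ c, ENNReal.ofReal (Bd 𝓔 L A b) *
      (ENNReal.ofReal (Rr κ A c) * h (A, b, c))
      = ∫⁻ x : X m n, ENNReal.ofReal (Bd 𝓔 L x.1 x.2.1) * g x := by
    rw [lintegral_X]
    refine Measurable.mul ?_ hgm
    refine Measurable.ennreal_ofReal ?_
    unfold Bd
    exact hQm.add (Finset.measurable_fun_sum _ fun e _ => htm e)
  rw [e1]
  have e2 : ∀ x : X m n, ENNReal.ofReal (Bd 𝓔 L x.1 x.2.1) * g x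
      = ENNReal.ofReal (Q x.1 x.2.1) * g x + ∑ e ∈ 𝓔, ENNReal.ofReal (tm e L x.1) * g x := by
    intro x
    unfold Bd
    rw [ENNReal.ofReal_add (hQ0 x.1 x.2.1) (Finset.sum_nonneg fun e _ => tm_nonneg e L x.1),
      ENNReal.ofReal_sum_of_nonneg (fun e _ => tm_nonneg e L x.1), add_mul, Finset.sum_mul]
  have m1 : Measurable fun x : X m n => ENNReal.ofReal (Q x.1 x.2.1) * g x :=
    hQm.ennreal_ofReal.mul hgm
  have m2 : ∀ e ∈ 𝓔, Measurable fun x : X m n => ENNReal.ofReal (tm e L x.1) * g x :=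
    fun e _ => (htm e).ennreal_ofReal.mul hgm
  simp only [e2]
  rw [lintegral_add_left m1, lintegral_finsetSum _ m2]
  -- each basis
  have e3 : ∀ e ∈ 𝓔, ∫⁻ x : X m n, ENNReal.ofReal (tm e L x.1) * g x
      ≤ ENNReal.ofReal (2 * Real.exp (-(L / 2)) * (1 + (16 * Real.sqrt (2 * κ)) ^ m)) *
        ∫⁻ x, g x := by
    intro e _
    have h1 : ∀ x : X m n, ENNReal.ofReal (tm e L x.1) * g x
        ≤ ENNReal.ofReal (2 * Real.exp (-(L / 2))) * (g x + g x * dd (Pm e x.1).det) := by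
      intro x
      unfold tm
      rw [ENNReal.ofReal_mul (by positivity), mul_assoc]
      refine mul_le_mul' le_rfl ?_
      rw [ENNReal.ofReal_add zero_le_one (by positivity), ENNReal.ofReal_one, add_mul, one_mul,
        mul_comm (ENNReal.ofReal _) (g x)]
      exact add_le_add le_rfl (mul_le_mul' le_rfl (ofReal_inv_sqrt_le _))
    have hddm : Measurable fun x : X m n => g x * dd (Pm e x.1).det :=
      hgm.mul (measurable_dd.comp ((continuous_Pm e).comp continuous_fst).matrix_det.measurable)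
    have h2 : ∫⁻ x : X m n, g x * dd (Pm e x.1).det
        ≤ ENNReal.ofReal ((16 * Real.sqrt (2 * κ)) ^ m) * ∫⁻ x, g x := by
      rw [Measure.volume_eq_prod, lintegral_prod_symm _ hddm.aemeasurable,
        lintegral_prod_symm _ hgm.aemeasurable, ← lintegral_const_mul' _ _ ENNReal.ofReal_ne_top]
      refine lintegral_mono fun bc => ?_
      refine lintegral_dd_det e (κ := 2 * κ) (by linarith)
        (g := fun A => g (A, bc)) (hgm.comp measurable_prodMk_right) ?_
      intro A A'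
      simp only [hg]
      have h3 := hh (A, bc) (A', bc)
      have h4 : dist1 (A, bc) (A', bc) = l1 (A - A') := by
        simp [dist1, l1_zero]
      rw [h4] at h3
      have h5 := Rr_LL hκ0.le A A' bc.2
      calc ENNReal.ofReal (Rr κ A' bc.2) * h (A', bc)
          ≤ ENNReal.ofReal (Real.exp (κ * l1 (A - A')) * Rr κ A bc.2) *
            (ENNReal.ofReal (Real.exp (κ * l1 (A - A'))) * h (A, bc)) :=
            mul_le_mul' (ENNReal.ofReal_le_ofReal h5) h3
        _ = ENNReal.ofReal (Real.exp (2 * κ * l1 (A - A'))) *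
            (ENNReal.ofReal (Rr κ A bc.2) * h (A, bc)) := by
            have h6 : Real.exp (2 * κ * l1 (A - A'))
                = Real.exp (κ * l1 (A - A')) * Real.exp (κ * l1 (A - A')) := by
              rw [← Real.exp_add]
              congr 1
              ring
            rw [ENNReal.ofReal_mul (Real.exp_pos _).le, h6, ENNReal.ofReal_mul (Real.exp_pos _).le]
            ring
    calc ∫⁻ x : X m n, ENNReal.ofReal (tm e L x.1) * g x
        ≤ ∫⁻ x : X m n, ENNReal.ofReal (2 * Real.exp (-(L / 2))) *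
          (g x + g x * dd (Pm e x.1).det) := lintegral_mono h1
      _ = ENNReal.ofReal (2 * Real.exp (-(L / 2))) *
          ((∫⁻ x, g x) + ∫⁻ x : X m n, g x * dd (Pm e x.1).det) := by
          rw [lintegral_const_mul _ (by exact hgm.add hddm), lintegral_add_left hgm]
      _ ≤ ENNReal.ofReal (2 * Real.exp (-(L / 2))) *
          ((∫⁻ x, g x) + ENNReal.ofReal ((16 * Real.sqrt (2 * κ)) ^ m) * ∫⁻ x, g x) :=
          mul_le_mul' le_rfl (add_le_add le_rfl h2)
      _ = _ := by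
          rw [ENNReal.ofReal_mul (p := 2 * Real.exp (-(L / 2))) (by positivity),
            ENNReal.ofReal_add zero_le_one (by positivity), ENNReal.ofReal_one]
          ring
  have e4 : ∑ e ∈ 𝓔, ∫⁻ x : X m n, ENNReal.ofReal (tm e L x.1) * g x ≤ ∫⁻ x, g x := by
    refine (Finset.sum_le_sum e3).trans ?_
    rw [Finset.sum_const, nsmul_eq_mul, ← mul_assoc]
    have h1 : ((𝓔.card : ℕ) : ℝ≥0∞) *
        ENNReal.ofReal (2 * Real.exp (-(L / 2)) * (1 + (16 * Real.sqrt (2 * κ)) ^ m)) ≤ 1 := by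
      rw [← ENNReal.ofReal_natCast, ← ENNReal.ofReal_mul (Nat.cast_nonneg _),
        ← ENNReal.ofReal_one]
      apply ENNReal.ofReal_le_ofReal
      refine le_trans ?_ (numeric_tail hκ m n)
      refine mul_le_mul_of_nonneg_right ?_ (by positivity)
      exact_mod_cast card_fam hinj
    calc _ ≤ 1 * ∫⁻ x, g x := mul_le_mul' h1 le_rfl
      _ = _ := one_mul _
  have e5 : (∫⁻ x : X m n, ENNReal.ofReal (Q x.1 x.2.1) * g x) + ∫⁻ x, g x
      ≤ ENNReal.ofReal (κ * (2 + (m : ℝ) ^ 2 + m + L)) *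
        ∫⁻ x, ENNReal.ofReal (Sx x ^ 2) * h x := by
    rw [← lintegral_add_left m1,
      ← lintegral_const_mul' _ _ ENNReal.ofReal_ne_top]
    refine lintegral_mono fun x => ?_
    simp only [hg]
    have h1 := l1_nonneg x.1
    have h2 := l1_nonneg x.2.1
    have h3 := l1_nonneg x.2.2
    have hS := Sx_ge x
    have hR0 : 0 ≤ Rr κ x.1 x.2.2 := by
      have := Rr_ge hκ0.le x.1 x.2.2
      linarith
    have hR : Rr κ x.1 x.2.2 ≤ κ * Sx x := by
      unfold Rr Sx
      nlinarith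
    have hQS : Q x.1 x.2.1 + 1 ≤ (2 + (m : ℝ) ^ 2 + m + L) * Sx x := by
      have hm : (0 : ℝ) ≤ m := Nat.cast_nonneg m
      have h4 : Q x.1 x.2.1 + 1 ≤ 2 + (m : ℝ) ^ 2 + m * Sx x + L := by
        simp only [hQ, Sx]
        nlinarith
      nlinarith [mul_nonneg (show (0 : ℝ) ≤ 2 + (m : ℝ) ^ 2 + L by positivity)
        (show (0 : ℝ) ≤ Sx x - 1 by linarith)]
    calc ENNReal.ofReal (Q x.1 x.2.1) * (ENNReal.ofReal (Rr κ x.1 x.2.2) * h x)
        + ENNReal.ofReal (Rr κ x.1 x.2.2) * h x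
        = ENNReal.ofReal ((Q x.1 x.2.1 + 1) * Rr κ x.1 x.2.2) * h x := by
          rw [ENNReal.ofReal_mul (by linarith [hQ0 x.1 x.2.1]),
            ENNReal.ofReal_add (hQ0 _ _) zero_le_one, ENNReal.ofReal_one]
          ring
      _ ≤ ENNReal.ofReal (κ * (2 + (m : ℝ) ^ 2 + m + L) * Sx x ^ 2) * h x := by
          refine mul_le_mul' (ENNReal.ofReal_le_ofReal ?_) le_rfl
          calc (Q x.1 x.2.1 + 1) * Rr κ x.1 x.2.2
              ≤ ((2 + (m : ℝ) ^ 2 + m + L) * Sx x) * (κ * Sx x) :=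
                mul_le_mul hQS hR hR0 (by positivity)
            _ = _ := by ring
      _ = _ := by
          rw [ENNReal.ofReal_mul (by positivity)]
          ring
  calc ENNReal.ofReal (16 * Real.exp 1 * C1 m * n ^ 2 * κ) *
      ((∫⁻ x : X m n, ENNReal.ofReal (Q x.1 x.2.1) * g x) +
        ∑ e ∈ 𝓔, ∫⁻ x : X m n, ENNReal.ofReal (tm e L x.1) * g x)
      ≤ ENNReal.ofReal (16 * Real.exp 1 * C1 m * n ^ 2 * κ) *
        (ENNReal.ofReal (κ * (2 + (m : ℝ) ^ 2 + m + L)) *
          ∫⁻ x, ENNReal.ofReal (Sx x ^ 2) * h x) :=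
        mul_le_mul' le_rfl ((add_le_add le_rfl e4).trans e5)
    _ = _ := by
        rw [← mul_assoc, ← ENNReal.ofReal_mul (by positivity)]
        congr 2
        ring

end Pool.Agent.Lib.MP_84734f_lc
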