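import Pool.Agent.Lib.MP_84734f_lc.Flow

/-!
# Change of variables on a wall; the wall measure is at most twice its part far from the strata
-/

set_option autoImplicit false

namespace Pool.Agent.Lib.MP_84734f_lc

open Matrix Finset MeasureTheory
open scoped ENNReal

variable {m n : ℕ}

theorem lintegral_X {h : X m n → ℝ≥0∞} (hh : Measurable h) :
    ∫⁻ x, h x = ∫⁻ A, ∫⁻ b, ∫⁻ c, h (A, b, c) := by
  rw [Measure.volume_eq_prod, lintegral_prod _ hh.aemeasurable]
  refine lintegral_congr fun A => ?_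
  have h2 : Measurable fun p : (Fin m → ℝ) × (Fin n → ℝ) => h (A, p) :=
    hh.comp measurable_prodMk_left
  rw [Measure.volume_eq_prod, lintegral_prod _ h2.aemeasurable]

theorem Wt_nonneg (e : Fin m ⊕ Fin n ≃ Fin n ⊕ Fin m) (k j : Fin n) (A : Fin m × Fin n → ℝ) :
    0 ≤ Wt e k j A := abs_nonneg _

section

variable (e : Fin m ⊕ Fin n ≃ Fin n ⊕ Fin m) (k : Fin n) {κ : ℝ}

theorem lintegral_wall_le (j : Fin n) {G : X m n → ℝ≥0∞} (hG : Measurable G)
    (g : (Fin m × Fin n → ℝ) → (Fin m → ℝ) → (Fin n → ℝ) → ℝ≥0∞)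
    (hle : ∀ y, G y ≤ ENNReal.ofReal (|(Pm e y.1).det| * Wt e k j y.1) *
      g y.1 (Pm e y.1 *ᵥ y.2.1) ((Qm e y.1).updateCol k (Pi.single j 1) *ᵥ y.2.2)) :
    ∫⁻ y, G y ≤ ∫⁻ A, ∫⁻ b, ∫⁻ c, g A b c := by
  rw [lintegral_X hG]
  refine lintegral_mono fun A => ?_
  have h2 : ∀ z ζ, G (A, z, ζ) ≤ ENNReal.ofReal |(Pm e A).det| * (ENNReal.ofReal (Wt e k j A) *
      g A (Pm e A *ᵥ z) ((Qm e A).updateCol k (Pi.single j 1) *ᵥ ζ)) := by
    intro z ζ
    have := hle (A, z, ζ)
    rwa [ENNReal.ofReal_mul (abs_nonneg _), mul_assoc] at this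
  by_cases hP : (Pm e A).det = 0
  · have h3 : ∀ z ζ, G (A, z, ζ) = 0 := by
      intro z ζ
      have := h2 z ζ
      rw [hP] at this
      simpa using this
    simp [h3]
  by_cases hM : ((Qm e A).updateCol k (Pi.single j 1)).det = 0
  · have h3 : ∀ z ζ, G (A, z, ζ) = 0 := by
      intro z ζ
      have := h2 z ζ
      rw [Wt, hM] at this
      simpa using this
    simp [h3]
  calc ∫⁻ z, ∫⁻ ζ, G (A, z, ζ)
      ≤ ∫⁻ z, ∫⁻ ζ, ENNReal.ofReal |(Pm e A).det| * (ENNReal.ofReal (Wt e k j A) *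
      g A (Pm e A *ᵥ z) ((Qm e A).updateCol k (Pi.single j 1) *ᵥ ζ)) :=
        lintegral_mono fun z => lintegral_mono fun ζ => h2 z ζ
    _ = ∫⁻ z, ENNReal.ofReal |(Pm e A).det| * ∫⁻ c, g A (Pm e A *ᵥ z) c := by
        refine lintegral_congr fun z => ?_
        rw [lintegral_const_mul' _ _ ENNReal.ofReal_ne_top,
          lintegral_const_mul' _ _ ENNReal.ofReal_ne_top]
        congr 1
        exact lintegral_mulVec hM _
    _ = ∫⁻ b, ∫⁻ c, g A b c := by
        rw [lintegral_const_mul' _ _ ENNReal.ofReal_ne_top]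
        exact lintegral_mulVec hP (fun b => ∫⁻ c, g A b c)

/-- Compare a density on a wall with the density nearby. -/
theorem pt_le (hκ : 0 < κ) {h : X m n → ℝ≥0∞} (hh : LL κ h) (j : Fin n) {y : X m n}
    (hy : y ∈ Dom m k κ) :
    h (pt e k y) ≤ ENNReal.ofReal (Real.exp 1) *
      h (y.1, Pm e y.1 *ᵥ y.2.1, (Qm e y.1).updateCol k (Pi.single j 1) *ᵥ y.2.2) := by
  refine (hh (y.1, Pm e y.1 *ᵥ y.2.1, (Qm e y.1).updateCol k (Pi.single j 1) *ᵥ y.2.2)
    (pt e k y)).trans (mul_le_mul' (ENNReal.ofReal_le_ofReal ?_) le_rfl)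
  apply Real.exp_le_exp.2
  have h1 : dist1 (y.1, Pm e y.1 *ᵥ y.2.1, (Qm e y.1).updateCol k (Pi.single j 1) *ᵥ y.2.2)
      (pt e k y) = |y.2.2 k| := by
    simp only [dist1, pt, cw, sub_self, l1_zero, zero_add]
    rw [updateCol_mulVec, add_sub_cancel_left, l1_smul, l1_single, abs_one, mul_one]
  rw [h1, abs_of_nonneg hy.2.2.1]
  have := mul_le_mul_of_nonneg_left hy.2.2.2 hκ.le
  rwa [mul_one_div_cancel hκ.ne'] at this

theorem lintegral_Fw_ne_top (hκ : 0 < κ) {h : X m n → ℝ≥0∞} (hhm : Measurable h)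
    (hh : LL κ h) (hfin : ∫⁻ x, h x ≠ ∞) : ∫⁻ y, Fw e k κ h y ≠ ∞ := by
  set G : Fin n → X m n → ℝ≥0∞ := fun j => (Dom m k κ).indicator fun y =>
    ENNReal.ofReal (κ * |(Pm e y.1).det| * Wt e k j y.1) * h (pt e k y) with hG
  have hGm : ∀ j, Measurable (G j) := by
    intro j
    refine Measurable.indicator ?_ (measurableSet_Dom k κ)
    refine Measurable.mul ?_ (hhm.comp (continuous_pt e k).measurable)
    exact ((continuous_const.mul ((continuous_detP e).comp continuous_fst)).mul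
      ((continuous_Wt e k j).comp continuous_fst)).measurable.ennreal_ofReal
  have h1 : ∀ y, Fw e k κ h y = ∑ j, G j y := by
    intro y
    simp only [Fw, hG]
    by_cases hy : y ∈ Dom m k κ
    · simp only [Set.indicator_of_mem hy]
      rw [← Finset.sum_mul, ← ENNReal.ofReal_sum_of_nonneg, Finset.mul_sum]
      intro j _
      exact mul_nonneg (mul_nonneg hκ.le (abs_nonneg _)) (abs_nonneg _)
    · simp [Set.indicator_of_notMem hy]
  simp only [h1]
  rw [lintegral_finsetSum _ fun j _ => hGm j]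
  refine ENNReal.sum_ne_top.2 fun j _ => ?_
  have h2 : ∫⁻ y, G j y ≤ ∫⁻ A, ∫⁻ b, ∫⁻ c, ENNReal.ofReal (κ * Real.exp 1) * h (A, b, c) := by
    refine lintegral_wall_le e k j (hGm j)
      (fun A b c => ENNReal.ofReal (κ * Real.exp 1) * h (A, b, c)) fun y => ?_
    by_cases hy : y ∈ Dom m k κ
    · simp only [hG, Set.indicator_of_mem hy]
      have h3 := pt_le e k hκ hh j hy
      calc ENNReal.ofReal (κ * |(Pm e y.1).det| * Wt e k j y.1) * h (pt e k y)
          ≤ ENNReal.ofReal (κ * |(Pm e y.1).det| * Wt e k j y.1) *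
            (ENNReal.ofReal (Real.exp 1) * h (y.1, Pm e y.1 *ᵥ y.2.1,
              (Qm e y.1).updateCol k (Pi.single j 1) *ᵥ y.2.2)) := mul_le_mul' le_rfl h3
        _ = _ := by
            rw [← mul_assoc, ← mul_assoc, ← ENNReal.ofReal_mul
              (mul_nonneg (mul_nonneg hκ.le (abs_nonneg _)) (Wt_nonneg _ _ _ _)),
              ← ENNReal.ofReal_mul (mul_nonneg (abs_nonneg _) (Wt_nonneg _ _ _ _))]
            congr 2
            ring
    · simp only [hG, Set.indicator_of_notMem hy]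
      exact bot_le
  have h4 : ∫⁻ A, ∫⁻ b, ∫⁻ c, ENNReal.ofReal (κ * Real.exp 1) * h (A, b, c)
      = ENNReal.ofReal (κ * Real.exp 1) * ∫⁻ x, h x := by
    rw [lintegral_X hhm]
    simp only [lintegral_const_mul' _ _ ENNReal.ofReal_ne_top]
  rw [h4] at h2
  exact ne_top_of_le_ne_top (ENNReal.mul_ne_top ENNReal.ofReal_ne_top hfin) h2

/-- The largest primal variable. -/
noncomputable def xn (z : Fin m → ℝ) : ℝ := ‖fun j : Fin n => fullB e z (Sum.inl j)‖

theorem xn_nonneg (z : Fin m → ℝ) : 0 ≤ xn e z := norm_nonneg _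

theorem continuous_fullB (i : Fin n ⊕ Fin m) : Continuous fun z : Fin m → ℝ => fullB e z i := by
  unfold fullB
  rcases e.symm i with l | r
  · simpa using continuous_apply l
  · simpa using continuous_const

theorem continuous_xn : Continuous (xn e) := by
  unfold xn
  refine Continuous.norm ?_
  exact continuous_pi fun j => continuous_fullB e (Sum.inl j)

/-- The scale of edge lengths. -/
noncomputable def eps (κ : ℝ) (y : X m n) : ℝ := 1 / (C1 m * Rr κ y.1 (cw e k y))

/-- Points of the wall far from the lower-dimensional strata. -/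
def Large (κ : ℝ) : Set (X m n) :=
  {y | ∀ l, eps e k κ y * (1 + xn e y.2.1) * tau e l y.1 ≤ y.2.1 l}

theorem eps_pos (hκ : 0 ≤ κ) (y : X m n) : 0 < eps e k κ y := by
  have h1 := C1_pos m
  have h2 := Rr_ge hκ y.1 (cw e k y)
  unfold eps
  positivity

theorem eps_le (hκ : 0 ≤ κ) (y : X m n) : eps e k κ y ≤ 1 / 128 := by
  have h1 := C1_ge m
  have h2 := Rr_ge hκ y.1 (cw e k y)
  unfold eps
  apply one_div_le_one_div_of_le (by norm_num)
  nlinarith

theorem measurable_eps : Measurable (eps e k κ : X m n → ℝ) := by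
  unfold eps
  have := (continuous_Rr e k κ).measurable
  fun_prop

theorem measurableSet_Large : MeasurableSet (Large e k κ : Set (X m n)) := by
  unfold Large
  rw [Set.ofPred_forall]
  refine MeasurableSet.iInter fun l => ?_
  have h1 := measurable_eps e k (κ := κ)
  have h2 : Measurable fun y : X m n => xn e y.2.1 :=
    ((continuous_xn e).comp (continuous_fst.comp continuous_snd)).measurable
  have h3 : Measurable fun y : X m n => tau e l y.1 :=
    ((continuous_tau e l).comp continuous_fst).measurable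
  exact measurableSet_le (by fun_prop) (by fun_prop)

/-- The pieces covering the small points. -/
def Tp (κ : ℝ) (p : Fin m × Option (Fin m)) : Set (X m n) :=
  match p.2 with
  | none => Sa e k p.1 κ
  | some ks => {y | y ∈ Sb e k p.1 κ ks ∧ p.1 ≠ ks ∧ ∃ js, e (Sum.inl ks) = Sum.inl js}

theorem small_cover (hκ : 1 ≤ κ) {y : X m n} (hD : y ∈ Dom m k κ) (hL : y ∉ Large e k κ) :
    ∃ p, y ∈ Tp e k κ p := by
  simp only [Large, Set.mem_ofPred_eq, not_forall, not_le] at hL
  obtain ⟨l, hl⟩ := hL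
  have hb := bet_ge e k l hκ y
  have hC := C1_pos m
  have hC' := C1_ge m
  have hR := Rr_ge (by linarith : (0 : ℝ) ≤ κ) y.1 (cw e k y)
  have ht := tau_bet_le e k l hκ y
  have ht0 := tau_nonneg e l y.1
  have hx0 := xn_nonneg e y.2.1
  have h1 : eps e k κ y * tau e l y.1 ≤ 1 / (C1 m * bet e k κ l y) := by
    unfold eps
    rw [one_div_mul_eq_div, div_le_div_iff₀ (by positivity) (by positivity)]
    nlinarith
  have h2 : y.2.1 l < (1 + xn e y.2.1) * (1 / (C1 m * bet e k κ l y)) := by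
    refine hl.trans_le ?_
    calc eps e k κ y * (1 + xn e y.2.1) * tau e l y.1
        = (1 + xn e y.2.1) * (eps e k κ y * tau e l y.1) := by ring
      _ ≤ _ := mul_le_mul_of_nonneg_left h1 (by linarith)
  have h3 : 0 < 1 / (C1 m * bet e k κ l y) := by positivity
  by_cases hx : xn e y.2.1 ≤ 1
  · refine ⟨(l, none), hD, ?_⟩
    refine h2.trans_le ?_
    have : (2 : ℝ) / (C1 m * bet e k κ l y) = 2 * (1 / (C1 m * bet e k κ l y)) := by ring
    simp only [this]
    exact mul_le_mul_of_nonneg_right (by linarith) h3.le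
  · rw [not_le] at hx
    obtain ⟨js, hjs⟩ : ∃ js : Fin n, |fullB e y.2.1 (Sum.inl js)| = xn e y.2.1 := by
      have hne : (Finset.univ : Finset (Fin n)).Nonempty := ⟨k, Finset.mem_univ k⟩
      obtain ⟨js, -, hjs⟩ := Finset.exists_max_image Finset.univ
        (fun j : Fin n => |fullB e y.2.1 (Sum.inl j)|) hne
      refine ⟨js, le_antisymm ?_ ?_⟩
      · exact norm_le_pi_norm (fun j : Fin n => fullB e y.2.1 (Sum.inl j)) js
      · exact (pi_norm_le_iff_of_nonneg (abs_nonneg _)).2 fun j => hjs j (Finset.mem_univ j)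
    obtain ⟨ks | r, hks⟩ := e.surjective (Sum.inl js)
    · rw [← hks, fullB_inl, abs_of_pos (hD.1 ks)] at hjs
      have hne : l ≠ ks := by
        rintro rfl
        rw [hjs] at h2
        have h4 : 1 / (C1 m * bet e k κ l y) ≤ 1 / 128 := by
          apply one_div_le_one_div_of_le (by norm_num)
          nlinarith
        nlinarith
      refine ⟨(l, some ks), ⟨hD, ?_⟩, hne, js, hks⟩
      have hzk := hD.1 ks
      rw [div_lt_iff₀ hzk, hjs]
      refine h2.trans_le ?_
      have : (2 : ℝ) / (C1 m * bet e k κ l y) * xn e y.2.1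
          = (2 * xn e y.2.1) * (1 / (C1 m * bet e k κ l y)) := by ring
      rw [this]
      exact mul_le_mul_of_nonneg_right (by linarith) h3.le
    · exfalso
      rw [← hks, fullB_inr, abs_zero] at hjs
      linarith

theorem lintegral_Tp_le (hκ : 1 ≤ κ) {h : X m n → ℝ≥0∞} (hhm : Measurable h) (hh : LL κ h)
    (p : Fin m × Option (Fin m)) :
    ∫⁻ y in Tp e k κ p, Fw e k κ h y ≤ ENNReal.ofReal (16 * 4 / C1 m) * ∫⁻ y, Fw e k κ h y := by
  obtain ⟨l, _ | ks⟩ := p
  · exact flow_a e k l hκ hhm hh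
  · by_cases hc : l ≠ ks ∧ ∃ js, e (Sum.inl ks) = Sum.inl js
    · obtain ⟨hne, js, hks⟩ := hc
      refine le_trans (lintegral_mono_set ?_) (flow_b e k l hκ hhm hh hks hne)
      intro y hy
      exact hy.1
    · have : Tp e k κ (l, some ks) = ∅ := by
        ext y
        simp only [Tp, Set.mem_ofPred_eq, Set.mem_empty_iff_false, iff_false]
        rintro ⟨-, h⟩
        exact hc h
      rw [this]
      simp

theorem small_part (hκ : 1 ≤ κ) {h : X m n → ℝ≥0∞} (hhm : Measurable h) (hh : LL κ h) :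
    ∫⁻ y in (Large e k κ)ᶜ, Fw e k κ h y ≤ ENNReal.ofReal (1 / 2) * ∫⁻ y, Fw e k κ h y := by
  have h1 : ∫⁻ y in (Large e k κ)ᶜ, Fw e k κ h y
      ≤ ∫⁻ y in ⋃ p, Tp e k κ p, Fw e k κ h y := by
    have h2 : ∫⁻ y in (Large e k κ)ᶜ, Fw e k κ h y
        = ∫⁻ y in (Large e k κ)ᶜ ∩ Dom m k κ, Fw e k κ h y := by
      have h3 : (fun y => Fw e k κ h y) = (Dom m k κ).indicator (Fw e k κ h) := by
        funext y
        unfold Fw
        rw [Set.indicator_indicator, Set.inter_self]
      rw [h3, setLIntegral_indicator (measurableSet_Dom k κ), Set.inter_comm]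
      refine setLIntegral_congr_fun ?_ ?_
      · exact ((measurableSet_Large e k).compl).inter (measurableSet_Dom k κ)
      · intro y hy
        rw [Set.indicator_of_mem hy.2]
    rw [h2]
    refine lintegral_mono_set ?_
    intro y hy
    exact Set.mem_iUnion.2 (small_cover e k hκ hy.2 hy.1)
  have h4 : ∫⁻ y in ⋃ p, Tp e k κ p, Fw e k κ h y
      ≤ ∑ p : Fin m × Option (Fin m), ∫⁻ y in Tp e k κ p, Fw e k κ h y := by
    refine (lintegral_iUnion_le _ _).trans ?_
    rw [tsum_fintype]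
  refine h1.trans (h4.trans ?_)
  calc ∑ p : Fin m × Option (Fin m), ∫⁻ y in Tp e k κ p, Fw e k κ h y
      ≤ ∑ _p : Fin m × Option (Fin m),
        ENNReal.ofReal (16 * 4 / C1 m) * ∫⁻ y, Fw e k κ h y :=
        Finset.sum_le_sum fun p _ => lintegral_Tp_le e k hκ hhm hh p
    _ = ENNReal.ofReal (m * (m + 1) * (16 * 4 / C1 m)) * ∫⁻ y, Fw e k κ h y := by
        rw [Finset.sum_const, nsmul_eq_mul, ← mul_assoc, Finset.card_univ, Fintype.card_prod,
          Fintype.card_option, Fintype.card_fin, ENNReal.ofReal_mul (by positivity)]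
        congr 2
        rw [show ((m : ℝ) * ((m : ℝ) + 1)) = ((m * (m + 1) : ℕ) : ℝ) by push_cast; ring,
          ENNReal.ofReal_natCast]
    _ ≤ ENNReal.ofReal (1 / 2) * ∫⁻ y, Fw e k κ h y := by
        refine mul_le_mul' (ENNReal.ofReal_le_ofReal ?_) le_rfl
        unfold C1
        rw [mul_div_assoc', div_le_iff₀ (by positivity)]
        have : (0 : ℝ) ≤ m := Nat.cast_nonneg m
        nlinarith

theorem wall_le_large (hκ : 1 ≤ κ) {h : X m n → ℝ≥0∞} (hhm : Measurable h) (hh : LL κ h)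
    (hfin : ∫⁻ x, h x ≠ ∞) :
    ∫⁻ y, Fw e k κ h y ≤ ENNReal.ofReal 2 * ∫⁻ y in Large e k κ, Fw e k κ h y := by
  have h1 := small_part e k hκ hhm hh
  have h2 := lintegral_Fw_ne_top e k (by linarith) hhm hh hfin
  have h3 := lintegral_add_compl (μ := volume) (Fw e k κ h) (measurableSet_Large e k (κ := κ))
  set U := ∫⁻ y, Fw e k κ h y with hU
  set L := ∫⁻ y in Large e k κ, Fw e k κ h y with hLdef
  set S := ∫⁻ y in (Large e k κ)ᶜ, Fw e k κ h y with hS
  have hSt : S ≠ ∞ := ne_top_of_le_ne_top h2 (by rw [← h3]; exact le_add_self)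
  have hLt : L ≠ ∞ := ne_top_of_le_ne_top h2 (by rw [← h3]; exact le_self_add)
  have e1 : S.toReal ≤ 1 / 2 * U.toReal := by
    have := ENNReal.toReal_mono (ENNReal.mul_ne_top ENNReal.ofReal_ne_top h2) h1
    rwa [ENNReal.toReal_mul, ENNReal.toReal_ofReal (by norm_num)] at this
  have e2 : L.toReal + S.toReal = U.toReal := by
    rw [← ENNReal.toReal_add hLt hSt, h3]
  rw [← ENNReal.ofReal_toReal h2, ← ENNReal.ofReal_toReal hLt,
    ← ENNReal.ofReal_mul (by norm_num)]
  apply ENNReal.ofReal_le_ofReal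
  linarith

end

end Pool.Agent.Lib.MP_84734f_lc
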