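import Pool.Agent.Lib.MP_84734f_lc.Total

/-!
# Integrability of the inverse square root of a basis determinant
-/

set_option autoImplicit false

namespace Pool.Agent.Lib.MP_84734f_lc

open Matrix Finset MeasureTheory
open scoped ENNReal

variable {m n : ℕ}

/-- The inverse square root of the absolute value, infinite at zero. -/
noncomputable def dd (x : ℝ) : ℝ≥0∞ := (ENNReal.ofReal (Real.sqrt |x|))⁻¹

theorem measurable_dd : Measurable dd := by
  unfold dd
  fun_prop

theorem dd_mul (x y : ℝ) : dd (x * y) = dd x * dd y := by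
  unfold dd
  rw [abs_mul, Real.sqrt_mul (abs_nonneg _), ENNReal.ofReal_mul (Real.sqrt_nonneg _),
    ENNReal.mul_inv (Or.inr ENNReal.ofReal_ne_top) (Or.inl ENNReal.ofReal_ne_top)]

theorem lintegral_dd_Icc {r : ℝ} (hr : 0 < r) :
    ∫⁻ x, (Set.Icc 0 r).indicator dd x = ENNReal.ofReal (2 * Real.sqrt r) := by
  rw [lintegral_indicator measurableSet_Icc, ← restrict_Ioc_eq_restrict_Icc]
  have h1 : ∫⁻ x in Set.Ioc 0 r, dd x = ∫⁻ x in Set.Ioc 0 r, ENNReal.ofReal (x ^ (-(1 / 2) : ℝ)) := by
    refine setLIntegral_congr_fun measurableSet_Ioc ?_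
    intro x hx
    have hx0 : 0 < x := hx.1
    simp only [dd]
    rw [abs_of_pos hx0, ← ENNReal.ofReal_inv_of_pos (Real.sqrt_pos.2 hx0), Real.rpow_neg hx0.le,
      Real.sqrt_eq_rpow]
  rw [h1]
  have hint : IntervalIntegrable (fun x : ℝ => x ^ (-(1 / 2) : ℝ)) volume 0 r :=
    intervalIntegral.intervalIntegrable_rpow' (by norm_num)
  rw [intervalIntegrable_iff_integrableOn_Ioc_of_le hr.le] at hint
  rw [← ofReal_integral_eq_lintegral_ofReal hint]
  · congr 1
    rw [← intervalIntegral.integral_of_le hr.le, integral_rpow (Or.inl (by norm_num))]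
    rw [Real.zero_rpow (by norm_num), sub_zero, Real.sqrt_eq_rpow]
    norm_num
    ring
  · refine (ae_restrict_iff' measurableSet_Ioc).2 (Filter.Eventually.of_forall fun x hx => ?_)
    exact Real.rpow_nonneg hx.1.le _

theorem exp_two_le : Real.exp 2 ≤ 15 / 2 := by
  have h1 : Real.exp 2 = Real.exp 1 ^ 2 := by
    rw [← Real.exp_nat_mul]
    norm_num
  have h2 := Real.exp_one_lt_d9
  have h3 := Real.exp_pos 1
  rw [h1]
  nlinarith

theorem one_dim_aux {φ : ℝ → ℝ≥0∞} (hφ : Measurable φ) {κ : ℝ} (hκ : 0 < κ)
    (hL : ∀ a a', φ a' ≤ ENNReal.ofReal (Real.exp (κ * |a - a'|)) * φ a) (a₀ : ℝ) :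
    ∫⁻ a, φ a * dd (a - a₀) ≤ ENNReal.ofReal (16 * Real.sqrt κ) * ∫⁻ a, φ a := by
  set r := 1 / κ with hr
  have hr0 : 0 < r := by positivity
  set J := Set.Icc (a₀ - r) (a₀ + r) with hJ
  set Φ := ∫⁻ a, φ a with hΦ
  have hK : ∀ a ∈ J, φ a ≤ ENNReal.ofReal (κ / 2 * Real.exp 2) * Φ := by
    intro a ha
    have e1 : φ a = ENNReal.ofReal (κ / 2) * ∫⁻ _ in J, φ a := by
      rw [setLIntegral_const, hJ, Real.volume_Icc, mul_comm (φ a), ← mul_assoc,
        ← ENNReal.ofReal_mul (by positivity)]
      have : κ / 2 * (a₀ + r - (a₀ - r)) = 1 := by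
        rw [hr]
        field_simp
        ring
      rw [this, ENNReal.ofReal_one, one_mul]
    rw [e1, ENNReal.ofReal_mul (by positivity), mul_assoc]
    refine mul_le_mul' le_rfl ?_
    rw [← lintegral_const_mul _ hφ]
    calc ∫⁻ _ in J, φ a ≤ ∫⁻ a' in J, ENNReal.ofReal (Real.exp 2) * φ a' := by
          refine setLIntegral_mono' measurableSet_Icc fun a' ha' => ?_
          refine (hL a' a).trans (mul_le_mul' (ENNReal.ofReal_le_ofReal ?_) le_rfl)
          apply Real.exp_le_exp.2
          have h1 : |a' - a| ≤ 2 * r := by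
            rw [abs_le]
            constructor <;> linarith [ha.1, ha.2, ha'.1, ha'.2]
          calc κ * |a' - a| ≤ κ * (2 * r) := mul_le_mul_of_nonneg_left h1 hκ.le
            _ = 2 := by rw [hr]; field_simp
      _ ≤ ∫⁻ a', ENNReal.ofReal (Real.exp 2) * φ a' := setLIntegral_le_lintegral _ _
  set ψ : ℝ → ℝ≥0∞ := (Set.Icc 0 r).indicator dd with hψ
  have hψm : Measurable ψ := measurable_dd.indicator measurableSet_Icc
  have hpt : ∀ a, φ a * dd (a - a₀) ≤ ENNReal.ofReal (Real.sqrt κ) * φ a
      + ENNReal.ofReal (κ / 2 * Real.exp 2) * Φ * (ψ (a - a₀) + ψ (a₀ - a)) := by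
    intro a
    by_cases ha : a ∈ J
    · have h1 : dd (a - a₀) ≤ ψ (a - a₀) + ψ (a₀ - a) := by
        rcases le_total a₀ a with h | h
        · have : ψ (a - a₀) = dd (a - a₀) := by
            rw [hψ, Set.indicator_of_mem]
            exact ⟨by linarith, by linarith [ha.2]⟩
          rw [this]
          exact le_self_add
        · have : ψ (a₀ - a) = dd (a - a₀) := by
            rw [hψ, Set.indicator_of_mem]
            · unfold dd
              rw [abs_sub_comm]
            · exact ⟨by linarith, by linarith [ha.1]⟩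
          rw [this]
          exact le_add_self
      exact (mul_le_mul' (hK a ha) h1).trans le_add_self
    · have h1 : dd (a - a₀) ≤ ENNReal.ofReal (Real.sqrt κ) := by
        have h2 : r ≤ |a - a₀| := by
          by_contra h
          rw [not_le, abs_lt] at h
          apply ha
          exact ⟨by linarith, by linarith⟩
        have h3 : 0 < |a - a₀| := lt_of_lt_of_le hr0 h2
        unfold dd
        rw [← ENNReal.ofReal_inv_of_pos (Real.sqrt_pos.2 h3)]
        apply ENNReal.ofReal_le_ofReal
        rw [inv_le_comm₀ (Real.sqrt_pos.2 h3) (Real.sqrt_pos.2 hκ), ← Real.sqrt_inv]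
        apply Real.sqrt_le_sqrt
        rw [← one_div]
        exact h2
      calc φ a * dd (a - a₀) ≤ φ a * ENNReal.ofReal (Real.sqrt κ) := mul_le_mul' le_rfl h1
        _ = ENNReal.ofReal (Real.sqrt κ) * φ a := mul_comm _ _
        _ ≤ _ := le_self_add
  have hint : ∫⁻ a, (ψ (a - a₀) + ψ (a₀ - a)) = ENNReal.ofReal (4 * Real.sqrt r) := by
    rw [lintegral_add_left (by fun_prop), lintegral_sub_right_eq_self ψ a₀,
      lintegral_sub_left_eq_self ψ a₀, lintegral_dd_Icc hr0,
      ← ENNReal.ofReal_add (by positivity) (by positivity)]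
    congr 1
    ring
  calc ∫⁻ a, φ a * dd (a - a₀)
      ≤ ∫⁻ a, (ENNReal.ofReal (Real.sqrt κ) * φ a
        + ENNReal.ofReal (κ / 2 * Real.exp 2) * Φ * (ψ (a - a₀) + ψ (a₀ - a))) :=
        lintegral_mono hpt
    _ = ENNReal.ofReal (Real.sqrt κ) * Φ
        + ENNReal.ofReal (κ / 2 * Real.exp 2) * Φ * ENNReal.ofReal (4 * Real.sqrt r) := by
        rw [lintegral_add_left (by fun_prop), lintegral_const_mul _ hφ,
          lintegral_const_mul _ (by fun_prop), hint]
    _ = ENNReal.ofReal (Real.sqrt κ + κ / 2 * Real.exp 2 * (4 * Real.sqrt r)) * Φ := by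
        rw [ENNReal.ofReal_add (by positivity) (by positivity),
          ENNReal.ofReal_mul (show (0 : ℝ) ≤ κ / 2 * Real.exp 2 by positivity)]
        ring
    _ ≤ _ := by
        refine mul_le_mul' (ENNReal.ofReal_le_ofReal ?_) le_rfl
        have h1 : κ * Real.sqrt r = Real.sqrt κ := by
          rw [hr, Real.sqrt_div zero_le_one, Real.sqrt_one, mul_one_div]
          rw [div_eq_iff (Real.sqrt_pos.2 hκ).ne', Real.mul_self_sqrt hκ.le]
        have h2 : κ / 2 * Real.exp 2 * (4 * Real.sqrt r) = 2 * Real.exp 2 * Real.sqrt κ := by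
          rw [← h1]
          ring
        rw [h2]
        have := exp_two_le
        nlinarith [Real.sqrt_nonneg κ]

theorem one_dim {φ : ℝ → ℝ≥0∞} (hφ : Measurable φ) {κ : ℝ} (hκ : 0 < κ)
    (hL : ∀ a a', φ a' ≤ ENNReal.ofReal (Real.exp (κ * |a - a'|)) * φ a) (α β : ℝ) :
    ∫⁻ a, φ a * dd (a * α + β) ≤ ENNReal.ofReal (16 * Real.sqrt κ) * ∫⁻ a, φ a * dd α := by
  rw [lintegral_mul_const _ hφ]
  by_cases hα : α = 0
  · by_cases h0 : ∫⁻ a, φ a = 0
    · have h1 : φ =ᵐ[volume] 0 := (lintegral_eq_zero_iff hφ).1 h0
      have h2 : ∫⁻ a, φ a * dd (a * α + β) = 0 := by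
        have : ∀ᵐ a, φ a * dd (a * α + β) = 0 := by
          filter_upwards [h1] with a ha
          rw [ha]
          simp
        rw [lintegral_congr_ae this]
        simp
      rw [h2]
      exact bot_le
    · have h1 : dd α = ∞ := by
        rw [hα, dd]
        simp
      rw [h1, ENNReal.mul_top h0, ENNReal.mul_top]
      · exact le_top
      · rw [ne_eq, ENNReal.ofReal_eq_zero, not_le]
        have := Real.sqrt_pos.2 hκ
        positivity
  · have h1 : ∀ a, φ a * dd (a * α + β) = dd α * (φ a * dd (a - (-β / α))) := by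
      intro a
      have : a * α + β = α * (a - (-β / α)) := by
        field_simp
        ring
      rw [this, dd_mul]
      ring
    simp only [h1]
    have hdm : Measurable fun a : ℝ => φ a * dd (a - (-β / α)) :=
      hφ.mul (measurable_dd.comp (by fun_prop))
    rw [lintegral_const_mul _ hdm]
    calc dd α * ∫⁻ a, φ a * dd (a - (-β / α))
        ≤ dd α * (ENNReal.ofReal (16 * Real.sqrt κ) * ∫⁻ a, φ a) :=
          mul_le_mul' le_rfl (one_dim_aux hφ hκ hL _)
      _ = _ := by ring

/-- Comparison along a coordinate. -/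
theorem coord_step {ι : Type*} [Fintype ι] [DecidableEq ι] {f g : (ι → ℝ) → ℝ≥0∞}
    (hf : Measurable f) (hg : Measurable g) (i : ι)
    (h : ∀ x : ι → ℝ, ∫⁻ a, f (Function.update x i a) ≤ ∫⁻ a, g (Function.update x i a)) :
    ∫⁻ x, f x ≤ ∫⁻ x, g x := by
  rw [volume_pi]
  refine lintegral_le_of_lmarginal_le {i} hf hg ?_
  intro x
  rw [lmarginal_singleton, lmarginal_singleton]
  exact h x

section

variable (e : Fin m ⊕ Fin n ≃ Fin n ⊕ Fin m)

theorem exists_perm : ∃ π : Equiv.Perm (Fin m), ∀ l r, e (Sum.inl l) = Sum.inr r → π l = r := by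
  classical
  set s : Finset (Fin m) := Finset.univ.filter fun l => (e (Sum.inl l)).isRight with hs
  set f : Fin m → Fin m := fun l => Sum.elim (fun _ => l) id (e (Sum.inl l)) with hf
  have hinj : Set.InjOn f s := by
    intro l hl l' hl' hll
    simp only [hs, Finset.coe_filter, Finset.mem_univ, true_and, Set.mem_ofPred_eq] at hl hl'
    obtain ⟨r, hr⟩ := Sum.isRight_iff.1 hl
    obtain ⟨r', hr'⟩ := Sum.isRight_iff.1 hl'
    simp only [hf, hr, hr', Sum.elim_inr, id] at hll
    subst hll
    rw [← hr'] at hr
    exact Sum.inl.inj (e.injective hr)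
  obtain ⟨g, hg⟩ := Finset.exists_equiv_extend_of_card_eq (t := (Finset.univ : Finset (Fin m)))
    (by simp) (s := s) (f := f) (by intro x _; exact Finset.mem_univ _) hinj
  refine ⟨g.trans (Equiv.subtypeUnivEquiv fun x => Finset.mem_univ x), fun l r hlr => ?_⟩
  have hl : l ∈ s := by
    simp only [hs, Finset.mem_filter, Finset.mem_univ, true_and, hlr, Sum.isRight_inr]
  have h1 := hg l hl
  simp only [Equiv.trans_apply, Equiv.subtypeUnivEquiv_apply]
  rw [h1, hf]
  simp [hlr]

/-- The basis matrix with some columns replaced by unit vectors. -/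
def PT (π : Equiv.Perm (Fin m)) (T : Finset (Fin m)) (A : Fin m × Fin n → ℝ) :
    Matrix (Fin m) (Fin m) ℝ :=
  Matrix.of fun r l => if l ∈ T then (if r = π l then 1 else 0) else Pm e A r l

theorem continuous_PT (π : Equiv.Perm (Fin m)) (T : Finset (Fin m)) :
    Continuous (PT e π T : (Fin m × Fin n → ℝ) → _) := by
  refine continuous_matrix fun r l => ?_
  simp only [PT, Matrix.of_apply]
  by_cases h : l ∈ T
  · simp only [h, if_true]
    exact continuous_const
  · simp only [h, if_false]
    exact (continuous_Pm e).matrix_elem r l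

theorem PT_univ (π : Equiv.Perm (Fin m)) (A : Fin m × Fin n → ℝ) :
    |(PT e π Finset.univ A).det| = 1 := by
  have h1 : PT e π Finset.univ A = (1 : Matrix (Fin m) (Fin m) ℝ).submatrix id π := by
    ext r l
    simp [PT, Matrix.one_apply]
  rw [h1, det_permute', det_one, mul_one]
  have : ((Equiv.Perm.sign π : ℤˣ) : ℤ) = 1 ∨ ((Equiv.Perm.sign π : ℤˣ) : ℤ) = -1 := by
    rcases Int.units_eq_one_or (Equiv.Perm.sign π) with h | h <;> simp [h]
  rcases this with h | h <;> rw [h] <;> simp

theorem PT_step {π : Equiv.Perm (Fin m)} {l : Fin m} {T : Finset (Fin m)} {j : Fin n}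
    (hlT : l ∉ T) (hj : e (Sum.inl l) = Sum.inl j) (x : Fin m × Fin n → ℝ) :
    ∃ β : ℝ, ∀ a : ℝ, (PT e π T (Function.update x (π l, j) a)).det
        = a * (PT e π (insert l T) x).det + β ∧
      PT e π (insert l T) (Function.update x (π l, j) a) = PT e π (insert l T) x := by
  have h0 : ∀ (a : ℝ) (l' : Fin m), l' ≠ l → ∀ r,
      Pm e (Function.update x (π l, j) a) r l' = Pm e x r l' := by
    intro a l' hl' r
    simp only [Pm, extA, Matrix.of_apply]
    rcases he : e (Sum.inl l') with j' | r'
    · have : j' ≠ j := by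
        rintro rfl
        rw [← hj] at he
        exact hl' (Sum.inl.inj (e.injective he))
      simp [this]
    · simp
  have h1 : ∀ a, PT e π (insert l T) (Function.update x (π l, j) a) = PT e π (insert l T) x := by
    intro a
    ext r l'
    simp only [PT, Matrix.of_apply]
    by_cases hl' : l' ∈ insert l T
    · simp only [hl', if_true]
    · simp only [hl', if_false]
      exact h0 a l' (fun h => hl' (h ▸ Finset.mem_insert_self l T)) r
  set v : Fin m → ℝ := fun r => if r = π l then 0 else x (r, j) with hv
  refine ⟨((PT e π (insert l T) x).updateCol l v).det, fun a => ⟨?_, h1 a⟩⟩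
  have h2 : PT e π T (Function.update x (π l, j) a)
      = (PT e π (insert l T) x).updateCol l (a • (Pi.single (π l) 1 : Fin m → ℝ) + v) := by
    ext r l'
    by_cases hl' : l' = l
    · subst hl'
      rw [updateCol_self]
      simp only [PT, Matrix.of_apply, hlT, if_false, Pm, extA, hj, Sum.elim_inl, Pi.add_apply,
        Pi.smul_apply, smul_eq_mul, hv]
      by_cases hr : r = π l'
      · subst hr
        simp
      · simp [hr]
    · rw [updateCol_ne hl']
      simp only [PT, Matrix.of_apply]
      by_cases hl2 : l' ∈ T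
      · simp [hl2]
      · have : l' ∉ insert l T := by
          simp [hl2, hl']
        simp only [hl2, this, if_false]
        exact h0 a l' hl' r
  have h3 : (PT e π (insert l T) x).updateCol l (Pi.single (π l) 1) = PT e π (insert l T) x := by
    ext r l'
    by_cases hl' : l' = l
    · subst hl'
      rw [updateCol_self]
      simp [PT, Pi.single_apply]
    · rw [updateCol_ne hl']
  rw [h2, det_updateCol_add, det_updateCol_smul, h3]

theorem PT_slack {π : Equiv.Perm (Fin m)} {l r : Fin m} {T : Finset (Fin m)} (hlT : l ∉ T)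
    (hr : e (Sum.inl l) = Sum.inr r) (hπ : π l = r) (A : Fin m × Fin n → ℝ) :
    PT e π T A = PT e π (insert l T) A := by
  ext r' l'
  simp only [PT, Matrix.of_apply]
  by_cases hl' : l' = l
  · subst hl'
    simp only [hlT, if_false, Finset.mem_insert_self, if_true, Pm, extA, Matrix.of_apply, hr,
      Sum.elim_inr, hπ]
  · simp [hl']

/-- The integral of the inverse square root of a basis determinant. -/
theorem lintegral_dd_det {κ : ℝ} (hκ : 1 ≤ κ) {g : (Fin m × Fin n → ℝ) → ℝ≥0∞}
    (hg : Measurable g)
    (hL : ∀ x y, g y ≤ ENNReal.ofReal (Real.exp (κ * l1 (x - y))) * g x) :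
    ∫⁻ A, g A * dd (Pm e A).det ≤ ENNReal.ofReal ((16 * Real.sqrt κ) ^ m) * ∫⁻ A, g A := by
  obtain ⟨π, hπ⟩ := exists_perm e
  have hκ0 : 0 < κ := by linarith
  have hsq : 1 ≤ 16 * Real.sqrt κ := by
    have : 1 ≤ Real.sqrt κ := Real.one_le_sqrt.2 hκ
    linarith
  have key : ∀ N : ℕ, ∀ T : Finset (Fin m), Tᶜ.card = N →
      ∫⁻ A, g A * dd (PT e π T A).det ≤ ENNReal.ofReal ((16 * Real.sqrt κ) ^ N) * ∫⁻ A, g A := by
    intro N
    induction N with
    | zero =>
      intro T hT
      have : T = Finset.univ := by
        rw [Finset.card_eq_zero] at hT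
        exact Finset.compl_eq_empty_iff _ |>.1 hT
      subst this
      have h1 : ∀ A, dd (PT e π Finset.univ A).det = 1 := by
        intro A
        rw [dd, PT_univ]
        simp
      simp [h1]
    | succ N ih =>
      intro T hT
      have hne : Tᶜ.Nonempty := by
        rw [← Finset.card_pos, hT]
        exact Nat.succ_pos N
      obtain ⟨l, hl⟩ := hne
      have hlT : l ∉ T := Finset.mem_compl.1 hl
      have hcard : (insert l T)ᶜ.card = N := by
        rw [Finset.compl_insert, Finset.card_erase_of_mem hl, hT]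
        rfl
      have hih := ih (insert l T) hcard
      have hstep : ∫⁻ A, g A * dd (PT e π T A).det
          ≤ ENNReal.ofReal (16 * Real.sqrt κ) * ∫⁻ A, g A * dd (PT e π (insert l T) A).det := by
        have hdm : ∀ T, Measurable fun A : Fin m × Fin n → ℝ => g A * dd (PT e π T A).det :=
          fun T => hg.mul (measurable_dd.comp (continuous_PT e π T).matrix_det.measurable)
        rcases he : e (Sum.inl l) with j | r
        · rw [← lintegral_const_mul _ (hdm _)]
          refine coord_step (hdm T) ((hdm _).const_mul _) (π l, j) fun x => ?_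
          obtain ⟨β, hβ⟩ := PT_step e (π := π) hlT he x
          simp only [fun a => (hβ a).1, fun a => (hβ a).2]
          have hum : Measurable fun a : ℝ => Function.update x (π l, j) a := by
            refine measurable_pi_lambda _ fun i => ?_
            by_cases hi : i = (π l, j)
            · subst hi
              simp only [Function.update_self]
              exact measurable_id
            · simp only [Function.update_of_ne hi]
              exact measurable_const
          have hgu : Measurable fun a : ℝ => g (Function.update x (π l, j) a) := hg.comp hum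
          have h5 := one_dim (φ := fun a => g (Function.update x (π l, j) a)) hgu hκ0 (by
            intro a a'
            refine (hL (Function.update x (π l, j) a) (Function.update x (π l, j) a')).trans ?_
            refine le_of_eq ?_
            congr 4
            have : Function.update x (π l, j) a - Function.update x (π l, j) a'
                = Pi.single (π l, j) (a - a') := by
              funext i
              by_cases hi : i = (π l, j)
              · subst hi
                simp
              · simp [hi]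
            rw [this, l1_single]) (PT e π (insert l T) x).det β
          refine h5.trans (le_of_eq ?_)
          rw [← lintegral_const_mul' _ _ ENNReal.ofReal_ne_top]
        · have h6 : ∀ A, PT e π T A = PT e π (insert l T) A := fun A =>
            PT_slack e hlT he (hπ l r he) A
          simp only [h6]
          calc ∫⁻ A, g A * dd (PT e π (insert l T) A).det
              = 1 * ∫⁻ A, g A * dd (PT e π (insert l T) A).det := (one_mul _).symm
            _ ≤ _ := by
              refine mul_le_mul' ?_ le_rfl
              rw [← ENNReal.ofReal_one]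
              exact ENNReal.ofReal_le_ofReal hsq
      refine hstep.trans ((mul_le_mul' le_rfl hih).trans (le_of_eq ?_))
      rw [← mul_assoc, ← ENNReal.ofReal_mul (by linarith), pow_succ]
      congr 2
      ring
  have h := key m ∅ (by simp)
  have h0 : ∀ A, PT e π ∅ A = Pm e A := by
    intro A
    ext r l
    simp [PT]
  simpa only [h0] using h

end

end Pool.Agent.Lib.MP_84734f_lc
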