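import Pool.Agent.Lib.MP_84734f_lc.Trans

/-!
# The number of bases on the path, and the final estimate
-/

set_option autoImplicit false

namespace Pool.Agent.Lib.MP_84734f_lc

open Matrix Finset MeasureTheory ProbabilityTheory
open scoped ENNReal

variable {m n : ℕ}

/-- The set of bases optimal for some parameter of the path. -/
def FS (A : Matrix (Fin m) (Fin n) ℝ) (b : Fin m → ℝ) (c : Fin n → ℝ) :
    Set (Finset (Fin n ⊕ Fin m)) :=
  {B : Finset (Fin n ⊕ Fin m) | B.card = m ∧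
                  LinearIndependent ℝ
                    (fun q : B => (Matrix.transpose
                      (Matrix.fromCols A (1 : Matrix (Fin m) (Fin m) ℝ))) q.1) ∧
                  ∃ t : ℝ, 0 ≤ t ∧
                    (∃ x : Fin n → ℝ, ∃ w : Fin m → ℝ,
                      (∀ j : Fin n, 0 ≤ x j) ∧ (∀ i : Fin m, 0 ≤ w i) ∧
                      (∀ i : Fin m, (∑ j : Fin n, A i j * x j) + w i = b i + t) ∧
                      (∀ j : Fin n, (Sum.inl j : Fin n ⊕ Fin m) ∉ B → x j = 0) ∧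
                      (∀ i : Fin m, (Sum.inr i : Fin n ⊕ Fin m) ∉ B → w i = 0)) ∧
                    (∃ y : Fin m → ℝ,
                      (∀ i : Fin m, 0 ≤ y i) ∧
                      (∀ j : Fin n, c j - t ≤ ∑ i : Fin m, A i j * y i) ∧
                      (∀ j : Fin n, (Sum.inl j : Fin n ⊕ Fin m) ∈ B →
                        ∑ i : Fin m, A i j * y i = c j - t) ∧
                      (∀ i : Fin m, (Sum.inr i : Fin n ⊕ Fin m) ∈ B → y i = 0))}

theorem FS_scale {lam : ℝ} (hl : 0 < lam) (A : Matrix (Fin m) (Fin n) ℝ) (b : Fin m → ℝ)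
    (c : Fin n → ℝ) : FS A b c ⊆ FS (lam • A) (lam • b) (lam • c) := by
  rintro B ⟨hB, hli, t, ht, ⟨x, w, hx, hw, hxw, hx0, hw0⟩, y, hy, hyc, hye, hy0⟩
  refine ⟨hB, ?_, lam * t, by positivity, ⟨x, lam • w, hx, ?_, ?_, hx0, ?_⟩, y, hy, ?_, ?_, hy0⟩
  · have h1 : (fun q : B => (Matrix.transpose
        (Matrix.fromCols (lam • A) (1 : Matrix (Fin m) (Fin m) ℝ))) q.1)
        = (fun q : B => (Sum.elim (fun _ => Units.mk0 lam hl.ne') (fun _ => 1) q.1 : ℝˣ) •
          (Matrix.transpose (Matrix.fromCols A (1 : Matrix (Fin m) (Fin m) ℝ))) q.1) := by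
      funext q
      rcases q with ⟨j | i, hq⟩
      · funext r
        simp [Matrix.transpose, Units.smul_def]
      · funext r
        simp [Matrix.transpose]
    rw [h1]
    exact hli.units_smul _
  · intro i
    exact mul_nonneg hl.le (hw i)
  · intro i
    have := hxw i
    simp only [Matrix.smul_apply, smul_eq_mul, Pi.smul_apply, mul_assoc, ← Finset.mul_sum]
    rw [← mul_add, ← mul_add, this]
  · intro i hi
    simp [hw0 i hi]
  · intro j
    have := mul_le_mul_of_nonneg_left (hyc j) hl.le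
    simp only [Matrix.smul_apply, smul_eq_mul, Pi.smul_apply, mul_assoc, ← Finset.mul_sum]
    rwa [mul_sub] at this
  · intro j hj
    simp only [Matrix.smul_apply, smul_eq_mul, Pi.smul_apply, mul_assoc, ← Finset.mul_sum]
    rw [hye j hj, mul_sub]

theorem FS_opt {A : Matrix (Fin m) (Fin n) ℝ} {b : Fin m → ℝ} {c : Fin n → ℝ}
    {B : Finset (Fin n ⊕ Fin m)} (h : B ∈ FS A b c) :
    B.card = m ∧ (Pm (basisEquiv B) fun p => A p.1 p.2).det ≠ 0 ∧
      ∃ t : ℝ, 0 ≤ t ∧ Opt (basisEquiv B) (fun p => A p.1 p.2) (fun i => b i + t)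
        (fun j => c j - t) := by
  obtain ⟨hB, hli, t, ht, ⟨x, w, hx, hw, hxw, hx0, hw0⟩, y, hy, hyc, hye, hy0⟩ := h
  set e := basisEquiv B with he
  have hmem : ∀ l, e (Sum.inl l) ∈ B := basisEquiv_mem hB
  have hnot : ∀ l, e (Sum.inr l) ∉ B := basisEquiv_notMem hB
  have hdet : (Pm e fun p => A p.1 p.2).det ≠ 0 := by
    have h1 : LinearIndependent ℝ (fun l : Fin m => (Pm e fun p => A p.1 p.2).transpose l) := by
      have h2 := hli.comp (fun l : Fin m => (⟨e (Sum.inl l), hmem l⟩ : B)) (by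
        intro a b hab
        have h3 : e (Sum.inl a) = e (Sum.inl b) := congrArg Subtype.val hab
        exact Sum.inl.inj (e.injective h3))
      convert h2 using 1
      funext l r
      simp only [Function.comp, Matrix.transpose_apply, Pm, extA, Matrix.of_apply]
      rcases e (Sum.inl l) with j | r'
      · simp
      · simp [Matrix.one_apply]
    have h2 := Matrix.linearIndependent_rows_iff_isUnit.1 h1
    have h3 := (Matrix.isUnit_iff_isUnit_det _).1 h2
    have h4 : (Pm e fun p => A p.1 p.2).transpose.det ≠ 0 := h3.ne_zero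
    rwa [det_transpose] at h4
  refine ⟨hB, hdet, t, ht, ?_, ?_⟩
  · -- primal
    set zb : Fin n ⊕ Fin m → ℝ := Sum.elim x w with hzb
    have hz0 : ∀ i, 0 ≤ zb i := by
      rintro (j | i)
      · exact hx j
      · exact hw i
    have hzN : ∀ i, i ∉ B → zb i = 0 := by
      rintro (j | i) hi
      · exact hx0 j hi
      · exact hw0 i hi
    have h1 : zb = fullB e (fun l => zb (e (Sum.inl l))) := by
      funext i
      obtain ⟨l | l, rfl⟩ := e.surjective i
      · simp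
      · simp [hzN _ (hnot l)]
    have h2 : Pm e (fun p => A p.1 p.2) *ᵥ (fun l => zb (e (Sum.inl l)))
        = fun i => b i + t := by
      rw [← extA_fullB, ← h1]
      funext i
      simp only [mulVec, dotProduct, extA, Matrix.of_apply, Fintype.sum_sum_type, Sum.elim_inl,
        Sum.elim_inr, ite_mul, one_mul, zero_mul, Finset.sum_ite_eq, Finset.mem_univ, if_true,
        hzb]
      exact hxw i
    intro l
    rw [← h2, mulVec_mulVec, nonsing_inv_mul _ (isUnit_iff_ne_zero.2 hdet), one_mulVec]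
    exact hz0 _
  · -- dual
    set ηb : Fin n ⊕ Fin m → ℝ := Sum.elim (fun j => ∑ i, A i j * y i - (c j - t)) y with hηb
    have hη0 : ∀ i, 0 ≤ ηb i := by
      rintro (j | i)
      · simp only [hηb, Sum.elim_inl]
        have := hyc j
        linarith
      · exact hy i
    have hηB : ∀ i, i ∈ B → ηb i = 0 := by
      rintro (j | i) hi
      · simp only [hηb, Sum.elim_inl]
        rw [hye j hi]
        ring
      · exact hy0 i hi
    have h1 : ηb = fullN e (fun l => ηb (e (Sum.inr l))) := by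
      funext i
      obtain ⟨l | l, rfl⟩ := e.surjective i
      · simp [hηB _ (hmem l)]
      · simp
    have h2 : Qm e (fun p => A p.1 p.2) *ᵥ (fun l => ηb (e (Sum.inr l)))
        = fun j => c j - t := by
      rw [← extD_fullN, ← h1]
      funext j
      simp only [mulVec, dotProduct, extD, Matrix.of_apply, Fintype.sum_sum_type, Sum.elim_inl,
        Sum.elim_inr, ite_mul, neg_mul, one_mul, zero_mul, Finset.sum_ite_eq, Finset.mem_univ,
        if_true, hηb]
      ring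
    intro l
    rw [← h2, mulVec_mulVec, nonsing_inv_mul _ (isUnit_iff_ne_zero.2 (det_Qm_ne_zero e hdet)),
      one_mulVec]
    exact hη0 _

open Classical in
/-- All bases. -/
noncomputable def Fam (m n : ℕ) : Finset (Fin m ⊕ Fin n ≃ Fin n ⊕ Fin m) :=
  (Finset.powersetCard m (Finset.univ : Finset (Fin n ⊕ Fin m))).image basisEquiv

theorem basisEquiv_injOn :
    Set.InjOn (basisEquiv (m := m) (n := n))
      (Finset.powersetCard m (Finset.univ : Finset (Fin n ⊕ Fin m)) : Set _) := by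
  intro B hB B' hB' h
  have h1 : B.card = m := (Finset.mem_powersetCard.1 hB).2
  have h2 : B'.card = m := (Finset.mem_powersetCard.1 hB').2
  rw [← basisEquiv_image h1, ← basisEquiv_image h2, h]

theorem InjFam_Fam : InjFam (Fam m n) := by
  classical
  intro e he e' he' h
  obtain ⟨B, hB, rfl⟩ := Finset.mem_image.1 he
  obtain ⟨B', hB', rfl⟩ := Finset.mem_image.1 he'
  have h1 : B.card = m := (Finset.mem_powersetCard.1 hB).2
  have h2 : B'.card = m := (Finset.mem_powersetCard.1 hB').2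
  have h3 : B ⊆ B' := by
    intro i hi
    rw [← basisEquiv_image h1] at hi
    obtain ⟨l, -, rfl⟩ := Finset.mem_image.1 hi
    obtain ⟨l', hl'⟩ := h l
    rw [hl']
    exact basisEquiv_mem h2 l'
  rw [Finset.eq_of_subset_of_card_le h3 (by rw [h1, h2])]

open Classical in
theorem ncard_FS_le (A : Matrix (Fin m) (Fin n) ℝ) (b : Fin m → ℝ) (c : Fin n → ℝ) :
    ((FS A b c).ncard : ℝ≥0∞) ≤ 1
      + ∑ p ∈ Fam m n ×ˢ (Finset.univ : Finset (Fin n)),
        (HD p.1 p.2).indicator (fun _ => 1) (((fun p => A p.1 p.2), b, c) : X m n)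
      + ∑ p ∈ Fam m n ×ˢ (Finset.univ : Finset (Fin m)),
        (HPs p.1 p.2).indicator (fun _ => 1) (((fun p => A p.1 p.2), b, c) : X m n) := by
  set x : X m n := ((fun p => A p.1 p.2), b, c) with hx
  set S1 := (Fam m n ×ˢ (Finset.univ : Finset (Fin n))).filter fun p => x ∈ HD p.1 p.2 with hS1
  set S2 := (Fam m n ×ˢ (Finset.univ : Finset (Fin m))).filter fun p => x ∈ HPs p.1 p.2 with hS2
  set bas : (Fin m ⊕ Fin n ≃ Fin n ⊕ Fin m) → Finset (Fin n ⊕ Fin m) :=
    fun e => Finset.univ.image fun l => e (Sum.inl l) with hbas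
  have hsub : FS A b c ⊆ ((({slack m n} : Finset (Finset (Fin n ⊕ Fin m)))
      ∪ S1.image fun p => bas p.1) ∪ S2.image fun p => bas p.1 : Finset _) := by
    intro B hB
    obtain ⟨hB1, hdet, hopt⟩ := FS_opt hB
    have hmem : basisEquiv B ∈ Fam m n :=
      Finset.mem_image_of_mem _ (Finset.mem_powersetCard.2 ⟨Finset.subset_univ _, hB1⟩)
    simp only [Finset.coe_union, Set.mem_union, Finset.mem_coe, Finset.mem_singleton]
    by_cases h0 : B = slack m n
    · exact Or.inl (Or.inl h0)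
    · rcases exists_wall hB1 h0 hdet hopt with ⟨k, hk⟩ | ⟨k, hk⟩
      · left
        right
        refine Finset.mem_image.2 ⟨(basisEquiv B, k), ?_, basisEquiv_image hB1⟩
        rw [hS1, Finset.mem_filter]
        exact ⟨Finset.mem_product.2 ⟨hmem, Finset.mem_univ k⟩, HitD_mem (basisEquiv B) k (x := x) hk⟩
      · right
        refine Finset.mem_image.2 ⟨(basisEquiv B, k), ?_, basisEquiv_image hB1⟩
        rw [hS2, Finset.mem_filter]
        exact ⟨Finset.mem_product.2 ⟨hmem, Finset.mem_univ k⟩,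
          HitD_mem (dualE (basisEquiv B)) k (x := du x) (HitP_dual (basisEquiv B) k (x := x) hk)⟩
  have h1 : (FS A b c).ncard ≤ 1 + S1.card + S2.card := by
    refine (Set.ncard_le_ncard hsub (Finset.finite_toSet _)).trans ?_
    rw [Set.ncard_coe_finset]
    refine (Finset.card_union_le _ _).trans (add_le_add ((Finset.card_union_le _ _).trans
      (add_le_add ?_ Finset.card_image_le)) Finset.card_image_le)
    simp
  have h2 : ((S1.card : ℕ) : ℝ≥0∞) = ∑ p ∈ Fam m n ×ˢ (Finset.univ : Finset (Fin n)),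
        (HD p.1 p.2).indicator (fun _ => 1) x := by
    rw [hS1, Finset.card_filter]
    push_cast
    rfl
  have h3 : ((S2.card : ℕ) : ℝ≥0∞) = ∑ p ∈ Fam m n ×ˢ (Finset.univ : Finset (Fin m)),
        (HPs p.1 p.2).indicator (fun _ => 1) x := by
    rw [hS2, Finset.card_filter]
    push_cast
    rfl
  rw [← h2, ← h3]
  exact_mod_cast h1

theorem ncard_FS_zero (A : Matrix (Fin m) (Fin n) ℝ) (hA : A = 0) (b : Fin m → ℝ)
    (c : Fin n → ℝ) : (FS A b c).ncard ≤ 1 := by
  have hsub : FS A b c ⊆ {slack m n} := by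
    intro B hB
    obtain ⟨hB1, hdet, -⟩ := FS_opt hB
    rw [Set.mem_singleton_iff]
    apply Finset.eq_of_subset_of_card_le
    · intro i hi
      rw [← basisEquiv_image hB1] at hi
      obtain ⟨l, -, rfl⟩ := Finset.mem_image.1 hi
      rcases he : basisEquiv B (Sum.inl l) with j | r
      · exfalso
        apply hdet
        apply Matrix.det_eq_zero_of_column_eq_zero l
        intro r
        simp [Pm, extA, he, hA]
      · simp [slack]
    · rw [hB1, card_slack]
  calc (FS A b c).ncard ≤ ({slack m n} : Set (Finset (Fin n ⊕ Fin m))).ncard :=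
        Set.ncard_le_ncard hsub (Set.finite_singleton _)
    _ = 1 := Set.ncard_singleton _

/-- The bound obtained. -/
noncomputable def Tb (m n : ℕ) (K σ : ℝ) : ℝ :=
  Real.exp 1 + (Kc m n (K / σ + 4) * ((m : ℝ) + n + 1) ^ 2 * Real.pi
    + Kc n m (K / σ + 4) * ((n : ℝ) + m + 1) ^ 2 * Real.pi) * Mo (Fintype.card (Ix m n))

theorem expected_le {K σ : ℝ} (hσ : 0 < σ) (hσ1 : σ ≤ 1) {x₀ : Ix m n → ℝ}
    (hx₀ : ∀ i, |x₀ i| ≤ 1) (hK : (Fintype.card (Ix m n) : ℝ) + 1 ≤ K) :
    ∫⁻ ω, (1 + ∑ p ∈ Fam m n ×ˢ (Finset.univ : Finset (Fin n)),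
        (HD p.1 p.2).indicator (fun _ => 1) (toX (x₀ + σ • ω))
      + ∑ p ∈ Fam m n ×ˢ (Finset.univ : Finset (Fin m)),
        (HPs p.1 p.2).indicator (fun _ => 1) (toX (x₀ + σ • ω)) : ℝ≥0∞)
        ∂(Measure.pi fun _ : Ix m n => gaussianReal 0 1) ≤ ENNReal.ofReal (Tb m n K σ) := by
  have hc : (0 : ℝ) ≤ Fintype.card (Ix m n) := Nat.cast_nonneg _
  have hK0 : 0 ≤ K := by linarith
  set f : X m n → ℝ≥0∞ := fden K σ x₀ with hf
  have hfm : Measurable f := measurable_fden K σ x₀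
  have hLL : LL (K / σ) f := LL_fden hK0 hσ x₀
  have hmom := moment_fden hσ hσ1 hx₀ hK
  have hfin : ∫⁻ x, ENNReal.ofReal (Sx x ^ 6) * f x ≠ ∞ :=
    ne_top_of_le_ne_top ENNReal.ofReal_ne_top hmom
  set Φ : X m n → ℝ≥0∞ := fun x => 1 + ∑ p ∈ Fam m n ×ˢ (Finset.univ : Finset (Fin n)),
        (HD p.1 p.2).indicator (fun _ => 1) x
      + ∑ p ∈ Fam m n ×ˢ (Finset.univ : Finset (Fin m)),
        (HPs p.1 p.2).indicator (fun _ => 1) x with hΦ
  have hm1 : ∀ p : (Fin m ⊕ Fin n ≃ Fin n ⊕ Fin m) × Fin n,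
      Measurable ((HD p.1 p.2).indicator (fun _ => (1 : ℝ≥0∞)) : X m n → ℝ≥0∞) := fun p =>
    measurable_const.indicator (measurableSet_HD _ _)
  have hm2 : ∀ p : (Fin m ⊕ Fin n ≃ Fin n ⊕ Fin m) × Fin m,
      Measurable ((HPs p.1 p.2).indicator (fun _ => (1 : ℝ≥0∞)) : X m n → ℝ≥0∞) := fun p =>
    measurable_const.indicator (measurableSet_HPs _ _)
  have s1 : Measurable fun x : X m n => ∑ p ∈ Fam m n ×ˢ (Finset.univ : Finset (Fin n)),
      (HD p.1 p.2).indicator (fun _ => (1 : ℝ≥0∞)) x :=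
    Finset.measurable_fun_sum _ fun p _ => hm1 p
  have s2 : Measurable fun x : X m n => ∑ p ∈ Fam m n ×ˢ (Finset.univ : Finset (Fin m)),
      (HPs p.1 p.2).indicator (fun _ => (1 : ℝ≥0∞)) x :=
    Finset.measurable_fun_sum _ fun p _ => hm2 p
  have hΦm : Measurable Φ := (measurable_const.add s1).add s2
  have h1 : ∀ x, f x * Φ x = f x + ∑ p ∈ Fam m n ×ˢ (Finset.univ : Finset (Fin n)),
        (HD p.1 p.2).indicator f x
      + ∑ p ∈ Fam m n ×ˢ (Finset.univ : Finset (Fin m)), (HPs p.1 p.2).indicator f x := by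
    intro x
    have hi : ∀ s : Set (X m n), f x * s.indicator (fun _ => (1 : ℝ≥0∞)) x = s.indicator f x := by
      intro s
      by_cases hx : x ∈ s
      · simp [hx]
      · simp [hx]
    simp only [hΦ, mul_add, mul_one, Finset.mul_sum, hi]
  have hκ : 0 ≤ K / σ := by positivity
  calc ∫⁻ ω, Φ (toX (x₀ + σ • ω)) ∂(Measure.pi fun _ : Ix m n => gaussianReal 0 1)
      ≤ ∫⁻ ω, gden K ω * Φ (toX (x₀ + σ • ω)) := lintegral_gauss_le K _
    _ = ∫⁻ x, f x * Φ x := (lintegral_fden hσ x₀ hΦm).symm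
    _ = (∫⁻ x, f x) + (∑ p ∈ Fam m n ×ˢ (Finset.univ : Finset (Fin n)),
        ∫⁻ x, (HD p.1 p.2).indicator f x)
      + (∑ p ∈ Fam m n ×ˢ (Finset.univ : Finset (Fin m)),
        ∫⁻ x, (HPs p.1 p.2).indicator f x) := by
        simp only [h1]
        have a1 : ∀ p ∈ Fam m n ×ˢ (Finset.univ : Finset (Fin n)),
            Measurable ((HD p.1 p.2).indicator f) := fun p _ => hfm.indicator (measurableSet_HD _ _)
        have a2 : ∀ p ∈ Fam m n ×ˢ (Finset.univ : Finset (Fin m)),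
            Measurable ((HPs p.1 p.2).indicator f) := fun p _ =>
          hfm.indicator (measurableSet_HPs _ _)
        rw [lintegral_add_right _ (Finset.measurable_fun_sum _ a2), lintegral_add_left hfm,
          lintegral_finsetSum _ a1, lintegral_finsetSum _ a2]
    _ ≤ ENNReal.ofReal (Real.exp 1)
        + ENNReal.ofReal (Kc m n (K / σ + 4) * ((m : ℝ) + n + 1) ^ 2 * Real.pi) *
          ENNReal.ofReal (Mo (Fintype.card (Ix m n)))
        + ENNReal.ofReal (Kc n m (K / σ + 4) * ((n : ℝ) + m + 1) ^ 2 * Real.pi) *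
          ENNReal.ofReal (Mo (Fintype.card (Ix m n))) := by
        refine add_le_add (add_le_add ?_ ?_) ?_
        · have h2 : ∫⁻ x, f x = ∫⁻ ω : Ix m n → ℝ, gden K ω := by
            have := lintegral_fden (K := K) hσ x₀ (Φ := fun _ : X m n => 1) measurable_const
            simpa using this
          rw [h2]
          exact lintegral_gden_le hK
        · exact (hit_total InjFam_Fam hκ hfm hLL hfin).trans (mul_le_mul' le_rfl hmom)
        · exact (hitP_total InjFam_Fam hκ hfm hLL hfin).trans (mul_le_mul' le_rfl hmom)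
    _ = _ := by
        have k1 := Kc_nonneg (m := m) (n := n) (show 0 ≤ K / σ + 4 by linarith)
        have k2 := Kc_nonneg (m := n) (n := m) (show 0 ≤ K / σ + 4 by linarith)
        have hMo : 0 ≤ Mo (Fintype.card (Ix m n)) := by
          unfold Mo c6
          positivity
        rw [← ENNReal.ofReal_mul (by positivity), ← ENNReal.ofReal_mul (by positivity),
          ← ENNReal.ofReal_add (by positivity) (by positivity),
          ← ENNReal.ofReal_add (by positivity) (by positivity)]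
        congr 1
        unfold Tb
        ring

/-- The final constant. -/
noncomputable def Cf : ℝ :=
  Real.exp 1 + 2 * (16 * Real.exp 1 * 128 * 25 * 328 * Real.pi) * (32 * (Real.exp 1 * (1 + c6)))

theorem Kc_le {m n : ℕ} {D κ : ℝ} (hD : (m : ℝ) + n + 1 ≤ D) (hκ0 : 0 ≤ κ)
    (hκ : κ ≤ 5 * D ^ 3) :
    Kc m n κ ≤ 16 * Real.exp 1 * 128 * 25 * 328 * D ^ 14 := by
  have hm : (0 : ℝ) ≤ m := Nat.cast_nonneg m
  have hn : (0 : ℝ) ≤ n := Nat.cast_nonneg n
  have hD1 : 1 ≤ D := by linarith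
  have h1 : C1 m ≤ 128 * D ^ 2 := by
    unfold C1
    have : ((m : ℝ) + 1) ^ 2 ≤ D ^ 2 := pow_le_pow_left₀ (by positivity) (by linarith) 2
    linarith
  have h2 : (n : ℝ) ^ 2 ≤ D ^ 2 := pow_le_pow_left₀ hn (by linarith) 2
  have h3 : κ ^ 2 ≤ 25 * D ^ 6 := by
    calc κ ^ 2 ≤ (5 * D ^ 3) ^ 2 := pow_le_pow_left₀ hκ0 hκ 2
      _ = 25 * D ^ 6 := by ring
  have h4 : 2 + (m : ℝ) ^ 2 + m + L0 m n κ ≤ 328 * D ^ 4 := by
    unfold L0
    have h5 : (m : ℝ) ^ 2 ≤ D ^ 2 := pow_le_pow_left₀ hm (by linarith) 2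
    have h6 : (m : ℝ) * κ ≤ D * (5 * D ^ 3) := mul_le_mul (by linarith) hκ hκ0 (by linarith)
    have h7 : D ≤ D ^ 4 := le_self_pow₀ hD1 (by norm_num)
    have h8 : D ^ 2 ≤ D ^ 4 := pow_le_pow_right₀ hD1 (by norm_num)
    have h9 : 1 ≤ D ^ 4 := one_le_pow₀ hD1
    nlinarith
  have hC := C1_pos m
  have hL : 0 ≤ 2 + (m : ℝ) ^ 2 + m + L0 m n κ := by
    unfold L0
    positivity
  unfold Kc
  calc 16 * Real.exp 1 * C1 m * n ^ 2 * κ ^ 2 * (2 + (m : ℝ) ^ 2 + m + L0 m n κ)
      ≤ 16 * Real.exp 1 * (128 * D ^ 2) * D ^ 2 * (25 * D ^ 6) * (328 * D ^ 4) := by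
        have e1 : 16 * Real.exp 1 * C1 m ≤ 16 * Real.exp 1 * (128 * D ^ 2) :=
          mul_le_mul_of_nonneg_left h1 (by positivity)
        have e2 : 16 * Real.exp 1 * C1 m * n ^ 2 ≤ 16 * Real.exp 1 * (128 * D ^ 2) * D ^ 2 :=
          mul_le_mul e1 h2 (by positivity) (by positivity)
        have e3 : 16 * Real.exp 1 * C1 m * n ^ 2 * κ ^ 2
            ≤ 16 * Real.exp 1 * (128 * D ^ 2) * D ^ 2 * (25 * D ^ 6) :=
          mul_le_mul e2 h3 (by positivity) (by positivity)
        exact mul_le_mul e3 h4 hL (by positivity)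
    _ = _ := by ring

theorem final_alg (D E Q c P : ℝ) :
    E * D ^ 28 + (Q * D ^ 14 * D ^ 2 * P + Q * D ^ 14 * D ^ 2 * P) *
      (32 * (E * (1 + c)) * D ^ 12) = (E + 2 * (Q * P) * (32 * (E * (1 + c)))) * D ^ 28 := by
  ring

theorem Tb_le {m n : ℕ} {σ : ℝ} (hσ : 0 < σ) (hσ1 : σ ≤ 1) :
    Tb m n ((Fintype.card (Ix m n) : ℝ) + 1) σ ≤ Cf * ((m : ℝ) + n + 1 / σ) ^ 28 := by
  set D := (m : ℝ) + n + 1 / σ with hDdef
  have hm : (0 : ℝ) ≤ m := Nat.cast_nonneg m
  have hn : (0 : ℝ) ≤ n := Nat.cast_nonneg n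
  have hs : 1 ≤ 1 / σ := by rw [le_div_iff₀ hσ]; linarith
  have hD : (m : ℝ) + n + 1 ≤ D := by linarith
  have hD1 : 1 ≤ D := by linarith
  have hcard : (Fintype.card (Ix m n) : ℝ) = m * n + (m + n) := by
    simp [Fintype.card_sum, Fintype.card_prod]
  have hM : (Fintype.card (Ix m n) : ℝ) + 1 ≤ D ^ 2 := by
    rw [hcard]
    have h1 : (m : ℝ) + 1 ≤ D := by linarith
    have h2 : (n : ℝ) + 1 ≤ D := by linarith
    have h3 : ((m : ℝ) + 1) * (n + 1) ≤ D * D := mul_le_mul h1 h2 (by positivity) (by linarith)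
    nlinarith
  set M := Fintype.card (Ix m n) with hMdef
  have hM0 : (0 : ℝ) ≤ M := Nat.cast_nonneg M
  set κ := ((M : ℝ) + 1) / σ + 4 with hκdef
  have hκ0 : 0 ≤ κ := by positivity
  have hκ : κ ≤ 5 * D ^ 3 := by
    have h1 : ((M : ℝ) + 1) / σ ≤ D ^ 2 * D := by
      rw [div_eq_mul_one_div]
      exact mul_le_mul hM (by linarith) (by positivity) (by positivity)
    have h2 : 1 ≤ D ^ 3 := one_le_pow₀ hD1
    rw [hκdef]
    nlinarith
  have hK1 := Kc_le hD hκ0 hκ
  have hK2 := Kc_le (m := n) (n := m) (D := D) (by linarith) hκ0 hκ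
  have hc6 : 0 ≤ c6 := by norm_num [c6]
  have hMo : Mo M ≤ 32 * (Real.exp 1 * (1 + c6)) * D ^ 12 := by
    unfold Mo
    have h1 : (M : ℝ) ^ 6 ≤ D ^ 12 := by
      calc (M : ℝ) ^ 6 ≤ (D ^ 2) ^ 6 := pow_le_pow_left₀ hM0 (by linarith) 6
        _ = D ^ 12 := by ring
    have h2 : 1 ≤ D ^ 12 := one_le_pow₀ hD1
    have h3 : 0 < Real.exp 1 := Real.exp_pos 1
    have h4 : (M : ℝ) ^ 6 * (Real.exp 1 * c6) ≤ D ^ 12 * (Real.exp 1 * c6) :=
      mul_le_mul_of_nonneg_right h1 (by positivity)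
    have h5 : Real.exp 1 ≤ Real.exp 1 * D ^ 12 := le_mul_of_one_le_right h3.le h2
    calc 32 * (Real.exp 1 + (M : ℝ) ^ 6 * (Real.exp 1 * c6))
        ≤ 32 * (Real.exp 1 * D ^ 12 + D ^ 12 * (Real.exp 1 * c6)) := by linarith
      _ = _ := by ring
  have hMo0 : 0 ≤ Mo M := by
    unfold Mo
    positivity
  have hsq : ((m : ℝ) + n + 1) ^ 2 ≤ D ^ 2 := pow_le_pow_left₀ (by positivity) hD 2
  have hsq2 : ((n : ℝ) + m + 1) ^ 2 ≤ D ^ 2 := pow_le_pow_left₀ (by positivity) (by linarith) 2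
  set Q := 16 * Real.exp 1 * 128 * 25 * 328 with hQ
  have hQ0 : 0 ≤ Q := by positivity
  have k1 := Kc_nonneg (m := m) (n := n) hκ0
  have k2 := Kc_nonneg (m := n) (n := m) hκ0
  have t1 : Kc m n κ * ((m : ℝ) + n + 1) ^ 2 * Real.pi ≤ Q * D ^ 14 * D ^ 2 * Real.pi :=
    mul_le_mul_of_nonneg_right (mul_le_mul hK1 hsq (by positivity) (by positivity))
      Real.pi_pos.le
  have t2 : Kc n m κ * ((n : ℝ) + m + 1) ^ 2 * Real.pi ≤ Q * D ^ 14 * D ^ 2 * Real.pi :=
    mul_le_mul_of_nonneg_right (mul_le_mul hK2 hsq2 (by positivity) (by positivity))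
      Real.pi_pos.le
  have t3 : (Kc m n κ * ((m : ℝ) + n + 1) ^ 2 * Real.pi
      + Kc n m κ * ((n : ℝ) + m + 1) ^ 2 * Real.pi) * Mo M
      ≤ (Q * D ^ 14 * D ^ 2 * Real.pi + Q * D ^ 14 * D ^ 2 * Real.pi) *
        (32 * (Real.exp 1 * (1 + c6)) * D ^ 12) :=
    mul_le_mul (add_le_add t1 t2) hMo hMo0 (by positivity)
  have t4 : Real.exp 1 ≤ Real.exp 1 * D ^ 28 := by
    exact le_mul_of_one_le_right (Real.exp_pos 1).le (one_le_pow₀ hD1)
  unfold Tb
  rw [← hκdef]
  calc _ ≤ Real.exp 1 * D ^ 28 + (Q * D ^ 14 * D ^ 2 * Real.pi + Q * D ^ 14 * D ^ 2 * Real.pi) *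
        (32 * (Real.exp 1 * (1 + c6)) * D ^ 12) := add_le_add t4 t3
    _ = Cf * D ^ 28 := final_alg D (Real.exp 1) Q c6 Real.pi

theorem one_le_Cf : 1 ≤ Cf := by
  have h1 := Real.add_one_le_exp (1 : ℝ)
  have h2 : 0 ≤ 2 * (16 * Real.exp 1 * 128 * 25 * 328 * Real.pi) *
      (32 * (Real.exp 1 * (1 + c6))) := by
    unfold c6
    positivity
  unfold Cf
  linarith

end Pool.Agent.Lib.MP_84734f_lc
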