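import Pool.Agent.Lib.MP_84734f_lc.Wall

/-!
# The part of a wall near lower-dimensional strata is a small fraction of the wall
-/

set_option autoImplicit false

namespace Pool.Agent.Lib.MP_84734f_lc

open Matrix Finset MeasureTheory
open scoped ENNReal

variable {m n : ℕ}

/-- The constant of the edge-length bound. -/
noncomputable def C1 (m : ℕ) : ℝ := 128 * ((m : ℝ) + 1) ^ 2

theorem C1_pos (m : ℕ) : 0 < C1 m := by
  unfold C1
  positivity

theorem C1_ge (m : ℕ) : 128 ≤ C1 m := by
  unfold C1
  have : (0 : ℝ) ≤ m := Nat.cast_nonneg m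
  nlinarith

/-- The rate of the flow moving the basic variable `l`. -/
noncomputable def bet (e : Fin m ⊕ Fin n ≃ Fin n ⊕ Fin m) (k : Fin n) (κ : ℝ) (l : Fin m)
    (y : X m n) : ℝ :=
  Sum.elim (fun _ => Rr κ y.1 (cw e k y)) (fun _ => κ) (e (Sum.inl l))

/-- The weight of the basic variable `l`. -/
noncomputable def tau (e : Fin m ⊕ Fin n ≃ Fin n ⊕ Fin m) (l : Fin m) (A : Fin m × Fin n → ℝ) :
    ℝ := Sum.elim (fun _ => 1) (fun r => ∑ j, |A (r, j)|) (e (Sum.inl l))

theorem Rr_ge {κ : ℝ} (hκ : 0 ≤ κ) (A : Fin m × Fin n → ℝ) (c : Fin n → ℝ) : 1 ≤ Rr κ A c := by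
  unfold Rr
  have := mul_nonneg hκ (add_nonneg (l1_nonneg A) (l1_nonneg c))
  linarith

theorem Rr_le {κ : ℝ} (hκ : 0 ≤ κ) (A A' : Fin m × Fin n → ℝ) (c c' : Fin n → ℝ) :
    Rr κ A c ≤ Rr κ A' c' + κ * (l1 (A - A') + l1 (c - c')) := by
  unfold Rr
  have h1 := l1_le_add A A'
  have h2 := l1_le_add c c'
  have := mul_le_mul_of_nonneg_left (add_le_add h1 h2) hκ
  linarith

theorem continuous_Rr (e : Fin m ⊕ Fin n ≃ Fin n ⊕ Fin m) (k : Fin n) (κ : ℝ) :
    Continuous fun y : X m n => Rr κ y.1 (cw e k y) := by
  unfold Rr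
  exact continuous_const.add (continuous_const.mul ((continuous_l1.comp continuous_fst).add
    (continuous_l1.comp (continuous_cw e k))))

section

variable (e : Fin m ⊕ Fin n ≃ Fin n ⊕ Fin m) (k : Fin n) {κ : ℝ} (l : Fin m)

theorem continuous_bet (κ : ℝ) : Continuous (bet e k κ l : X m n → ℝ) := by
  unfold bet
  rcases e (Sum.inl l) with j | r
  · simpa using continuous_Rr e k κ
  · simpa using continuous_const

theorem continuous_tau : Continuous (tau e l : (Fin m × Fin n → ℝ) → ℝ) := by
  unfold tau
  rcases e (Sum.inl l) with j | r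
  · simpa using continuous_const
  · simp only [Sum.elim_inr]
    fun_prop

theorem bet_ge (hκ : 1 ≤ κ) (y : X m n) : 1 ≤ bet e k κ l y := by
  unfold bet
  rcases e (Sum.inl l) with j | r
  · simpa using Rr_ge (by linarith) _ _
  · simpa using hκ

theorem tau_nonneg (A : Fin m × Fin n → ℝ) : 0 ≤ tau e l A := by
  unfold tau
  rcases e (Sum.inl l) with j | r
  · simp
  · simp only [Sum.elim_inr]
    positivity

theorem tau_bet_le (hκ : 1 ≤ κ) (y : X m n) :
    tau e l y.1 * bet e k κ l y ≤ Rr κ y.1 (cw e k y) := by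
  unfold tau bet
  rcases e (Sum.inl l) with j | r
  · simp
  · simp only [Sum.elim_inr]
    unfold Rr
    have h1 : ∑ j, |y.1 (r, j)| ≤ l1 y.1 := by
      unfold l1
      rw [Fintype.sum_prod_type]
      exact Finset.single_le_sum (f := fun r => ∑ j, |y.1 (r, j)|)
        (fun _ _ => Finset.sum_nonneg fun _ _ => abs_nonneg _) (Finset.mem_univ r)
    have h2 := l1_nonneg (cw e k y)
    nlinarith

theorem l1_col_inl {A : Fin m × Fin n → ℝ} {j : Fin n} (hl : e (Sum.inl l) = Sum.inl j) :
    l1 (fun r => Pm e A r l) ≤ l1 A := by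
  unfold l1
  rw [Fintype.sum_prod_type]
  refine Finset.sum_le_sum fun r _ => ?_
  simp only [Pm, extA, Matrix.of_apply, hl, Sum.elim_inl]
  exact Finset.single_le_sum (f := fun j => |A (r, j)|) (fun _ _ => abs_nonneg _)
    (Finset.mem_univ j)

theorem l1_col_inr {A : Fin m × Fin n → ℝ} {l' : Fin m} (hl : e (Sum.inl l) = Sum.inr l') :
    l1 (fun r => Pm e A r l) = 1 := by
  have : (fun r => Pm e A r l) = (Pi.single l' 1 : Fin m → ℝ) := by
    funext r
    simp only [Pm, extA, Matrix.of_apply, hl, Sum.elim_inr, Pi.single_apply]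
  rw [this, l1_single]
  simp

theorem l1_shA_sub (A : Fin m × Fin n → ℝ) (s : ℝ) (js : Fin n) :
    l1 (shA e A s l js - A) = |s| * l1 (fun r => Pm e A r l) := by
  unfold l1
  rw [Fintype.sum_prod_type, Finset.mul_sum]
  refine Finset.sum_congr rfl fun r _ => ?_
  rw [Finset.sum_eq_single js]
  · simp [shA, abs_mul]
  · intro j _ hj
    simp [shA, hj]
  · simp

theorem exp_half_le : Real.exp (1 / 2) ≤ 2 := by
  have h1 : Real.exp (1 / 2) ^ 2 = Real.exp 1 := by
    rw [← Real.exp_nat_mul]
    norm_num
  have h2 := Real.exp_one_lt_d9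
  have h3 := Real.exp_pos (1 / 2)
  nlinarith

theorem LL_half {h : X m n → ℝ≥0∞} (hh : LL κ h) {x y : X m n} (hd : κ * dist1 x y ≤ 1 / 2) :
    h y ≤ ENNReal.ofReal 2 * h x := by
  refine (hh x y).trans (mul_le_mul' (ENNReal.ofReal_le_ofReal ?_) le_rfl)
  exact (Real.exp_le_exp.2 hd).trans exp_half_le

theorem Fw_le_four (hκ : 0 ≤ κ) {h : X m n → ℝ≥0∞} {y y' : X m n}
    (hD : y ∈ Dom m k κ → y' ∈ Dom m k κ) (hdet : |(Pm e y.1).det| = |(Pm e y'.1).det|)
    (hW : ∑ j, Wt e k j y.1 ≤ 2 * ∑ j, Wt e k j y'.1)
    (hh : h (pt e k y) ≤ ENNReal.ofReal 2 * h (pt e k y')) :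
    Fw e k κ h y ≤ ENNReal.ofReal 4 * Fw e k κ h y' := by
  unfold Fw
  by_cases hy : y ∈ Dom m k κ
  · rw [Set.indicator_of_mem hy, Set.indicator_of_mem (hD hy)]
    have h1 : ENNReal.ofReal (κ * |(Pm e y.1).det| * ∑ j, Wt e k j y.1)
        ≤ ENNReal.ofReal 2 * ENNReal.ofReal (κ * |(Pm e y'.1).det| * ∑ j, Wt e k j y'.1) := by
      rw [← ENNReal.ofReal_mul (by norm_num), hdet]
      apply ENNReal.ofReal_le_ofReal
      have := mul_le_mul_of_nonneg_left hW (mul_nonneg hκ (abs_nonneg (Pm e y'.1).det))
      linarith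
    calc _ ≤ (ENNReal.ofReal 2 * ENNReal.ofReal (κ * |(Pm e y'.1).det| * ∑ j, Wt e k j y'.1))
          * (ENNReal.ofReal 2 * h (pt e k y')) := mul_le_mul' h1 hh
      _ = ENNReal.ofReal 2 * ENNReal.ofReal 2 *
          (ENNReal.ofReal (κ * |(Pm e y'.1).det| * ∑ j, Wt e k j y'.1) * h (pt e k y')) := by
          ring
      _ = _ := by
          rw [← ENNReal.ofReal_mul (by norm_num)]
          norm_num
  · rw [Set.indicator_of_notMem hy]
    exact bot_le

/-! ### The first flow -/

/-- Increase the basic variable `l`. -/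
def fa (s : ℝ) (y : X m n) : X m n :=
  (y.1, (Function.update y.2.1 l (y.2.1 l + s), y.2.2))

theorem fa_preserving (s : ℝ) : MeasurePreserving (fa (n := n) l s) volume volume := by
  have h1 : (fa (n := n) l s) = Prod.map id (Prod.map
      (fun x : Fin m → ℝ => fun i => if i = l then x i + (fun _ _ => s : (Fin m → ℝ) → Fin m → ℝ) x i
        else x i) id) := by
    funext y
    simp only [fa, Prod.map, id]
    congr 2
    funext i
    by_cases h : i = l
    · subst h
      simp
    · simp [h]
  rw [h1]
  exact (MeasurePreserving.id _).prod ((measurePreserving_shear (fun i => i = l)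
    (fun _ _ => s) measurable_const (fun _ _ _ => rfl)).prod (MeasurePreserving.id _))

/-- The first kind of small points. -/
def Sa (κ : ℝ) : Set (X m n) := {y | y ∈ Dom m k κ ∧ y.2.1 l < 2 / (C1 m * bet e k κ l y)}

theorem flow_a (hκ : 1 ≤ κ) {h : X m n → ℝ≥0∞} (hhm : Measurable h) (hh : LL κ h) :
    ∫⁻ y in Sa e k l κ, Fw e k κ h y ≤ ENNReal.ofReal (16 * 4 / C1 m) * ∫⁻ y, Fw e k κ h y := by
  have hκ0 : (0 : ℝ) < κ := by linarith
  have hbm := (continuous_bet e k l κ).measurable
  have hq : Measurable fun y : X m n => y.2.1 l := by fun_prop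
  have hSm : MeasurableSet (Sa e k l κ) := by
    refine (measurableSet_Dom k κ).inter ?_
    exact measurableSet_lt hq (by fun_prop)
  have hβ : ∀ (s : ℝ) (y : X m n), bet e k κ l (fa l s y) = bet e k κ l y := fun _ _ => rfl
  refine flow_bound volume (Fw e k κ h) (measurable_Fw e k κ hhm) (fa l) (fa_preserving l) ?_
    (bet e k κ l) (fun y => y.2.1 l) hbm hq (Sa e k l κ) hSm 4 (C1 m) (by norm_num) (C1_pos m)
    (fun y => lt_of_lt_of_le one_pos (bet_ge e k l hκ y)) ?_ ?_
  · unfold fa
    refine Measurable.prodMk (by fun_prop) (Measurable.prodMk ?_ (by fun_prop))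
    refine measurable_pi_lambda _ fun i => ?_
    by_cases hi : i = l
    · subst hi
      simp only [Function.update_self]
      fun_prop
    · simp only [Function.update_of_ne hi]
      fun_prop
  · intro y hy s hs0 hs1
    have hb1 := bet_ge e k l hκ y
    have hsb : s * bet e k κ l y ≤ 1 / 2 := by
      rw [lt_div_iff₀ (by positivity)] at hs1
      linarith
    refine ⟨?_, ?_, ?_, ?_⟩
    · refine Fw_le_four e k hκ0.le ?_ rfl ?_ ?_
      · rintro ⟨h1, h2, h3, h4⟩
        refine ⟨fun i => ?_, h2, h3, h4⟩
        by_cases hi : i = l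
        · subst hi
          simp only [fa, Function.update_self]
          have := h1 i
          linarith
        · simp only [fa, Function.update_of_ne hi]
          exact h1 i
      · have : 0 ≤ ∑ j, Wt e k j y.1 := Finset.sum_nonneg fun j _ => abs_nonneg _
        simp only [fa]
        linarith
      · apply LL_half hh
        have h1 : dist1 (pt e k (fa l s y)) (pt e k y) = s * l1 (fun r => Pm e y.1 r l) := by
          have h2 : Pm e y.1 *ᵥ Function.update y.2.1 l (y.2.1 l + s) - Pm e y.1 *ᵥ y.2.1
              = s • fun r => Pm e y.1 r l := by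
            rw [← mulVec_sub]
            have : Function.update y.2.1 l (y.2.1 l + s) - y.2.1 = Pi.single l s := by
              funext i
              by_cases hi : i = l
              · subst hi
                simp
              · simp [hi]
            rw [this]
            funext r
            simp [mulVec_single, mul_comm]
          simp only [dist1, pt, fa, sub_self, l1_zero, zero_add]
          rw [h2, l1_smul, abs_of_pos hs0]
          have h3 : cw e k (y.1, (Function.update y.2.1 l (y.2.1 l + s), y.2.2)) = cw e k y := rfl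
          rw [h3, sub_self, l1_zero, add_zero]
        rw [h1]
        have h4 : κ * l1 (fun r => Pm e y.1 r l) ≤ bet e k κ l y := by
          unfold bet
          rcases hl : e (Sum.inl l) with j | r
          · have := l1_col_inl e l (A := y.1) hl
            simp only [Sum.elim_inl, Rr]
            have h5 := l1_nonneg (cw e k y)
            nlinarith
          · rw [l1_col_inr e l hl]
            simp
        calc κ * (s * l1 (fun r => Pm e y.1 r l)) = s * (κ * l1 (fun r => Pm e y.1 r l)) := by
              ring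
          _ ≤ s * bet e k κ l y := mul_le_mul_of_nonneg_left h4 hs0.le
          _ ≤ 1 / 2 := hsb
    · rw [hβ]
      linarith
    · rw [hβ]
      linarith
    · simp [fa]
  · intro y hy
    exact ⟨hy.1.1 l, hy.2⟩

/-! ### The second flow -/

/-- The column flow. -/
def fb (ks : Fin m) (js : Fin n) (s : ℝ) (y : X m n) : X m n :=
  (shA e y.1 s l js, (Function.update y.2.1 l (y.2.1 l + s * y.2.1 ks), y.2.2))

variable {ks : Fin m} {js : Fin n}

theorem fb_preserving (hks : e (Sum.inl ks) = Sum.inl js) (hne : l ≠ ks) (s : ℝ) :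
    MeasurePreserving (fb e l ks js s) volume volume := by
  have h1 : (fb e l ks js s) = Prod.map
      (fun A : Fin m × Fin n → ℝ => fun i => if i.2 = js then A i +
        (fun (A : Fin m × Fin n → ℝ) (i : Fin m × Fin n) => -s * Pm e A i.1 l) A i else A i)
      (Prod.map (fun x : Fin m → ℝ => fun i => if i = l then x i +
        (fun (x : Fin m → ℝ) (_ : Fin m) => s * x ks) x i else x i) id) := by
    funext y
    simp only [fb, Prod.map, id]
    refine Prod.ext rfl (Prod.ext ?_ rfl)
    funext i
    by_cases h : i = l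
    · subst h
      simp
    · simp [h]
  rw [h1]
  refine MeasurePreserving.prod ?_ (MeasurePreserving.prod ?_ (MeasurePreserving.id _))
  · refine measurePreserving_shear (fun i : Fin m × Fin n => i.2 = js)
      (fun (A : Fin m × Fin n → ℝ) (i : Fin m × Fin n) => -s * Pm e A i.1 l) ?_ ?_
    · refine measurable_pi_lambda _ fun i => ?_
      have : Continuous fun A : Fin m × Fin n → ℝ => Pm e A i.1 l :=
        (continuous_Pm e).matrix_elem i.1 l
      exact (continuous_const.mul this).measurable
    · intro A A' hAA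
      funext i
      congr 1
      simp only [Pm, extA, Matrix.of_apply]
      rcases he : e (Sum.inl l) with j | r
      · simp only [Sum.elim_inl]
        apply hAA
        rintro rfl
        rw [← hks] at he
        exact hne (Sum.inl.inj (e.injective he))
      · simp
  · refine measurePreserving_shear (fun i : Fin m => i = l)
      (fun (x : Fin m → ℝ) (_ : Fin m) => s * x ks) ?_ ?_
    · fun_prop
    · intro x x' hxx
      funext i
      rw [hxx ks (fun h => hne h.symm)]

/-- The second kind of small points. -/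
def Sb (κ : ℝ) (ks : Fin m) : Set (X m n) :=
  {y | y ∈ Dom m k κ ∧ y.2.1 l / y.2.1 ks < 2 / (C1 m * bet e k κ l y)}

theorem cw_fb_inr {l' : Fin m} (hl : e (Sum.inl l) = Sum.inr l') (s : ℝ) (y : X m n) :
    cw e k (fb e l ks js s y) = cw e k y := by
  simp only [cw, fb]
  rw [shA_Qm_inr e y.1 s hl]

theorem cw_fb_inl {j' : Fin n} (hl : e (Sum.inl l) = Sum.inl j') (s : ℝ) (y : X m n) :
    cw e k (fb e l ks js s y) = cw e k y - (s * cw e k y j') • Pi.single js 1 := by
  simp only [cw, fb]
  rw [shA_Qm_inl e y.1 s hl, updateRow_mulVec]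

/-- The data move slowly along the column flow. -/
theorem fb_rate (hκ : 1 ≤ κ) {s : ℝ} (hs0 : 0 ≤ s) (y : X m n) :
    κ * (l1 ((fb e l ks js s y).1 - y.1) + l1 (cw e k (fb e l ks js s y) - cw e k y))
      ≤ s * bet e k κ l y := by
  have h0 : (fb e l ks js s y).1 - y.1 = shA e y.1 s l js - y.1 := rfl
  rw [h0, l1_shA_sub, abs_of_nonneg hs0]
  rcases hl : e (Sum.inl l) with j' | l'
  · rw [cw_fb_inl e k l hl, sub_sub_cancel_left, l1_neg, l1_smul, l1_single, abs_one, mul_one,
      abs_mul, abs_of_nonneg hs0]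
    have h1 := l1_col_inl e l (A := y.1) hl
    have h2 := abs_le_l1 (cw e k y) j'
    have h3 : κ * (l1 (fun r => Pm e y.1 r l) + |cw e k y j'|) ≤ bet e k κ l y := by
      have : bet e k κ l y = Rr κ y.1 (cw e k y) := by simp [bet, hl]
      rw [this]
      unfold Rr
      have := mul_le_mul_of_nonneg_left (add_le_add h1 h2) (show (0 : ℝ) ≤ κ by linarith)
      linarith
    calc κ * (s * l1 (fun r => Pm e y.1 r l) + s * |cw e k y j'|)
        = s * (κ * (l1 (fun r => Pm e y.1 r l) + |cw e k y j'|)) := by ring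
      _ ≤ _ := mul_le_mul_of_nonneg_left h3 hs0
  · rw [cw_fb_inr e k l hl, sub_self, l1_zero, add_zero, l1_col_inr e l hl]
    have : bet e k κ l y = κ := by simp [bet, hl]
    rw [this]
    linarith

theorem flow_b (hκ : 1 ≤ κ) {h : X m n → ℝ≥0∞} (hhm : Measurable h) (hh : LL κ h)
    (hks : e (Sum.inl ks) = Sum.inl js) (hne : l ≠ ks) :
    ∫⁻ y in Sb e k l κ ks, Fw e k κ h y
      ≤ ENNReal.ofReal (16 * 4 / C1 m) * ∫⁻ y, Fw e k κ h y := by
  have hκ0 : (0 : ℝ) < κ := by linarith
  have hbm := (continuous_bet e k l κ).measurable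
  have hq : Measurable fun y : X m n => y.2.1 l / y.2.1 ks := by fun_prop
  have hSm : MeasurableSet (Sb e k l κ ks) := by
    refine (measurableSet_Dom k κ).inter ?_
    exact measurableSet_lt hq (by fun_prop)
  refine flow_bound volume (Fw e k κ h) (measurable_Fw e k κ hhm) (fb e l ks js)
    (fb_preserving e l hks hne) ?_
    (bet e k κ l) (fun y => y.2.1 l / y.2.1 ks) hbm hq (Sb e k l κ ks) hSm 4 (C1 m) (by norm_num)
    (C1_pos m) (fun y => lt_of_lt_of_le one_pos (bet_ge e k l hκ y)) ?_ ?_
  · unfold fb
    refine Measurable.prodMk ?_ (Measurable.prodMk ?_ (by fun_prop))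
    · refine measurable_pi_lambda _ fun i => ?_
      unfold shA
      by_cases hi : i.2 = js
      · simp only [hi, if_true]
        have : Continuous fun A : Fin m × Fin n → ℝ => Pm e A i.1 l :=
          (continuous_Pm e).matrix_elem i.1 l
        have h2 := this.measurable
        fun_prop
      · simp only [hi, if_false]
        fun_prop
    · refine measurable_pi_lambda _ fun i => ?_
      by_cases hi : i = l
      · subst hi
        simp only [Function.update_self]
        fun_prop
      · simp only [Function.update_of_ne hi]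
        fun_prop
  · intro y hy s hs0 hs1
    have hb1 := bet_ge e k l hκ y
    have hsb : s * bet e k κ l y ≤ 1 / 2 := by
      rw [lt_div_iff₀ (by positivity)] at hs1
      linarith
    have hrate := fb_rate e k l (ks := ks) (js := js) hκ hs0.le y
    have hks0 := hy.1.1 ks
    refine ⟨?_, ?_, ?_, ?_⟩
    · refine Fw_le_four e k hκ0.le ?_ ?_ ?_ ?_
      · rintro ⟨h1, h2, h3, h4⟩
        refine ⟨fun i => ?_, h2, h3, h4⟩
        by_cases hi : i = l
        · subst hi
          simp only [fb, Function.update_self]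
          have := h1 i
          have := mul_pos hs0 hks0
          linarith
        · simp only [fb, Function.update_of_ne hi]
          exact h1 i
      · simp only [fb]
        rw [det_shA_Pm e y.1 s hks hne]
      · simp only [fb]
        refine sum_Wt_le e y.1 s hks hne hs0.le ?_ k
        nlinarith
      · apply LL_half hh
        have h1 : dist1 (pt e k (fb e l ks js s y)) (pt e k y)
            = l1 ((fb e l ks js s y).1 - y.1) + l1 (cw e k (fb e l ks js s y) - cw e k y) := by
          simp only [dist1, pt]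
          have h2 : Pm e (fb e l ks js s y).1 *ᵥ (fb e l ks js s y).2.1 = Pm e y.1 *ᵥ y.2.1 :=
            shA_Pm_mulVec e y.1 s hks hne y.2.1
          rw [h2, sub_self, l1_zero, add_zero]
        rw [h1]
        linarith
    · unfold bet
      rcases hl : e (Sum.inl l) with j' | l'
      · simp only [Sum.elim_inl]
        have h1 := Rr_le hκ0.le y.1 (fb e l ks js s y).1 (cw e k y)
          (cw e k (fb e l ks js s y))
        rw [l1_sub_comm y.1, l1_sub_comm (cw e k y)] at h1
        have h2 := Rr_ge hκ0.le (fb e l ks js s y).1 (cw e k (fb e l ks js s y))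
        linarith
      · simp only [Sum.elim_inr]
        linarith
    · unfold bet
      rcases hl : e (Sum.inl l) with j' | l'
      · simp only [Sum.elim_inl]
        have h1 := Rr_le hκ0.le (fb e l ks js s y).1 y.1
          (cw e k (fb e l ks js s y)) (cw e k y)
        have h2 := Rr_ge hκ0.le y.1 (cw e k y)
        linarith
      · simp only [Sum.elim_inr]
        linarith
    · simp only [fb, Function.update_self, Function.update_of_ne hne.symm]
      field_simp
  · intro y hy
    exact ⟨div_pos (hy.1.1 l) (hy.1.1 ks), hy.2⟩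

end

end Pool.Agent.Lib.MP_84734f_lc
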