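import Mathlib

/-!
# A log-Lipschitz envelope of the Gaussian density
-/

set_option autoImplicit false

namespace Pool.Agent.Lib.MP_84734f_lc

open Finset MeasureTheory ProbabilityTheory
open scoped ENNReal

/-- Fubini for products of functions of one variable. -/
theorem lintegral_pi_prod {ι : Type*} [Fintype ι] [DecidableEq ι] (f : ι → ℝ → ℝ≥0∞)
    (hf : ∀ i, Measurable (f i)) :
    ∫⁻ x : ι → ℝ, ∏ i, f i (x i) = ∏ i, ∫⁻ a, f i a := by
  have hm : Measurable fun x : ι → ℝ => ∏ i, f i (x i) :=
    Finset.measurable_fun_prod _ fun i _ => (hf i).comp (measurable_pi_apply i)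
  have key : ∀ (s : Finset ι) (x : ι → ℝ),
      (∫⋯∫⁻_s, (fun x => ∏ i, f i (x i)) ∂(fun _ => volume)) x
        = (∏ i ∈ s, ∫⁻ a, f i a) * ∏ i ∈ sᶜ, f i (x i) := by
    intro s
    induction s using Finset.induction_on with
    | empty => intro x; simp
    | insert i s hi ih =>
      intro x
      rw [lmarginal_insert _ hm hi]
      have hc : sᶜ = insert i (insert i s)ᶜ := by
        ext j
        by_cases hj : j = i
        · subst hj
          simp [hi]
        · simp [hj]
      have hni : i ∉ (insert i s)ᶜ := by simp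
      have h1 : ∀ a : ℝ, (∫⋯∫⁻_s, (fun x => ∏ i, f i (x i)) ∂(fun _ => volume))
          (Function.update x i a)
          = (∏ i ∈ s, ∫⁻ a, f i a) * (∏ j ∈ (insert i s)ᶜ, f j (x j)) * f i a := by
        intro a
        rw [ih, hc, Finset.prod_insert hni, Function.update_self]
        have h2 : ∏ j ∈ (insert i s)ᶜ, f j (Function.update x i a j)
            = ∏ j ∈ (insert i s)ᶜ, f j (x j) := by
          refine Finset.prod_congr rfl fun j hj => ?_
          have : j ≠ i := by
            rintro rfl
            exact hni hj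
          rw [Function.update_of_ne this]
        rw [h2]
        ring
      simp only [h1]
      rw [lintegral_const_mul _ (hf i), Finset.prod_insert hi]
      ring
  have hx : ι → ℝ := fun _ => 0
  rw [volume_pi, lintegral_eq_lmarginal_univ hx, key]
  simp

/-- The Huber function. -/
noncomputable def Hub (K x : ℝ) : ℝ := if |x| ≤ K then x ^ 2 / 2 else K * |x| - K ^ 2 / 2

theorem hub_le (K x : ℝ) : Hub K x ≤ x ^ 2 / 2 := by
  unfold Hub
  split_ifs
  · exact le_rfl
  · have : x ^ 2 = |x| ^ 2 := (sq_abs x).symm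
    nlinarith [sq_nonneg (|x| - K)]

theorem hub_lip {K : ℝ} (hK : 0 ≤ K) (x y : ℝ) : Hub K y ≤ Hub K x + K * |x - y| := by
  have hx2 : x ^ 2 = |x| ^ 2 := (sq_abs x).symm
  have hy2 : y ^ 2 = |y| ^ 2 := (sq_abs y).symm
  have h1 : |y| ≤ |x| + |x - y| := by
    have := abs_sub_abs_le_abs_sub y x
    rw [abs_sub_comm] at this
    linarith
  have hx0 := abs_nonneg x
  have hy0 := abs_nonneg y
  have hd0 := abs_nonneg (x - y)
  unfold Hub
  split_ifs with h2 h3 h3
  · rcases le_total (|y|) (|x|) with h4 | h4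
    · nlinarith
    · nlinarith
  · nlinarith
  · rw [not_le] at h2
    nlinarith [sq_nonneg (|x| - K)]
  · nlinarith

theorem hub_ge {K : ℝ} (hK : 1 ≤ K) (x : ℝ) : |x| - 1 / 2 ≤ Hub K x := by
  unfold Hub
  have : x ^ 2 = |x| ^ 2 := (sq_abs x).symm
  split_ifs with h
  · nlinarith [sq_nonneg (|x| - 1)]
  · rw [not_le] at h
    nlinarith

theorem measurable_Hub (K : ℝ) : Measurable (Hub K) := by
  unfold Hub
  refine Measurable.ite ?_ (by fun_prop) (by fun_prop)
  exact measurableSet_le (by fun_prop) measurable_const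

/-- The envelope. -/
noncomputable def psi (K x : ℝ) : ℝ≥0∞ :=
  ENNReal.ofReal ((Real.sqrt (2 * Real.pi))⁻¹ * Real.exp (-Hub K x))

theorem measurable_psi (K : ℝ) : Measurable (psi K) := by
  unfold psi
  have := measurable_Hub K
  fun_prop

theorem cst_le : (Real.sqrt (2 * Real.pi))⁻¹ ≤ 1 / 2 := by
  have h : (2 : ℝ) ≤ Real.sqrt (2 * Real.pi) := by
    rw [Real.le_sqrt (by norm_num) (by positivity)]
    have := Real.pi_gt_three
    linarith
  rw [inv_le_comm₀ (by positivity) (by norm_num)]
  linarith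

theorem psi_lip {K : ℝ} (hK : 0 ≤ K) (x y : ℝ) :
    psi K y ≤ ENNReal.ofReal (Real.exp (K * |x - y|)) * psi K x := by
  unfold psi
  rw [← ENNReal.ofReal_mul (Real.exp_pos _).le]
  apply ENNReal.ofReal_le_ofReal
  have h := hub_lip hK y x
  rw [abs_sub_comm] at h
  calc (Real.sqrt (2 * Real.pi))⁻¹ * Real.exp (-Hub K y)
      ≤ (Real.sqrt (2 * Real.pi))⁻¹ * Real.exp (K * |x - y| + -Hub K x) := by
        refine mul_le_mul_of_nonneg_left (Real.exp_le_exp.2 ?_) (by positivity)
        linarith
    _ = _ := by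
        rw [Real.exp_add]
        ring

theorem pdf_le_psi (K x : ℝ) : gaussianPDF 0 1 x ≤ psi K x := by
  unfold gaussianPDF psi gaussianPDFReal
  apply ENNReal.ofReal_le_ofReal
  have h := hub_le K x
  simp only [NNReal.coe_one, mul_one, sub_zero]
  refine mul_le_mul_of_nonneg_left (Real.exp_le_exp.2 ?_) (by positivity)
  linarith

theorem lintegral_exp_Ioi {a : ℝ} (ha : 0 < a) (c : ℝ) :
    ∫⁻ x in Set.Ioi c, ENNReal.ofReal (Real.exp (-a * x)) = ENNReal.ofReal (Real.exp (-a * c) / a) := by
  rw [← ofReal_integral_eq_lintegral_ofReal]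
  · congr 1
    rw [integral_exp_mul_Ioi (by linarith)]
    field_simp
  · exact integrableOn_exp_mul_Ioi (by linarith) c
  · exact Filter.Eventually.of_forall fun x => (Real.exp_pos _).le

theorem lintegral_psi_le {K : ℝ} (hK : 1 ≤ K) : ∫⁻ x, psi K x ≤ ENNReal.ofReal (1 + 1 / K) := by
  have hK0 : 0 < K := by linarith
  set η : ℝ → ℝ≥0∞ := (Set.Ioi K).indicator fun x => ENNReal.ofReal (Real.exp (-K * x)) with hη
  have hηm : Measurable η := Measurable.indicator (by fun_prop) measurableSet_Ioi
  have hηi : ∫⁻ x, η x = ENNReal.ofReal (Real.exp (-K * K) / K) := by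
    rw [hη, lintegral_indicator measurableSet_Ioi, lintegral_exp_Ioi hK0]
  have hpt : ∀ x, psi K x ≤ gaussianPDF 0 1 x +
      ENNReal.ofReal (1 / 2 * Real.exp (K ^ 2)) * (η x + η (-x)) := by
    intro x
    by_cases hx : |x| ≤ K
    · have h1 : psi K x = gaussianPDF 0 1 x := by
        unfold gaussianPDF psi gaussianPDFReal Hub
        rw [if_pos hx]
        simp only [NNReal.coe_one, mul_one, sub_zero]
        congr 3
        ring
      rw [h1]
      exact le_self_add
    · rw [not_le] at hx
      have h1 : psi K x ≤ ENNReal.ofReal (1 / 2 * Real.exp (K ^ 2)) *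
          ENNReal.ofReal (Real.exp (-K * |x|)) := by
        unfold psi Hub
        rw [if_neg (not_le.2 hx), ← ENNReal.ofReal_mul (by positivity)]
        apply ENNReal.ofReal_le_ofReal
        rw [mul_assoc, ← Real.exp_add]
        refine mul_le_mul cst_le (Real.exp_le_exp.2 ?_) (Real.exp_pos _).le (by norm_num)
        nlinarith
      refine (h1.trans (mul_le_mul' le_rfl ?_)).trans le_add_self
      rcases lt_abs.1 hx with h2 | h2
      · have : η x = ENNReal.ofReal (Real.exp (-K * |x|)) := by
          rw [hη, Set.indicator_of_mem (show x ∈ Set.Ioi K from h2), abs_of_pos (by linarith)]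
        rw [this]
        exact le_self_add
      · have : η (-x) = ENNReal.ofReal (Real.exp (-K * |x|)) := by
          rw [hη, Set.indicator_of_mem (show -x ∈ Set.Ioi K from h2), abs_of_neg (by linarith)]
        rw [this]
        exact le_add_self
  calc ∫⁻ x, psi K x
      ≤ ∫⁻ x, (gaussianPDF 0 1 x + ENNReal.ofReal (1 / 2 * Real.exp (K ^ 2)) * (η x + η (-x))) :=
        lintegral_mono hpt
    _ = 1 + ENNReal.ofReal (1 / 2 * Real.exp (K ^ 2)) *
        (ENNReal.ofReal (Real.exp (-K * K) / K) + ENNReal.ofReal (Real.exp (-K * K) / K)) := by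
        rw [lintegral_add_left (measurable_gaussianPDF 0 1),
          lintegral_gaussianPDF_eq_one 0 one_ne_zero, lintegral_const_mul _ (by fun_prop),
          lintegral_add_left hηm, lintegral_neg_eq_self η, hηi]
    _ = ENNReal.ofReal (1 + 1 / K) := by
        rw [← ENNReal.ofReal_add (by positivity) (by positivity),
          ← ENNReal.ofReal_mul (by positivity), ← ENNReal.ofReal_one,
          ← ENNReal.ofReal_add zero_le_one (by positivity)]
        congr 2
        have h1 : Real.exp (K ^ 2) * Real.exp (-K * K) = 1 := by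
          rw [← Real.exp_add]
          have : K ^ 2 + -K * K = 0 := by ring
          rw [this, Real.exp_zero]
        calc 1 / 2 * Real.exp (K ^ 2) * (Real.exp (-K * K) / K + Real.exp (-K * K) / K)
            = (Real.exp (K ^ 2) * Real.exp (-K * K)) / K := by ring
          _ = 1 / K := by rw [h1]

theorem exp_half_le' : Real.exp (1 / 2) ≤ 2 := by
  have h1 : Real.exp (1 / 2) ^ 2 = Real.exp 1 := by
    rw [← Real.exp_nat_mul]
    norm_num
  have h2 := Real.exp_one_lt_d9
  have h3 := Real.exp_pos (1 / 2)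
  nlinarith

theorem psi_le_exp {K : ℝ} (hK : 1 ≤ K) (x : ℝ) : psi K x ≤ ENNReal.ofReal (Real.exp (-|x|)) := by
  unfold psi
  apply ENNReal.ofReal_le_ofReal
  have h1 := hub_ge hK x
  have h2 : Real.exp (-Hub K x) ≤ Real.exp (1 / 2) * Real.exp (-|x|) := by
    rw [← Real.exp_add]
    apply Real.exp_le_exp.2
    linarith
  have h3 := cst_le
  have h4 := exp_half_le'
  have h5 : 0 < Real.exp (-|x|) := Real.exp_pos _
  calc (Real.sqrt (2 * Real.pi))⁻¹ * Real.exp (-Hub K x)
      ≤ 1 / 2 * (Real.exp (1 / 2) * Real.exp (-|x|)) :=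
        mul_le_mul h3 h2 (Real.exp_pos _).le (by norm_num)
    _ ≤ Real.exp (-|x|) := by nlinarith

/-- The moment constant. -/
noncomputable def c6 : ℝ := 368640

theorem lintegral_psi_moment {K : ℝ} (hK : 1 ≤ K) :
    ∫⁻ x, psi K x * ENNReal.ofReal ((1 + |x|) ^ 6) ≤ ENNReal.ofReal c6 := by
  set η : ℝ → ℝ≥0∞ := (Set.Ici (0 : ℝ)).indicator
    fun x => ENNReal.ofReal (Real.exp (-(1 / 2) * x)) with hη
  have hηm : Measurable η := Measurable.indicator (by fun_prop) measurableSet_Ici
  have hηi : ∫⁻ x, η x = ENNReal.ofReal 2 := by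
    rw [hη, lintegral_indicator measurableSet_Ici, setLIntegral_congr Ioi_ae_eq_Ici.symm,
      lintegral_exp_Ioi (by norm_num)]
    norm_num
  have hpt : ∀ x, psi K x * ENNReal.ofReal ((1 + |x|) ^ 6)
      ≤ ENNReal.ofReal 92160 * (η x + η (-x)) := by
    intro x
    have hx0 := abs_nonneg x
    have h1 : (1 + |x|) ^ 6 ≤ 92160 * Real.exp (|x| / 2) := by
      have h2 := Real.pow_div_factorial_le_exp ((1 + |x|) / 2) (by positivity) 6
      have h3 : ((Nat.factorial 6 : ℕ) : ℝ) = 720 := by norm_num [Nat.factorial]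
      rw [h3, div_le_iff₀ (by norm_num)] at h2
      have h4 : Real.exp ((1 + |x|) / 2) = Real.exp (1 / 2) * Real.exp (|x| / 2) := by
        rw [← Real.exp_add]
        congr 1
        ring
      rw [h4] at h2
      have h5 := exp_half_le'
      have h6 := Real.exp_pos (|x| / 2)
      have h7 : ((1 + |x|) / 2) ^ 6 = (1 + |x|) ^ 6 / 64 := by ring
      rw [h7] at h2
      nlinarith
    have h8 : psi K x * ENNReal.ofReal ((1 + |x|) ^ 6)
        ≤ ENNReal.ofReal 92160 * ENNReal.ofReal (Real.exp (-(1 / 2) * |x|)) := by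
      refine (mul_le_mul' (psi_le_exp hK x) (ENNReal.ofReal_le_ofReal h1)).trans (le_of_eq ?_)
      rw [← ENNReal.ofReal_mul (Real.exp_pos _).le, ← ENNReal.ofReal_mul (by norm_num)]
      congr 1
      have : Real.exp (-(1 / 2) * |x|) = Real.exp (-|x|) * Real.exp (|x| / 2) := by
        rw [← Real.exp_add]
        congr 1
        ring
      rw [this]
      ring
    refine h8.trans (mul_le_mul' le_rfl ?_)
    rcases le_total 0 x with h | h
    · have : η x = ENNReal.ofReal (Real.exp (-(1 / 2) * |x|)) := by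
        rw [hη, Set.indicator_of_mem (show x ∈ Set.Ici (0 : ℝ) from h), abs_of_nonneg h]
      rw [this]
      exact le_self_add
    · have : η (-x) = ENNReal.ofReal (Real.exp (-(1 / 2) * |x|)) := by
        rw [hη, Set.indicator_of_mem (show -x ∈ Set.Ici (0 : ℝ) from neg_nonneg.2 h),
          abs_of_nonpos h]
      rw [this]
      exact le_add_self
  calc ∫⁻ x, psi K x * ENNReal.ofReal ((1 + |x|) ^ 6)
      ≤ ∫⁻ x, ENNReal.ofReal 92160 * (η x + η (-x)) := lintegral_mono hpt
    _ = ENNReal.ofReal 92160 * (ENNReal.ofReal 2 + ENNReal.ofReal 2) := by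
        rw [lintegral_const_mul _ (by fun_prop), lintegral_add_left hηm, lintegral_neg_eq_self η,
          hηi]
    _ = ENNReal.ofReal c6 := by
        rw [← ENNReal.ofReal_add (by norm_num) (by norm_num), ← ENNReal.ofReal_mul (by norm_num),
          c6]
        norm_num

/-- The product envelope. -/
noncomputable def gden {ι : Type*} [Fintype ι] (K : ℝ) (ω : ι → ℝ) : ℝ≥0∞ := ∏ i, psi K (ω i)

theorem measurable_gden {ι : Type*} [Fintype ι] (K : ℝ) :
    Measurable (gden K : (ι → ℝ) → ℝ≥0∞) := by
  unfold gden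
  exact Finset.measurable_fun_prod _ fun i _ => (measurable_psi K).comp (measurable_pi_apply i)

theorem gden_lip {ι : Type*} [Fintype ι] {K : ℝ} (hK : 0 ≤ K) (x y : ι → ℝ) :
    gden K y ≤ ENNReal.ofReal (Real.exp (K * ∑ i, |x i - y i|)) * gden K x := by
  unfold gden
  have h1 : Real.exp (K * ∑ i, |x i - y i|) = ∏ i, Real.exp (K * |x i - y i|) := by
    rw [Finset.mul_sum, Real.exp_sum]
  rw [h1, ENNReal.ofReal_prod_of_nonneg fun i _ => (Real.exp_pos _).le, ← Finset.prod_mul_distrib]
  exact Finset.prod_le_prod' fun i _ => psi_lip hK (x i) (y i)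

theorem lintegral_gauss_le {ι : Type*} [Fintype ι] [DecidableEq ι] (K : ℝ)
    (F : (ι → ℝ) → ℝ≥0∞) :
    ∫⁻ ω, F ω ∂(Measure.pi fun _ : ι => gaussianReal 0 1) ≤ ∫⁻ ω, gden K ω * F ω := by
  have hgm : Measurable fun ω : ι → ℝ => ∏ i, gaussianPDF 0 1 (ω i) :=
    Finset.measurable_fun_prod _ fun i _ =>
      (measurable_gaussianPDF 0 1).comp (measurable_pi_apply i)
  have h1 : Measure.pi (fun _ : ι => gaussianReal 0 1)
      = volume.withDensity fun ω : ι → ℝ => ∏ i, gaussianPDF 0 1 (ω i) := by
    refine Measure.pi_eq fun s hs => ?_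
    have hsm : MeasurableSet (Set.univ.pi s) := MeasurableSet.univ_pi hs
    rw [withDensity_apply _ hsm, ← lintegral_indicator hsm]
    have h2 : ∀ ω : ι → ℝ, (Set.univ.pi s).indicator (fun ω => ∏ i, gaussianPDF 0 1 (ω i)) ω
        = ∏ i, (s i).indicator (gaussianPDF 0 1) (ω i) := by
      intro ω
      by_cases hω : ω ∈ Set.univ.pi s
      · rw [Set.indicator_of_mem hω]
        refine Finset.prod_congr rfl fun i _ => ?_
        rw [Set.indicator_of_mem (hω i (Set.mem_univ i))]
      · rw [Set.indicator_of_notMem hω]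
        simp only [Set.mem_pi, Set.mem_univ, forall_const, not_forall] at hω
        obtain ⟨i, hi⟩ := hω
        symm
        apply Finset.prod_eq_zero (Finset.mem_univ i)
        rw [Set.indicator_of_notMem hi]
    simp only [h2]
    rw [lintegral_pi_prod _ fun i => (measurable_gaussianPDF 0 1).indicator (hs i)]
    refine Finset.prod_congr rfl fun i _ => ?_
    rw [lintegral_indicator (hs i), gaussianReal_apply 0 one_ne_zero]
  rw [h1]
  refine (lintegral_withDensity_le_lintegral_mul _ hgm F).trans ?_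
  refine lintegral_mono fun ω => ?_
  simp only [Pi.mul_apply]
  refine mul_le_mul' ?_ le_rfl
  unfold gden
  exact Finset.prod_le_prod' fun i _ => pdf_le_psi K (ω i)

/-- The mass of the product envelope. -/
theorem lintegral_gden_le {ι : Type*} [Fintype ι] [DecidableEq ι] {K : ℝ}
    (hK : (Fintype.card ι : ℝ) + 1 ≤ K) : ∫⁻ ω : ι → ℝ, gden K ω ≤ ENNReal.ofReal (Real.exp 1) := by
  have hc : (0 : ℝ) ≤ Fintype.card ι := Nat.cast_nonneg _
  have hK1 : 1 ≤ K := by linarith
  unfold gden
  rw [lintegral_pi_prod _ fun _ => measurable_psi K]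
  calc ∏ _i : ι, ∫⁻ a, psi K a ≤ ∏ _i : ι, ENNReal.ofReal (1 + 1 / K) :=
        Finset.prod_le_prod' fun i _ => lintegral_psi_le hK1
    _ = ENNReal.ofReal ((1 + 1 / K) ^ Fintype.card ι) := by
        rw [Finset.prod_const, Finset.card_univ, ENNReal.ofReal_pow (by positivity)]
    _ ≤ _ := by
        apply ENNReal.ofReal_le_ofReal
        have h1 : 1 + 1 / K ≤ Real.exp (1 / K) := by
          have := Real.add_one_le_exp (1 / K)
          linarith
        calc (1 + 1 / K) ^ Fintype.card ι ≤ (Real.exp (1 / K)) ^ Fintype.card ι :=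
              pow_le_pow_left₀ (by positivity) h1 _
          _ = Real.exp (Fintype.card ι * (1 / K)) := by rw [← Real.exp_nat_mul]
          _ ≤ Real.exp 1 := by
              apply Real.exp_le_exp.2
              rw [mul_one_div, div_le_one (by linarith)]
              linarith

/-- The sixth moment of one coordinate under the product envelope. -/
theorem lintegral_gden_moment {ι : Type*} [Fintype ι] [DecidableEq ι] {K : ℝ}
    (hK : (Fintype.card ι : ℝ) + 1 ≤ K) (j : ι) :
    ∫⁻ ω : ι → ℝ, gden K ω * ENNReal.ofReal ((1 + |ω j|) ^ 6)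
      ≤ ENNReal.ofReal (Real.exp 1 * c6) := by
  have hc : (0 : ℝ) ≤ Fintype.card ι := Nat.cast_nonneg _
  have hK1 : 1 ≤ K := by linarith
  set f : ι → ℝ → ℝ≥0∞ := fun i a =>
    psi K a * (if i = j then ENNReal.ofReal ((1 + |a|) ^ 6) else 1) with hf
  have hfm : ∀ i, Measurable (f i) := by
    intro i
    simp only [hf]
    refine (measurable_psi K).mul ?_
    split_ifs
    · fun_prop
    · exact measurable_const
  have h1 : ∀ ω : ι → ℝ, gden K ω * ENNReal.ofReal ((1 + |ω j|) ^ 6) = ∏ i, f i (ω i) := by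
    intro ω
    simp only [hf, gden]
    rw [Finset.prod_mul_distrib]
    congr 1
    rw [Finset.prod_ite_eq' Finset.univ j (fun i => ENNReal.ofReal ((1 + |ω i|) ^ 6))]
    simp
  simp only [h1]
  rw [lintegral_pi_prod f hfm, ← Finset.mul_prod_erase _ _ (Finset.mem_univ j)]
  have h2 : ∫⁻ a, f j a ≤ ENNReal.ofReal c6 := by
    simp only [hf, if_true]
    exact lintegral_psi_moment hK1
  have h3 : ∏ i ∈ Finset.univ.erase j, ∫⁻ a, f i a ≤ ENNReal.ofReal (Real.exp 1) := by
    calc ∏ i ∈ Finset.univ.erase j, ∫⁻ a, f i a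
        ≤ ∏ _i ∈ Finset.univ.erase j, ENNReal.ofReal (1 + 1 / K) := by
          refine Finset.prod_le_prod' fun i hi => ?_
          have hij : i ≠ j := Finset.ne_of_mem_erase hi
          simp only [hf, if_neg hij, mul_one]
          exact lintegral_psi_le hK1
      _ = ENNReal.ofReal ((1 + 1 / K) ^ (Fintype.card ι - 1)) := by
          rw [Finset.prod_const, Finset.card_erase_of_mem (Finset.mem_univ j), Finset.card_univ,
            ENNReal.ofReal_pow (by positivity)]
      _ ≤ _ := by
          apply ENNReal.ofReal_le_ofReal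
          have h1 : 1 + 1 / K ≤ Real.exp (1 / K) := by
            have := Real.add_one_le_exp (1 / K)
            linarith
          calc (1 + 1 / K) ^ (Fintype.card ι - 1) ≤ (Real.exp (1 / K)) ^ (Fintype.card ι - 1) :=
                pow_le_pow_left₀ (by positivity) h1 _
            _ = Real.exp ((Fintype.card ι - 1 : ℕ) * (1 / K)) := by rw [← Real.exp_nat_mul]
            _ ≤ Real.exp 1 := by
                apply Real.exp_le_exp.2
                rw [mul_one_div, div_le_one (by linarith)]
                have : ((Fintype.card ι - 1 : ℕ) : ℝ) ≤ Fintype.card ι := by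
                  exact_mod_cast Nat.sub_le _ _
                linarith
  calc (∫⁻ a, f j a) * ∏ i ∈ Finset.univ.erase j, ∫⁻ a, f i a
      ≤ ENNReal.ofReal c6 * ENNReal.ofReal (Real.exp 1) := mul_le_mul' h2 h3
    _ = _ := by
        rw [← ENNReal.ofReal_mul (by norm_num [c6]), mul_comm]

end Pool.Agent.Lib.MP_84734f_lc
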