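import Pool.Agent.Lib.MP_84734f_lc.Pivoting

/-!
# Almost all data are nondegenerate
-/

set_option autoImplicit false

namespace Pool.Agent.Lib.MP_84734f_lc

open Matrix Finset MeasureTheory ProbabilityTheory
open scoped ENNReal

variable {m n : ℕ}

theorem measurable_pv (e : Fin m ⊕ Fin n ≃ Fin n ⊕ Fin m) (i : Fin m ⊕ Fin n) :
    Measurable fun x : X m n => pv e x.1 x.2.1 x.2.2 i := by
  rcases i with k | k
  · exact measurable_Pinv e (fun x => x.2.1) (by fun_prop) k
  · exact measurable_Qinv e (fun x => x.2.2) (by fun_prop) k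

theorem measurable_qv (e : Fin m ⊕ Fin n ≃ Fin n ⊕ Fin m) (i : Fin m ⊕ Fin n) :
    Measurable fun x : X m n => qv e x.1 i := by
  rcases i with k | k
  · exact measurable_Pinv e (fun _ _ => 1) (by fun_prop) k
  · exact (measurable_Qinv e (fun _ _ => 1) (by fun_prop) k).neg

theorem measurable_detP (e : Fin m ⊕ Fin n ≃ Fin n ⊕ Fin m) :
    Measurable fun x : X m n => (Pm e x.1).det :=
  ((continuous_Pm e).comp continuous_fst).matrix_det.measurable

/-- The basic quantities as a linear function of the right-hand side and the costs. -/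
noncomputable def coordLin (e : Fin m ⊕ Fin n ≃ Fin n ⊕ Fin m) (A : Fin m × Fin n → ℝ) :
    ((Fin m → ℝ) × (Fin n → ℝ)) →ₗ[ℝ] (Fin m ⊕ Fin n → ℝ) where
  toFun y := pv e A y.1 y.2
  map_add' x y := by
    funext i
    rcases i with k | k
    · simp [pv, mulVec_add]
    · simp [pv, mulVec_add]
  map_smul' a x := by
    funext i
    rcases i with k | k
    · simp [pv, mulVec_smul]
    · simp [pv, mulVec_smul]

theorem coordLin_surj {e : Fin m ⊕ Fin n ≃ Fin n ⊕ Fin m} {A : Fin m × Fin n → ℝ}
    (hP : (Pm e A).det ≠ 0) (w : Fin m ⊕ Fin n → ℝ) : ∃ y, coordLin e A y = w := by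
  refine ⟨(Pm e A *ᵥ fun k => w (Sum.inl k), Qm e A *ᵥ fun k => w (Sum.inr k)), ?_⟩
  have h1 : IsUnit (Pm e A).det := isUnit_iff_ne_zero.2 hP
  have h2 : IsUnit (Qm e A).det := isUnit_iff_ne_zero.2 (det_Qm_ne_zero e hP)
  funext i
  rcases i with k | k
  · simp [coordLin, pv, mulVec_mulVec, nonsing_inv_mul _ h1]
  · simp [coordLin, pv, mulVec_mulVec, nonsing_inv_mul _ h2]

theorem null_functional {e : Fin m ⊕ Fin n ≃ Fin n ⊕ Fin m} {A : Fin m × Fin n → ℝ}
    (hP : (Pm e A).det ≠ 0) {u : Fin m ⊕ Fin n → ℝ} (hu : u ≠ 0) :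
    (volume : Measure ((Fin m → ℝ) × (Fin n → ℝ)))
      {y | ∑ i, u i * pv e A y.1 y.2 i = 0} = 0 := by
  set φ : (Fin m ⊕ Fin n → ℝ) →ₗ[ℝ] ℝ := ∑ i, u i • LinearMap.proj i with hφ
  have h1 : {y : (Fin m → ℝ) × (Fin n → ℝ) | ∑ i, u i * pv e A y.1 y.2 i = 0}
      = (LinearMap.ker (φ.comp (coordLin e A)) : Set _) := by
    ext y
    simp [hφ, coordLin]
  rw [h1]
  have hhaar : (volume : Measure ((Fin m → ℝ) × (Fin n → ℝ))).IsAddHaarMeasure :=
    Measure.prod.instIsAddHaarMeasure volume volume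
  apply Measure.addHaar_submodule
  intro htop
  apply hu
  classical
  funext i
  obtain ⟨y, hy⟩ := coordLin_surj hP (Pi.single i 1)
  have h2 : y ∈ LinearMap.ker (φ.comp (coordLin e A)) := by
    rw [htop]
    exact Submodule.mem_top
  rw [LinearMap.mem_ker, LinearMap.comp_apply, hy] at h2
  simp only [hφ, LinearMap.sum_apply, LinearMap.smul_apply, LinearMap.proj_apply, smul_eq_mul,
    Pi.single_apply, mul_ite, mul_one, mul_zero, Finset.sum_ite_eq', Finset.mem_univ,
    if_true] at h2
  exact h2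

theorem ae_functional (e : Fin m ⊕ Fin n ≃ Fin n ⊕ Fin m)
    (g : (Fin m × Fin n → ℝ) → Fin m ⊕ Fin n → ℝ)
    (hg : ∀ i, Measurable fun x : X m n => g x.1 i) :
    ∀ᵐ x : X m n, (Pm e x.1).det ≠ 0 → g x.1 ≠ 0 →
      ∑ i, g x.1 i * pv e x.1 x.2.1 x.2.2 i ≠ 0 := by
  have hg' : Measurable fun x : X m n => g x.1 := measurable_pi_lambda _ hg
  set s : Set (X m n) := {x | (Pm e x.1).det ≠ 0 ∧ g x.1 ≠ 0 ∧
    ∑ i, g x.1 i * pv e x.1 x.2.1 x.2.2 i = 0} with hs
  have hsm : MeasurableSet s := by
    have h1 : MeasurableSet {x : X m n | (Pm e x.1).det ≠ 0} :=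
      (measurableSet_eq_fun (measurable_detP e) measurable_const).compl
    have h2 : MeasurableSet {x : X m n | g x.1 ≠ 0} :=
      (measurableSet_eq_fun hg' measurable_const).compl
    have h3 : MeasurableSet {x : X m n | ∑ i, g x.1 i * pv e x.1 x.2.1 x.2.2 i = 0} :=
      measurableSet_eq_fun (Finset.measurable_fun_sum _ fun i _ =>
        (hg i).mul (measurable_pv e i)) measurable_const
    exact h1.inter (h2.inter h3)
  have h0 : (volume : Measure (X m n)) s = 0 := by
    rw [Measure.volume_eq_prod, Measure.measure_prod_null hsm]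
    refine Filter.Eventually.of_forall fun A => ?_
    by_cases hA : (Pm e A).det ≠ 0 ∧ g A ≠ 0
    · refine measure_mono_null ?_ (null_functional hA.1 hA.2)
      intro y hy
      exact hy.2.2
    · have : Prod.mk A ⁻¹' s = ∅ := by
        ext y
        simp only [hs, Set.mem_preimage, Set.mem_ofPred_eq, Set.mem_empty_iff_false, iff_false]
        rintro ⟨h1, h2, -⟩
        exact hA ⟨h1, h2⟩
      change (volume : Measure ((Fin m → ℝ) × (Fin n → ℝ))) (Prod.mk A ⁻¹' s) = 0
      rw [this, measure_empty]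
  rw [ae_iff]
  refine measure_mono_null ?_ h0
  intro x hx
  simp only [Set.mem_ofPred_eq, not_forall] at hx
  obtain ⟨h1, h2, h3⟩ := hx
  exact ⟨h1, h2, not_not.1 h3⟩

theorem ae_ND : ∀ᵐ x : X m n, ND x.1 x.2.1 x.2.2 := by
  classical
  unfold ND
  rw [ae_all_iff]
  intro e
  have h1 : ∀ᵐ x : X m n, ∀ i, (Pm e x.1).det ≠ 0 → pv e x.1 x.2.1 x.2.2 i ≠ 0 := by
    rw [ae_all_iff]
    intro i
    filter_upwards [ae_functional e (fun _ => Pi.single i 1) (fun _ => measurable_const)]
      with x hx hP h0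
    refine hx hP ?_ ?_
    · intro h
      have := congrFun h i
      simp at this
    · rw [Finset.sum_eq_single i]
      · rw [h0, mul_zero]
      · intro j _ hj
        rw [Pi.single_apply, if_neg hj, zero_mul]
      · intro hi
        exact absurd (Finset.mem_univ i) hi
  have h2 : ∀ᵐ x : X m n, ∀ i j, i ≠ j → (Pm e x.1).det ≠ 0 →
      (qv e x.1 i ≠ 0 ∨ qv e x.1 j ≠ 0) →
      qv e x.1 j * pv e x.1 x.2.1 x.2.2 i ≠ qv e x.1 i * pv e x.1 x.2.1 x.2.2 j := by
    rw [ae_all_iff]
    intro i
    rw [ae_all_iff]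
    intro j
    filter_upwards [ae_functional e
      (fun A => Pi.single i (qv e A j) - Pi.single j (qv e A i)) (fun l => by
        simp only [Pi.sub_apply, Pi.single_apply]
        refine Measurable.sub ?_ ?_
        · by_cases hl : l = i
          · simp only [hl, if_true]
            exact measurable_qv e j
          · simp only [hl, if_false]
            exact measurable_const
        · by_cases hl : l = j
          · simp only [hl, if_true]
            exact measurable_qv e i
          · simp only [hl, if_false]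
            exact measurable_const)] with x hx hij hP hq h0
    refine hx hP ?_ ?_
    · intro h
      have hi := congrFun h i
      have hj := congrFun h j
      simp only [Pi.sub_apply, Pi.single_apply, if_true, Pi.zero_apply, if_neg hij,
        if_neg (Ne.symm hij), sub_zero, zero_sub, neg_eq_zero] at hi hj
      rcases hq with h | h
      · exact h hj
      · exact h hi
    · simp only [Pi.sub_apply, sub_mul, Finset.sum_sub_distrib, Pi.single_apply, ite_mul,
        zero_mul, Finset.sum_ite_eq', Finset.mem_univ, if_true]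
      rw [h0, sub_self]
  filter_upwards [h1, h2] with x hx1 hx2 hP
  exact ⟨fun i => hx1 i hP, fun i j hij hq => hx2 i j hij hP hq⟩

/-- Transfer to Gaussian data. -/
theorem ae_gauss {p : X m n → Prop} (h : ∀ᵐ x, p x) {s : ℝ} (hs : 0 < s) (x₀ : Ix m n → ℝ) :
    ∀ᵐ ω ∂(Measure.pi fun _ : Ix m n => gaussianReal 0 1), p (toX (x₀ + s • ω)) := by
  set T : Set (X m n) := toMeasurable volume {x | ¬ p x} with hT
  have hTm : MeasurableSet T := measurableSet_toMeasurable _ _
  have hT0 : (volume : Measure (X m n)) T = 0 := by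
    rw [hT, measure_toMeasurable]
    exact h
  set Φ : X m n → ℝ≥0∞ := T.indicator fun _ => 1 with hΦ
  have hΦm : Measurable Φ := measurable_const.indicator hTm
  have h1 : ∫⁻ x, fden 1 s x₀ x * Φ x = 0 := by
    have h2 : (fun x => fden 1 s x₀ x * Φ x) =ᵐ[volume] 0 := by
      have h3 : ∀ᵐ x : X m n, x ∉ T := measure_eq_zero_iff_ae_notMem.1 hT0
      filter_upwards [h3] with x hx
      simp [hΦ, hx]
    rw [lintegral_congr_ae h2]
    simp
  have h4 : ∫⁻ ω, Φ (toX (x₀ + s • ω)) ∂(Measure.pi fun _ : Ix m n => gaussianReal 0 1) = 0 := by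
    refine le_antisymm ?_ zero_le
    refine (lintegral_gauss_le 1 _).trans ?_
    rw [← lintegral_fden hs x₀ hΦm, h1]
  have hm : Measurable fun ω : Ix m n → ℝ => Φ (toX (x₀ + s • ω)) :=
    hΦm.comp (measurable_toX.comp (by fun_prop))
  rw [lintegral_eq_zero_iff hm] at h4
  filter_upwards [h4] with ω hω
  by_contra hp
  have h5 : toX (x₀ + s • ω) ∈ T := subset_toMeasurable _ _ hp
  simp [hΦ, h5] at hω

end Pool.Agent.Lib.MP_84734f_lc
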