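import Pool.Agent.Lib.MP_84734f_lc.Bound

/-!
# The probability of hitting a dual wall along the parametric path
-/

set_option autoImplicit false

namespace Pool.Agent.Lib.MP_84734f_lc

open Matrix Finset MeasureTheory
open scoped ENNReal

variable {m n : ℕ}

section

variable (e : Fin m ⊕ Fin n ≃ Fin n ⊕ Fin m) (k : Fin n)

theorem measurable_inv_entry {α : Type*} [MeasurableSpace α] {N : ℕ}
    {M : α → Matrix (Fin N) (Fin N) ℝ} (hdet : Measurable fun x => (M x).det)
    (hadj : ∀ i j, Measurable fun x => (M x).adjugate i j) (i j : Fin N) :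
    Measurable fun x => (M x)⁻¹ i j := by
  have h : ∀ x, (M x)⁻¹ i j = ((M x).det)⁻¹ * (M x).adjugate i j := by
    intro x
    rw [Matrix.inv_def, Matrix.smul_apply, smul_eq_mul, Ring.inverse_eq_inv']
  simp only [h]
  exact hdet.inv.mul (hadj i j)

theorem measurable_Pinv (v : X m n → Fin m → ℝ) (hv : Measurable v) (l : Fin m) :
    Measurable fun x : X m n => ((Pm e x.1)⁻¹ *ᵥ v x) l := by
  simp only [mulVec, dotProduct]
  refine Finset.measurable_fun_sum _ fun j _ => ?_
  have hc : Continuous fun x : X m n => Pm e x.1 := (continuous_Pm e).comp continuous_fst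
  exact (measurable_inv_entry hc.matrix_det.measurable
    (fun i j => (hc.matrix_adjugate.matrix_elem i j).measurable) l j).mul
      ((measurable_pi_apply j).comp hv)

theorem measurable_Qinv (v : X m n → Fin n → ℝ) (hv : Measurable v) (l : Fin n) :
    Measurable fun x : X m n => ((Qm e x.1)⁻¹ *ᵥ v x) l := by
  simp only [mulVec, dotProduct]
  refine Finset.measurable_fun_sum _ fun j _ => ?_
  have hc : Continuous fun x : X m n => Qm e x.1 := (continuous_Qm e).comp continuous_fst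
  exact (measurable_inv_entry hc.matrix_det.measurable
    (fun i j => (hc.matrix_adjugate.matrix_elem i j).measurable) l j).mul
      ((measurable_pi_apply j).comp hv)

/-- The parameter at which the `k`-th dual variable vanishes. -/
noncomputable def td (x : X m n) : ℝ :=
  ((Qm e x.1)⁻¹ *ᵥ x.2.2) k / ((Qm e x.1)⁻¹ *ᵥ (fun _ => (1 : ℝ))) k

/-- The set of data for which the `k`-th dual variable vanishes on the path. -/
def HD : Set (X m n) :=
  {x | (Pm e x.1).det ≠ 0 ∧ ((Qm e x.1)⁻¹ *ᵥ (fun _ => (1 : ℝ))) k ≠ 0 ∧ 0 ≤ td e k x ∧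
    td e k x ≤ l1 x.2.1 + l1 x.2.2 ∧
    (∀ l, 0 ≤ ((Pm e x.1)⁻¹ *ᵥ (fun i => x.2.1 i + td e k x)) l) ∧
    ∀ i, 0 ≤ ((Qm e x.1)⁻¹ *ᵥ (fun j => x.2.2 j - td e k x)) i}

theorem HitD_mem {x : X m n} (h : HitD e k x.1 x.2.1 x.2.2) : x ∈ HD e k := by
  obtain ⟨hP, h1, t, ht0, ht1, ⟨hz, hζ⟩, h0⟩ := h
  have ht : td e k x = t := by
    rw [mulVec_shift'] at h0
    unfold td
    rw [div_eq_iff h1]
    linarith
  refine ⟨hP, h1, ?_⟩
  rw [ht]
  exact ⟨ht0, ht1, hz, hζ⟩

theorem measurable_td : Measurable (td e k : X m n → ℝ) := by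
  unfold td
  exact (measurable_Qinv e (fun x => x.2.2) (by fun_prop) k).div
    (measurable_Qinv e (fun _ _ => 1) (by fun_prop) k)

theorem measurableSet_HD : MeasurableSet (HD e k : Set (X m n)) := by
  have ht := measurable_td e k
  have h1 : MeasurableSet {x : X m n | (Pm e x.1).det ≠ 0} := by
    have : Measurable fun x : X m n => (Pm e x.1).det :=
      ((continuous_Pm e).comp continuous_fst).matrix_det.measurable
    exact (measurableSet_eq_fun this measurable_const).compl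
  have h2 : MeasurableSet {x : X m n | ((Qm e x.1)⁻¹ *ᵥ (fun _ => (1 : ℝ))) k ≠ 0} :=
    (measurableSet_eq_fun (measurable_Qinv e (fun _ _ => 1) (by fun_prop) k)
      measurable_const).compl
  have h3 : MeasurableSet {x : X m n | 0 ≤ td e k x} := measurableSet_le measurable_const ht
  have h4 : MeasurableSet {x : X m n | td e k x ≤ l1 x.2.1 + l1 x.2.2} :=
    measurableSet_le ht ((continuous_l1.comp (continuous_fst.comp continuous_snd)).add
      (continuous_l1.comp (continuous_snd.comp continuous_snd))).measurable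
  have h5 : MeasurableSet {x : X m n | ∀ l, 0 ≤ ((Pm e x.1)⁻¹ *ᵥ
      (fun i => x.2.1 i + td e k x)) l} := by
    rw [Set.ofPred_forall]
    refine MeasurableSet.iInter fun l => measurableSet_le measurable_const ?_
    exact measurable_Pinv e _ (by fun_prop) l
  have h6 : MeasurableSet {x : X m n | ∀ i, 0 ≤ ((Qm e x.1)⁻¹ *ᵥ
      (fun j => x.2.2 j - td e k x)) i} := by
    rw [Set.ofPred_forall]
    refine MeasurableSet.iInter fun l => measurableSet_le measurable_const ?_
    exact measurable_Qinv e _ (by fun_prop) l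
  exact h1.inter (h2.inter (h3.inter (h4.inter (h5.inter h6))))

end

/-- Move the data back along the parametric direction. -/
def mv (t : ℝ) (x : X m n) : X m n := (x.1, (fun i => x.2.1 i - t), fun j => x.2.2 j + t)

/-- The density transported to the parameter `t`. -/
noncomputable def sh (f : X m n → ℝ≥0∞) (t : ℝ) (x : X m n) : ℝ≥0∞ :=
  f (mv t x) * ENNReal.ofReal ((Sx (mv t x) / (1 + t)) ^ 4)

theorem continuous_mv : Continuous fun p : ℝ × X m n => mv p.1 p.2 := by
  unfold mv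
  fun_prop

theorem measurable_sh {f : X m n → ℝ≥0∞} (hf : Measurable f) :
    Measurable fun p : ℝ × X m n => sh f p.1 p.2 := by
  unfold sh
  have h1 := (continuous_mv (m := m) (n := n)).measurable
  have h2 : Measurable fun p : ℝ × X m n => Sx (mv p.1 p.2) := continuous_Sx.measurable.comp h1
  exact (hf.comp h1).mul (((h2.div (by fun_prop)).pow_const 4).ennreal_ofReal)

theorem Sx_le_exp (x y : X m n) : Sx y ≤ Real.exp (dist1 x y) * Sx x := by
  have h1 := l1_le_add y.1 x.1
  have h2 := l1_le_add y.2.1 x.2.1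
  have h3 := l1_le_add y.2.2 x.2.2
  rw [l1_sub_comm] at h1 h2 h3
  have h4 : Sx y ≤ Sx x + dist1 x y := by
    unfold Sx dist1
    linarith
  have h5 := Real.add_one_le_exp (dist1 x y)
  have h6 := Sx_ge x
  have h7 : 0 ≤ dist1 x y := by
    unfold dist1
    have a1 := l1_nonneg (x.1 - y.1)
    have a2 := l1_nonneg (x.2.1 - y.2.1)
    have a3 := l1_nonneg (x.2.2 - y.2.2)
    linarith
  nlinarith

theorem dist1_mv (t : ℝ) (x y : X m n) : dist1 (mv t x) (mv t y) = dist1 x y := by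
  unfold dist1 mv
  have h1 : (fun i => x.2.1 i - t) - (fun i => y.2.1 i - t) = x.2.1 - y.2.1 := by
    funext i
    simp
  have h2 : (fun i => x.2.2 i + t) - (fun i => y.2.2 i + t) = x.2.2 - y.2.2 := by
    funext i
    simp
  simp only [h1, h2]

theorem LL_sh {f : X m n → ℝ≥0∞} {κ : ℝ} (hf : LL κ f) {t : ℝ} (ht : 0 ≤ t) :
    LL (κ + 4) (sh f t) := by
  intro x y
  have h1 := hf (mv t x) (mv t y)
  rw [dist1_mv] at h1
  have h2 := Sx_le_exp (mv t x) (mv t y)
  rw [dist1_mv] at h2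
  have hSx := Sx_ge (mv t x)
  have hSy := Sx_ge (mv t y)
  have h3 : (Sx (mv t y) / (1 + t)) ^ 4
      ≤ Real.exp (4 * dist1 x y) * (Sx (mv t x) / (1 + t)) ^ 4 := by
    have h4 : Real.exp (4 * dist1 x y) = Real.exp (dist1 x y) ^ 4 := by
      rw [← Real.exp_nat_mul]
      norm_num
    rw [h4, ← mul_pow]
    refine pow_le_pow_left₀ (by positivity) ?_ 4
    rw [← mul_div_assoc]
    gcongr
  unfold sh
  calc f (mv t y) * ENNReal.ofReal ((Sx (mv t y) / (1 + t)) ^ 4)
      ≤ (ENNReal.ofReal (Real.exp (κ * dist1 x y)) * f (mv t x)) *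
        ENNReal.ofReal (Real.exp (4 * dist1 x y) * (Sx (mv t x) / (1 + t)) ^ 4) :=
        mul_le_mul' h1 (ENNReal.ofReal_le_ofReal h3)
    _ = _ := by
        have h5 : Real.exp ((κ + 4) * dist1 x y)
            = Real.exp (κ * dist1 x y) * Real.exp (4 * dist1 x y) := by
          rw [← Real.exp_add]
          congr 1
          ring
        rw [h5, ENNReal.ofReal_mul (Real.exp_pos _).le, ENNReal.ofReal_mul (Real.exp_pos _).le]
        ring

section

variable (e : Fin m ⊕ Fin n ≃ Fin n ⊕ Fin m) (k : Fin n)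

/-- The domain with unbounded last coordinate. -/
def Dom0 (m : ℕ) {n : ℕ} (k : Fin n) : Set (X m n) :=
  {y | (∀ l, 0 < y.2.1 l) ∧ (∀ i, i ≠ k → 0 < y.2.2 i) ∧ 0 ≤ y.2.2 k}

theorem measurableSet_Dom0 (k : Fin n) : MeasurableSet (Dom0 m k) := by
  have h1 : MeasurableSet {y : X m n | ∀ l, 0 < y.2.1 l} := by
    rw [Set.ofPred_forall]
    exact MeasurableSet.iInter fun l => measurableSet_lt measurable_const (by fun_prop)
  have h2 : MeasurableSet {y : X m n | ∀ i, i ≠ k → 0 < y.2.2 i} := by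
    rw [Set.ofPred_forall]
    refine MeasurableSet.iInter fun i => ?_
    by_cases h : i = k
    · simp [h]
    · simp only [ne_eq, h, not_false_eq_true, forall_const]
      exact measurableSet_lt measurable_const (by fun_prop)
  have h3 : MeasurableSet {y : X m n | 0 ≤ y.2.2 k} :=
    measurableSet_le measurable_const (by fun_prop)
  exact h1.inter (h2.inter h3)

/-- The density of the hit, in the coordinates of the wall and the parameter. -/
noncomputable def Hd (f : X m n → ℝ≥0∞) : X m n → ℝ≥0∞ :=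
  (Dom0 m k).indicator fun y =>
    ENNReal.ofReal (|(Pm e y.1).det| * ∑ j, Wt e k j y.1) * sh f (y.2.2 k) (pt e k y)

theorem measurable_Hd {f : X m n → ℝ≥0∞} (hf : Measurable f) : Measurable (Hd e k f) := by
  unfold Hd
  refine Measurable.indicator ?_ (measurableSet_Dom0 k)
  have h1 : Measurable fun y : X m n => |(Pm e y.1).det| * ∑ j, Wt e k j y.1 := by
    have := (continuous_wt e k 1).measurable
    simpa only [one_mul] using this
  have h2 : Measurable fun y : X m n => sh f (y.2.2 k) (pt e k y) := by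
    have h3 : Measurable fun y : X m n => (y.2.2 k, pt e k y) :=
      Measurable.prodMk (by fun_prop) (continuous_pt e k).measurable
    exact (measurable_sh hf).comp h3
  exact h1.ennreal_ofReal.mul h2

theorem abs_det_one_le (A : Fin m × Fin n → ℝ) :
    |((Qm e A).updateCol k (fun _ => (1 : ℝ))).det| ≤ ∑ j, Wt e k j A := by
  have h1 : (fun _ => (1 : ℝ)) = ∑ j : Fin n, (Pi.single j 1 : Fin n → ℝ) := by
    funext i
    simp [Finset.sum_apply, Pi.single_apply]
  have h2 : ∀ s : Finset (Fin n), |((Qm e A).updateCol k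
      (∑ j ∈ s, (Pi.single j 1 : Fin n → ℝ))).det| ≤ ∑ j ∈ s, Wt e k j A := by
    intro s
    induction s using Finset.induction_on with
    | empty =>
      have : ((Qm e A).updateCol k (0 : Fin n → ℝ)).det = 0 := by
        have := det_updateCol_smul (Qm e A) k (0 : ℝ) (0 : Fin n → ℝ)
        simpa using this
      simp [this]
    | insert j s hj ih =>
      rw [Finset.sum_insert hj, Finset.sum_insert hj, det_updateCol_add]
      exact (abs_add_le _ _).trans (add_le_add le_rfl ih)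
  rw [h1]
  exact h2 Finset.univ

theorem ae_ne_zero {N : ℕ} : ∀ᵐ z : Fin N → ℝ, ∀ l, z l ≠ 0 := by
  rw [ae_all_iff]
  intro l
  exact Measure.ae_eval_ne (fun _ => volume) l 0

theorem hit_point (f : X m n → ℝ≥0∞) {A : Fin m × Fin n → ℝ} (hP : (Pm e A).det ≠ 0)
    (hQ1 : ((Qm e A)⁻¹ *ᵥ (fun _ => (1 : ℝ))) k ≠ 0) {z : Fin m → ℝ} {ζ : Fin n → ℝ}
    (hz : ∀ l, z l ≠ 0) (hζ : ∀ l, ζ l ≠ 0) (b : Fin m → ℝ) (c : Fin n → ℝ)
    (hb : Pm e A *ᵥ z = fun i => b i + ζ k)
    (hc : c = Qm e A *ᵥ Function.update ζ k 0 + ζ k • (fun _ => (1 : ℝ))) :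
    (HD e k).indicator f (A, b, c) ≤
      (Dom0 m k).indicator (fun y => sh f (y.2.2 k) (pt e k y)) (A, z, ζ) := by
  by_cases hmem : ((A, b, c) : X m n) ∈ HD e k
  · rw [Set.indicator_of_mem hmem]
    have hQu : IsUnit (Qm e A).det := isUnit_iff_ne_zero.2 (det_Qm_ne_zero e hP)
    have hPu : IsUnit (Pm e A).det := isUnit_iff_ne_zero.2 hP
    obtain ⟨-, -, h3, h4, h5, h6⟩ := hmem
    have htd : td e k ((A, b, c) : X m n) = ζ k := by
      unfold td
      rw [div_eq_iff hQ1, hc, mulVec_add, mulVec_mulVec, nonsing_inv_mul _ hQu, one_mulVec,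
        mulVec_smul]
      simp
    rw [htd] at h3 h4 h5 h6
    have hzz : ∀ l, 0 ≤ z l := by
      intro l
      have h7 : 0 ≤ ((Pm e A)⁻¹ *ᵥ (fun i => b i + ζ k)) l := h5 l
      rwa [← hb, mulVec_mulVec, nonsing_inv_mul _ hPu, one_mulVec] at h7
    have hcc : (fun j => c j - ζ k) = Qm e A *ᵥ Function.update ζ k 0 := by
      funext i
      rw [hc]
      simp
    have hζζ : ∀ i, 0 ≤ Function.update ζ k 0 i := by
      intro i
      have h7 : 0 ≤ ((Qm e A)⁻¹ *ᵥ (fun j => c j - ζ k)) i := h6 i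
      rwa [hcc, mulVec_mulVec, nonsing_inv_mul _ hQu, one_mulVec] at h7
    have hmem2 : ((A, z, ζ) : X m n) ∈ Dom0 m k := by
      refine ⟨fun l => lt_of_le_of_ne (hzz l) (hz l).symm, fun i hi => ?_, h3⟩
      have := hζζ i
      rw [Function.update_of_ne hi] at this
      exact lt_of_le_of_ne this (hζ i).symm
    rw [Set.indicator_of_mem hmem2]
    have hmv : mv (ζ k) (pt e k ((A, z, ζ) : X m n)) = (A, b, c) := by
      unfold mv pt cw
      refine Prod.ext rfl (Prod.ext ?_ ?_)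
      · funext i
        change (Pm e A *ᵥ z) i - ζ k = b i
        rw [hb]
        ring
      · funext i
        change (Qm e A *ᵥ Function.update ζ k 0) i + ζ k = c i
        rw [← hcc]
        ring
    change f (A, b, c) ≤ sh f (ζ k) (pt e k ((A, z, ζ) : X m n))
    unfold sh
    rw [hmv]
    have hS : 1 ≤ (Sx ((A, b, c) : X m n) / (1 + ζ k)) ^ 4 := by
      apply one_le_pow₀
      rw [one_le_div (by linarith)]
      have h7 := l1_nonneg A
      have h8 : ζ k ≤ l1 b + l1 c := h4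
      change 1 + ζ k ≤ 1 + l1 A + l1 b + l1 c
      linarith
    calc f (A, b, c) = f (A, b, c) * 1 := (mul_one _).symm
      _ ≤ _ := by
        refine mul_le_mul' le_rfl ?_
        rw [← ENNReal.ofReal_one]
        exact ENNReal.ofReal_le_ofReal hS
  · rw [Set.indicator_of_notMem hmem]
    exact bot_le

theorem lintegral_change {Ψ : (Fin m → ℝ) → (Fin n → ℝ) → ℝ≥0∞}
    (hΨ : Measurable fun p : (Fin m → ℝ) × (Fin n → ℝ) => Ψ p.1 p.2)
    {P : Matrix (Fin m) (Fin m) ℝ} {M : Matrix (Fin n) (Fin n) ℝ} (hP : P.det ≠ 0)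
    (hM : M.det ≠ 0) (k : Fin n) :
    ∫⁻ b, ∫⁻ c, Ψ b c = ENNReal.ofReal |M.det| *
      ∫⁻ ζ : Fin n → ℝ, ENNReal.ofReal |P.det| *
        ∫⁻ z, Ψ (P *ᵥ z - fun _ => ζ k) (M *ᵥ ζ) := by
  have hMm : Measurable fun ζ : Fin n → ℝ => M *ᵥ ζ :=
    (Continuous.matrix_mulVec continuous_const continuous_id).measurable
  have hmap : Measurable fun p : (Fin m → ℝ) × (Fin n → ℝ) => (p.1, M *ᵥ p.2) :=
    Measurable.prodMk measurable_fst (hMm.comp measurable_snd)
  have hΨM : Measurable fun p : (Fin m → ℝ) × (Fin n → ℝ) => Ψ p.1 (M *ᵥ p.2) :=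
    hΨ.comp hmap
  have hsw : ∫⁻ b, ∫⁻ ζ, Ψ b (M *ᵥ ζ) = ∫⁻ ζ, ∫⁻ b, Ψ b (M *ᵥ ζ) :=
    lintegral_lintegral_swap hΨM.aemeasurable
  have s1 : ∫⁻ b, ∫⁻ c, Ψ b c = ENNReal.ofReal |M.det| * ∫⁻ ζ, ∫⁻ b, Ψ b (M *ᵥ ζ) := by
    rw [← hsw, ← lintegral_const_mul' _ _ ENNReal.ofReal_ne_top]
    refine lintegral_congr fun b => ?_
    exact (lintegral_mulVec hM _).symm
  rw [s1]
  congr 1
  refine lintegral_congr fun ζ => ?_
  rw [lintegral_mulVec hP (fun b => Ψ (b - fun _ => ζ k) (M *ᵥ ζ))]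
  exact (lintegral_sub_right_eq_self (fun b => Ψ b (M *ᵥ ζ)) (fun _ => ζ k)).symm

theorem hit_le_Hd {f : X m n → ℝ≥0∞} (hf : Measurable f) :
    ∫⁻ x, (HD e k).indicator f x ≤ ∫⁻ y, Hd e k f y := by
  have hHf : Measurable ((HD e k).indicator f) := hf.indicator (measurableSet_HD e k)
  have hHd := measurable_Hd e k hf
  rw [lintegral_X hHf, lintegral_X hHd]
  refine lintegral_mono fun A => ?_
  by_cases hP : (Pm e A).det = 0
  · have h0 : ∀ b c, (HD e k).indicator f (A, b, c) = 0 := fun b c =>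
      Set.indicator_of_notMem (fun h => h.1 hP) _
    simp only [h0, lintegral_zero]
    exact bot_le
  have hMdet := det_updateCol e hP k (fun _ => (1 : ℝ))
  by_cases hM0 : ((Qm e A).updateCol k (fun _ => (1 : ℝ))).det = 0
  · have h0 : ∀ b c, (HD e k).indicator f (A, b, c) = 0 := by
      intro b c
      refine Set.indicator_of_notMem (fun h => h.2.1 ?_) _
      rw [hMdet] at hM0
      exact (mul_eq_zero.1 hM0).resolve_left (det_Qm_ne_zero e hP)
    simp only [h0, lintegral_zero]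
    exact bot_le
  have hQ1 : ((Qm e A)⁻¹ *ᵥ (fun _ => (1 : ℝ))) k ≠ 0 := by
    intro h
    rw [hMdet, h, mul_zero] at hM0
    exact hM0 rfl
  have hΨm : Measurable fun p : (Fin m → ℝ) × (Fin n → ℝ) =>
      (HD e k).indicator f (A, p.1, p.2) := hHf.comp measurable_prodMk_left
  obtain ⟨M, hM⟩ : ∃ M, M = (Qm e A).updateCol k (fun _ => (1 : ℝ)) := ⟨_, rfl⟩
  rw [← hM] at hM0
  rw [lintegral_change (Ψ := fun b c => (HD e k).indicator f (A, b, c)) hΨm hP hM0 k]
  have s3 : ∀ᵐ ζ : Fin n → ℝ, ∀ᵐ z : Fin m → ℝ,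
      (HD e k).indicator f (A, Pm e A *ᵥ z - fun _ => ζ k, M *ᵥ ζ)
      ≤ (Dom0 m k).indicator (fun y => sh f (y.2.2 k) (pt e k y)) (A, z, ζ) := by
    filter_upwards [ae_ne_zero (N := n)] with ζ hζ
    filter_upwards [ae_ne_zero (N := m)] with z hz
    refine hit_point e k f hP hQ1 hz hζ _ _ ?_ ?_
    · funext i
      simp
    · rw [hM, updateCol_mulVec]
  have hHdA : Measurable fun p : (Fin n → ℝ) × (Fin m → ℝ) => Hd e k f (A, p.2, p.1) := by
    have h0 : Measurable fun p : (Fin n → ℝ) × (Fin m → ℝ) => ((A, p.2, p.1) : X m n) := by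
      fun_prop
    exact hHd.comp h0
  have hsw2 : ∫⁻ ζ : Fin n → ℝ, ∫⁻ z : Fin m → ℝ, Hd e k f (A, z, ζ)
      = ∫⁻ z : Fin m → ℝ, ∫⁻ ζ : Fin n → ℝ, Hd e k f (A, z, ζ) :=
    lintegral_lintegral_swap hHdA.aemeasurable
  rw [← hsw2, ← lintegral_const_mul' _ _ ENNReal.ofReal_ne_top]
  refine lintegral_mono_ae ?_
  filter_upwards [s3] with ζ hζ
  rw [← lintegral_const_mul' _ _ ENNReal.ofReal_ne_top,
    ← lintegral_const_mul' _ _ ENNReal.ofReal_ne_top]
  refine lintegral_mono_ae ?_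
  filter_upwards [hζ] with z hz
  refine (mul_le_mul' le_rfl (mul_le_mul' le_rfl hz)).trans ?_
  unfold Hd
  by_cases hmem : ((A, z, ζ) : X m n) ∈ Dom0 m k
  · rw [Set.indicator_of_mem hmem, Set.indicator_of_mem hmem, ← mul_assoc,
      ← ENNReal.ofReal_mul (abs_nonneg _)]
    refine mul_le_mul' (ENNReal.ofReal_le_ofReal ?_) le_rfl
    rw [mul_comm]
    refine mul_le_mul_of_nonneg_left ?_ (abs_nonneg _)
    rw [hM]
    exact abs_det_one_le e k A
  · rw [Set.indicator_of_notMem hmem, Set.indicator_of_notMem hmem, mul_zero, mul_zero]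

/-- The density for the wall at parameter `t`. -/
noncomputable def Gt (κ : ℝ) (f : X m n → ℝ≥0∞) (t : ℝ) (y : X m n) : ℝ≥0∞ :=
  (Set.Ici (0 : ℝ)).indicator (fun t => Fw e k κ (sh f t) y) t

theorem measurable_Gt (κ : ℝ) {f : X m n → ℝ≥0∞} (hf : Measurable f) :
    Measurable fun p : ℝ × X m n => Gt e k κ f p.1 p.2 := by
  have h1 : (fun p : ℝ × X m n => Gt e k κ f p.1 p.2)
      = (Set.Ici (0 : ℝ) ×ˢ Dom m k κ).indicator fun p : ℝ × X m n =>
        ENNReal.ofReal (κ * |(Pm e p.2.1).det| * ∑ j, Wt e k j p.2.1) *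
          sh f p.1 (pt e k p.2) := by
    funext p
    unfold Gt Fw
    by_cases h1 : p.1 ∈ Set.Ici (0 : ℝ)
    · by_cases h2 : p.2 ∈ Dom m k κ
      · rw [Set.indicator_of_mem h1, Set.indicator_of_mem h2,
          Set.indicator_of_mem (Set.mem_prod.2 ⟨h1, h2⟩)]
      · rw [Set.indicator_of_mem h1, Set.indicator_of_notMem h2, Set.indicator_of_notMem]
        exact fun h => h2 (Set.mem_prod.1 h).2
    · rw [Set.indicator_of_notMem h1, Set.indicator_of_notMem]
      exact fun h => h1 (Set.mem_prod.1 h).1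
  rw [h1]
  refine Measurable.indicator ?_ (measurableSet_Ici.prod (measurableSet_Dom k κ))
  refine Measurable.mul ?_ ?_
  · exact ((continuous_wt e k κ).measurable.comp measurable_snd).ennreal_ofReal
  · have h3 : Measurable fun p : ℝ × X m n => (p.1, pt e k p.2) :=
      Measurable.prodMk measurable_fst ((continuous_pt e k).measurable.comp measurable_snd)
    exact (measurable_sh hf).comp h3

theorem Hd_le_Gt {κ : ℝ} (hκ : 0 < κ) {f : X m n → ℝ≥0∞} (hf : Measurable f) :
    ∫⁻ y, Hd e k f y ≤ ∫⁻ t : ℝ, ∫⁻ y, Gt e k κ f t y := by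
  have hHd := measurable_Hd e k hf
  have hGt := measurable_Gt e k κ hf
  have s1 : ∀ A z, ∫⁻ ζ, Hd e k f (A, z, ζ) ≤ ∫⁻ t : ℝ, ∫⁻ ζ, Gt e k κ f t (A, z, ζ) := by
    intro A z
    have hm0 : Measurable fun ζ : Fin n → ℝ => ((A, z, ζ) : X m n) := by fun_prop
    have hm : Measurable fun ζ : Fin n → ℝ => Hd e k f (A, z, ζ) := hHd.comp hm0
    rw [lintegral_dummy _ hm k hκ]
    refine lintegral_mono fun t => lintegral_mono fun ζ => ?_
    by_cases h1 : ζ k ∈ Set.Icc (0 : ℝ) (1 / κ)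
    · rw [Set.indicator_of_mem h1, mul_one]
      unfold Hd
      by_cases h2 : ((A, z, Function.update ζ k t) : X m n) ∈ Dom0 m k
      · rw [Set.indicator_of_mem h2]
        obtain ⟨h3, h4, h5⟩ := h2
        simp only [Function.update_self] at h5
        have h6 : ((A, z, ζ) : X m n) ∈ Dom m k κ := by
          refine ⟨h3, fun i hi => ?_, h1.1, h1.2⟩
          have := h4 i hi
          simpa only [Function.update_of_ne hi] using this
        unfold Gt Fw
        rw [Set.indicator_of_mem (show t ∈ Set.Ici (0 : ℝ) from h5), Set.indicator_of_mem h6]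
        have h7 : pt e k ((A, z, Function.update ζ k t) : X m n) = pt e k (A, z, ζ) := by
          unfold pt cw
          simp only [Function.update_idem]
        rw [h7, ← mul_assoc, ← ENNReal.ofReal_mul hκ.le]
        simp only [Function.update_self]
        refine le_of_eq ?_
        congr 2
        ring
      · rw [Set.indicator_of_notMem h2, mul_zero]
        exact bot_le
    · rw [Set.indicator_of_notMem h1, mul_zero, zero_mul]
      exact bot_le
  calc ∫⁻ y, Hd e k f y = ∫⁻ A, ∫⁻ z, ∫⁻ ζ, Hd e k f (A, z, ζ) := lintegral_X hHd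
    _ ≤ ∫⁻ A, ∫⁻ z, ∫⁻ t : ℝ, ∫⁻ ζ, Gt e k κ f t (A, z, ζ) :=
        lintegral_mono fun A => lintegral_mono fun z => s1 A z
    _ = ∫⁻ A, ∫⁻ t : ℝ, ∫⁻ z, ∫⁻ ζ, Gt e k κ f t (A, z, ζ) := by
        refine lintegral_congr fun A => ?_
        rw [lintegral_lintegral_swap]
        have h0 : Measurable fun q : ((Fin m → ℝ) × ℝ) × (Fin n → ℝ) =>
            ((q.1.2, (A, q.1.1, q.2)) : ℝ × X m n) := by fun_prop
        have h1 : Measurable fun q : ((Fin m → ℝ) × ℝ) × (Fin n → ℝ) =>
            Gt e k κ f q.1.2 (A, q.1.1, q.2) := hGt.comp h0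
        exact h1.lintegral_prod_right'.aemeasurable
    _ = ∫⁻ t : ℝ, ∫⁻ A, ∫⁻ z, ∫⁻ ζ, Gt e k κ f t (A, z, ζ) := by
        rw [lintegral_lintegral_swap]
        have h0 : Measurable fun q : (((Fin m × Fin n → ℝ) × ℝ) × (Fin m → ℝ)) × (Fin n → ℝ) =>
            ((q.1.1.2, (q.1.1.1, q.1.2, q.2)) : ℝ × X m n) := by fun_prop
        have h1 : Measurable fun q : (((Fin m × Fin n → ℝ) × ℝ) × (Fin m → ℝ)) × (Fin n → ℝ) =>
            Gt e k κ f q.1.1.2 (q.1.1.1, q.1.2, q.2) := hGt.comp h0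
        exact h1.lintegral_prod_right'.lintegral_prod_right'.aemeasurable
    _ = ∫⁻ t : ℝ, ∫⁻ y, Gt e k κ f t y := by
        refine lintegral_congr fun t => ?_
        have : Measurable fun y : X m n => Gt e k κ f t y := hGt.comp measurable_prodMk_left
        rw [lintegral_X this]

end

end Pool.Agent.Lib.MP_84734f_lc
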