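import Pool.Agent.Lib.MP_84734f_lc.Hit

/-!
# The expected number of dual walls hit by the path
-/

set_option autoImplicit false

namespace Pool.Agent.Lib.MP_84734f_lc

open Matrix Finset MeasureTheory
open scoped ENNReal

variable {m n : ℕ}

/-- The constant of the wall bound. -/
noncomputable def Kc (m n : ℕ) (κ : ℝ) : ℝ :=
  16 * Real.exp 1 * C1 m * n ^ 2 * κ ^ 2 * (2 + (m : ℝ) ^ 2 + m + L0 m n κ)

theorem Kc_nonneg {κ : ℝ} (hκ : 0 ≤ κ) : 0 ≤ Kc m n κ := by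
  have := C1_pos m
  unfold Kc L0
  positivity

theorem l1_shift_le {N : ℕ} (v : Fin N → ℝ) (t : ℝ) :
    l1 (v + fun _ => t) ≤ l1 v + N * |t| := by
  refine (l1_add_le _ _).trans (add_le_add le_rfl (le_of_eq ?_))
  simp [l1]

theorem lintegral_add_X (Φ : X m n → ℝ≥0∞) (v : X m n) : ∫⁻ y, Φ (y + v) = ∫⁻ x, Φ x := by
  have mp : MeasurePreserving (fun y : X m n => y + v) volume volume :=
    (measurePreserving_add_right volume v.1).prod
      ((measurePreserving_add_right volume v.2.1).prod (measurePreserving_add_right volume v.2.2))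
  exact mp.lintegral_comp_emb (MeasurableEquiv.addRight v).measurableEmbedding Φ

theorem moment_sh {f : X m n → ℝ≥0∞} {t : ℝ} (ht : 0 ≤ t) :
    ∫⁻ x, ENNReal.ofReal (Sx x ^ 2) * sh f t x
      ≤ ENNReal.ofReal (((m : ℝ) + n + 1) ^ 2 * (1 + t ^ 2)⁻¹) *
        ∫⁻ x, ENNReal.ofReal (Sx x ^ 6) * f x := by
  set v : X m n := (0, (fun _ => t), fun _ => -t) with hv
  rw [← lintegral_add_X _ v, ← lintegral_const_mul' _ _ ENNReal.ofReal_ne_top]
  refine lintegral_mono fun y => ?_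
  have hmv : mv t (y + v) = y := by
    unfold mv
    refine Prod.ext ?_ (Prod.ext ?_ ?_)
    · simp [hv]
    · funext i
      simp [hv]
    · funext i
      simp [hv]
  unfold sh
  rw [hmv]
  have hS := Sx_ge y
  have hS2 := Sx_ge (y + v)
  have hSv : Sx (y + v) ≤ ((m : ℝ) + n + 1) * (1 + t) * Sx y := by
    have h1 := l1_shift_le y.2.1 t
    have h2 := l1_shift_le y.2.2 (-t)
    rw [abs_neg, abs_of_nonneg ht] at h2
    rw [abs_of_nonneg ht] at h1
    have h3 : Sx (y + v) = 1 + l1 y.1 + l1 (y.2.1 + fun _ => t) + l1 (y.2.2 + fun _ => -t) := by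
      simp [Sx, hv]
    rw [h3]
    have hm : (0 : ℝ) ≤ m := Nat.cast_nonneg m
    have hn : (0 : ℝ) ≤ n := Nat.cast_nonneg n
    have h4 : 1 + l1 y.1 + l1 (y.2.1 + fun _ => t) + l1 (y.2.2 + fun _ => -t)
        ≤ Sx y + (m + n) * t := by
      unfold Sx
      linarith
    refine h4.trans ?_
    have h5 : (m + n) * t ≤ ((m : ℝ) + n) * t * Sx y := by
      have : 0 ≤ ((m : ℝ) + n) * t := by positivity
      nlinarith
    have h6 : 0 ≤ ((m : ℝ) + n) * Sx y := by positivity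
    have h7 : 0 ≤ t * Sx y := by positivity
    nlinarith
  have key : Sx (y + v) ^ 2 * (Sx y / (1 + t)) ^ 4
      ≤ ((m : ℝ) + n + 1) ^ 2 * (1 + t ^ 2)⁻¹ * Sx y ^ 6 := by
    have h1 : Sx (y + v) ^ 2 ≤ (((m : ℝ) + n + 1) * (1 + t) * Sx y) ^ 2 :=
      pow_le_pow_left₀ (by linarith) hSv 2
    calc Sx (y + v) ^ 2 * (Sx y / (1 + t)) ^ 4
        ≤ (((m : ℝ) + n + 1) * (1 + t) * Sx y) ^ 2 * (Sx y / (1 + t)) ^ 4 :=
          mul_le_mul_of_nonneg_right h1 (by positivity)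
      _ = ((m : ℝ) + n + 1) ^ 2 * ((1 + t) ^ 2)⁻¹ * Sx y ^ 6 := by
          field_simp
      _ ≤ _ := by
          have h2 : ((1 + t) ^ 2)⁻¹ ≤ (1 + t ^ 2)⁻¹ := by
            apply inv_anti₀ (by positivity)
            nlinarith
          have h3 : 0 ≤ ((m : ℝ) + n + 1) ^ 2 := by positivity
          have h4 : 0 ≤ Sx y ^ 6 := by positivity
          exact mul_le_mul_of_nonneg_right (mul_le_mul_of_nonneg_left h2 h3) h4
  calc ENNReal.ofReal (Sx (y + v) ^ 2) * (f y * ENNReal.ofReal ((Sx y / (1 + t)) ^ 4))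
      = ENNReal.ofReal (Sx (y + v) ^ 2 * (Sx y / (1 + t)) ^ 4) * f y := by
        rw [ENNReal.ofReal_mul (by positivity)]
        ring
    _ ≤ ENNReal.ofReal (((m : ℝ) + n + 1) ^ 2 * (1 + t ^ 2)⁻¹ * Sx y ^ 6) * f y :=
        mul_le_mul' (ENNReal.ofReal_le_ofReal key) le_rfl
    _ = _ := by
        rw [ENNReal.ofReal_mul (by positivity)]
        ring

theorem lintegral_inv_one_add_sq :
    ∫⁻ t : ℝ, ENNReal.ofReal ((1 + t ^ 2)⁻¹) = ENNReal.ofReal Real.pi := by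
  rw [← ofReal_integral_eq_lintegral_ofReal integrable_inv_one_add_sq,
    integral_univ_inv_one_add_sq]
  exact Filter.Eventually.of_forall fun t => by positivity

theorem hit_total {𝓔 : Finset (Fin m ⊕ Fin n ≃ Fin n ⊕ Fin m)} (hinj : InjFam 𝓔) {κ₀ : ℝ}
    (hκ₀ : 0 ≤ κ₀) {f : X m n → ℝ≥0∞} (hf : Measurable f) (hLL : LL κ₀ f)
    (hfin : ∫⁻ x, ENNReal.ofReal (Sx x ^ 6) * f x ≠ ∞) :
    ∑ p ∈ 𝓔 ×ˢ (Finset.univ : Finset (Fin n)), ∫⁻ x, (HD p.1 p.2).indicator f x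
      ≤ ENNReal.ofReal (Kc m n (κ₀ + 4) * ((m : ℝ) + n + 1) ^ 2 * Real.pi) *
        ∫⁻ x, ENNReal.ofReal (Sx x ^ 6) * f x := by
  set κ := κ₀ + 4 with hκ
  have hκ1 : 1 ≤ κ := by linarith
  have hκ0 : 0 < κ := by linarith
  have hK := Kc_nonneg (m := m) (n := n) hκ0.le
  set J := ∫⁻ x, ENNReal.ofReal (Sx x ^ 6) * f x with hJ
  have step : ∀ t : ℝ, ∑ p ∈ 𝓔 ×ˢ (Finset.univ : Finset (Fin n)), ∫⁻ y, Gt p.1 p.2 κ f t y
      ≤ ENNReal.ofReal (Kc m n κ * ((m : ℝ) + n + 1) ^ 2) * J *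
        ENNReal.ofReal ((1 + t ^ 2)⁻¹) := by
    intro t
    by_cases ht : t ∈ Set.Ici (0 : ℝ)
    · have ht0 : 0 ≤ t := ht
      have hsm : Measurable (sh f t) := (measurable_sh hf).comp measurable_prodMk_left
      have hmom := moment_sh (f := f) ht0
      have hfin2 : ∫⁻ x, sh f t x ≠ ∞ := by
        refine ne_top_of_le_ne_top (ENNReal.mul_ne_top ENNReal.ofReal_ne_top hfin)
          (le_trans ?_ hmom)
        refine lintegral_mono fun x => ?_
        have h1 : 1 ≤ Sx x ^ 2 := one_le_pow₀ (Sx_ge x)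
        calc sh f t x = 1 * sh f t x := (one_mul _).symm
          _ ≤ _ := by
            refine mul_le_mul' ?_ le_rfl
            rw [← ENNReal.ofReal_one]
            exact ENNReal.ofReal_le_ofReal h1
      have hG : ∀ p : (Fin m ⊕ Fin n ≃ Fin n ⊕ Fin m) × Fin n,
          ∫⁻ y, Gt p.1 p.2 κ f t y = ∫⁻ y, Fw p.1 p.2 κ (sh f t) y := by
        intro p
        refine lintegral_congr fun y => ?_
        unfold Gt
        rw [Set.indicator_of_mem ht]
      simp only [hG]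
      refine (wall_bound hinj hκ1 hsm (LL_sh hLL ht0) hfin2).trans ?_
      refine (mul_le_mul' le_rfl hmom).trans (le_of_eq ?_)
      rw [show 16 * Real.exp 1 * C1 m * n ^ 2 * κ ^ 2 * (2 + (m : ℝ) ^ 2 + m + L0 m n κ)
        = Kc m n κ from rfl, ENNReal.ofReal_mul (p := ((m : ℝ) + n + 1) ^ 2) (by positivity),
        ENNReal.ofReal_mul hK]
      ring
    · have hG : ∀ p : (Fin m ⊕ Fin n ≃ Fin n ⊕ Fin m) × Fin n,
          ∫⁻ y, Gt p.1 p.2 κ f t y = 0 := by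
        intro p
        have : ∀ y, Gt p.1 p.2 κ f t y = 0 := by
          intro y
          unfold Gt
          rw [Set.indicator_of_notMem ht]
        simp [this]
      simp only [hG, Finset.sum_const_zero]
      exact bot_le
  calc ∑ p ∈ 𝓔 ×ˢ (Finset.univ : Finset (Fin n)), ∫⁻ x, (HD p.1 p.2).indicator f x
      ≤ ∑ p ∈ 𝓔 ×ˢ (Finset.univ : Finset (Fin n)), ∫⁻ t : ℝ, ∫⁻ y, Gt p.1 p.2 κ f t y :=
        Finset.sum_le_sum fun p _ =>
          (hit_le_Hd p.1 p.2 hf).trans (Hd_le_Gt p.1 p.2 hκ0 hf)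
    _ ≤ ∫⁻ t : ℝ, ∑ p ∈ 𝓔 ×ˢ (Finset.univ : Finset (Fin n)), ∫⁻ y, Gt p.1 p.2 κ f t y :=
        sum_lintegral_le _ _ _
    _ ≤ ∫⁻ t : ℝ, ENNReal.ofReal (Kc m n κ * ((m : ℝ) + n + 1) ^ 2) * J *
        ENNReal.ofReal ((1 + t ^ 2)⁻¹) := lintegral_mono step
    _ = ENNReal.ofReal (Kc m n κ * ((m : ℝ) + n + 1) ^ 2) * J * ENNReal.ofReal Real.pi := by
        rw [lintegral_const_mul' _ _ (ENNReal.mul_ne_top ENNReal.ofReal_ne_top hfin),
          lintegral_inv_one_add_sq]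
    _ = _ := by
        rw [ENNReal.ofReal_mul (q := Real.pi) (by positivity)]
        ring

end Pool.Agent.Lib.MP_84734f_lc
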