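import Pool.Agent.Lib.MP_84734f_lc.Change

/-!
# The part of the walls far from the strata, counted by levels of a primal coordinate
-/

set_option autoImplicit false

namespace Pool.Agent.Lib.MP_84734f_lc

open Matrix Finset MeasureTheory
open scoped ENNReal

variable {m n : ℕ}

/-- The levels `u` such that an edge of the path polytope crosses `log (1 + x_j) = u` at this
wall, in the direction given by `σ`. -/
def lev (e : Fin m ⊕ Fin n ≃ Fin n ⊕ Fin m) (k j : Fin n) (σ : ℝ) (A : Fin m × Fin n → ℝ)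
    (z : Fin m → ℝ) (ζ : Fin n → ℝ) : Set ℝ :=
  {u | (Pm e A).det ≠ 0 ∧ (∀ l, 0 < z l) ∧ (∀ i, i ≠ k → 0 < ζ i) ∧
    0 < σ * dir e A k (Sum.inl j) ∧ ∃ ρ : ℝ, 0 < ρ ∧
      (∀ l, 0 < z l + ρ * dir e A k (e (Sum.inl l))) ∧
      Real.exp u - 1 = fullB e z (Sum.inl j) + ρ * dir e A k (Sum.inl j)}

section

variable (e : Fin m ⊕ Fin n ≃ Fin n ⊕ Fin m) (k : Fin n) {κ : ℝ}

theorem dir_inr_slack {A : Fin m × Fin n → ℝ} (hP : (Pm e A).det ≠ 0) (r : Fin m) :
    dir e A k (Sum.inr r) = -∑ j, A (r, j) * dir e A k (Sum.inl j) := by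
  have h := congrFun (extA_dir e hP k) r
  simp only [mulVec, dotProduct, extA, Matrix.of_apply, Fintype.sum_sum_type, Sum.elim_inl,
    Sum.elim_inr, ite_mul, one_mul, zero_mul, Finset.sum_ite_eq, Finset.mem_univ, if_true,
    Pi.zero_apply] at h
  linarith

theorem abs_dir_le {A : Fin m × Fin n → ℝ} (hP : (Pm e A).det ≠ 0) {j : Fin n}
    (hmax : ∀ j', |dir e A k (Sum.inl j')| ≤ |dir e A k (Sum.inl j)|) (l : Fin m) :
    |dir e A k (e (Sum.inl l))| ≤ tau e l A * |dir e A k (Sum.inl j)| := by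
  unfold tau
  rcases hl : e (Sum.inl l) with j' | r
  · simpa using hmax j'
  · simp only [Sum.elim_inr]
    rw [dir_inr_slack e k hP, abs_neg, Finset.sum_mul]
    refine (Finset.abs_sum_le_sum_abs _ _).trans (Finset.sum_le_sum fun j' _ => ?_)
    rw [abs_mul]
    exact mul_le_mul_of_nonneg_left (hmax j') (abs_nonneg _)

theorem fullB_nonneg {z : Fin m → ℝ} (hz : ∀ l, 0 < z l) (i : Fin n ⊕ Fin m) :
    0 ≤ fullB e z i := by
  obtain ⟨l | r, rfl⟩ := e.surjective i
  · rw [fullB_inl]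
    exact (hz l).le
  · rw [fullB_inr]

theorem fullB_le_xn (z : Fin m → ℝ) (j : Fin n) : fullB e z (Sum.inl j) ≤ xn e z :=
  (le_abs_self _).trans (norm_le_pi_norm (fun j : Fin n => fullB e z (Sum.inl j)) j)

theorem half_le_log {x : ℝ} (h0 : 0 ≤ x) (h1 : x ≤ 1) : x / 2 ≤ Real.log (1 + x) := by
  have h := Real.one_sub_inv_le_log_of_pos (show 0 < 1 + x by linarith)
  refine le_trans ?_ h
  rw [div_le_iff₀ (by norm_num), sub_mul, one_mul, le_sub_iff_add_le, inv_mul_eq_div,
    ← le_sub_iff_add_le', div_le_iff₀ (by linarith)]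
  nlinarith

/-- At a wall point far from the strata the levels fill an interval of length at least
`eps / 2`. -/
theorem large_level (hκ : 0 ≤ κ) {y : X m n} (hD : y ∈ Dom m k κ) (hL : y ∈ Large e k κ)
    (hP : (Pm e y.1).det ≠ 0) {j : Fin n}
    (hmax : ∀ j', |dir e y.1 k (Sum.inl j')| ≤ |dir e y.1 k (Sum.inl j)|) {σ : ℝ}
    (hσ : σ = 1 ∨ σ = -1) (hd : 0 < σ * dir e y.1 k (Sum.inl j)) {B₀ : ℝ}
    (hB₀ : 1 + Real.log (1 + xn e y.2.1) ≤ B₀) :
    ENNReal.ofReal (eps e k κ y / 2) ≤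
      ∫⁻ u, (lev e k j σ y.1 y.2.1 y.2.2 ∩ Set.Icc 0 B₀).indicator (fun _ => 1) u := by
  set x := fullB e y.2.1 (Sum.inl j) with hx
  set D := dir e y.1 k (Sum.inl j) with hDdef
  set ε := eps e k κ y with hε
  set lam := ε * (1 + xn e y.2.1) with hlam
  have hε0 : 0 < ε := eps_pos e k hκ y
  have hε1 : ε ≤ 1 / 128 := eps_le e k hκ y
  have hxn := xn_nonneg e y.2.1
  have hx0 : 0 ≤ x := fullB_nonneg e hD.1 _
  have hxx : x ≤ xn e y.2.1 := fullB_le_xn e _ j
  have hlam0 : 0 < lam := by positivity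
  have hlamx : ε * (1 + x) ≤ lam := by
    rw [hlam]
    exact mul_le_mul_of_nonneg_left (by linarith) hε0.le
  have hDabs : σ * D = |D| := by
    rcases hσ with rfl | rfl
    · rw [one_mul] at hd ⊢
      rw [abs_of_pos hd]
    · have : D < 0 := by linarith
      rw [abs_of_neg this]
      ring
  have hσ2 : σ * σ = 1 := by rcases hσ with rfl | rfl <;> norm_num
  have hDpos : 0 < |D| := by rw [← hDabs]; exact hd
  -- membership
  have hmem : ∀ u : ℝ, 0 < σ * (Real.exp u - 1 - x) → σ * (Real.exp u - 1 - x) < lam →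
      u ∈ lev e k j σ y.1 y.2.1 y.2.2 := by
    intro u h1 h2
    refine ⟨hP, hD.1, hD.2.1, hd, σ * (Real.exp u - 1 - x) / |D|, by positivity, ?_, ?_⟩
    · intro l
      have h3 := abs_dir_le e k hP hmax l
      have h4 := hL l
      have h5 := tau_nonneg e l y.1
      set ρ := σ * (Real.exp u - 1 - x) / |D| with hρ
      have hρ0 : 0 < ρ := by positivity
      have hρ1 : ρ * |D| < lam := by
        rw [hρ, div_mul_cancel₀ _ hDpos.ne']
        exact h2
      have h6 : -(ρ * (tau e l y.1 * |D|)) ≤ ρ * dir e y.1 k (e (Sum.inl l)) := by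
        have := neg_abs_le (dir e y.1 k (e (Sum.inl l)))
        nlinarith
      rcases h5.eq_or_lt with h7 | h7
      · rw [← h7] at h6
        have := hD.1 l
        linarith
      · have h8 : ρ * |D| * tau e l y.1 < lam * tau e l y.1 := mul_lt_mul_of_pos_right hρ1 h7
        have h9 : lam * tau e l y.1 ≤ y.2.1 l := h4
        nlinarith
    · have h3 : σ * (Real.exp u - 1 - x) / |D| * D = Real.exp u - 1 - x := by
        rw [← hDabs]
        have hD0 : D ≠ 0 := by
          intro h0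
          rw [h0, mul_zero] at hd
          exact lt_irrefl _ hd
        have hσ0 : σ ≠ 0 := by
          intro h0
          rw [h0, zero_mul] at hσ2
          norm_num at hσ2
        field_simp
      rw [h3]
      ring
  -- the interval
  obtain ⟨u₁, u₂, h0, h1, h2, h3⟩ : ∃ u₁ u₂ : ℝ, 0 ≤ u₁ ∧ u₂ ≤ B₀ ∧ ε / 2 ≤ u₂ - u₁ ∧
      ∀ u, u₁ < u → u < u₂ → 0 < σ * (Real.exp u - 1 - x) ∧
        σ * (Real.exp u - 1 - x) < lam := by
    rcases hσ with rfl | rfl
    · refine ⟨Real.log (1 + x), Real.log (1 + x + lam), Real.log_nonneg (by linarith), ?_, ?_,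
        ?_⟩
      · refine le_trans ?_ hB₀
        have h1 : 1 + x + lam ≤ (1 + ε) * (1 + xn e y.2.1) := by
          rw [hlam]
          nlinarith
        refine (Real.log_le_log (by linarith) h1).trans ?_
        rw [Real.log_mul (by linarith) (by linarith)]
        have := Real.log_le_sub_one_of_pos (show 0 < 1 + ε by linarith)
        linarith
      · have h1 : (1 + x) * (1 + ε) ≤ 1 + x + lam := by nlinarith
        have h2 := Real.log_le_log (by positivity) h1
        rw [Real.log_mul (by linarith) (by linarith)] at h2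
        have h3 := half_le_log hε0.le (by linarith)
        linarith
      · intro u hu1 hu2
        rw [Real.log_lt_iff_lt_exp (by linarith)] at hu1
        rw [Real.lt_log_iff_exp_lt (by linarith)] at hu2
        constructor <;> linarith
    · have hxl : lam ≤ x := by
        obtain ⟨l | i, hl⟩ := e.surjective (Sum.inl j)
        · have h4 := hL l
          have h5 : tau e l y.1 = 1 := by simp [tau, hl]
          rw [h5, mul_one] at h4
          rw [hx, ← hl, fullB_inl]
          exact h4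
        · exfalso
          rw [hDdef, ← hl, dir_inr] at hd
          split_ifs at hd <;> linarith
      refine ⟨Real.log (1 + x - lam), Real.log (1 + x), Real.log_nonneg (by linarith), ?_, ?_,
        ?_⟩
      · refine le_trans ?_ hB₀
        have := Real.log_le_log (by linarith) (show 1 + x ≤ 1 + xn e y.2.1 by linarith)
        linarith
      · have h1 : 1 + x - lam ≤ (1 + x) * (1 - ε) := by nlinarith
        have h2 := Real.log_le_log (by linarith) h1
        rw [Real.log_mul (by linarith) (by linarith)] at h2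
        have h3 := Real.log_le_sub_one_of_pos (show 0 < 1 - ε by linarith)
        linarith
      · intro u hu1 hu2
        rw [Real.log_lt_iff_lt_exp (by linarith)] at hu1
        rw [Real.lt_log_iff_exp_lt (by linarith)] at hu2
        constructor <;> linarith
  have h4 : Set.Ioo u₁ u₂ ⊆ lev e k j σ y.1 y.2.1 y.2.2 ∩ Set.Icc 0 B₀ := by
    intro u hu
    obtain ⟨h5, h6⟩ := h3 u hu.1 hu.2
    exact ⟨hmem u h5 h6, by linarith [hu.1], by linarith [hu.2]⟩
  calc ENNReal.ofReal (ε / 2) ≤ ENNReal.ofReal (u₂ - u₁) := ENNReal.ofReal_le_ofReal h2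
    _ = ∫⁻ u, (Set.Ioo u₁ u₂).indicator (fun _ => 1) u := by
        rw [lintegral_indicator measurableSet_Ioo, setLIntegral_const, Real.volume_Ioo, one_mul]
    _ ≤ _ := lintegral_mono fun u => Set.indicator_le_indicator_of_subset h4 (fun _ => bot_le) u

end

/-- A family of bases, one equivalence for each basis. -/
def InjFam (𝓔 : Finset (Fin m ⊕ Fin n ≃ Fin n ⊕ Fin m)) : Prop :=
  ∀ e ∈ 𝓔, ∀ e' ∈ 𝓔, (∀ l, ∃ l', e (Sum.inl l) = e' (Sum.inl l')) → e = e'

/-- The sum over all walls of the levels is at most one. -/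
theorem sum_level_le {𝓔 : Finset (Fin m ⊕ Fin n ≃ Fin n ⊕ Fin m)} (hinj : InjFam 𝓔)
    (j : Fin n) (σ : ℝ) (A : Fin m × Fin n → ℝ) (b : Fin m → ℝ) (c : Fin n → ℝ) (B₀ u : ℝ) :
    ∑ p ∈ 𝓔 ×ˢ (Finset.univ : Finset (Fin n)),
      (lev p.1 p.2 j σ A ((Pm p.1 A)⁻¹ *ᵥ b)
        (((Qm p.1 A).updateCol p.2 (Pi.single j 1))⁻¹ *ᵥ c) ∩ Set.Icc 0 B₀).indicator
          (fun _ => (1 : ℝ≥0∞)) u
      ≤ (Set.Icc 0 B₀).indicator (fun _ => 1) u := by
  by_cases hu : u ∈ Set.Icc 0 B₀
  · rw [Set.indicator_of_mem hu]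
    have key : ∀ p ∈ 𝓔 ×ˢ (Finset.univ : Finset (Fin n)), ∀ p' ∈ 𝓔 ×ˢ (Finset.univ : Finset (Fin n)),
        u ∈ lev p.1 p.2 j σ A ((Pm p.1 A)⁻¹ *ᵥ b)
          (((Qm p.1 A).updateCol p.2 (Pi.single j 1))⁻¹ *ᵥ c) →
        u ∈ lev p'.1 p'.2 j σ A ((Pm p'.1 A)⁻¹ *ᵥ b)
          (((Qm p'.1 A).updateCol p'.2 (Pi.single j 1))⁻¹ *ᵥ c) → p = p' := by
      rintro ⟨e, k⟩ hp ⟨e', k'⟩ hp' ⟨hP, hz, hζ, hd, ρ, hρ, hpos, hv⟩
        ⟨hP', hz', hζ', hd', ρ', hρ', hpos', hv'⟩
      have hM : ∀ (e : Fin m ⊕ Fin n ≃ Fin n ⊕ Fin m) (k : Fin n), (Pm e A).det ≠ 0 →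
          0 < σ * dir e A k (Sum.inl j) →
          IsUnit ((Qm e A).updateCol k (Pi.single j 1)).det := by
        intro e k hP hd
        rw [isUnit_iff_ne_zero, ← abs_pos, det_updateCol_single e hP]
        refine mul_pos (abs_pos.2 (det_Qm_ne_zero e hP)) (abs_pos.2 ?_)
        intro h0
        rw [h0, mul_zero] at hd
        exact lt_irrefl _ hd
      have h := unique_wall (e := e) (e' := e') (A := A) (k := k) (k' := k') (j := j) hP hP' hz hz'
        (by
          rw [mulVec_mulVec, mulVec_mulVec, mul_nonsing_inv _ (isUnit_iff_ne_zero.2 hP),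
            mul_nonsing_inv _ (isUnit_iff_ne_zero.2 hP')]) hζ hζ'
        (by
          rw [mulVec_mulVec, mulVec_mulVec, mul_nonsing_inv _ (hM e k hP hd),
            mul_nonsing_inv _ (hM e' k' hP' hd')]) hd hd' hρ hρ' hpos hpos'
        (by rw [← hv, ← hv'])
      have he : e = e' := hinj e (Finset.mem_product.1 hp).1 e' (Finset.mem_product.1 hp').1 h.1
      subst he
      have hk : k = k' := Sum.inr.inj (e.injective h.2)
      rw [hk]
    by_cases hex : ∃ p ∈ 𝓔 ×ˢ (Finset.univ : Finset (Fin n)),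
        u ∈ lev p.1 p.2 j σ A ((Pm p.1 A)⁻¹ *ᵥ b)
          (((Qm p.1 A).updateCol p.2 (Pi.single j 1))⁻¹ *ᵥ c)
    · obtain ⟨p, hp, hup⟩ := hex
      rw [Finset.sum_eq_single p]
      · exact Set.indicator_le_self' (fun _ _ => bot_le) u |>.trans le_rfl
      · intro p' hp' hne
        apply Set.indicator_of_notMem
        rintro ⟨h1, -⟩
        exact hne (key p hp p' hp' hup h1).symm
      · intro h
        exact absurd hp h
    · rw [Finset.sum_eq_zero]
      · exact bot_le
      · intro p hp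
        apply Set.indicator_of_notMem
        rintro ⟨h1, -⟩
        exact hex ⟨p, hp, h1⟩
  · rw [Finset.sum_eq_zero]
    · exact bot_le
    · intro p _
      apply Set.indicator_of_notMem
      rintro ⟨-, h1⟩
      exact hu h1

end Pool.Agent.Lib.MP_84734f_lc
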