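import Mathlib

/-!
# Measure-theoretic tools: shears, linear changes of variables, averaging along flows
-/

set_option autoImplicit false

namespace Pool.Agent.Lib.MP_84734f_lc

open Matrix Finset MeasureTheory
open scoped ENNReal

theorem measurePreserving_shear {ι : Type*} [Fintype ι] [DecidableEq ι] (p : ι → Prop)
    [DecidablePred p] (g : (ι → ℝ) → ι → ℝ) (hg : Measurable g)
    (hg' : ∀ x y : ι → ℝ, (∀ i, ¬ p i → x i = y i) → g x = g y) :
    MeasurePreserving (fun x : ι → ℝ => fun i => if p i then x i + g x i else x i)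
      volume volume := by
  have hm : Measurable (fun x : ι → ℝ => fun i => if p i then x i + g x i else x i) := by
    refine measurable_pi_lambda _ fun i => ?_
    by_cases h : p i
    · simp only [h, if_true]
      fun_prop
    · simp only [h, if_false]
      fun_prop
  refine ⟨hm, ?_⟩
  refine Measure.ext_of_lintegral _ fun F hF => ?_
  rw [lintegral_map hF hm, volume_pi]
  refine lintegral_eq_of_lmarginal_eq (univ.filter p) (hF.comp hm) hF ?_
  funext x
  simp only [lmarginal]
  set v : (i : ↥(univ.filter p)) → ℝ := fun i => g x i with hv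
  have h1 : ∀ y : (i : ↥(univ.filter p)) → ℝ,
      (fun i => if p i then (Function.updateFinset x (univ.filter p) y) i
        + g (Function.updateFinset x (univ.filter p) y) i
        else (Function.updateFinset x (univ.filter p) y) i)
      = Function.updateFinset x (univ.filter p) (y + v) := by
    intro y
    funext i
    have h2 : g (Function.updateFinset x (univ.filter p) y) = g x := by
      apply hg'
      intro i hi
      simp [Function.updateFinset, hi]
    rw [h2]
    by_cases h : p i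
    · simp [Function.updateFinset, h, hv]
    · simp [Function.updateFinset, h]
  simp only [h1]
  exact lintegral_add_right_eq_self (fun y => F (Function.updateFinset x (univ.filter p) y)) v

/-- The linear equivalence given by an invertible matrix, as a measurable equivalence. -/
noncomputable def mulVecEquiv {N : ℕ} (M : Matrix (Fin N) (Fin N) ℝ) (hM : M.det ≠ 0) :
    (Fin N → ℝ) ≃ᵐ (Fin N → ℝ) where
  toFun z := M *ᵥ z
  invFun z := M⁻¹ *ᵥ z
  left_inv z := by
    change M⁻¹ *ᵥ (M *ᵥ z) = z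
    rw [mulVec_mulVec, nonsing_inv_mul _ (isUnit_iff_ne_zero.2 hM), one_mulVec]
  right_inv z := by
    change M *ᵥ (M⁻¹ *ᵥ z) = z
    rw [mulVec_mulVec, mul_nonsing_inv _ (isUnit_iff_ne_zero.2 hM), one_mulVec]
  measurable_toFun := by
    exact (Continuous.matrix_mulVec continuous_const continuous_id).measurable
  measurable_invFun := by
    exact (Continuous.matrix_mulVec continuous_const continuous_id).measurable

theorem lintegral_mulVec {N : ℕ} {M : Matrix (Fin N) (Fin N) ℝ} (hM : M.det ≠ 0)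
    (φ : (Fin N → ℝ) → ℝ≥0∞) :
    ENNReal.ofReal |M.det| * ∫⁻ z, φ (M *ᵥ z) = ∫⁻ b, φ b := by
  have h := Real.map_matrix_volume_pi_eq_smul_volume_pi hM
  have h2 : Measure.map (mulVecEquiv M hM) volume = ENNReal.ofReal |(M.det)⁻¹| • volume := by
    rw [← h]
    rfl
  have h3 : ∫⁻ z, φ (M *ᵥ z) = ∫⁻ b, φ b ∂(Measure.map (mulVecEquiv M hM) volume) := by
    rw [lintegral_map_equiv]
    rfl
  rw [h3, h2, lintegral_smul_measure, smul_eq_mul, ← mul_assoc,
    ← ENNReal.ofReal_mul (abs_nonneg _), ← abs_mul, mul_inv_cancel₀ hM, abs_one,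
    ENNReal.ofReal_one, one_mul]

theorem sum_lintegral_le {α ι : Type*} [MeasurableSpace α] (μ : Measure α) (s : Finset ι)
    (f : ι → α → ℝ≥0∞) : ∑ i ∈ s, ∫⁻ a, f i a ∂μ ≤ ∫⁻ a, ∑ i ∈ s, f i a ∂μ := by
  classical
  induction s using Finset.induction_on with
  | empty => simp
  | insert i s hi ih =>
    simp only [Finset.sum_insert hi]
    exact (add_le_add le_rfl ih).trans (le_lintegral_add _ _)

theorem lintegral_dummy {n : ℕ} (Ψ : (Fin n → ℝ) → ℝ≥0∞) (hΨ : Measurable Ψ) (k : Fin n)
    {κ : ℝ} (hκ : 0 < κ) :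
    ∫⁻ ζ, Ψ ζ = ∫⁻ t : ℝ, ∫⁻ ζ : Fin n → ℝ,
      ENNReal.ofReal κ * (Set.Icc (0 : ℝ) (1 / κ)).indicator (fun _ => 1) (ζ k)
        * Ψ (Function.update ζ k t) := by
  have hx : Fin n → ℝ := fun _ => 0
  have hu : ∀ t : ℝ, Measurable fun x : Fin n → ℝ => Function.update x k t := fun t =>
    measurable_pi_lambda _ fun i => by
      by_cases h : i = k
      · subst h
        simp
      · simp only [Function.update_of_ne h]
        fun_prop
  have hind : Measurable fun a : ℝ => (Set.Icc (0 : ℝ) (1 / κ)).indicator (fun _ => (1 : ℝ≥0∞)) a :=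
    measurable_const.indicator measurableSet_Icc
  have hG : ∀ t : ℝ, Measurable fun ζ : Fin n → ℝ =>
      ENNReal.ofReal κ * (Set.Icc (0 : ℝ) (1 / κ)).indicator (fun _ => (1 : ℝ≥0∞)) (ζ k)
        * Ψ (Function.update ζ k t) := fun t =>
    ((measurable_const.mul (hind.comp (measurable_pi_apply k))).mul (hΨ.comp (hu t)))
  rw [volume_pi, lintegral_eq_lmarginal_univ hx, lmarginal_erase _ hΨ (Finset.mem_univ k)]
  refine lintegral_congr fun t => ?_
  rw [lintegral_eq_lmarginal_univ hx, lmarginal_erase' _ (hG t) (Finset.mem_univ k),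
    lmarginal_update_of_notMem hΨ (Finset.notMem_erase k _)]
  congr 1
  funext x
  simp only [Function.comp, Function.update_self, Function.update_idem]
  rw [lintegral_mul_const _ (by exact measurable_const.mul hind), lintegral_const_mul _ hind,
    lintegral_indicator measurableSet_Icc, setLIntegral_const, Real.volume_Icc, one_mul,
    sub_zero, ← ENNReal.ofReal_mul hκ.le, mul_one_div_cancel hκ.ne', ENNReal.ofReal_one, one_mul]

/-- Averaging along a measure-preserving flow. -/
theorem flow_bound {Y : Type*} [MeasurableSpace Y] (μ : Measure Y) [SFinite μ] (F : Y → ℝ≥0∞)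
    (hF : Measurable F) (Φ : ℝ → Y → Y) (hΦ : ∀ s, MeasurePreserving (Φ s) μ μ)
    (hΦm : Measurable fun p : Y × ℝ => Φ p.2 p.1) (β q : Y → ℝ) (hβ : Measurable β)
    (hq : Measurable q) (S : Set Y) (hS : MeasurableSet S) (a C : ℝ) (ha : 0 ≤ a) (hC : 0 < C)
    (hβ1 : ∀ y, 0 < β y)
    (h1 : ∀ y ∈ S, ∀ s, 0 < s → s < 1 / (2 * β y) → F y ≤ ENNReal.ofReal a * F (Φ s y) ∧
      β y ≤ 2 * β (Φ s y) ∧ β (Φ s y) ≤ 2 * β y ∧ q (Φ s y) = q y + s)
    (h2 : ∀ y ∈ S, 0 < q y ∧ q y < 2 / (C * β y)) :
    ∫⁻ y in S, F y ∂μ ≤ ENNReal.ofReal (16 * a / C) * ∫⁻ y, F y ∂μ := by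
  set W : Set (Y × ℝ) := {p | q p.1 - 4 / (C * β p.1) < p.2 ∧ p.2 < q p.1} with hW
  have hWm : MeasurableSet W := by
    have m1 : Measurable fun p : Y × ℝ => q p.1 - 4 / (C * β p.1) := by fun_prop
    have m2 : Measurable fun p : Y × ℝ => q p.1 := by fun_prop
    exact (measurableSet_lt m1 measurable_snd).inter (measurableSet_lt measurable_snd m2)
  set G : Y → ℝ → ℝ≥0∞ := fun y s => ENNReal.ofReal (4 * a * β y) *
    W.indicator (fun _ => 1) (y, s) * F y with hG
  have hGm : Measurable (Function.uncurry G) := by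
    simp only [hG, Function.uncurry_def]
    refine Measurable.mul (Measurable.mul (by fun_prop) ?_) (by fun_prop)
    exact (measurable_const.indicator hWm)
  have hstep1 : ∫⁻ y in S, F y ∂μ ≤ ∫⁻ y, ∫⁻ s : ℝ, G (Φ s y) s ∂volume ∂μ := by
    rw [← lintegral_indicator hS]
    refine lintegral_mono fun y => ?_
    by_cases hy : y ∈ S
    · rw [Set.indicator_of_mem hy]
      have hpos := hβ1 y
      have hlen : 0 < 1 / (2 * β y) := by positivity
      have e1 : F y = ∫⁻ s in Set.Ioo 0 (1 / (2 * β y)), ENNReal.ofReal (2 * β y) * F y := by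
        rw [setLIntegral_const, Real.volume_Ioo, sub_zero, mul_right_comm,
          ← ENNReal.ofReal_mul (by positivity), mul_one_div_cancel (by positivity),
          ENNReal.ofReal_one, one_mul]
      rw [e1, ← lintegral_indicator measurableSet_Ioo]
      refine lintegral_mono fun s => ?_
      by_cases hs : s ∈ Set.Ioo 0 (1 / (2 * β y))
      · rw [Set.indicator_of_mem hs]
        obtain ⟨hF1, hb1, hb2, hq1⟩ := h1 y hy s hs.1 hs.2
        obtain ⟨hq2, hq3⟩ := h2 y hy
        have hpos' := hβ1 (Φ s y)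
        have hmem : (Φ s y, s) ∈ W := by
          simp only [hW, Set.mem_ofPred_eq]
          refine ⟨?_, by rw [hq1]; linarith⟩
          rw [hq1]
          have h3 : 2 / (C * β y) ≤ 4 / (C * β (Φ s y)) := by
            rw [div_le_div_iff₀ (by positivity) (by positivity)]
            nlinarith
          linarith
        simp only [hG, Set.indicator_of_mem hmem, mul_one]
        calc ENNReal.ofReal (2 * β y) * F y
            ≤ ENNReal.ofReal (4 * β (Φ s y)) * (ENNReal.ofReal a * F (Φ s y)) := by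
              exact mul_le_mul' (ENNReal.ofReal_le_ofReal (by linarith)) hF1
          _ = ENNReal.ofReal (4 * a * β (Φ s y)) * F (Φ s y) := by
              rw [← mul_assoc, ← ENNReal.ofReal_mul (by positivity)]
              congr 2
              ring
      · rw [Set.indicator_of_notMem hs]
        exact bot_le
    · rw [Set.indicator_of_notMem hy]
      exact bot_le
  have hstep2 : ∫⁻ y, ∫⁻ s : ℝ, G (Φ s y) s ∂volume ∂μ = ∫⁻ s : ℝ, ∫⁻ y, G (Φ s y) s ∂μ := by
    apply lintegral_lintegral_swap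
    exact (hGm.comp (hΦm.prodMk measurable_snd)).aemeasurable
  have hstep3 : ∀ s, ∫⁻ y, G (Φ s y) s ∂μ = ∫⁻ y, G y s ∂μ := fun s =>
    (hΦ s).lintegral_comp (hGm.of_uncurry_right)
  have hstep4 : ∫⁻ s : ℝ, ∫⁻ y, G y s ∂μ = ∫⁻ y, ∫⁻ s : ℝ, G y s ∂volume ∂μ := by
    symm
    exact lintegral_lintegral_swap hGm.aemeasurable
  have hstep5 : ∀ y, ∫⁻ s, G y s = ENNReal.ofReal (16 * a / C) * F y := by
    intro y
    have hpos := hβ1 y
    simp only [hG]
    have hWy : (fun s : ℝ => W.indicator (fun _ => (1 : ℝ≥0∞)) (y, s))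
        = (Set.Ioo (q y - 4 / (C * β y)) (q y)).indicator (fun _ => 1) := by
      funext s
      by_cases hs : s ∈ Set.Ioo (q y - 4 / (C * β y)) (q y)
      · rw [Set.indicator_of_mem hs, Set.indicator_of_mem (show (y, s) ∈ W from hs)]
      · rw [Set.indicator_of_notMem hs, Set.indicator_of_notMem (show (y, s) ∉ W from hs)]
    have hm1 : Measurable fun s : ℝ => W.indicator (fun _ => (1 : ℝ≥0∞)) (y, s) := by
      rw [hWy]
      exact measurable_const.indicator measurableSet_Ioo
    rw [lintegral_mul_const _ (by exact measurable_const.mul hm1), lintegral_const_mul _ hm1, hWy,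
      lintegral_indicator measurableSet_Ioo, setLIntegral_const, Real.volume_Ioo, one_mul,
      ← ENNReal.ofReal_mul (by positivity)]
    congr 2
    field_simp
    ring
  calc ∫⁻ y in S, F y ∂μ ≤ ∫⁻ y, ∫⁻ s : ℝ, G (Φ s y) s ∂volume ∂μ := hstep1
    _ = ∫⁻ s : ℝ, ∫⁻ y, G (Φ s y) s ∂μ := hstep2
    _ = ∫⁻ s : ℝ, ∫⁻ y, G y s ∂μ := by simp only [hstep3]
    _ = ∫⁻ y, ∫⁻ s : ℝ, G y s ∂volume ∂μ := hstep4
    _ = ENNReal.ofReal (16 * a / C) * ∫⁻ y, F y ∂μ := by
        simp only [hstep5]
        rw [lintegral_const_mul _ hF]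

end Pool.Agent.Lib.MP_84734f_lc
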