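import Mathlib

/-!
# The self-dual parametric simplex method

`LP(t)`: maximise `(c - t 1)ᵀ x` subject to `A x ≤ b + t 1`, `x ≥ 0`. The variables are `x_j`
(`Sum.inl j`) and the slacks `w_i` (`Sum.inr i`).
-/

set_option autoImplicit false

namespace Pool.Agent.Lib.MP_84734f_lc

open Matrix

variable {m n : ℕ}

/-- `B` is a basis: `m` of the variables, with linearly independent columns in `[A | I]`. -/
def IsBasis (A : Matrix (Fin m) (Fin n) ℝ) (B : Finset (Fin n ⊕ Fin m)) : Prop :=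
  B.card = m ∧ LinearIndependent ℝ
    (fun q : B => (Matrix.transpose (Matrix.fromCols A (1 : Matrix (Fin m) (Fin m) ℝ))) q.1)

/-- `z = (x, w)` solves `A x + w = b + t 1` and vanishes at the nonbasic variables. -/
def BasicSolution (A : Matrix (Fin m) (Fin n) ℝ) (b : Fin m → ℝ) (t : ℝ)
    (B : Finset (Fin n ⊕ Fin m)) (z : Fin n ⊕ Fin m → ℝ) : Prop :=
  (∀ i, ∑ j, A i j * z (Sum.inl j) + z (Sum.inr i) = b i + t) ∧ ∀ q, q ∉ B → z q = 0

/-- `r = (Aᵀ y - (c - t 1), y)` are the reduced costs of `B`: they vanish at the basic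
variables. -/
def ReducedCosts (A : Matrix (Fin m) (Fin n) ℝ) (c : Fin n → ℝ) (t : ℝ)
    (B : Finset (Fin n ⊕ Fin m)) (r : Fin n ⊕ Fin m → ℝ) : Prop :=
  (∀ j, r (Sum.inl j) = ∑ i, A i j * r (Sum.inr i) - (c j - t)) ∧ ∀ q ∈ B, r q = 0

/-- `B` is an optimal basis of `LP(t)`: it is primal and dual feasible. -/
def Optimal (A : Matrix (Fin m) (Fin n) ℝ) (b : Fin m → ℝ) (c : Fin n → ℝ) (t : ℝ)
    (B : Finset (Fin n ⊕ Fin m)) : Prop :=
  IsBasis A B ∧ (∃ z, BasicSolution A b t B z ∧ ∀ q, 0 ≤ z q) ∧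
    ∃ r, ReducedCosts A c t B r ∧ ∀ q, 0 ≤ r q

/-- One pivot of the method. The parameter is lowered to `t > 0`, the least one at which `B` is
optimal; `p` leaves, `q` enters and `B'` is the new basis. Primal pivot: `q` has reduced cost
zero at `t`, and `p` is chosen by the ratio test, that is, `B'` is primal feasible at `t`. Dual
pivot: `p` has value zero at `t`, and `q` is chosen by the dual ratio test, that is, `B'` is
dual feasible at `t`. -/
def Pivot (A : Matrix (Fin m) (Fin n) ℝ) (b : Fin m → ℝ) (c : Fin n → ℝ)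
    (B : Finset (Fin n ⊕ Fin m)) (t : ℝ) (B' : Finset (Fin n ⊕ Fin m)) : Prop :=
  IsLeast {s : ℝ | 0 ≤ s ∧ Optimal A b c s B} t ∧ 0 < t ∧
    ∃ p ∈ B, ∃ q, q ∉ B ∧ B' = insert q (B.erase p) ∧ IsBasis A B' ∧
      ((∃ r z, ReducedCosts A c t B r ∧ (∀ v, 0 ≤ r v) ∧ r q = 0 ∧
          BasicSolution A b t B' z ∧ ∀ v, 0 ≤ z v) ∨
       (∃ z r, BasicSolution A b t B z ∧ (∀ v, 0 ≤ z v) ∧ z p = 0 ∧
          ReducedCosts A c t B' r ∧ ∀ v, 0 ≤ r v))

/-- `Reach A b c k B`: started at the slack basis, the method can reach `B` by `k` pivots. -/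
inductive Reach (A : Matrix (Fin m) (Fin n) ℝ) (b : Fin m → ℝ) (c : Fin n → ℝ) :
    ℕ → Finset (Fin n ⊕ Fin m) → Prop
  | start : Reach A b c 0 (Finset.univ.map ⟨Sum.inr, Sum.inr_injective⟩)
  | pivot {k : ℕ} {B B' : Finset (Fin n ⊕ Fin m)} {t : ℝ} :
      Reach A b c k B → Pivot A b c B t B' → Reach A b c (k + 1) B'

/-- The number of pivots of the method. -/
noncomputable def pivots (A : Matrix (Fin m) (Fin n) ℝ) (b : Fin m → ℝ) (c : Fin n → ℝ) :
    ENNReal :=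
  ⨆ k : ℕ, ⨆ _ : ∃ B, Reach A b c k B, (k : ENNReal)

/-- A certificate that no `x ≥ 0` satisfies `A x ≤ b`. -/
def Infeasible (A : Matrix (Fin m) (Fin n) ℝ) (b : Fin m → ℝ) : Prop :=
  ∃ y : Fin m → ℝ, (∀ i, 0 ≤ y i) ∧ (∀ j, 0 ≤ ∑ i, A i j * y i) ∧ ∑ i, b i * y i < 0

/-- A certificate that `cᵀ x` is unbounded on `A x ≤ b`, `x ≥ 0`, if this set is nonempty. -/
def Unbounded (A : Matrix (Fin m) (Fin n) ℝ) (c : Fin n → ℝ) : Prop :=
  ∃ x : Fin n → ℝ, (∀ j, 0 ≤ x j) ∧ (∀ i, ∑ j, A i j * x j ≤ 0) ∧ 0 < ∑ j, c j * x j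

end Pool.Agent.Lib.MP_84734f_lc
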