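import Pool.Agent.Lib.MP_84734f_lc.Basic

/-!
# The parametric path: every basis on it, except the slack basis, is entered at a wall
-/

set_option autoImplicit false

namespace Pool.Agent.Lib.MP_84734f_lc

open Matrix Finset Filter Topology

variable {m n : ℕ}

/-- Finitely many affine functions that are simultaneously nonnegative somewhere but not
arbitrarily far: at the last such time one of them vanishes with nonzero slope. -/
theorem exists_hit {ι : Type*} [Finite ι] (p q : ι → ℝ) (T : ℝ)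
    (hne : ∃ t, 0 ≤ t ∧ ∀ i, 0 ≤ p i + t * q i)
    (hbd : ∀ t, 0 ≤ t → (∀ i, 0 ≤ p i + t * q i) → t ≤ T) :
    ∃ i, ∃ t, 0 ≤ t ∧ t ≤ T ∧ (∀ i', 0 ≤ p i' + t * q i') ∧ p i + t * q i = 0 ∧ q i ≠ 0 := by
  set J : Set ℝ := {t | 0 ≤ t ∧ ∀ i, 0 ≤ p i + t * q i} with hJ
  have hJc : IsClosed J := by
    have : J = Set.Ici 0 ∩ ⋂ i, {t | 0 ≤ p i + t * q i} := by
      ext t
      simp [hJ]
    rw [this]
    exact isClosed_Ici.inter (isClosed_iInter fun i => isClosed_le (by fun_prop) (by fun_prop))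
  have hJb : BddAbove J := ⟨T, fun t ht => hbd t ht.1 ht.2⟩
  have hJn : J.Nonempty := hne
  have hs : sSup J ∈ J := hJc.csSup_mem hJn hJb
  set s := sSup J with hsdef
  by_contra hcon
  push Not at hcon
  have hev : ∀ i, ∀ᶠ t in 𝓝[>] s, 0 ≤ p i + t * q i := by
    intro i
    rcases (hs.2 i).eq_or_lt with h | h
    · have hq : q i = 0 := hcon i s hs.1 (hbd s hs.1 hs.2) hs.2 h.symm
      filter_upwards with t
      rw [hq] at h ⊢
      simpa using h.le
    · have hc : ContinuousAt (fun t => p i + t * q i) s := by fun_prop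
      exact (hc.eventually_const_lt h).filter_mono nhdsWithin_le_nhds |>.mono fun _ h => h.le
  have hall : ∀ᶠ t in 𝓝[>] s, ∀ i, 0 ≤ p i + t * q i := eventually_all.2 hev
  have hgt : ∀ᶠ t in 𝓝[>] s, s < t := eventually_mem_nhdsWithin
  obtain ⟨t, ht, hst⟩ := (hall.and hgt).exists
  have : t ∈ J := ⟨hs.1.trans hst.le, ht⟩
  exact absurd (le_csSup hJb this) (not_le.2 hst)

theorem exists_basisEquiv (B : Finset (Fin n ⊕ Fin m)) (h : B.card = m) :
    ∃ e : Fin m ⊕ Fin n ≃ Fin n ⊕ Fin m, ∀ k, e (Sum.inl k) ∈ B := by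
  have h1 : Fintype.card (Fin m) = Fintype.card {x // x ∈ B} := by
    rw [Fintype.card_fin, Fintype.card_coe, h]
  have h2 : Fintype.card (Fin n) = Fintype.card {x // ¬ x ∈ B} := by
    have h3 := Fintype.card_subtype_compl (fun x => x ∈ B)
    rw [h3, Fintype.card_sum, Fintype.card_fin, Fintype.card_fin, Fintype.card_coe, h]
    omega
  refine ⟨((Fintype.equivOfCardEq h1).sumCongr (Fintype.equivOfCardEq h2)).trans
    (Equiv.sumCompl (fun x => x ∈ B)), fun k => ?_⟩
  simp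

/-- A bijection listing the elements of `B` first. -/
noncomputable def basisEquiv (B : Finset (Fin n ⊕ Fin m)) : Fin m ⊕ Fin n ≃ Fin n ⊕ Fin m :=
  if h : B.card = m then (exists_basisEquiv B h).choose else Equiv.sumComm _ _

theorem basisEquiv_mem {B : Finset (Fin n ⊕ Fin m)} (h : B.card = m) (k : Fin m) :
    basisEquiv B (Sum.inl k) ∈ B := by
  rw [basisEquiv, dif_pos h]
  exact (exists_basisEquiv B h).choose_spec k

theorem basisEquiv_image {B : Finset (Fin n ⊕ Fin m)} (h : B.card = m) :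
    Finset.univ.image (fun k => basisEquiv B (Sum.inl k)) = B := by
  apply Finset.eq_of_subset_of_card_le
  · intro x hx
    obtain ⟨k, -, rfl⟩ := Finset.mem_image.1 hx
    exact basisEquiv_mem h k
  · rw [Finset.card_image_of_injective, Finset.card_univ, Fintype.card_fin, h]
    intro a b hab
    simpa using hab

theorem basisEquiv_notMem {B : Finset (Fin n ⊕ Fin m)} (h : B.card = m) (k : Fin n) :
    basisEquiv B (Sum.inr k) ∉ B := by
  intro hk
  have h2 : basisEquiv B (Sum.inr k) ∈ Finset.univ.image (fun k => basisEquiv B (Sum.inl k)) := by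
    rw [basisEquiv_image h]
    exact hk
  obtain ⟨l, -, hl⟩ := Finset.mem_image.1 h2
  simp at hl

/-- The sum of the absolute values. -/
def l1 {ι : Type*} [Fintype ι] (v : ι → ℝ) : ℝ := ∑ i, |v i|

theorem l1_nonneg {ι : Type*} [Fintype ι] (v : ι → ℝ) : 0 ≤ l1 v :=
  Finset.sum_nonneg fun _ _ => abs_nonneg _

theorem abs_le_l1 {ι : Type*} [Fintype ι] (v : ι → ℝ) (i : ι) : |v i| ≤ l1 v :=
  Finset.single_le_sum (f := fun i => |v i|) (fun _ _ => abs_nonneg _) (Finset.mem_univ i)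

/-- The slack basis. -/
def slack (m n : ℕ) : Finset (Fin n ⊕ Fin m) := Finset.univ.map ⟨Sum.inr, Sum.inr_injective⟩

theorem card_slack : (slack m n).card = m := by simp [slack]

/-- For large parameters only the slack basis is optimal. -/
theorem eq_slack {B : Finset (Fin n ⊕ Fin m)} (hB : B.card = m) {A : Fin m × Fin n → ℝ}
    {b : Fin m → ℝ} {c : Fin n → ℝ} (hP : (Pm (basisEquiv B) A).det ≠ 0)
    (hz : ∀ k, 0 ≤ ((Pm (basisEquiv B) A)⁻¹ *ᵥ b) k)
    (hζ : ∀ k, 0 ≤ ((Qm (basisEquiv B) A)⁻¹ *ᵥ c) k)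
    (hb : ∀ i, 0 < b i) (hc : ∀ j, c j < 0) : B = slack m n := by
  set e := basisEquiv B
  set z := (Pm e A)⁻¹ *ᵥ b with hzdef
  set ζ := (Qm e A)⁻¹ *ᵥ c with hζdef
  have hPz : Pm e A *ᵥ z = b := by
    rw [hzdef, mulVec_mulVec, mul_nonsing_inv _ (isUnit_iff_ne_zero.2 hP), one_mulVec]
  have hQζ : Qm e A *ᵥ ζ = c := by
    rw [hζdef, mulVec_mulVec,
      mul_nonsing_inv _ (isUnit_iff_ne_zero.2 (det_Qm_ne_zero e hP)), one_mulVec]
  have h0z : ∀ i, 0 ≤ fullB e z i := by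
    intro i
    obtain ⟨k | k, rfl⟩ := e.surjective i
    · simpa using hz k
    · simp
  have h0ζ : ∀ i, 0 ≤ fullN e ζ i := by
    intro i
    obtain ⟨k | k, rfl⟩ := e.surjective i
    · simp
    · simpa using hζ k
  have hkey := dot_eq A (fullB e z) (fullN e ζ)
  rw [extA_fullB, extD_fullN, hPz, hQζ, ← e.sum_comp, Fintype.sum_sum_type] at hkey
  simp only [fullB_inl, fullN_inl, mul_zero, Finset.sum_const_zero, fullB_inr, zero_mul,
    add_zero] at hkey
  have hx0 : ∀ j, fullB e z (Sum.inl j) = 0 := by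
    intro j
    have h1 : 0 ≤ ∑ l, b l * fullN e ζ (Sum.inr l) :=
      Finset.sum_nonneg fun l _ => mul_nonneg (hb l).le (h0ζ _)
    have h2 : ∑ j, c j * fullB e z (Sum.inl j) = ∑ l, b l * fullN e ζ (Sum.inr l) := by
      linarith
    have h3 : ∑ j, -(c j * fullB e z (Sum.inl j)) ≤ 0 := by
      rw [Finset.sum_neg_distrib]
      linarith
    have h4 : ∀ j ∈ Finset.univ, 0 ≤ -(c j * fullB e z (Sum.inl j)) := by
      intro j _
      have := mul_nonneg (neg_nonneg.2 (hc j).le) (h0z (Sum.inl j))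
      linarith
    have h5 := (Finset.sum_eq_zero_iff_of_nonneg h4).1 (le_antisymm h3 (Finset.sum_nonneg h4)) j
      (Finset.mem_univ j)
    have h6 : c j * fullB e z (Sum.inl j) = 0 := by linarith
    rcases mul_eq_zero.1 h6 with h | h
    · exact absurd h (hc j).ne
    · exact h
  have hw : ∀ l, 0 < fullB e z (Sum.inr l) := by
    intro l
    have h1 : (extA A *ᵥ fullB e z) l = b l := by rw [extA_fullB, hPz]
    simp only [mulVec, dotProduct, extA, Matrix.of_apply, Fintype.sum_sum_type, Sum.elim_inl,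
      Sum.elim_inr, hx0, mul_zero, Finset.sum_const_zero, zero_add, ite_mul, one_mul, zero_mul,
      Finset.sum_ite_eq, Finset.mem_univ, if_true] at h1
    rw [h1]
    exact hb l
  symm
  apply Finset.eq_of_subset_of_card_le
  · intro i hi
    obtain ⟨l, -, rfl⟩ := Finset.mem_map.1 hi
    obtain ⟨k | k, hk⟩ := e.surjective (Sum.inr l)
    · change Sum.inr l ∈ B
      rw [← hk]
      exact basisEquiv_mem hB k
    · exfalso
      have := hw l
      rw [← hk, fullB_inr] at this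
      exact lt_irrefl _ this
  · rw [hB, card_slack]

/-- `e` is optimal for the right-hand side `b` and the costs `c`. -/
def Opt (e : Fin m ⊕ Fin n ≃ Fin n ⊕ Fin m) (A : Fin m × Fin n → ℝ) (b : Fin m → ℝ)
    (c : Fin n → ℝ) : Prop :=
  (∀ k, 0 ≤ ((Pm e A)⁻¹ *ᵥ b) k) ∧ (∀ k, 0 ≤ ((Qm e A)⁻¹ *ᵥ c) k)

/-- The `k`-th dual basic variable vanishes at some parameter of the path where `e` is optimal. -/
def HitD (e : Fin m ⊕ Fin n ≃ Fin n ⊕ Fin m) (k : Fin n) (A : Fin m × Fin n → ℝ)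
    (b : Fin m → ℝ) (c : Fin n → ℝ) : Prop :=
  (Pm e A).det ≠ 0 ∧ ((Qm e A)⁻¹ *ᵥ (fun _ => (1 : ℝ))) k ≠ 0 ∧
    ∃ t : ℝ, 0 ≤ t ∧ t ≤ l1 b + l1 c ∧ Opt e A (fun i => b i + t) (fun j => c j - t) ∧
      ((Qm e A)⁻¹ *ᵥ (fun j => c j - t)) k = 0

/-- The `k`-th primal basic variable vanishes at some parameter of the path where `e` is
optimal. -/
def HitP (e : Fin m ⊕ Fin n ≃ Fin n ⊕ Fin m) (k : Fin m) (A : Fin m × Fin n → ℝ)
    (b : Fin m → ℝ) (c : Fin n → ℝ) : Prop :=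
  (Pm e A).det ≠ 0 ∧ ((Pm e A)⁻¹ *ᵥ (fun _ => (1 : ℝ))) k ≠ 0 ∧
    ∃ t : ℝ, 0 ≤ t ∧ t ≤ l1 b + l1 c ∧ Opt e A (fun i => b i + t) (fun j => c j - t) ∧
      ((Pm e A)⁻¹ *ᵥ (fun i => b i + t)) k = 0

theorem mulVec_shift {N : ℕ} (M : Matrix (Fin N) (Fin N) ℝ) (v : Fin N → ℝ) (t : ℝ)
    (k : Fin N) :
    (M *ᵥ (fun i => v i + t)) k = (M *ᵥ v) k + t * (M *ᵥ (fun _ => (1 : ℝ))) k := by
  simp only [mulVec, dotProduct, mul_add, Finset.sum_add_distrib, mul_one, Finset.mul_sum]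
  congr 1
  exact Finset.sum_congr rfl fun i _ => mul_comm _ _

theorem mulVec_shift' {N : ℕ} (M : Matrix (Fin N) (Fin N) ℝ) (v : Fin N → ℝ) (t : ℝ)
    (k : Fin N) :
    (M *ᵥ (fun i => v i - t)) k = (M *ᵥ v) k + t * (-(M *ᵥ (fun _ => (1 : ℝ))) k) := by
  have := mulVec_shift M v (-t) k
  simp only [← sub_eq_add_neg] at this
  rw [this]
  ring

theorem exists_wall {B : Finset (Fin n ⊕ Fin m)} (hB : B.card = m) (hB0 : B ≠ slack m n)
    {A : Fin m × Fin n → ℝ} {b : Fin m → ℝ} {c : Fin n → ℝ}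
    (hP : (Pm (basisEquiv B) A).det ≠ 0)
    (h : ∃ t : ℝ, 0 ≤ t ∧ Opt (basisEquiv B) A (fun i => b i + t) (fun j => c j - t)) :
    (∃ k, HitD (basisEquiv B) k A b c) ∨ ∃ k, HitP (basisEquiv B) k A b c := by
  set e := basisEquiv B with he
  set p : Fin m ⊕ Fin n → ℝ := Sum.elim ((Pm e A)⁻¹ *ᵥ b) ((Qm e A)⁻¹ *ᵥ c) with hp
  set q : Fin m ⊕ Fin n → ℝ := Sum.elim ((Pm e A)⁻¹ *ᵥ (fun _ => (1 : ℝ)))
    (fun k => -((Qm e A)⁻¹ *ᵥ (fun _ => (1 : ℝ))) k) with hq
  have hopt : ∀ t : ℝ, Opt e A (fun i => b i + t) (fun j => c j - t) ↔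
      ∀ i, 0 ≤ p i + t * q i := by
    intro t
    unfold Opt
    simp only [mulVec_shift, mulVec_shift', Sum.forall, hp, hq, Sum.elim_inl, Sum.elim_inr]
  obtain ⟨i, t, ht0, htT, hall, hzero, hne⟩ := exists_hit p q (l1 b + l1 c)
    (by
      obtain ⟨t, ht0, ht⟩ := h
      exact ⟨t, ht0, (hopt t).1 ht⟩)
    (by
      intro t ht0 ht
      by_contra hlt
      rw [not_le] at hlt
      apply hB0
      have ho := (hopt t).2 ht
      refine eq_slack hB (b := fun i => b i + t) (c := fun j => c j - t) hP ho.1 ho.2 ?_ ?_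
      · intro i
        have h1 := abs_le_l1 b i
        have h2 := l1_nonneg c
        have h3 := neg_abs_le (b i)
        linarith
      · intro j
        have h1 := abs_le_l1 c j
        have h2 := l1_nonneg b
        have h3 := le_abs_self (c j)
        linarith)
  rcases i with k | k
  · right
    refine ⟨k, hP, hne, t, ht0, htT, (hopt t).2 hall, ?_⟩
    rw [mulVec_shift]
    exact hzero
  · left
    refine ⟨k, hP, ?_, t, ht0, htT, (hopt t).2 hall, ?_⟩
    · intro h0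
      apply hne
      simp [hq, h0]
    · rw [mulVec_shift']
      exact hzero

end Pool.Agent.Lib.MP_84734f_lc
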