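import Pool.Agent.Lib.MP_84734f_lc.Generic

/-!
# The number of pivots is a measurable function of the data
-/

set_option autoImplicit false

namespace Pool.Agent.Lib.MP_84734f_lc

open Matrix Finset MeasureTheory
open scoped ENNReal

variable {m n : ℕ}

/-- The matrix of the data. -/
def mat (x : X m n) : Matrix (Fin m) (Fin n) ℝ := Matrix.of fun i j => x.1 (i, j)

theorem un_mat (x : X m n) : un (mat x) = x.1 := rfl

theorem meas_isBasis (B : Finset (Fin n ⊕ Fin m)) :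
    MeasurableSet {x : X m n | IsBasis (mat x) B} := by
  have h : {x : X m n | IsBasis (mat x) B}
      = {_x : X m n | B.card = m} ∩ {x | (Pm (basisEquiv B) x.1).det ≠ 0} := by
    ext x
    simp only [Set.mem_ofPred_eq, isBasis_iff, un_mat, Set.mem_inter_iff]
  rw [h]
  exact (MeasurableSet.const _).inter
    (measurableSet_eq_fun (measurable_detP _) measurable_const).compl

theorem meas_optimal (B : Finset (Fin n ⊕ Fin m)) :
    MeasurableSet {p : X m n × ℝ | Optimal (mat p.1) p.1.2.1 p.1.2.2 p.2 B} := by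
  have h : {p : X m n × ℝ | Optimal (mat p.1) p.1.2.1 p.1.2.2 p.2 B}
      = (Prod.fst ⁻¹' {x : X m n | IsBasis (mat x) B}) ∩
        ⋂ i, {p | 0 ≤ pv (basisEquiv B) p.1.1 p.1.2.1 p.1.2.2 i
          + p.2 * qv (basisEquiv B) p.1.1 i} := by
    ext p
    simp only [Set.mem_ofPred_eq, optimal_iff, un_mat, Set.mem_inter_iff, Set.mem_preimage,
      Set.mem_iInter]
  rw [h]
  refine (measurable_fst (meas_isBasis B)).inter (MeasurableSet.iInter fun i =>
    measurableSet_le measurable_const ?_)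
  exact ((measurable_pv _ i).comp measurable_fst).add
    (measurable_snd.mul ((measurable_qv _ i).comp measurable_fst))

theorem least_iff {A : Matrix (Fin m) (Fin n) ℝ} {b : Fin m → ℝ} {c : Fin n → ℝ} {t : ℝ}
    {B : Finset (Fin n ⊕ Fin m)} : IsLeast {s : ℝ | 0 ≤ s ∧ Optimal A b c s B} t ↔
      0 ≤ t ∧ Optimal A b c t B ∧
        ∀ s : ℚ, 0 ≤ (s : ℝ) → (s : ℝ) < t → ¬ Optimal A b c (s : ℝ) B := by
  constructor
  · rintro ⟨⟨h0, h1⟩, h2⟩
    exact ⟨h0, h1, fun s hs0 hst hs => absurd (h2 ⟨hs0, hs⟩) (not_le.2 hst)⟩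
  · rintro ⟨h0, h1, h2⟩
    refine ⟨⟨h0, h1⟩, fun s hs => ?_⟩
    by_contra hlt
    rw [not_le] at hlt
    obtain ⟨q, hq1, hq2⟩ := exists_rat_btwn hlt
    exact h2 q (hs.1.trans hq1.le) hq2 (optimal_between hs.2 h1 hq1.le hq2.le)

theorem meas_least (B : Finset (Fin n ⊕ Fin m)) :
    MeasurableSet {p : X m n × ℝ |
      IsLeast {s : ℝ | 0 ≤ s ∧ Optimal (mat p.1) p.1.2.1 p.1.2.2 s B} p.2} := by
  have h : {p : X m n × ℝ |
      IsLeast {s : ℝ | 0 ≤ s ∧ Optimal (mat p.1) p.1.2.1 p.1.2.2 s B} p.2}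
      = {p | 0 ≤ p.2} ∩ ({p : X m n × ℝ | Optimal (mat p.1) p.1.2.1 p.1.2.2 p.2 B} ∩
        ⋂ s : ℚ, ({_p : X m n × ℝ | 0 ≤ (s : ℝ)}ᶜ ∪ ({p | (s : ℝ) < p.2}ᶜ ∪
          ((fun p : X m n × ℝ => (p.1, (s : ℝ))) ⁻¹'
            {p : X m n × ℝ | Optimal (mat p.1) p.1.2.1 p.1.2.2 p.2 B})ᶜ))) := by
    ext p
    simp only [Set.mem_ofPred_eq, least_iff, Set.mem_inter_iff, Set.mem_iInter, Set.mem_union,
      Set.mem_compl_iff, Set.mem_preimage]
    refine and_congr_right fun _ => and_congr_right fun _ => forall_congr' fun s => ?_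
    tauto
  rw [h]
  refine (measurableSet_le measurable_const measurable_snd).inter ((meas_optimal B).inter
    (MeasurableSet.iInter fun s => (MeasurableSet.const _).compl.union
      ((measurableSet_lt measurable_const measurable_snd).compl.union ?_)))
  exact (MeasurableSet.preimage (meas_optimal B)
    (measurable_fst.prodMk measurable_const)).compl

/-- The basic solution of `B`. -/
noncomputable def Zf (B : Finset (Fin n ⊕ Fin m)) (A : Fin m × Fin n → ℝ) (b : Fin m → ℝ)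
    (t : ℝ) : Fin n ⊕ Fin m → ℝ :=
  fullB (basisEquiv B) ((Pm (basisEquiv B) A)⁻¹ *ᵥ fun i => b i + t)

/-- The reduced costs of `B`. -/
noncomputable def Rf (B : Finset (Fin n ⊕ Fin m)) (A : Fin m × Fin n → ℝ) (c : Fin n → ℝ)
    (t : ℝ) : Fin n ⊕ Fin m → ℝ :=
  fullN (basisEquiv B) ((Qm (basisEquiv B) A)⁻¹ *ᵥ fun j => c j - t)

theorem measurable_Zf (B : Finset (Fin n ⊕ Fin m)) (v : Fin n ⊕ Fin m) :
    Measurable fun p : X m n × ℝ => Zf B p.1.1 p.1.2.1 p.2 v := by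
  unfold Zf fullB
  rcases (basisEquiv B).symm v with k | k
  · simp only [Sum.elim_inl]
    have h : ∀ p : X m n × ℝ, ((Pm (basisEquiv B) p.1.1)⁻¹ *ᵥ fun i => p.1.2.1 i + p.2) k
        = pv (basisEquiv B) p.1.1 p.1.2.1 p.1.2.2 (Sum.inl k)
          + p.2 * qv (basisEquiv B) p.1.1 (Sum.inl k) := fun p => val_inl _ _ _ _ _ _
    simp only [h]
    exact ((measurable_pv _ _).comp measurable_fst).add
      (measurable_snd.mul ((measurable_qv _ _).comp measurable_fst))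
  · simp only [Sum.elim_inr]
    exact measurable_const

theorem measurable_Rf (B : Finset (Fin n ⊕ Fin m)) (v : Fin n ⊕ Fin m) :
    Measurable fun p : X m n × ℝ => Rf B p.1.1 p.1.2.2 p.2 v := by
  unfold Rf fullN
  rcases (basisEquiv B).symm v with k | k
  · simp only [Sum.elim_inl]
    exact measurable_const
  · simp only [Sum.elim_inr]
    have h : ∀ p : X m n × ℝ, ((Qm (basisEquiv B) p.1.1)⁻¹ *ᵥ fun i => p.1.2.2 i - p.2) k
        = pv (basisEquiv B) p.1.1 p.1.2.1 p.1.2.2 (Sum.inr k)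
          + p.2 * qv (basisEquiv B) p.1.1 (Sum.inr k) := fun p => val_inr _ _ _ _ _ _
    simp only [h]
    exact ((measurable_pv _ _).comp measurable_fst).add
      (measurable_snd.mul ((measurable_qv _ _).comp measurable_fst))

theorem pivot_iff {A : Matrix (Fin m) (Fin n) ℝ} {b : Fin m → ℝ} {c : Fin n → ℝ} {t : ℝ}
    {B B' : Finset (Fin n ⊕ Fin m)} : Pivot A b c B t B' ↔
      (IsLeast {s : ℝ | 0 ≤ s ∧ Optimal A b c s B} t ∧ 0 < t ∧ IsBasis A B ∧ IsBasis A B') ∧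
      ∃ p q, (p ∈ B ∧ q ∉ B ∧ B' = insert q (B.erase p)) ∧
        (((∀ v, 0 ≤ Rf B (un A) c t v) ∧ Rf B (un A) c t q = 0 ∧
            ∀ v, 0 ≤ Zf B' (un A) b t v) ∨
         ((∀ v, 0 ≤ Zf B (un A) b t v) ∧ Zf B (un A) b t p = 0 ∧
            ∀ v, 0 ≤ Rf B' (un A) c t v)) := by
  constructor
  · intro h
    have hB : IsBasis A B := h.1.1.2.1
    have hB' : IsBasis A B' := h.isBasis
    obtain ⟨h1, h2, p, hp, q, hq, he, -, h3⟩ := h
    refine ⟨⟨h1, h2, hB, hB'⟩, p, q, ⟨hp, hq, he⟩, ?_⟩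
    rcases h3 with ⟨r, z, hr, hr0, hrq, hz, hz0⟩ | ⟨z, r, hz, hz0, hzp, hr, hr0⟩
    · left
      have e1 : r = Rf B (un A) c t := (reducedCosts_iff hB).1 hr
      have e2 : z = Zf B' (un A) b t := (basicSolution_iff hB').1 hz
      rw [← e1, ← e2]
      exact ⟨hr0, hrq, hz0⟩
    · right
      have e1 : z = Zf B (un A) b t := (basicSolution_iff hB).1 hz
      have e2 : r = Rf B' (un A) c t := (reducedCosts_iff hB').1 hr
      rw [← e1, ← e2]
      exact ⟨hz0, hzp, hr0⟩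
  · rintro ⟨⟨h1, h2, hB, hB'⟩, p, q, ⟨hp, hq, he⟩, h3⟩
    refine ⟨h1, h2, p, hp, q, hq, he, hB', ?_⟩
    rcases h3 with ⟨hr0, hrq, hz0⟩ | ⟨hz0, hzp, hr0⟩
    · exact Or.inl ⟨_, _, (reducedCosts_iff hB).2 rfl, hr0, hrq, (basicSolution_iff hB').2 rfl,
        hz0⟩
    · exact Or.inr ⟨_, _, (basicSolution_iff hB).2 rfl, hz0, hzp, (reducedCosts_iff hB').2 rfl,
        hr0⟩

theorem meas_pivot (B B' : Finset (Fin n ⊕ Fin m)) :
    MeasurableSet {p : X m n × ℝ | Pivot (mat p.1) p.1.2.1 p.1.2.2 B p.2 B'} := by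
  have h : {p : X m n × ℝ | Pivot (mat p.1) p.1.2.1 p.1.2.2 B p.2 B'}
      = ({p : X m n × ℝ | IsLeast {s : ℝ | 0 ≤ s ∧ Optimal (mat p.1) p.1.2.1 p.1.2.2 s B} p.2} ∩
          ({p | 0 < p.2} ∩ ((Prod.fst ⁻¹' {x : X m n | IsBasis (mat x) B}) ∩
            (Prod.fst ⁻¹' {x : X m n | IsBasis (mat x) B'})))) ∩
        ⋃ a, ⋃ q, ({_p : X m n × ℝ | a ∈ B ∧ q ∉ B ∧ B' = insert q (B.erase a)} ∩
          (((⋂ v, {p | 0 ≤ Rf B p.1.1 p.1.2.2 p.2 v}) ∩ ({p | Rf B p.1.1 p.1.2.2 p.2 q = 0} ∩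
              ⋂ v, {p | 0 ≤ Zf B' p.1.1 p.1.2.1 p.2 v})) ∪
           ((⋂ v, {p | 0 ≤ Zf B p.1.1 p.1.2.1 p.2 v}) ∩ ({p | Zf B p.1.1 p.1.2.1 p.2 a = 0} ∩
              ⋂ v, {p | 0 ≤ Rf B' p.1.1 p.1.2.2 p.2 v})))) := by
    ext p
    simp only [Set.mem_ofPred_eq, pivot_iff, un_mat, Set.mem_inter_iff, Set.mem_preimage,
      Set.mem_iUnion, Set.mem_union, Set.mem_iInter]
  rw [h]
  have hR : ∀ (C : Finset (Fin n ⊕ Fin m)), MeasurableSet
      (⋂ v, {p : X m n × ℝ | 0 ≤ Rf C p.1.1 p.1.2.2 p.2 v}) := fun C =>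
    MeasurableSet.iInter fun v => measurableSet_le measurable_const (measurable_Rf C v)
  have hZ : ∀ (C : Finset (Fin n ⊕ Fin m)), MeasurableSet
      (⋂ v, {p : X m n × ℝ | 0 ≤ Zf C p.1.1 p.1.2.1 p.2 v}) := fun C =>
    MeasurableSet.iInter fun v => measurableSet_le measurable_const (measurable_Zf C v)
  refine ((meas_least B).inter ((measurableSet_lt measurable_const measurable_snd).inter
    ((measurable_fst (meas_isBasis B)).inter (measurable_fst (meas_isBasis B'))))).inter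
    (MeasurableSet.iUnion fun a => MeasurableSet.iUnion fun q => (MeasurableSet.const _).inter ?_)
  exact ((hR B).inter ((measurableSet_eq_fun (measurable_Rf B q) measurable_const).inter
    (hZ B'))).union ((hZ B).inter ((measurableSet_eq_fun (measurable_Zf B a)
      measurable_const).inter (hR B')))

/-- The set of data for which `B` is followed by `B'` is measurable. -/
theorem meas_step (B B' : Finset (Fin n ⊕ Fin m)) :
    MeasurableSet {x : X m n | ∃ t, Pivot (mat x) x.2.1 x.2.2 B t B'} := by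
  have h : {x : X m n | ∃ t, Pivot (mat x) x.2.1 x.2.2 B t B'}
      = Prod.fst '' {p : X m n × ℝ | Pivot (mat p.1) p.1.2.1 p.1.2.2 B p.2 B'} := by
    ext x
    simp only [Set.mem_ofPred_eq, Set.mem_image, Prod.exists, exists_and_right, exists_eq_right]
  rw [h]
  refine (meas_pivot B B').image_of_measurable_injOn measurable_fst ?_
  rintro ⟨x, t⟩ ht ⟨x', t'⟩ ht' hx
  have hx' : x = x' := hx
  subst hx'
  have h1 : IsLeast {s : ℝ | 0 ≤ s ∧ Optimal (mat x) x.2.1 x.2.2 s B} t := ht.1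
  have h2 : IsLeast {s : ℝ | 0 ≤ s ∧ Optimal (mat x) x.2.1 x.2.2 s B} t' := ht'.1
  rw [h1.unique h2]

theorem reach_zero {A : Matrix (Fin m) (Fin n) ℝ} {b : Fin m → ℝ} {c : Fin n → ℝ}
    {B : Finset (Fin n ⊕ Fin m)} : Reach A b c 0 B ↔ B = slack m n := by
  constructor
  · intro h
    cases h
    rfl
  · rintro rfl
    exact Reach.start

theorem reach_succ {A : Matrix (Fin m) (Fin n) ℝ} {b : Fin m → ℝ} {c : Fin n → ℝ} {k : ℕ}
    {B' : Finset (Fin n ⊕ Fin m)} : Reach A b c (k + 1) B' ↔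
      ∃ B, Reach A b c k B ∧ ∃ t, Pivot A b c B t B' := by
  constructor
  · intro h
    cases h with
    | pivot h1 h2 => exact ⟨_, h1, _, h2⟩
  · rintro ⟨B, h1, t, h2⟩
    exact Reach.pivot h1 h2

theorem meas_reach (k : ℕ) (B : Finset (Fin n ⊕ Fin m)) :
    MeasurableSet {x : X m n | Reach (mat x) x.2.1 x.2.2 k B} := by
  induction k generalizing B with
  | zero =>
    simp only [reach_zero]
    exact MeasurableSet.const _
  | succ k ih =>
    have h : {x : X m n | Reach (mat x) x.2.1 x.2.2 (k + 1) B}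
        = ⋃ C, ({x : X m n | Reach (mat x) x.2.1 x.2.2 k C} ∩
          {x | ∃ t, Pivot (mat x) x.2.1 x.2.2 C t B}) := by
      ext x
      simp only [Set.mem_ofPred_eq, reach_succ, Set.mem_iUnion, Set.mem_inter_iff]
    rw [h]
    exact MeasurableSet.iUnion fun C => (ih C).inter (meas_step C B)

theorem measurable_pivots : Measurable fun x : X m n => pivots (mat x) x.2.1 x.2.2 := by
  unfold pivots
  refine Measurable.iSup fun k => ?_
  have hs : MeasurableSet {x : X m n | ∃ B, Reach (mat x) x.2.1 x.2.2 k B} := by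
    have h : {x : X m n | ∃ B, Reach (mat x) x.2.1 x.2.2 k B}
        = ⋃ B, {x : X m n | Reach (mat x) x.2.1 x.2.2 k B} := by
      ext x
      simp only [Set.mem_ofPred_eq, Set.mem_iUnion]
    rw [h]
    exact MeasurableSet.iUnion fun B => meas_reach k B
  have h : (fun x : X m n => ⨆ _ : ∃ B, Reach (mat x) x.2.1 x.2.2 k B, (k : ENNReal))
      = Set.indicator {x : X m n | ∃ B, Reach (mat x) x.2.1 x.2.2 k B}
        (fun _ => (k : ENNReal)) := by
    funext x
    by_cases hx : ∃ B, Reach (mat x) x.2.1 x.2.2 k B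
    · rw [Set.indicator_of_mem (s := {x : X m n | ∃ B, Reach (mat x) x.2.1 x.2.2 k B}) hx]
      exact iSup_pos hx
    · rw [Set.indicator_of_notMem (s := {x : X m n | ∃ B, Reach (mat x) x.2.1 x.2.2 k B}) hx]
      rw [iSup_neg hx]
      rfl
  rw [h]
  exact measurable_const.indicator hs

end Pool.Agent.Lib.MP_84734f_lc
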