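import Pool.Agent.Lib.MP_84734f_lc.Final
import Pool.Agent.Lib.MP_84734f_lc.Method

/-!
# The path of the method: on nondegenerate data its bases are distinct and determined
-/

set_option autoImplicit false

namespace Pool.Agent.Lib.MP_84734f_lc

open Matrix Finset Filter Topology

variable {m n : ℕ}

/-- The entries of a matrix, as a function of the pair of indices. -/
abbrev un (A : Matrix (Fin m) (Fin n) ℝ) : Fin m × Fin n → ℝ := fun p => A p.1 p.2

theorem extA_mulVec_un (A : Matrix (Fin m) (Fin n) ℝ) (z : Fin n ⊕ Fin m → ℝ) (i : Fin m) :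
    (extA (un A) *ᵥ z) i = ∑ j, A i j * z (Sum.inl j) + z (Sum.inr i) := by
  simp only [mulVec, dotProduct, extA, Matrix.of_apply, Fintype.sum_sum_type, Sum.elim_inl,
    Sum.elim_inr, ite_mul, one_mul, zero_mul, Finset.sum_ite_eq, Finset.mem_univ, if_true]

theorem extD_mulVec_un (A : Matrix (Fin m) (Fin n) ℝ) (r : Fin n ⊕ Fin m → ℝ) (j : Fin n) :
    (extD (un A) *ᵥ r) j = -r (Sum.inl j) + ∑ i, A i j * r (Sum.inr i) := by
  simp only [mulVec, dotProduct, extD, Matrix.of_apply, Fintype.sum_sum_type, Sum.elim_inl,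
    Sum.elim_inr, ite_mul, neg_mul, one_mul, zero_mul, Finset.sum_ite_eq, Finset.mem_univ,
    if_true]

/-- The enumeration of a basis. -/
noncomputable def enumB (B : Finset (Fin n ⊕ Fin m)) (hB : B.card = m) : Fin m ≃ B :=
  Equiv.ofBijective (fun l => ⟨basisEquiv B (Sum.inl l), basisEquiv_mem hB l⟩) (by
    constructor
    · intro a b hab
      have h3 : basisEquiv B (Sum.inl a) = basisEquiv B (Sum.inl b) := congrArg Subtype.val hab
      exact Sum.inl.inj ((basisEquiv B).injective h3)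
    · rintro ⟨v, hv⟩
      rw [← basisEquiv_image hB] at hv
      obtain ⟨l, -, hl⟩ := Finset.mem_image.1 hv
      exact ⟨l, Subtype.ext hl⟩)

theorem cols_eq (A : Matrix (Fin m) (Fin n) ℝ) (v : Fin n ⊕ Fin m) :
    (Matrix.transpose (Matrix.fromCols A (1 : Matrix (Fin m) (Fin m) ℝ))) v
      = fun r => extA (un A) r v := by
  funext r
  rcases v with j | i
  · simp [extA]
  · simp [extA, Matrix.one_apply]

theorem isBasis_iff {A : Matrix (Fin m) (Fin n) ℝ} {B : Finset (Fin n ⊕ Fin m)} :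
    IsBasis A B ↔ B.card = m ∧ (Pm (basisEquiv B) (un A)).det ≠ 0 := by
  unfold IsBasis
  refine and_congr_right fun hB => ?_
  rw [← linearIndependent_equiv (enumB B hB)]
  have h1 : ((fun q : B => (Matrix.transpose
      (Matrix.fromCols A (1 : Matrix (Fin m) (Fin m) ℝ))) q.1) ∘ (enumB B hB))
      = fun l : Fin m => (Pm (basisEquiv B) (un A)).transpose l := by
    funext l
    simp only [Function.comp]
    rw [cols_eq]
    rfl
  rw [h1]
  have h2 : (LinearIndependent ℝ fun l : Fin m => (Pm (basisEquiv B) (un A)).transpose l)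
      ↔ IsUnit (Pm (basisEquiv B) (un A)).transpose := Matrix.linearIndependent_rows_iff_isUnit
  rw [h2, Matrix.isUnit_iff_isUnit_det, det_transpose, isUnit_iff_ne_zero]

theorem mem_or_notMem {B : Finset (Fin n ⊕ Fin m)} (hB : B.card = m) {v : Fin n ⊕ Fin m}
    (hv : v ∈ B) : ∃ k, v = basisEquiv B (Sum.inl k) := by
  rw [← basisEquiv_image hB] at hv
  obtain ⟨l, -, hl⟩ := Finset.mem_image.1 hv
  exact ⟨l, hl.symm⟩

theorem notMem_exists {B : Finset (Fin n ⊕ Fin m)} (hB : B.card = m) {v : Fin n ⊕ Fin m}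
    (hv : v ∉ B) : ∃ k, v = basisEquiv B (Sum.inr k) := by
  obtain ⟨k | k, rfl⟩ := (basisEquiv B).surjective v
  · exact absurd (basisEquiv_mem hB k) hv
  · exact ⟨k, rfl⟩

theorem basicSolution_iff {A : Matrix (Fin m) (Fin n) ℝ} {b : Fin m → ℝ} {t : ℝ}
    {B : Finset (Fin n ⊕ Fin m)} (hB : IsBasis A B) {z : Fin n ⊕ Fin m → ℝ} :
    BasicSolution A b t B z ↔
      z = fullB (basisEquiv B) ((Pm (basisEquiv B) (un A))⁻¹ *ᵥ fun i => b i + t) := by
  obtain ⟨hc, hP⟩ := isBasis_iff.1 hB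
  have hu : IsUnit (Pm (basisEquiv B) (un A)).det := isUnit_iff_ne_zero.2 hP
  constructor
  · rintro ⟨h1, h2⟩
    have h3 : z = fullB (basisEquiv B) (fun l => z (basisEquiv B (Sum.inl l))) := by
      funext i
      obtain ⟨l | l, rfl⟩ := (basisEquiv B).surjective i
      · simp
      · simp [h2 _ (basisEquiv_notMem hc l)]
    have h4 : Pm (basisEquiv B) (un A) *ᵥ (fun l => z (basisEquiv B (Sum.inl l)))
        = fun i => b i + t := by
      rw [← extA_fullB, ← h3]
      funext i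
      rw [extA_mulVec_un]
      exact h1 i
    rw [← h4, mulVec_mulVec, nonsing_inv_mul _ hu, one_mulVec]
    exact h3
  · rintro rfl
    refine ⟨fun i => ?_, fun v hv => ?_⟩
    · rw [← extA_mulVec_un, extA_fullB, mulVec_mulVec, mul_nonsing_inv _ hu, one_mulVec]
    · obtain ⟨k, rfl⟩ := notMem_exists hc hv
      simp

theorem reducedCosts_iff {A : Matrix (Fin m) (Fin n) ℝ} {c : Fin n → ℝ} {t : ℝ}
    {B : Finset (Fin n ⊕ Fin m)} (hB : IsBasis A B) {r : Fin n ⊕ Fin m → ℝ} :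
    ReducedCosts A c t B r ↔
      r = fullN (basisEquiv B) ((Qm (basisEquiv B) (un A))⁻¹ *ᵥ fun j => c j - t) := by
  obtain ⟨hc, hP⟩ := isBasis_iff.1 hB
  have hu : IsUnit (Qm (basisEquiv B) (un A)).det :=
    isUnit_iff_ne_zero.2 (det_Qm_ne_zero _ hP)
  constructor
  · rintro ⟨h1, h2⟩
    have h3 : r = fullN (basisEquiv B) (fun l => r (basisEquiv B (Sum.inr l))) := by
      funext i
      obtain ⟨l | l, rfl⟩ := (basisEquiv B).surjective i
      · simp [h2 _ (basisEquiv_mem hc l)]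
      · simp
    have h4 : Qm (basisEquiv B) (un A) *ᵥ (fun l => r (basisEquiv B (Sum.inr l)))
        = fun j => c j - t := by
      rw [← extD_fullN, ← h3]
      funext j
      rw [extD_mulVec_un, h1 j]
      ring
    rw [← h4, mulVec_mulVec, nonsing_inv_mul _ hu, one_mulVec]
    exact h3
  · intro hr
    refine ⟨fun j => ?_, fun v hv => ?_⟩
    · have h5 : (extD (un A) *ᵥ r) j = c j - t := by
        rw [hr, extD_fullN, mulVec_mulVec, mul_nonsing_inv _ hu, one_mulVec]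
      rw [extD_mulVec_un] at h5
      linarith
    · obtain ⟨k, rfl⟩ := mem_or_notMem hc hv
      rw [hr]
      simp

/-- The basic quantities at the parameter zero. -/
noncomputable def pv (e : Fin m ⊕ Fin n ≃ Fin n ⊕ Fin m) (A : Fin m × Fin n → ℝ) (b : Fin m → ℝ)
    (c : Fin n → ℝ) : Fin m ⊕ Fin n → ℝ :=
  Sum.elim ((Pm e A)⁻¹ *ᵥ b) ((Qm e A)⁻¹ *ᵥ c)

/-- The slopes of the basic quantities. -/
noncomputable def qv (e : Fin m ⊕ Fin n ≃ Fin n ⊕ Fin m) (A : Fin m × Fin n → ℝ) :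
    Fin m ⊕ Fin n → ℝ :=
  Sum.elim ((Pm e A)⁻¹ *ᵥ fun _ => (1 : ℝ)) (fun k => -((Qm e A)⁻¹ *ᵥ fun _ => (1 : ℝ)) k)

theorem val_inl (e : Fin m ⊕ Fin n ≃ Fin n ⊕ Fin m) (A : Fin m × Fin n → ℝ) (b : Fin m → ℝ)
    (c : Fin n → ℝ) (t : ℝ) (k : Fin m) :
    ((Pm e A)⁻¹ *ᵥ fun i => b i + t) k = pv e A b c (Sum.inl k) + t * qv e A (Sum.inl k) := by
  rw [mulVec_shift]
  rfl

theorem val_inr (e : Fin m ⊕ Fin n ≃ Fin n ⊕ Fin m) (A : Fin m × Fin n → ℝ) (b : Fin m → ℝ)
    (c : Fin n → ℝ) (t : ℝ) (k : Fin n) :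
    ((Qm e A)⁻¹ *ᵥ fun j => c j - t) k = pv e A b c (Sum.inr k) + t * qv e A (Sum.inr k) := by
  rw [mulVec_shift']
  rfl

theorem optimal_iff {A : Matrix (Fin m) (Fin n) ℝ} {b : Fin m → ℝ} {c : Fin n → ℝ} {t : ℝ}
    {B : Finset (Fin n ⊕ Fin m)} : Optimal A b c t B ↔ IsBasis A B ∧
      ∀ i, 0 ≤ pv (basisEquiv B) (un A) b c i + t * qv (basisEquiv B) (un A) i := by
  unfold Optimal
  refine and_congr_right fun hB => ?_
  simp only [basicSolution_iff hB, reducedCosts_iff hB, exists_eq_left]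
  constructor
  · rintro ⟨h1, h2⟩ (k | k)
    · have := h1 (basisEquiv B (Sum.inl k))
      rw [fullB_inl, val_inl (c := c)] at this
      exact this
    · have := h2 (basisEquiv B (Sum.inr k))
      rw [fullN_inr, val_inr (b := b)] at this
      exact this
  · intro h
    refine ⟨fun v => ?_, fun v => ?_⟩
    · obtain ⟨k | k, rfl⟩ := (basisEquiv B).surjective v
      · rw [fullB_inl, val_inl (c := c)]
        exact h _
      · simp
    · obtain ⟨k | k, rfl⟩ := (basisEquiv B).surjective v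
      · simp
      · rw [fullN_inr, val_inr (b := b)]
        exact h _

theorem mem_FS {A : Matrix (Fin m) (Fin n) ℝ} {b : Fin m → ℝ} {c : Fin n → ℝ} {t : ℝ}
    {B : Finset (Fin n ⊕ Fin m)} (ht : 0 ≤ t) (h : Optimal A b c t B) : B ∈ FS A b c := by
  obtain ⟨⟨hB, hli⟩, ⟨z, ⟨hz1, hz2⟩, hz0⟩, r, ⟨hr1, hr2⟩, hr0⟩ := h
  refine ⟨hB, hli, t, ht, ⟨fun j => z (Sum.inl j), fun i => z (Sum.inr i), fun j => hz0 _,
    fun i => hz0 _, hz1, fun j hj => hz2 _ hj, fun i hi => hz2 _ hi⟩, fun i => r (Sum.inr i),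
    fun i => hr0 _, fun j => ?_, fun j hj => ?_, fun i hi => hr2 _ hi⟩
  · have h1 := hr0 (Sum.inl j)
    rw [hr1 j] at h1
    linarith
  · have h1 := hr2 _ hj
    rw [hr1 j] at h1
    linarith

/-! ### Affine functions of the parameter -/

theorem affine_between {p q s₁ s₂ u : ℝ} (h₁ : 0 ≤ p + s₁ * q) (h₂ : 0 ≤ p + s₂ * q)
    (hu₁ : s₁ ≤ u) (hu₂ : u ≤ s₂) : 0 ≤ p + u * q := by
  rcases le_total 0 q with hq | hq
  · have := mul_le_mul_of_nonneg_right hu₁ hq
    linarith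
  · have := mul_le_mul_of_nonpos_right hu₂ hq
    linarith

theorem side_right {ι : Type*} [Finite ι] (p q : ι → ℝ) (t : ℝ)
    (h : ∀ i, 0 < p i + t * q i ∨ (p i + t * q i = 0 ∧ 0 ≤ q i)) :
    ∃ s, t < s ∧ ∀ i, 0 ≤ p i + s * q i := by
  have hev : ∀ i, ∀ᶠ s in 𝓝[>] t, 0 ≤ p i + s * q i := by
    intro i
    rcases h i with h | ⟨h, hq⟩
    · have hc : ContinuousAt (fun s => p i + s * q i) t := by fun_prop
      exact (hc.eventually_const_lt h).filter_mono nhdsWithin_le_nhds |>.mono fun _ h => h.le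
    · filter_upwards [eventually_mem_nhdsWithin] with s hs
      have h1 : 0 ≤ (s - t) * q i := mul_nonneg (sub_nonneg.2 (le_of_lt hs)) hq
      have h2 : p i + s * q i = (p i + t * q i) + (s - t) * q i := by ring
      rw [h2, h, zero_add]
      exact h1
  have hall : ∀ᶠ s in 𝓝[>] t, ∀ i, 0 ≤ p i + s * q i := eventually_all.2 hev
  have hgt : ∀ᶠ s in 𝓝[>] t, t < s := eventually_mem_nhdsWithin
  obtain ⟨s, hs, hst⟩ := (hall.and hgt).exists
  exact ⟨s, hst, hs⟩

theorem side_left {ι : Type*} [Finite ι] (p q : ι → ℝ) (t : ℝ) (ht : 0 < t)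
    (h : ∀ i, 0 < p i + t * q i ∨ (p i + t * q i = 0 ∧ q i ≤ 0)) :
    ∃ s, 0 ≤ s ∧ s < t ∧ ∀ i, 0 ≤ p i + s * q i := by
  obtain ⟨s', hs', hall⟩ := side_right p (fun i => -q i) (-t) (fun i => by
    have h1 : p i + -t * -q i = p i + t * q i := by ring
    rw [h1]
    rcases h i with h | ⟨h, hq⟩
    · exact Or.inl h
    · exact Or.inr ⟨h, by simpa using hq⟩)
  refine ⟨max (-s') 0, le_max_right _ _, max_lt (by linarith) ht, fun i => ?_⟩
  refine affine_between (s₁ := -s') (s₂ := t) ?_ ?_ (le_max_left _ _)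
    (max_le (by linarith) ht.le)
  · have h1 := hall i
    have h2 : p i + -s' * q i = p i + s' * -q i := by ring
    rw [h2]
    exact h1
  · rcases h i with h | ⟨h, -⟩
    · exact h.le
    · exact h.ge

theorem exists_generic {ι : Type*} [Finite ι] (p q : ι → ℝ) (hp : ∀ i, p i ≠ 0) {s₁ s₂ : ℝ}
    (hs : s₁ < s₂) : ∃ s, s₁ < s ∧ s < s₂ ∧ ∀ i, p i + s * q i ≠ 0 := by
  have hfin : (⋃ i, {s : ℝ | p i + s * q i = 0}).Finite := by
    refine Set.finite_iUnion fun i => Set.Subsingleton.finite ?_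
    intro a ha b hb
    have ha' : p i + a * q i = 0 := ha
    have hb' : p i + b * q i = 0 := hb
    have hq : q i ≠ 0 := by
      intro h0
      rw [h0, mul_zero, add_zero] at ha'
      exact hp i ha'
    have : (a - b) * q i = 0 := by linarith
    rcases mul_eq_zero.1 this with h | h
    · linarith
    · exact absurd h hq
  obtain ⟨s, ⟨h1, h2⟩, h3⟩ := (Set.Ioo_infinite hs).exists_notMem_finite hfin
  refine ⟨s, h1, h2, fun i hi => h3 (Set.mem_iUnion.2 ⟨i, hi⟩)⟩

/-! ### Nondegenerate data -/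

/-- Nondegenerate data: no basic quantity vanishes at the parameter zero, and no two basic
quantities vanish at the same parameter. -/
def ND (A : Fin m × Fin n → ℝ) (b : Fin m → ℝ) (c : Fin n → ℝ) : Prop :=
  ∀ e : Fin m ⊕ Fin n ≃ Fin n ⊕ Fin m, (Pm e A).det ≠ 0 →
    (∀ i, pv e A b c i ≠ 0) ∧ ∀ i j, i ≠ j → (qv e A i ≠ 0 ∨ qv e A j ≠ 0) →
      qv e A j * pv e A b c i ≠ qv e A i * pv e A b c j

theorem ND.unique {A : Fin m × Fin n → ℝ} {b : Fin m → ℝ} {c : Fin n → ℝ} (h : ND A b c)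
    {e : Fin m ⊕ Fin n ≃ Fin n ⊕ Fin m} (hP : (Pm e A).det ≠ 0) {t : ℝ} {i j : Fin m ⊕ Fin n}
    (hi : pv e A b c i + t * qv e A i = 0) (hj : pv e A b c j + t * qv e A j = 0) : i = j := by
  by_contra hij
  obtain ⟨h1, h2⟩ := h e hP
  have hq : qv e A i ≠ 0 := by
    intro h0
    rw [h0, mul_zero, add_zero] at hi
    exact h1 i hi
  apply h2 i j hij (Or.inl hq)
  have e1 : pv e A b c i = -(t * qv e A i) := by linarith
  have e2 : pv e A b c j = -(t * qv e A j) := by linarith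
  rw [e1, e2]
  ring

/-- Two bases optimal at a parameter where no basic quantity of the first vanishes are equal. -/
theorem eq_of_optimal {A : Matrix (Fin m) (Fin n) ℝ} {b : Fin m → ℝ} {c : Fin n → ℝ} {s : ℝ}
    {B B' : Finset (Fin n ⊕ Fin m)} (h : Optimal A b c s B) (h' : Optimal A b c s B')
    (hne : ∀ i, pv (basisEquiv B) (un A) b c i + s * qv (basisEquiv B) (un A) i ≠ 0) :
    B = B' := by
  have hB := h.1
  have hB' := h'.1
  have hc := (isBasis_iff.1 hB).1
  have hc' := (isBasis_iff.1 hB').1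
  obtain ⟨-, ⟨z, hz, hz0⟩, r, hr, hr0⟩ := h
  obtain ⟨-, ⟨z', hz', hz0'⟩, r', hr', hr0'⟩ := h'
  have hzpos : ∀ v ∈ B, 0 < z v := by
    intro v hv
    obtain ⟨k, rfl⟩ := mem_or_notMem hc hv
    refine lt_of_le_of_ne (hz0 _) (Ne.symm ?_)
    rw [(basicSolution_iff hB).1 hz, fullB_inl, val_inl (c := c)]
    exact hne _
  have hrpos : ∀ v, v ∉ B → 0 < r v := by
    intro v hv
    obtain ⟨k, rfl⟩ := notMem_exists hc hv
    refine lt_of_le_of_ne (hr0 _) (Ne.symm ?_)
    rw [(reducedCosts_iff hB).1 hr, fullN_inr, val_inr (b := b)]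
    exact hne _
  have hdot : ∀ (z r : Fin n ⊕ Fin m → ℝ) (C C' : Finset (Fin n ⊕ Fin m)),
      BasicSolution A b s C z → ReducedCosts A c s C' r →
      ∑ v, z v * r v = (∑ l, (b l + s) * r (Sum.inr l)) - ∑ j, (c j - s) * z (Sum.inl j) := by
    intro z r C C' hz hr
    rw [dot_eq (un A)]
    congr 1
    · refine Finset.sum_congr rfl fun l _ => ?_
      rw [extA_mulVec_un, hz.1 l]
    · refine Finset.sum_congr rfl fun j _ => ?_
      rw [extD_mulVec_un, hr.1 j]
      ring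
  have hzr : ∑ v, z v * r v = 0 := by
    refine Finset.sum_eq_zero fun v _ => ?_
    by_cases hv : v ∈ B
    · rw [hr.2 v hv, mul_zero]
    · rw [hz.2 v hv, zero_mul]
  have hzr' : ∑ v, z' v * r' v = 0 := by
    refine Finset.sum_eq_zero fun v _ => ?_
    by_cases hv : v ∈ B'
    · rw [hr'.2 v hv, mul_zero]
    · rw [hz'.2 v hv, zero_mul]
  have h1 := hdot z r B B hz hr
  have h2 := hdot z' r' B' B' hz' hr'
  have h3 := hdot z r' B B' hz hr'
  have h4 := hdot z' r B' B hz' hr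
  have h5 : 0 ≤ ∑ v, z v * r' v := Finset.sum_nonneg fun v _ => mul_nonneg (hz0 v) (hr0' v)
  have h6 : ∀ v ∈ Finset.univ, 0 ≤ z' v * r v := fun v _ => mul_nonneg (hz0' v) (hr0 v)
  have h7 : ∑ v, z' v * r v = 0 := by
    have h8 := Finset.sum_nonneg h6
    linarith
  have h9 : ∀ v, v ∉ B → z' v = 0 := by
    intro v hv
    have h10 := (Finset.sum_eq_zero_iff_of_nonneg h6).1 h7 v (Finset.mem_univ v)
    rcases mul_eq_zero.1 h10 with h | h
    · exact h
    · exact absurd h (hrpos v hv).ne'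
  have h11 : z' = z := by
    rw [(basicSolution_iff hB).1 hz]
    exact (basicSolution_iff hB).1 ⟨hz'.1, h9⟩
  apply Finset.eq_of_subset_of_card_le
  · intro v hv
    by_contra hv'
    have h12 := hz'.2 v hv'
    rw [h11] at h12
    exact (hzpos v hv).ne' h12
  · rw [hc, hc']

/-- On nondegenerate data two bases optimal at two common parameters are equal. -/
theorem eq_of_optimal_two {A : Matrix (Fin m) (Fin n) ℝ} {b : Fin m → ℝ} {c : Fin n → ℝ}
    (hND : ND (un A) b c) {s₁ s₂ : ℝ} (hs : s₁ < s₂) {B B' : Finset (Fin n ⊕ Fin m)}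
    (h₁ : Optimal A b c s₁ B) (h₂ : Optimal A b c s₂ B) (h₁' : Optimal A b c s₁ B')
    (h₂' : Optimal A b c s₂ B') : B = B' := by
  have hP := (isBasis_iff.1 h₁.1).2
  obtain ⟨s, hs1, hs2, hne⟩ := exists_generic (pv (basisEquiv B) (un A) b c)
    (qv (basisEquiv B) (un A)) (hND _ hP).1 hs
  refine eq_of_optimal (s := s) (optimal_iff.2 ⟨h₁.1, fun i => ?_⟩)
    (optimal_iff.2 ⟨h₁'.1, fun i => ?_⟩) hne
  · exact affine_between ((optimal_iff.1 h₁).2 i) ((optimal_iff.1 h₂).2 i) hs1.le hs2.le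
  · exact affine_between ((optimal_iff.1 h₁').2 i) ((optimal_iff.1 h₂').2 i) hs1.le hs2.le

theorem optimal_between {A : Matrix (Fin m) (Fin n) ℝ} {b : Fin m → ℝ} {c : Fin n → ℝ}
    {s₁ s₂ u : ℝ} {B : Finset (Fin n ⊕ Fin m)} (h₁ : Optimal A b c s₁ B)
    (h₂ : Optimal A b c s₂ B) (hu₁ : s₁ ≤ u) (hu₂ : u ≤ s₂) : Optimal A b c u B :=
  optimal_iff.2 ⟨h₁.1, fun i =>
    affine_between ((optimal_iff.1 h₁).2 i) ((optimal_iff.1 h₂).2 i) hu₁ hu₂⟩

/-- On nondegenerate data the set of parameters of a basis is not a point. -/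
theorem exists_side {A : Matrix (Fin m) (Fin n) ℝ} {b : Fin m → ℝ} {c : Fin n → ℝ}
    (hND : ND (un A) b c) {t : ℝ} (ht : 0 < t) {B : Finset (Fin n ⊕ Fin m)}
    (h : Optimal A b c t B) :
    (∃ s, t < s ∧ Optimal A b c s B) ∨ ∃ s, 0 ≤ s ∧ s < t ∧ Optimal A b c s B := by
  have hP := (isBasis_iff.1 h.1).2
  have hall := (optimal_iff.1 h).2
  by_cases hex : ∃ i₀, pv (basisEquiv B) (un A) b c i₀ + t * qv (basisEquiv B) (un A) i₀ = 0 ∧
      qv (basisEquiv B) (un A) i₀ < 0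
  · obtain ⟨i₀, h0, hq⟩ := hex
    right
    obtain ⟨s, hs0, hst, hs⟩ := side_left (pv (basisEquiv B) (un A) b c)
      (qv (basisEquiv B) (un A)) t ht (fun i => by
        rcases (hall i).eq_or_lt with h1 | h1
        · right
          rw [hND.unique hP h1.symm h0]
          exact ⟨h0, hq.le⟩
        · exact Or.inl h1)
    exact ⟨s, hs0, hst, optimal_iff.2 ⟨h.1, hs⟩⟩
  · left
    push Not at hex
    obtain ⟨s, hst, hs⟩ := side_right (pv (basisEquiv B) (un A) b c)
      (qv (basisEquiv B) (un A)) t (fun i => by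
        rcases (hall i).eq_or_lt with h1 | h1
        · exact Or.inr ⟨h1.symm, hex i h1.symm⟩
        · exact Or.inl h1)
    exact ⟨s, hst, optimal_iff.2 ⟨h.1, hs⟩⟩

/-! ### Pivots -/

theorem Pivot.isBasis {A : Matrix (Fin m) (Fin n) ℝ} {b : Fin m → ℝ} {c : Fin n → ℝ} {t : ℝ}
    {B B' : Finset (Fin n ⊕ Fin m)} (h : Pivot A b c B t B') : IsBasis A B' := by
  obtain ⟨-, -, p, -, q, -, -, h, -⟩ := h
  exact h

theorem Pivot.ne {A : Matrix (Fin m) (Fin n) ℝ} {b : Fin m → ℝ} {c : Fin n → ℝ} {t : ℝ}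
    {B B' : Finset (Fin n ⊕ Fin m)} (h : Pivot A b c B t B') : B ≠ B' := by
  obtain ⟨-, -, p, -, q, hq, hB', -, -⟩ := h
  intro he
  apply hq
  rw [he, hB']
  exact Finset.mem_insert_self _ _

theorem Pivot.optimal {A : Matrix (Fin m) (Fin n) ℝ} {b : Fin m → ℝ} {c : Fin n → ℝ} {t : ℝ}
    {B B' : Finset (Fin n ⊕ Fin m)} (h : Pivot A b c B t B') : Optimal A b c t B' := by
  obtain ⟨-, -, p, hp, q, hq, hB', hbas, ⟨r, z, hr, hr0, hrq, hz, hz0⟩ |
    ⟨z, r, hz, hz0, hzp, hr, hr0⟩⟩ := h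
  · refine ⟨hbas, ⟨z, hz, hz0⟩, r, ⟨hr.1, fun v hv => ?_⟩, hr0⟩
    rw [hB', Finset.mem_insert] at hv
    rcases hv with rfl | hv
    · exact hrq
    · exact hr.2 v (Finset.mem_of_mem_erase hv)
  · refine ⟨hbas, ⟨z, ⟨hz.1, fun v hv => ?_⟩, hz0⟩, r, hr, hr0⟩
    by_cases hvp : v = p
    · rw [hvp]
      exact hzp
    · refine hz.2 v fun hvB => hv ?_
      rw [hB']
      exact Finset.mem_insert_of_mem (Finset.mem_erase.2 ⟨hvp, hvB⟩)

/-- On nondegenerate data the old basis is optimal above the parameter of the pivot and the new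
one below. -/
theorem Pivot.sides {A : Matrix (Fin m) (Fin n) ℝ} {b : Fin m → ℝ} {c : Fin n → ℝ}
    (hND : ND (un A) b c) {t : ℝ} {B B' : Finset (Fin n ⊕ Fin m)} (h : Pivot A b c B t B') :
    ∃ s, 0 ≤ s ∧ s < t ∧ Optimal A b c s B' := by
  have hleast := h.1
  have ht := h.2.1
  rcases exists_side hND ht h.optimal with ⟨s, hst, hs⟩ | h1
  · exfalso
    rcases exists_side hND ht hleast.1.2 with ⟨s', hst', hs'⟩ | ⟨s', hs0', hst', hs'⟩
    · have hmin : t < min s s' := lt_min hst hst'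
      exact h.ne (eq_of_optimal_two hND hmin hleast.1.2
        (optimal_between hleast.1.2 hs' hmin.le (min_le_right _ _)) h.optimal
        (optimal_between h.optimal hs hmin.le (min_le_left _ _)))
    · exact absurd (hleast.2 ⟨hs0', hs'⟩) (not_le.2 hst')
  · exact h1

/-- On nondegenerate data the next basis is determined. -/
theorem Pivot.unique {A : Matrix (Fin m) (Fin n) ℝ} {b : Fin m → ℝ} {c : Fin n → ℝ}
    (hND : ND (un A) b c) {t t' : ℝ} {B B' B'' : Finset (Fin n ⊕ Fin m)}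
    (h : Pivot A b c B t B') (h' : Pivot A b c B t' B'') : B' = B'' := by
  have htt : t = t' := h.1.unique h'.1
  subst htt
  obtain ⟨s, hs0, hst, hs⟩ := h.sides hND
  obtain ⟨s', hs0', hst', hs'⟩ := h'.sides hND
  have hmax : max s s' < t := max_lt hst hst'
  exact eq_of_optimal_two hND hmax
    (optimal_between hs h.optimal (le_max_left _ _) hmax.le) h.optimal
    (optimal_between hs' h'.optimal (le_max_right _ _) hmax.le) h'.optimal

/-! ### The slack basis -/

theorem slack_isBasis (A : Matrix (Fin m) (Fin n) ℝ) : IsBasis A (slack m n) := by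
  refine ⟨card_slack, ?_⟩
  set f : Fin m → (slack m n) := fun l =>
    ⟨Sum.inr l, Finset.mem_map.2 ⟨l, Finset.mem_univ l, rfl⟩⟩ with hf
  have hbij : Function.Bijective f := by
    constructor
    · intro a b hab
      exact Sum.inr.inj (congrArg Subtype.val hab)
    · rintro ⟨v, hv⟩
      obtain ⟨l, -, hl⟩ := Finset.mem_map.1 hv
      exact ⟨l, Subtype.ext hl⟩
  rw [← linearIndependent_equiv (Equiv.ofBijective f hbij)]
  have h1 : ((fun q : (slack m n) => (Matrix.transpose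
      (Matrix.fromCols A (1 : Matrix (Fin m) (Fin m) ℝ))) q.1) ∘ (Equiv.ofBijective f hbij))
      = fun l : Fin m => (1 : Matrix (Fin m) (Fin m) ℝ) l := by
    funext l r
    simp [hf, Matrix.one_apply, eq_comm]
  rw [h1]
  exact Matrix.linearIndependent_rows_iff_isUnit.2 isUnit_one

theorem slack_optimal (A : Matrix (Fin m) (Fin n) ℝ) {b : Fin m → ℝ} {c : Fin n → ℝ} {t : ℝ}
    (hb : ∀ i, 0 ≤ b i + t) (hc : ∀ j, c j ≤ t) : Optimal A b c t (slack m n) := by
  have hmem : ∀ i : Fin m, (Sum.inr i : Fin n ⊕ Fin m) ∈ slack m n := fun i =>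
    Finset.mem_map.2 ⟨i, Finset.mem_univ i, rfl⟩
  refine ⟨slack_isBasis A, ⟨Sum.elim (fun _ => 0) (fun i => b i + t), ⟨fun i => ?_, ?_⟩, ?_⟩,
    Sum.elim (fun j => t - c j) (fun _ => 0), ⟨fun j => ?_, ?_⟩, ?_⟩
  · simp
  · rintro (j | i) hv
    · rfl
    · exact absurd (hmem i) hv
  · rintro (j | i)
    · exact le_rfl
    · exact hb i
  · simp
  · rintro v hv
    obtain ⟨l, -, rfl⟩ := Finset.mem_map.1 hv
    rfl
  · rintro (j | i)
    · exact sub_nonneg.2 (hc j)
    · exact le_rfl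

theorem exists_slack_optimal (A : Matrix (Fin m) (Fin n) ℝ) (b : Fin m → ℝ) (c : Fin n → ℝ) :
    ∃ T : ℝ, 0 ≤ T ∧ ∀ t, T ≤ t → Optimal A b c t (slack m n) := by
  refine ⟨l1 b + l1 c, add_nonneg (l1_nonneg b) (l1_nonneg c), fun t ht =>
    slack_optimal A (fun i => ?_) fun j => ?_⟩
  · have h1 := abs_le_l1 b i
    have h2 := l1_nonneg c
    have h3 := neg_abs_le (b i)
    linarith
  · have h1 := abs_le_l1 c j
    have h2 := l1_nonneg b
    have h3 := le_abs_self (c j)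
    linarith

theorem basis_zero {A : Matrix (Fin m) (Fin n) ℝ} (hA : A = 0) {B : Finset (Fin n ⊕ Fin m)}
    (h : IsBasis A B) : B = slack m n := by
  obtain ⟨hB1, hdet⟩ := isBasis_iff.1 h
  apply Finset.eq_of_subset_of_card_le
  · intro i hi
    rw [← basisEquiv_image hB1] at hi
    obtain ⟨l, -, rfl⟩ := Finset.mem_image.1 hi
    rcases he : basisEquiv B (Sum.inl l) with j | r
    · exfalso
      apply hdet
      apply Matrix.det_eq_zero_of_column_eq_zero l
      intro r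
      simp [Pm, extA, he, hA]
    · simp [slack]
  · rw [hB1, card_slack]

/-! ### The number of pivots -/

/-- On nondegenerate data a basis reached by `k` pivots is preceded by `k` other bases optimal
at parameters of the path. -/
theorem reach_card {A : Matrix (Fin m) (Fin n) ℝ} {b : Fin m → ℝ} {c : Fin n → ℝ}
    (hND : ND (un A) b c) {k : ℕ} {B : Finset (Fin n ⊕ Fin m)} (h : Reach A b c k B) :
    (∃ t, 0 ≤ t ∧ Optimal A b c t B) ∧
    ∃ S : Finset (Finset (Fin n ⊕ Fin m)), S.card = k ∧ (∀ C ∈ S, C ∈ FS A b c) ∧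
      ∀ C ∈ S, ∃ u, 0 ≤ u ∧ Optimal A b c u B ∧ ∀ s, 0 ≤ s → Optimal A b c s C → u < s := by
  classical
  induction h with
  | start =>
    obtain ⟨T, hT0, hT⟩ := exists_slack_optimal A b c
    exact ⟨⟨T, hT0, hT T le_rfl⟩, ∅, rfl, by simp, by simp⟩
  | @pivot k B B' t hB hpiv ih =>
    obtain ⟨-, S, hcard, hFS, hS⟩ := ih
    obtain ⟨s, hs0, hst, hs⟩ := hpiv.sides hND
    have hleast := hpiv.1
    refine ⟨⟨s, hs0, hs⟩, insert B S, ?_, ?_, ?_⟩
    · rw [Finset.card_insert_of_notMem, hcard]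
      intro hBS
      obtain ⟨u, hu0, hu, hlt⟩ := hS B hBS
      exact lt_irrefl _ (hlt u hu0 hu)
    · intro C hC
      rw [Finset.mem_insert] at hC
      rcases hC with rfl | hC
      · exact mem_FS hleast.1.1 hleast.1.2
      · exact hFS C hC
    · intro C hC
      rw [Finset.mem_insert] at hC
      refine ⟨s, hs0, hs, fun v hv0 hv => ?_⟩
      rcases hC with rfl | hC
      · exact hst.trans_le (hleast.2 ⟨hv0, hv⟩)
      · obtain ⟨u, hu0, hu, hlt⟩ := hS C hC
        exact (hst.trans_le (hleast.2 ⟨hu0, hu⟩)).trans (hlt v hv0 hv)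

theorem reach_le {A : Matrix (Fin m) (Fin n) ℝ} {b : Fin m → ℝ} {c : Fin n → ℝ}
    (hND : ND (un A) b c) {k : ℕ} {B : Finset (Fin n ⊕ Fin m)} (h : Reach A b c k B) :
    k + 1 ≤ (FS A b c).ncard := by
  classical
  obtain ⟨⟨t, ht0, ht⟩, S, hcard, hFS, hS⟩ := reach_card hND h
  have hBS : B ∉ S := by
    intro hBS
    obtain ⟨u, hu0, hu, hlt⟩ := hS B hBS
    exact lt_irrefl _ (hlt u hu0 hu)
  have h1 : ((insert B S : Finset _) : Set (Finset (Fin n ⊕ Fin m))) ⊆ FS A b c := by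
    intro C hC
    rw [Finset.mem_coe, Finset.mem_insert] at hC
    rcases hC with rfl | hC
    · exact mem_FS ht0 ht
    · exact hFS C hC
  have h2 := Set.ncard_le_ncard h1 (Set.toFinite _)
  rw [Set.ncard_coe_finset, Finset.card_insert_of_notMem hBS, hcard] at h2
  exact h2

theorem pivots_le {A : Matrix (Fin m) (Fin n) ℝ} {b : Fin m → ℝ} {c : Fin n → ℝ}
    (hND : ND (un A) b c) : pivots A b c + 1 ≤ ((FS A b c).ncard : ENNReal) := by
  have h1 : 1 ≤ (FS A b c).ncard := by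
    have := reach_le hND Reach.start
    omega
  have h2 : pivots A b c ≤ (((FS A b c).ncard - 1 : ℕ) : ENNReal) := by
    refine iSup_le fun k => iSup_le fun ⟨B, hB⟩ => ?_
    have := reach_le hND hB
    exact_mod_cast (show k ≤ (FS A b c).ncard - 1 by omega)
  calc pivots A b c + 1 ≤ (((FS A b c).ncard - 1 : ℕ) : ENNReal) + 1 := by gcongr
    _ = ((FS A b c).ncard : ENNReal) := by
      exact_mod_cast (Nat.sub_add_cancel h1)

end Pool.Agent.Lib.MP_84734f_lc
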