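import Pool.Agent.Lib.MP_84734f_lc.Pivoting

/-!
# The ratio tests: the method can go on until it has the answer
-/

set_option autoImplicit false

namespace Pool.Agent.Lib.MP_84734f_lc

open Matrix Finset Filter Topology

variable {m n : ℕ}

/-- The set of parameters of a basis has a least element. -/
theorem exists_least {A : Matrix (Fin m) (Fin n) ℝ} {b : Fin m → ℝ} {c : Fin n → ℝ}
    {B : Finset (Fin n ⊕ Fin m)} (h : ∃ s, 0 ≤ s ∧ Optimal A b c s B) :
    ∃ t, IsLeast {s : ℝ | 0 ≤ s ∧ Optimal A b c s B} t := by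
  obtain ⟨s, hs0, hs⟩ := h
  have hB := hs.1
  set J : Set ℝ := {s : ℝ | 0 ≤ s ∧ Optimal A b c s B} with hJ
  have hJc : IsClosed J := by
    have : J = Set.Ici 0 ∩ ⋂ i, {t | 0 ≤ pv (basisEquiv B) (un A) b c i
        + t * qv (basisEquiv B) (un A) i} := by
      ext t
      simp only [hJ, Set.mem_ofPred_eq, optimal_iff, hB, true_and, Set.mem_inter_iff,
        Set.mem_Ici, Set.mem_iInter]
    rw [this]
    exact isClosed_Ici.inter (isClosed_iInter fun i => isClosed_le (by fun_prop) (by fun_prop))
  have hne : J.Nonempty := ⟨s, hs0, hs⟩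
  have hbd : BddBelow J := ⟨0, fun t ht => ht.1⟩
  exact ⟨sInf J, hJc.csInf_mem hne hbd, fun t ht => csInf_le hbd ht⟩

/-- Exchange of one element of a basis. -/
theorem isBasis_exchange {A : Matrix (Fin m) (Fin n) ℝ} {B : Finset (Fin n ⊕ Fin m)}
    (hB : IsBasis A B) {p q : Fin n ⊕ Fin m} (hp : p ∈ B) (hq : q ∉ B) (y : Fin m → ℝ)
    (hy : ∀ v ∈ B, v ≠ p → ∑ i, y i * extA (un A) i v = 0)
    (hyq : ∑ i, y i * extA (un A) i q ≠ 0) : IsBasis A (insert q (B.erase p)) := by
  refine ⟨?_, ?_⟩
  · rw [Finset.card_insert_of_notMem fun h => hq (Finset.mem_of_mem_erase h),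
      Finset.card_erase_of_mem hp]
    have h0 : 0 < B.card := Finset.card_pos.2 ⟨p, hp⟩
    have h1 : B.card = m := hB.1
    omega
  · set f : Fin n ⊕ Fin m → Fin m → ℝ := fun v => (Matrix.transpose
      (Matrix.fromCols A (1 : Matrix (Fin m) (Fin m) ℝ))) v with hf
    have h1 : LinearIndepOn ℝ f (B : Set (Fin n ⊕ Fin m)) := hB.2
    have h2 : LinearIndepOn ℝ f ((B.erase p : Finset _) : Set (Fin n ⊕ Fin m)) :=
      h1.mono (by exact_mod_cast Finset.erase_subset p B)
    set φ : (Fin m → ℝ) →ₗ[ℝ] ℝ := ∑ i, y i • LinearMap.proj i with hφ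
    have hφv : ∀ v, φ (f v) = ∑ i, y i * extA (un A) i v := by
      intro v
      have h3 : f v = fun r => extA (un A) r v := cols_eq A v
      rw [h3]
      simp [hφ]
    have h4 : f q ∉ Submodule.span ℝ (f '' ((B.erase p : Finset _) : Set (Fin n ⊕ Fin m))) := by
      intro hmem
      have h5 : Submodule.span ℝ (f '' ((B.erase p : Finset _) : Set (Fin n ⊕ Fin m)))
          ≤ LinearMap.ker φ := by
        rw [Submodule.span_le]
        rintro _ ⟨v, hv, rfl⟩
        rw [Finset.mem_coe, Finset.mem_erase] at hv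
        rw [SetLike.mem_coe, LinearMap.mem_ker, hφv]
        exact hy v hv.2 hv.1
      have h6 := h5 hmem
      rw [LinearMap.mem_ker, hφv] at h6
      exact hyq h6
    have h7 : q ∉ ((B.erase p : Finset _) : Set (Fin n ⊕ Fin m)) := by
      rw [Finset.mem_coe]
      exact fun h => hq (Finset.mem_of_mem_erase h)
    have h8 : LinearIndepOn ℝ f (insert q ((B.erase p : Finset _) : Set (Fin n ⊕ Fin m))) :=
      (linearIndepOn_insert h7).2 ⟨h2, h4⟩
    rw [← Finset.coe_insert] at h8
    exact h8

/-- The row of a basic variable in the dictionary. -/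
theorem row_basic {A : Matrix (Fin m) (Fin n) ℝ} {B : Finset (Fin n ⊕ Fin m)}
    (hB : IsBasis A B) (k l : Fin m) :
    ∑ i, (Pm (basisEquiv B) (un A))⁻¹ k i * extA (un A) i (basisEquiv B (Sum.inl l))
      = if k = l then 1 else 0 := by
  have hu : IsUnit (Pm (basisEquiv B) (un A)).det := isUnit_iff_ne_zero.2 (isBasis_iff.1 hB).2
  have h := congrFun (congrFun (nonsing_inv_mul _ hu) k) l
  rw [Matrix.mul_apply, Matrix.one_apply] at h
  exact h

/-- The ratio test. -/
theorem ratio_test {V : Type*} [Fintype V] (r α : V → ℝ) (hr : ∀ v, 0 ≤ r v)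
    (hα : ∃ v, α v < 0) : ∃ q θ, α q < 0 ∧ 0 ≤ θ ∧ r q + θ * α q = 0 ∧
      ∀ v, 0 ≤ r v + θ * α v := by
  classical
  obtain ⟨v₀, hv₀⟩ := hα
  obtain ⟨q, hq, hmin⟩ := Finset.exists_min_image (Finset.univ.filter fun v => α v < 0)
    (fun v => r v / -α v) ⟨v₀, Finset.mem_filter.2 ⟨Finset.mem_univ _, hv₀⟩⟩
  have hq' : α q < 0 := (Finset.mem_filter.1 hq).2
  have hθ : 0 ≤ r q / -α q := div_nonneg (hr q) (neg_pos.2 hq').le
  refine ⟨q, r q / -α q, hq', hθ, ?_, fun v => ?_⟩
  · have : r q / -α q * α q = -r q := by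
      rw [div_mul_eq_mul_div, div_eq_iff (neg_ne_zero.2 hq'.ne)]
      ring
    rw [this]
    ring
  · rcases lt_or_ge (α v) 0 with hv | hv
    · have h1 := hmin v (Finset.mem_filter.2 ⟨Finset.mem_univ _, hv⟩)
      rw [le_div_iff₀ (neg_pos.2 hv)] at h1
      linarith
    · have h1 := mul_nonneg hθ hv
      have h2 := hr v
      linarith

/-- At the least parameter of a basis, if it is positive, there is a pivot or an answer. -/
theorem progress {A : Matrix (Fin m) (Fin n) ℝ} {b : Fin m → ℝ} {c : Fin n → ℝ} {t : ℝ}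
    {B : Finset (Fin n ⊕ Fin m)} (hleast : IsLeast {s : ℝ | 0 ≤ s ∧ Optimal A b c s B} t)
    (ht : 0 < t) : (∃ B', Pivot A b c B t B') ∨ Infeasible A b ∨ Unbounded A c := by
  have hopt : Optimal A b c t B := hleast.1.2
  have hB := hopt.1
  obtain ⟨hc, hP⟩ := isBasis_iff.1 hB
  set e := basisEquiv B with he
  have hall := (optimal_iff.1 hopt).2
  have hex : ∃ i₀, pv e (un A) b c i₀ + t * qv e (un A) i₀ = 0 ∧ 0 < qv e (un A) i₀ := by
    by_contra hcon
    push Not at hcon
    obtain ⟨s, hs0, hst, hs⟩ := side_left (pv e (un A) b c) (qv e (un A)) t ht (fun i => by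
      rcases (hall i).eq_or_lt with h1 | h1
      · exact Or.inr ⟨h1.symm, hcon i h1.symm⟩
      · exact Or.inl h1)
    exact absurd (hleast.2 ⟨hs0, optimal_iff.2 ⟨hB, hs⟩⟩) (not_le.2 hst)
  obtain ⟨-, ⟨z, hz, hz0⟩, r, hr, hr0⟩ := hopt
  obtain ⟨k | k, hk0, hkq⟩ := hex
  · -- a basic variable becomes negative
    set y : Fin m → ℝ := fun i => (Pm e (un A))⁻¹ k i with hy
    set α : Fin n ⊕ Fin m → ℝ := fun v => ∑ i, y i * extA (un A) i v with hα
    have hαl : ∀ j, α (Sum.inl j) = ∑ i, A i j * y i := by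
      intro j
      simp only [hα, extA, Matrix.of_apply, Sum.elim_inl, mul_comm]
    have hαr : ∀ i, α (Sum.inr i) = y i := by
      intro i
      simp [hα, extA]
    have hαB : ∀ v ∈ B, v ≠ e (Sum.inl k) → α v = 0 := by
      intro v hv hvk
      obtain ⟨l, rfl⟩ := mem_or_notMem hc hv
      have h1 := row_basic hB k l
      rw [if_neg (by rintro rfl; exact hvk rfl)] at h1
      exact h1
    have hαk : α (e (Sum.inl k)) = 1 := by
      have h1 := row_basic hB k k
      rw [if_pos rfl] at h1
      exact h1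
    by_cases hneg : ∃ v, α v < 0
    · left
      obtain ⟨q, θ, hq, hθ, hq0, hge⟩ := ratio_test r α hr0 hneg
      have hqB : q ∉ B := by
        intro hqB
        by_cases hqk : q = e (Sum.inl k)
        · rw [hqk, hαk] at hq
          linarith
        · rw [hαB q hqB hqk] at hq
          exact lt_irrefl _ hq
      refine ⟨insert q (B.erase (e (Sum.inl k))), hleast, ht, e (Sum.inl k),
        basisEquiv_mem hc k, q, hqB, rfl, ?_, Or.inr ⟨z, fun v => r v + θ * α v, hz, hz0, ?_,
          ⟨fun j => ?_, fun v hv => ?_⟩, hge⟩⟩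
      · exact isBasis_exchange hB (basisEquiv_mem hc k) hqB y (fun v hv hvk => hαB v hv hvk) hq.ne
      · rw [(basicSolution_iff hB).1 hz, fullB_inl, val_inl (c := c)]
        exact hk0
      · have h1 := hr.1 j
        simp only [hαl, hαr, mul_add, Finset.sum_add_distrib, h1, Finset.mul_sum]
        have h2 : ∀ i, A i j * (θ * y i) = θ * (A i j * y i) := fun i => by ring
        simp only [h2]
        ring
      · rw [Finset.mem_insert] at hv
        rcases hv with rfl | hv
        · exact hq0
        · obtain ⟨hvk, hvB⟩ := Finset.mem_erase.1 hv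
          change r v + θ * α v = 0
          rw [hr.2 v hvB, hαB v hvB hvk]
          ring
    · right
      left
      push Not at hneg
      refine ⟨y, fun i => ?_, fun j => ?_, ?_⟩
      · rw [← hαr]
        exact hneg _
      · rw [← hαl]
        exact hneg _
      · have h1 : ∑ i, b i * y i = pv e (un A) b c (Sum.inl k) := by
          simp only [pv, Sum.elim_inl, mulVec, dotProduct, hy]
          exact Finset.sum_congr rfl fun i _ => mul_comm _ _
        have h2 := mul_pos ht hkq
        rw [h1]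
        linarith
  · -- a reduced cost becomes negative
    set d := dir e (un A) k with hd
    have hdA : ∀ i, ∑ j, A i j * d (Sum.inl j) + d (Sum.inr i) = 0 := by
      intro i
      rw [← extA_mulVec_un, hd, extA_dir e hP]
      rfl
    have hdk : d (e (Sum.inr k)) = 1 := by rw [hd, dir_inr, if_pos rfl]
    have hdN : ∀ v, v ∉ B → v ≠ e (Sum.inr k) → d v = 0 := by
      intro v hv hvk
      obtain ⟨l, rfl⟩ := notMem_exists hc hv
      rw [hd, dir_inr, if_neg]
      rintro rfl
      exact hvk rfl
    by_cases hneg : ∃ v, d v < 0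
    · left
      obtain ⟨p, θ, hp, hθ, hp0, hge⟩ := ratio_test z d hz0 hneg
      have hpB : p ∈ B := by
        by_contra hpB
        by_cases hpk : p = e (Sum.inr k)
        · rw [hpk, hdk] at hp
          linarith
        · rw [hdN p hpB hpk] at hp
          exact lt_irrefl _ hp
      obtain ⟨l, hl⟩ := mem_or_notMem hc hpB
      refine ⟨insert (e (Sum.inr k)) (B.erase p), hleast, ht, p, hpB, e (Sum.inr k),
        basisEquiv_notMem hc k, rfl, ?_, Or.inl ⟨r, fun v => z v + θ * d v, hr, hr0, ?_,
          ⟨fun i => ?_, fun v hv => ?_⟩, hge⟩⟩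
      · refine isBasis_exchange hB hpB (basisEquiv_notMem hc k)
          (fun i => (Pm e (un A))⁻¹ l i) (fun v hv hvp => ?_) ?_
        · obtain ⟨l', rfl⟩ := mem_or_notMem hc hv
          have h1 := row_basic hB l l'
          rw [if_neg (by rintro rfl; exact hvp hl.symm)] at h1
          exact h1
        · have h2 : d p = -∑ i, (Pm e (un A))⁻¹ l i * extA (un A) i (e (Sum.inr k)) := by
            rw [hd, hl, dir, Pi.add_apply, ← he, fullB_inl, fullN_inl, add_zero, Pi.neg_apply]
            rfl
          intro h3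
          rw [h3, neg_zero] at h2
          exact hp.ne h2
      · rw [(reducedCosts_iff hB).1 hr, ← he, fullN_inr, val_inr (b := b)]
        exact hk0
      · have h1 := hz.1 i
        have h2 := hdA i
        simp only [mul_add, Finset.sum_add_distrib]
        have h3 : ∀ j, A i j * (θ * d (Sum.inl j)) = θ * (A i j * d (Sum.inl j)) := fun j => by
          ring
        simp only [h3, ← Finset.mul_sum]
        have h4 : ∑ j, A i j * d (Sum.inl j) = -d (Sum.inr i) := by linarith
        rw [h4]
        linarith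
      · rw [Finset.mem_insert, Finset.mem_erase] at hv
        push Not at hv
        change z v + θ * d v = 0
        by_cases hvp : v = p
        · rw [hvp]
          exact hp0
        · have hvB : v ∉ B := hv.2 hvp
          rw [hz.2 v hvB, hdN v hvB hv.1]
          ring
    · right
      right
      push Not at hneg
      refine ⟨fun j => d (Sum.inl j), fun j => hneg _, fun i => ?_, ?_⟩
      · have h1 := hdA i
        have h2 := hneg (Sum.inr i)
        linarith
      · have hu : IsUnit (Qm e (un A)).det := isUnit_iff_ne_zero.2 (det_Qm_ne_zero e hP)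
        have h1 := dual_dir e hP k ((Qm e (un A))⁻¹ *ᵥ c)
        rw [mulVec_mulVec, mul_nonsing_inv _ hu, one_mulVec] at h1
        have h2 : pv e (un A) b c (Sum.inr k) = -∑ j, c j * d (Sum.inl j) := h1
        have h3 := mul_pos ht hkq
        linarith

/-- A basis reached by the method admits a further pivot, or it is optimal for the original
program, or infeasibility or unboundedness is certified. -/
theorem progress_of_optimal {A : Matrix (Fin m) (Fin n) ℝ} {b : Fin m → ℝ} {c : Fin n → ℝ}
    {B : Finset (Fin n ⊕ Fin m)} (h : ∃ s, 0 ≤ s ∧ Optimal A b c s B) :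
    (∃ t B', Pivot A b c B t B') ∨ Optimal A b c 0 B ∨ Infeasible A b ∨ Unbounded A c := by
  obtain ⟨t, ht⟩ := exists_least h
  rcases ht.1.1.eq_or_lt with h0 | hpos
  · right
    left
    rw [h0]
    exact ht.1.2
  · rcases progress ht hpos with ⟨B', hB'⟩ | h1
    · exact Or.inl ⟨t, B', hB'⟩
    · exact Or.inr (Or.inr h1)

theorem reach_optimal {A : Matrix (Fin m) (Fin n) ℝ} {b : Fin m → ℝ} {c : Fin n → ℝ} {k : ℕ}
    {B : Finset (Fin n ⊕ Fin m)} (h : Reach A b c k B) : ∃ s, 0 ≤ s ∧ Optimal A b c s B := by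
  cases h with
  | start =>
    obtain ⟨T, hT0, hT⟩ := exists_slack_optimal A b c
    exact ⟨T, hT0, hT T le_rfl⟩
  | pivot hB hpiv => exact ⟨_, hpiv.2.1.le, hpiv.optimal⟩

end Pool.Agent.Lib.MP_84734f_lc
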