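import Pool.Agent.Lib.MP_84734f_lc.Large

/-!
# The total wall measure far from the strata
-/

set_option autoImplicit false

namespace Pool.Agent.Lib.MP_84734f_lc

open Matrix Finset MeasureTheory
open scoped ENNReal

variable {m n : ℕ}

/-- The two signs. -/
noncomputable def sg (s : Bool) : ℝ := if s then 1 else -1

theorem sg_eq (s : Bool) : sg s = 1 ∨ sg s = -1 := by
  cases s <;> simp [sg]

section

variable (e : Fin m ⊕ Fin n ≃ Fin n ⊕ Fin m) (k : Fin n) {κ : ℝ}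

/-- The pieces of the large part. -/
def Pc (κ : ℝ) (q : Fin n × Bool) : Set (X m n) :=
  {y | y ∈ Dom m k κ ∧ y ∈ Large e k κ ∧ (∀ j', Wt e k j' y.1 ≤ Wt e k q.1 y.1) ∧
    0 < -(sg q.2) * (((Qm e y.1).updateCol k (Pi.single q.1 1)).det * (Qm e y.1).det)}

theorem measurableSet_Pc (q : Fin n × Bool) : MeasurableSet (Pc e k κ q : Set (X m n)) := by
  have h1 : Continuous fun y : X m n => ((Qm e y.1).updateCol k (Pi.single q.1 1)).det :=
    (((continuous_Qm e).comp continuous_fst).matrix_updateCol k continuous_const).matrix_det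
  have h2 : Continuous fun y : X m n => (Qm e y.1).det :=
    ((continuous_Qm e).comp continuous_fst).matrix_det
  have h3 : MeasurableSet {y : X m n | 0 < -(sg q.2) *
      (((Qm e y.1).updateCol k (Pi.single q.1 1)).det * (Qm e y.1).det)} :=
    measurableSet_lt measurable_const (continuous_const.mul (h1.mul h2)).measurable
  have h4 : MeasurableSet {y : X m n | ∀ j', Wt e k j' y.1 ≤ Wt e k q.1 y.1} := by
    rw [Set.ofPred_forall]
    refine MeasurableSet.iInter fun j' => ?_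
    exact measurableSet_le ((continuous_Wt e k j').comp continuous_fst).measurable
      ((continuous_Wt e k q.1).comp continuous_fst).measurable
  exact (measurableSet_Dom k κ).inter ((measurableSet_Large e k).inter (h4.inter h3))

theorem det_upd {A : Fin m × Fin n → ℝ} (hP : (Pm e A).det ≠ 0) (j : Fin n) :
    ((Qm e A).updateCol k (Pi.single j 1)).det = -((Qm e A).det * dir e A k (Sum.inl j)) := by
  rw [det_updateCol e hP, dir_eq_inv e hP]
  ring

theorem Wt_eq {A : Fin m × Fin n → ℝ} (hP : (Pm e A).det ≠ 0) (j : Fin n) :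
    Wt e k j A = |(Qm e A).det| * |dir e A k (Sum.inl j)| := det_updateCol_single e hP k j

theorem sign_dir {A : Fin m × Fin n → ℝ} (hP : (Pm e A).det ≠ 0) (j : Fin n) (σ : ℝ)
    (h : 0 < -σ * (((Qm e A).updateCol k (Pi.single j 1)).det * (Qm e A).det)) :
    0 < σ * dir e A k (Sum.inl j) := by
  rw [det_upd e k hP] at h
  have h1 : -σ * (-((Qm e A).det * dir e A k (Sum.inl j)) * (Qm e A).det)
      = (Qm e A).det ^ 2 * (σ * dir e A k (Sum.inl j)) := by ring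
  rw [h1] at h
  have h2 : 0 < (Qm e A).det ^ 2 := by
    have := det_Qm_ne_zero e hP
    positivity
  exact (pos_iff_pos_of_mul_pos h).1 h2

theorem piece_cover {h : X m n → ℝ≥0∞} (y : X m n) :
    (Large e k κ).indicator (Fw e k κ h) y ≤ ∑ q, (Pc e k κ q).indicator (Fw e k κ h) y := by
  by_cases hL : y ∈ Large e k κ
  · rw [Set.indicator_of_mem hL]
    by_cases h0 : Fw e k κ h y = 0
    · rw [h0]
      exact bot_le
    have hD : y ∈ Dom m k κ := by
      by_contra hD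
      exact h0 (Set.indicator_of_notMem hD _)
    have h1 : Fw e k κ h y = ENNReal.ofReal (κ * |(Pm e y.1).det| * ∑ j, Wt e k j y.1) *
        h (pt e k y) := Set.indicator_of_mem hD _
    have h2 : κ * |(Pm e y.1).det| * ∑ j, Wt e k j y.1 ≠ 0 := by
      intro h3
      apply h0
      rw [h1, h3, ENNReal.ofReal_zero, zero_mul]
    have hP : (Pm e y.1).det ≠ 0 := by
      intro h3
      apply h2
      rw [h3]
      simp
    have hS : ∑ j, Wt e k j y.1 ≠ 0 := right_ne_zero_of_mul h2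
    obtain ⟨j, -, hj⟩ := Finset.exists_max_image Finset.univ (fun j => Wt e k j y.1)
      ⟨k, Finset.mem_univ k⟩
    have hWj : Wt e k j y.1 ≠ 0 := by
      intro h3
      apply hS
      apply Finset.sum_eq_zero
      intro j' _
      have := hj j' (Finset.mem_univ j')
      exact le_antisymm (this.trans h3.le) (Wt_nonneg e k j' y.1)
    have hdd : ((Qm e y.1).updateCol k (Pi.single j 1)).det * (Qm e y.1).det ≠ 0 :=
      mul_ne_zero (fun h3 => hWj (by rw [Wt, h3, abs_zero])) (det_Qm_ne_zero e hP)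
    obtain ⟨s, hs⟩ : ∃ s : Bool, 0 < -(sg s) *
        (((Qm e y.1).updateCol k (Pi.single j 1)).det * (Qm e y.1).det) := by
      rcases lt_or_gt_of_ne hdd with h3 | h3
      · refine ⟨true, ?_⟩
        simp only [sg, if_true]
        linarith
      · refine ⟨false, ?_⟩
        simp [sg]
        exact h3
    have hmem : y ∈ Pc e k κ (j, s) := ⟨hD, hL, fun j' => hj j' (Finset.mem_univ j'), hs⟩
    calc Fw e k κ h y = (Pc e k κ (j, s)).indicator (Fw e k κ h) y :=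
          (Set.indicator_of_mem hmem _).symm
      _ ≤ _ := Finset.single_le_sum (f := fun q => (Pc e k κ q).indicator (Fw e k κ h) y)
          (fun _ _ => bot_le) (Finset.mem_univ (j, s))
  · rw [Set.indicator_of_notMem hL]
    exact bot_le

/-- The integrand obtained after the change of variables. -/
noncomputable def Gp (κ : ℝ) (h : X m n → ℝ≥0∞) (B₀ : (Fin m × Fin n → ℝ) → (Fin m → ℝ) → ℝ)
    (q : Fin n × Bool) (A : Fin m × Fin n → ℝ) (b : Fin m → ℝ) (c : Fin n → ℝ) : ℝ≥0∞ :=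
  ENNReal.ofReal (4 * Real.exp 1 * C1 m * n * κ) *
    (∫⁻ u, (lev e k q.1 (sg q.2) A ((Pm e A)⁻¹ *ᵥ b)
      (((Qm e A).updateCol k (Pi.single q.1 1))⁻¹ *ᵥ c) ∩ Set.Icc 0 (B₀ A b)).indicator
        (fun _ => 1) u) * (ENNReal.ofReal (Rr κ A c) * h (A, b, c))

theorem piece_bound (hκ : 1 ≤ κ) {h : X m n → ℝ≥0∞} (hhm : Measurable h) (hh : LL κ h)
    (B₀ : (Fin m × Fin n → ℝ) → (Fin m → ℝ) → ℝ)
    (hB : ∀ A, (Pm e A).det ≠ 0 → ∀ z, (∀ l, 0 < z l) →
      1 + Real.log (1 + xn e z) ≤ B₀ A (Pm e A *ᵥ z)) (q : Fin n × Bool) :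
    ∫⁻ y, (Pc e k κ q).indicator (Fw e k κ h) y
      ≤ ∫⁻ A, ∫⁻ b, ∫⁻ c, Gp e k κ h B₀ q A b c := by
  have hκ0 : 0 < κ := by linarith
  refine lintegral_wall_le e k q.1 ((measurable_Fw e k κ hhm).indicator (measurableSet_Pc e k q))
    (fun A b c => Gp e k κ h B₀ q A b c) fun y => ?_
  by_cases hy : y ∈ Pc e k κ q
  · rw [Set.indicator_of_mem hy]
    obtain ⟨hD, hL, hmax, hsg⟩ := hy
    by_cases hP : (Pm e y.1).det = 0
    · unfold Fw
      rw [Set.indicator_of_mem hD, hP]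
      simp
    have hd := sign_dir e k hP q.1 (sg q.2) hsg
    have hQ0 := det_Qm_ne_zero e hP
    have hQ1 : 0 < |(Qm e y.1).det| := abs_pos.2 hQ0
    have hmax' : ∀ j', |dir e y.1 k (Sum.inl j')| ≤ |dir e y.1 k (Sum.inl q.1)| := by
      intro j'
      have := hmax j'
      rw [Wt_eq e k hP, Wt_eq e k hP] at this
      exact le_of_mul_le_mul_left this hQ1
    set M := (Qm e y.1).updateCol k (Pi.single q.1 1) with hMdef
    have hM : M.det ≠ 0 := by
      intro h0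
      rw [hMdef] at h0
      rw [h0] at hsg
      simp at hsg
    have hPinv : (Pm e y.1)⁻¹ *ᵥ (Pm e y.1 *ᵥ y.2.1) = y.2.1 := by
      rw [mulVec_mulVec, nonsing_inv_mul _ (isUnit_iff_ne_zero.2 hP), one_mulVec]
    have hMinv : M⁻¹ *ᵥ (M *ᵥ y.2.2) = y.2.2 := by
      rw [mulVec_mulVec, nonsing_inv_mul _ (isUnit_iff_ne_zero.2 hM), one_mulVec]
    have hlev := large_level e k hκ0.le hD hL hP hmax' (sg_eq q.2) hd (hB y.1 hP y.2.1 hD.1)
    set I := ∫⁻ u, (lev e k q.1 (sg q.2) y.1 y.2.1 y.2.2 ∩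
      Set.Icc 0 (B₀ y.1 (Pm e y.1 *ᵥ y.2.1))).indicator (fun _ => (1 : ℝ≥0∞)) u with hI
    have hGp : Gp e k κ h B₀ q y.1 (Pm e y.1 *ᵥ y.2.1) (M *ᵥ y.2.2)
        = ENNReal.ofReal (4 * Real.exp 1 * C1 m * n * κ) * I *
          (ENNReal.ofReal (Rr κ y.1 (M *ᵥ y.2.2)) *
            h (y.1, Pm e y.1 *ᵥ y.2.1, M *ᵥ y.2.2)) := by
      unfold Gp
      rw [hPinv, ← hMdef, hMinv]
    rw [hGp]
    have hF : Fw e k κ h y = ENNReal.ofReal (κ * |(Pm e y.1).det| * ∑ j, Wt e k j y.1) *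
        h (pt e k y) := Set.indicator_of_mem hD _
    rw [hF]
    have hsum : ∑ j, Wt e k j y.1 ≤ n * Wt e k q.1 y.1 := by
      calc ∑ j, Wt e k j y.1 ≤ ∑ _j : Fin n, Wt e k q.1 y.1 :=
            Finset.sum_le_sum fun j _ => hmax j
        _ = n * Wt e k q.1 y.1 := by simp
    have heps := eps_pos e k hκ0.le y
    have hRle : Rr κ y.1 (cw e k y) ≤ 2 * Rr κ y.1 (M *ᵥ y.2.2) := by
      have h1 := Rr_le hκ0.le y.1 y.1 (cw e k y) (M *ᵥ y.2.2)
      have h2 : cw e k y - M *ᵥ y.2.2 = -(y.2.2 k • Pi.single q.1 1) := by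
        rw [hMdef, updateCol_mulVec, cw]
        abel
      rw [h2, l1_neg, l1_smul, l1_single, abs_one, mul_one, sub_self, l1_zero, zero_add,
        abs_of_nonneg hD.2.2.1] at h1
      have h3 := mul_le_mul_of_nonneg_left hD.2.2.2 hκ0.le
      rw [mul_one_div_cancel hκ0.ne'] at h3
      have h4 := Rr_ge hκ0.le y.1 (M *ᵥ y.2.2)
      linarith
    have hone : (1 : ℝ≥0∞) ≤ ENNReal.ofReal (2 / eps e k κ y) * I := by
      calc (1 : ℝ≥0∞) = ENNReal.ofReal (2 / eps e k κ y) * ENNReal.ofReal (eps e k κ y / 2) := by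
            rw [← ENNReal.ofReal_mul (by positivity)]
            have : 2 / eps e k κ y * (eps e k κ y / 2) = 1 := by field_simp
            rw [this, ENNReal.ofReal_one]
        _ ≤ _ := mul_le_mul' le_rfl hlev
    have heps2 : 2 / eps e k κ y ≤ 4 * C1 m * Rr κ y.1 (M *ᵥ y.2.2) := by
      have hC := C1_pos m
      have : 2 / eps e k κ y = 2 * (C1 m * Rr κ y.1 (cw e k y)) := by
        unfold eps
        rw [div_div_eq_mul_div, div_one]
      rw [this]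
      nlinarith
    have hpt := pt_le e k hκ0 hh q.1 hD
    rw [← hMdef] at hpt
    have hC := C1_pos m
    have hR := Rr_ge hκ0.le y.1 (M *ᵥ y.2.2)
    have hW := Wt_nonneg e k q.1 y.1
    calc ENNReal.ofReal (κ * |(Pm e y.1).det| * ∑ j, Wt e k j y.1) * h (pt e k y)
        ≤ ENNReal.ofReal (κ * |(Pm e y.1).det| * (n * Wt e k q.1 y.1)) *
          (ENNReal.ofReal (Real.exp 1) * h (y.1, Pm e y.1 *ᵥ y.2.1, M *ᵥ y.2.2)) := by
          refine mul_le_mul' (ENNReal.ofReal_le_ofReal ?_) hpt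
          exact mul_le_mul_of_nonneg_left hsum (by positivity)
      _ ≤ ENNReal.ofReal (κ * |(Pm e y.1).det| * (n * Wt e k q.1 y.1)) *
          (ENNReal.ofReal (Real.exp 1) * h (y.1, Pm e y.1 *ᵥ y.2.1, M *ᵥ y.2.2)) *
          (ENNReal.ofReal (2 / eps e k κ y) * I) := le_mul_of_one_le_right' hone
      _ ≤ ENNReal.ofReal (κ * |(Pm e y.1).det| * (n * Wt e k q.1 y.1)) *
          (ENNReal.ofReal (Real.exp 1) * h (y.1, Pm e y.1 *ᵥ y.2.1, M *ᵥ y.2.2)) *
          (ENNReal.ofReal (4 * C1 m * Rr κ y.1 (M *ᵥ y.2.2)) * I) :=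
          mul_le_mul' le_rfl (mul_le_mul' (ENNReal.ofReal_le_ofReal heps2) le_rfl)
      _ = ENNReal.ofReal (|(Pm e y.1).det| * Wt e k q.1 y.1) *
          (ENNReal.ofReal (4 * Real.exp 1 * C1 m * n * κ) * I *
          (ENNReal.ofReal (Rr κ y.1 (M *ᵥ y.2.2)) *
            h (y.1, Pm e y.1 *ᵥ y.2.1, M *ᵥ y.2.2))) := by
          have e1 : ENNReal.ofReal (κ * |(Pm e y.1).det| * (n * Wt e k q.1 y.1)) *
              ENNReal.ofReal (Real.exp 1) * ENNReal.ofReal (4 * C1 m * Rr κ y.1 (M *ᵥ y.2.2))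
              = ENNReal.ofReal (|(Pm e y.1).det| * Wt e k q.1 y.1) *
                ENNReal.ofReal (4 * Real.exp 1 * C1 m * n * κ) *
                ENNReal.ofReal (Rr κ y.1 (M *ᵥ y.2.2)) := by
            rw [← ENNReal.ofReal_mul (by positivity), ← ENNReal.ofReal_mul (by positivity),
              ← ENNReal.ofReal_mul (by positivity), ← ENNReal.ofReal_mul (by positivity)]
            congr 1
            ring
          calc _ = ENNReal.ofReal (κ * |(Pm e y.1).det| * (n * Wt e k q.1 y.1)) *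
              ENNReal.ofReal (Real.exp 1) * ENNReal.ofReal (4 * C1 m * Rr κ y.1 (M *ᵥ y.2.2)) *
              (I * h (y.1, Pm e y.1 *ᵥ y.2.1, M *ᵥ y.2.2)) := by ring
            _ = _ := by
              rw [e1]
              ring
  · rw [Set.indicator_of_notMem hy]
    exact bot_le

end

theorem sum_lintegral3_le {ι : Type*} (s : Finset ι)
    (g : ι → (Fin m × Fin n → ℝ) → (Fin m → ℝ) → (Fin n → ℝ) → ℝ≥0∞) :
    ∑ i ∈ s, ∫⁻ A, ∫⁻ b, ∫⁻ c, g i A b c ≤ ∫⁻ A, ∫⁻ b, ∫⁻ c, ∑ i ∈ s, g i A b c := by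
  refine (sum_lintegral_le _ _ _).trans (lintegral_mono fun A => ?_)
  refine (sum_lintegral_le _ _ _).trans (lintegral_mono fun b => ?_)
  exact sum_lintegral_le _ _ _

theorem large_total {𝓔 : Finset (Fin m ⊕ Fin n ≃ Fin n ⊕ Fin m)} (hinj : InjFam 𝓔) {κ : ℝ}
    (hκ : 1 ≤ κ) {h : X m n → ℝ≥0∞} (hhm : Measurable h) (hh : LL κ h)
    (B₀ : (Fin m × Fin n → ℝ) → (Fin m → ℝ) → ℝ)
    (hB : ∀ e ∈ 𝓔, ∀ A, (Pm e A).det ≠ 0 → ∀ z, (∀ l, 0 < z l) →
      1 + Real.log (1 + xn e z) ≤ B₀ A (Pm e A *ᵥ z)) :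
    ∑ p ∈ 𝓔 ×ˢ (Finset.univ : Finset (Fin n)), ∫⁻ y in Large p.1 p.2 κ, Fw p.1 p.2 κ h y
      ≤ ENNReal.ofReal (8 * Real.exp 1 * C1 m * n ^ 2 * κ) *
        ∫⁻ A, ∫⁻ b, ∫⁻ c, ENNReal.ofReal (B₀ A b) *
          (ENNReal.ofReal (Rr κ A c) * h (A, b, c)) := by
  have hC := C1_pos m
  have h1 : ∀ p ∈ 𝓔 ×ˢ (Finset.univ : Finset (Fin n)),
      ∫⁻ y in Large p.1 p.2 κ, Fw p.1 p.2 κ h y
      ≤ ∑ q, ∫⁻ A, ∫⁻ b, ∫⁻ c, Gp p.1 p.2 κ h B₀ q A b c := by
    intro p hp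
    rw [← lintegral_indicator (measurableSet_Large p.1 p.2)]
    calc ∫⁻ y, (Large p.1 p.2 κ).indicator (Fw p.1 p.2 κ h) y
        ≤ ∫⁻ y, ∑ q, (Pc p.1 p.2 κ q).indicator (Fw p.1 p.2 κ h) y :=
          lintegral_mono fun y => piece_cover p.1 p.2 y
      _ = ∑ q, ∫⁻ y, (Pc p.1 p.2 κ q).indicator (Fw p.1 p.2 κ h) y :=
          lintegral_finsetSum _ fun q _ =>
            (measurable_Fw p.1 p.2 κ hhm).indicator (measurableSet_Pc p.1 p.2 q)
      _ ≤ _ := Finset.sum_le_sum fun q _ =>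
          piece_bound p.1 p.2 hκ hhm hh B₀ (hB p.1 (Finset.mem_product.1 hp).1) q
  refine (Finset.sum_le_sum h1).trans ?_
  rw [Finset.sum_comm]
  have h2 : ∀ q : Fin n × Bool, ∑ p ∈ 𝓔 ×ˢ (Finset.univ : Finset (Fin n)),
      ∫⁻ A, ∫⁻ b, ∫⁻ c, Gp p.1 p.2 κ h B₀ q A b c
      ≤ ENNReal.ofReal (4 * Real.exp 1 * C1 m * n * κ) *
        ∫⁻ A, ∫⁻ b, ∫⁻ c, ENNReal.ofReal (B₀ A b) *
          (ENNReal.ofReal (Rr κ A c) * h (A, b, c)) := by
    intro q
    refine (sum_lintegral3_le _ _).trans ?_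
    rw [← lintegral_const_mul' _ _ ENNReal.ofReal_ne_top]
    refine lintegral_mono fun A => ?_
    rw [← lintegral_const_mul' _ _ ENNReal.ofReal_ne_top]
    refine lintegral_mono fun b => ?_
    rw [← lintegral_const_mul' _ _ ENNReal.ofReal_ne_top]
    refine lintegral_mono fun c => ?_
    simp only [Gp]
    rw [← Finset.sum_mul, ← Finset.mul_sum]
    have h3 : ∑ p ∈ 𝓔 ×ˢ (Finset.univ : Finset (Fin n)),
        ∫⁻ u, (lev p.1 p.2 q.1 (sg q.2) A ((Pm p.1 A)⁻¹ *ᵥ b)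
          (((Qm p.1 A).updateCol p.2 (Pi.single q.1 1))⁻¹ *ᵥ c) ∩
            Set.Icc 0 (B₀ A b)).indicator (fun _ => (1 : ℝ≥0∞)) u
        ≤ ENNReal.ofReal (B₀ A b) := by
      refine (sum_lintegral_le _ _ _).trans ?_
      refine (lintegral_mono fun u => sum_level_le hinj q.1 (sg q.2) A b c (B₀ A b) u).trans ?_
      rw [lintegral_indicator measurableSet_Icc, setLIntegral_const, Real.volume_Icc, one_mul,
        sub_zero]
    rw [← mul_assoc (ENNReal.ofReal (4 * Real.exp 1 * C1 m * n * κ)) (ENNReal.ofReal (B₀ A b))]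
    exact mul_le_mul' (mul_le_mul' le_rfl h3) le_rfl
  refine (Finset.sum_le_sum fun q _ => h2 q).trans ?_
  rw [Finset.sum_const, nsmul_eq_mul, Finset.card_univ, Fintype.card_prod, Fintype.card_fin,
    Fintype.card_bool, ← mul_assoc]
  refine mul_le_mul' (le_of_eq ?_) le_rfl
  rw [← ENNReal.ofReal_natCast, ← ENNReal.ofReal_mul (by positivity)]
  congr 1
  push_cast
  ring

/-- **The wall theorem**: the total mass of all walls. -/
theorem wall_total {𝓔 : Finset (Fin m ⊕ Fin n ≃ Fin n ⊕ Fin m)} (hinj : InjFam 𝓔) {κ : ℝ}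
    (hκ : 1 ≤ κ) {h : X m n → ℝ≥0∞} (hhm : Measurable h) (hh : LL κ h)
    (hfin : ∫⁻ x, h x ≠ ∞) (B₀ : (Fin m × Fin n → ℝ) → (Fin m → ℝ) → ℝ)
    (hB : ∀ e ∈ 𝓔, ∀ A, (Pm e A).det ≠ 0 → ∀ z, (∀ l, 0 < z l) →
      1 + Real.log (1 + xn e z) ≤ B₀ A (Pm e A *ᵥ z)) :
    ∑ p ∈ 𝓔 ×ˢ (Finset.univ : Finset (Fin n)), ∫⁻ y, Fw p.1 p.2 κ h y
      ≤ ENNReal.ofReal (16 * Real.exp 1 * C1 m * n ^ 2 * κ) *
        ∫⁻ A, ∫⁻ b, ∫⁻ c, ENNReal.ofReal (B₀ A b) *
          (ENNReal.ofReal (Rr κ A c) * h (A, b, c)) := by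
  have hC := C1_pos m
  calc ∑ p ∈ 𝓔 ×ˢ (Finset.univ : Finset (Fin n)), ∫⁻ y, Fw p.1 p.2 κ h y
      ≤ ∑ p ∈ 𝓔 ×ˢ (Finset.univ : Finset (Fin n)),
        ENNReal.ofReal 2 * ∫⁻ y in Large p.1 p.2 κ, Fw p.1 p.2 κ h y :=
        Finset.sum_le_sum fun p _ => wall_le_large p.1 p.2 hκ hhm hh hfin
    _ = ENNReal.ofReal 2 * ∑ p ∈ 𝓔 ×ˢ (Finset.univ : Finset (Fin n)),
        ∫⁻ y in Large p.1 p.2 κ, Fw p.1 p.2 κ h y := by rw [Finset.mul_sum]
    _ ≤ ENNReal.ofReal 2 * _ := mul_le_mul' le_rfl (large_total hinj hκ hhm hh B₀ hB)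
    _ = _ := by
        rw [← mul_assoc, ← ENNReal.ofReal_mul (by norm_num)]
        congr 2
        ring

end Pool.Agent.Lib.MP_84734f_lc
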