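import Pool.Agent.Lib.MP_84734f_lc.HitTotal
import Pool.Agent.Lib.MP_84734f_lc.Gauss

/-!
# Transport of the Gaussian envelope to the space of data, and duality
-/

set_option autoImplicit false

namespace Pool.Agent.Lib.MP_84734f_lc

open Matrix Finset MeasureTheory
open scoped ENNReal

variable {m n : ℕ}

/-- The index set of the data. -/
abbrev Ix (m n : ℕ) := (Fin m × Fin n) ⊕ (Fin m ⊕ Fin n)

/-- From vectors to data. -/
def toX (ω : Ix m n → ℝ) : X m n :=
  (fun p => ω (Sum.inl p), fun i => ω (Sum.inr (Sum.inl i)), fun j => ω (Sum.inr (Sum.inr j)))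

/-- From data to vectors. -/
def ofX (x : X m n) : Ix m n → ℝ := Sum.elim x.1 (Sum.elim x.2.1 x.2.2)

theorem ofX_toX (ω : Ix m n → ℝ) : ofX (toX ω) = ω := by
  funext i
  rcases i with p | i | j <;> rfl

theorem measurable_toX : Measurable (toX : (Ix m n → ℝ) → X m n) := by
  unfold toX
  fun_prop

theorem continuous_ofX : Continuous (ofX : X m n → (Ix m n → ℝ)) := by
  refine continuous_pi fun i => ?_
  rcases i with p | i | j
  · simp only [ofX, Sum.elim_inl]
    fun_prop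
  · simp only [ofX, Sum.elim_inl, Sum.elim_inr]
    fun_prop
  · simp only [ofX, Sum.elim_inr]
    fun_prop

theorem toX_preserving : MeasurePreserving (toX : (Ix m n → ℝ) → X m n) volume volume := by
  have h1 := volume_measurePreserving_sumPiEquivProdPi (fun _ : Ix m n => ℝ)
  have h2 := volume_measurePreserving_sumPiEquivProdPi (fun _ : Fin m ⊕ Fin n => ℝ)
  have h3 : MeasurePreserving (Prod.map (id : (Fin m × Fin n → ℝ) → (Fin m × Fin n → ℝ))
      (MeasurableEquiv.sumPiEquivProdPi (fun _ : Fin m ⊕ Fin n => ℝ))) volume volume :=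
    (MeasurePreserving.id _).prod h2
  exact h3.comp h1

theorem lintegral_toX {Φ : X m n → ℝ≥0∞} (hΦ : Measurable Φ) :
    ∫⁻ ω : Ix m n → ℝ, Φ (toX ω) = ∫⁻ x, Φ x :=
  toX_preserving.lintegral_comp hΦ

theorem lintegral_smul_pi {ι : Type*} [Fintype ι] {σ : ℝ} (hσ : 0 < σ) {F : (ι → ℝ) → ℝ≥0∞}
    (hF : Measurable F) :
    ∫⁻ ω : ι → ℝ, F (σ • ω) = ENNReal.ofReal ((σ ^ Fintype.card ι)⁻¹) * ∫⁻ ω, F ω := by
  have h1 := Measure.map_addHaar_smul (volume : Measure (ι → ℝ)) hσ.ne'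
  rw [Module.finrank_fintype_fun_eq_card, abs_of_pos (by positivity)] at h1
  have h2 : Measurable fun ω : ι → ℝ => σ • ω := by fun_prop
  rw [← lintegral_map hF h2, h1, lintegral_smul_measure, smul_eq_mul]

/-- The density of the perturbed data. -/
noncomputable def fden (K σ : ℝ) (x₀ : Ix m n → ℝ) (x : X m n) : ℝ≥0∞ :=
  ENNReal.ofReal ((σ ^ Fintype.card (Ix m n))⁻¹) * gden K (σ⁻¹ • (ofX x - x₀))

theorem measurable_fden (K σ : ℝ) (x₀ : Ix m n → ℝ) : Measurable (fden K σ x₀) := by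
  unfold fden
  refine measurable_const.mul ((measurable_gden K).comp ?_)
  have := (continuous_ofX (m := m) (n := n)).measurable
  fun_prop

theorem lintegral_fden {K σ : ℝ} (hσ : 0 < σ) (x₀ : Ix m n → ℝ) {Φ : X m n → ℝ≥0∞}
    (hΦ : Measurable Φ) :
    ∫⁻ x, fden K σ x₀ x * Φ x = ∫⁻ ω, gden K ω * Φ (toX (x₀ + σ • ω)) := by
  have hf := measurable_fden K σ x₀
  have hm : Measurable fun x : X m n => fden K σ x₀ x * Φ x := hf.mul hΦ
  rw [← lintegral_toX hm]
  have h1 : ∀ ω : Ix m n → ℝ, fden K σ x₀ (toX ω) * Φ (toX ω)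
      = ENNReal.ofReal ((σ ^ Fintype.card (Ix m n))⁻¹) *
        (gden K (σ⁻¹ • (ω - x₀)) * Φ (toX ω)) := by
    intro ω
    simp only [fden, ofX_toX, mul_assoc]
  simp only [h1]
  rw [lintegral_const_mul' _ _ ENNReal.ofReal_ne_top]
  set G : (Ix m n → ℝ) → ℝ≥0∞ := fun v => gden K (σ⁻¹ • v) * Φ (toX (x₀ + v)) with hG
  have hGm : Measurable G := by
    refine Measurable.mul ((measurable_gden K).comp (by fun_prop)) (hΦ.comp ?_)
    exact measurable_toX.comp (by fun_prop)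
  have h2 : ∫⁻ ω : Ix m n → ℝ, gden K (σ⁻¹ • (ω - x₀)) * Φ (toX ω) = ∫⁻ v, G v := by
    rw [← lintegral_add_left_eq_self _ x₀]
    refine lintegral_congr fun v => ?_
    simp only [hG, add_sub_cancel_left]
  rw [h2, ← lintegral_smul_pi hσ hGm]
  refine lintegral_congr fun ω => ?_
  simp only [hG]
  rw [smul_smul, inv_mul_cancel₀ hσ.ne', one_smul]

theorem sum_abs_ofX (x y : X m n) : ∑ i, |ofX x i - ofX y i| = dist1 x y := by
  simp only [Fintype.sum_sum_type, ofX, Sum.elim_inl, Sum.elim_inr, dist1, l1, Pi.sub_apply]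
  ring

theorem LL_fden {K σ : ℝ} (hK : 0 ≤ K) (hσ : 0 < σ) (x₀ : Ix m n → ℝ) :
    LL (K / σ) (fden K σ x₀) := by
  intro x y
  unfold fden
  have h1 := gden_lip hK (σ⁻¹ • (ofX x - x₀)) (σ⁻¹ • (ofX y - x₀))
  have h2 : K * ∑ i, |(σ⁻¹ • (ofX x - x₀)) i - (σ⁻¹ • (ofX y - x₀)) i| = K / σ * dist1 x y := by
    have h3 : ∀ i, |(σ⁻¹ • (ofX x - x₀)) i - (σ⁻¹ • (ofX y - x₀)) i|
        = σ⁻¹ * |ofX x i - ofX y i| := by
      intro i
      simp only [Pi.smul_apply, Pi.sub_apply, smul_eq_mul]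
      rw [← mul_sub, abs_mul, abs_of_pos (inv_pos.2 hσ)]
      congr 2
      ring
    simp only [h3]
    rw [← Finset.mul_sum, sum_abs_ofX]
    ring
  rw [h2] at h1
  calc ENNReal.ofReal ((σ ^ Fintype.card (Ix m n))⁻¹) * gden K (σ⁻¹ • (ofX y - x₀))
      ≤ ENNReal.ofReal ((σ ^ Fintype.card (Ix m n))⁻¹) *
        (ENNReal.ofReal (Real.exp (K / σ * dist1 x y)) * gden K (σ⁻¹ • (ofX x - x₀))) :=
        mul_le_mul' le_rfl h1
    _ = _ := by ring

/-- The moment bound. -/
noncomputable def Mo (M : ℕ) : ℝ := 32 * (Real.exp 1 + (M : ℝ) ^ 6 * (Real.exp 1 * c6))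

theorem six_le (y : ℝ) (hy : 0 ≤ y) : (1 + y) ^ 6 ≤ 32 * (1 + y ^ 6) := by
  have h2 : (1 + y) ^ 2 ≤ 2 * (1 + y ^ 2) := by nlinarith [sq_nonneg (1 - y)]
  have h3 : (1 + y ^ 2) ^ 3 ≤ 4 * (1 + y ^ 6) := by
    have : 0 ≤ y ^ 2 := by positivity
    nlinarith [sq_nonneg (1 - y ^ 2), mul_nonneg (add_nonneg zero_le_one this)
      (sq_nonneg (1 - y ^ 2))]
  calc (1 + y) ^ 6 = ((1 + y) ^ 2) ^ 3 := by ring
    _ ≤ (2 * (1 + y ^ 2)) ^ 3 := pow_le_pow_left₀ (by positivity) h2 3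
    _ = 8 * (1 + y ^ 2) ^ 3 := by ring
    _ ≤ 8 * (4 * (1 + y ^ 6)) := by linarith
    _ = _ := by ring

theorem moment_fden {K σ : ℝ} (hσ : 0 < σ) (hσ1 : σ ≤ 1) {x₀ : Ix m n → ℝ}
    (hx₀ : ∀ i, |x₀ i| ≤ 1) (hK : (Fintype.card (Ix m n) : ℝ) + 1 ≤ K) :
    ∫⁻ x, ENNReal.ofReal (Sx x ^ 6) * fden K σ x₀ x
      ≤ ENNReal.ofReal (Mo (Fintype.card (Ix m n))) := by
  set M := Fintype.card (Ix m n) with hM
  have hSm : Measurable fun x : X m n => ENNReal.ofReal (Sx x ^ 6) :=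
    ((continuous_Sx.measurable).pow_const 6).ennreal_ofReal
  have h1 : ∫⁻ x, ENNReal.ofReal (Sx x ^ 6) * fden K σ x₀ x
      = ∫⁻ ω, gden K ω * ENNReal.ofReal (Sx (toX (x₀ + σ • ω)) ^ 6) := by
    rw [← lintegral_fden hσ x₀ hSm]
    exact lintegral_congr fun x => mul_comm _ _
  rw [h1]
  have h2 : ∀ ω : Ix m n → ℝ, Sx (toX (x₀ + σ • ω)) ≤ 1 + ∑ i, (1 + |ω i|) := by
    intro ω
    have h3 : Sx (toX (x₀ + σ • ω)) = 1 + ∑ i, |x₀ i + σ * ω i| := by
      simp only [Fintype.sum_sum_type, Sx, toX, l1, Pi.add_apply, Pi.smul_apply, smul_eq_mul]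
      ring
    rw [h3]
    refine add_le_add le_rfl (Finset.sum_le_sum fun i _ => ?_)
    refine (abs_add_le _ _).trans (add_le_add (hx₀ i) ?_)
    rw [abs_mul, abs_of_pos hσ]
    have := abs_nonneg (ω i)
    nlinarith
  have h4 : ∀ ω : Ix m n → ℝ, Sx (toX (x₀ + σ • ω)) ^ 6
      ≤ 32 * (1 + (M : ℝ) ^ 5 * ∑ i, (1 + |ω i|) ^ 6) := by
    intro ω
    have hs0 : 0 ≤ ∑ i, (1 + |ω i|) := Finset.sum_nonneg fun i _ => by positivity
    have h5 := Sx_ge (toX (x₀ + σ • ω))
    calc Sx (toX (x₀ + σ • ω)) ^ 6 ≤ (1 + ∑ i, (1 + |ω i|)) ^ 6 :=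
          pow_le_pow_left₀ (by linarith) (h2 ω) 6
      _ ≤ 32 * (1 + (∑ i, (1 + |ω i|)) ^ 6) := six_le _ hs0
      _ ≤ _ := by
          refine mul_le_mul_of_nonneg_left (add_le_add le_rfl ?_) (by norm_num)
          by_cases hM0 : M = 0
          · have : IsEmpty (Ix m n) := Fintype.card_eq_zero_iff.1 hM0
            simp
          · have hMpos : (0 : ℝ) < M := Nat.cast_pos.2 (Nat.pos_of_ne_zero hM0)
            have h7 := pow_sum_div_card_le_sum_pow (s := (Finset.univ : Finset (Ix m n)))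
              (f := fun i => 1 + |ω i|) (fun i _ => by positivity) 5
            rw [Finset.card_univ, ← hM, div_le_iff₀ (by positivity), mul_comm] at h7
            exact h7
  calc ∫⁻ ω, gden K ω * ENNReal.ofReal (Sx (toX (x₀ + σ • ω)) ^ 6)
      ≤ ∫⁻ ω : Ix m n → ℝ, ENNReal.ofReal 32 * (gden K ω + ENNReal.ofReal ((M : ℝ) ^ 5) *
        ∑ i, gden K ω * ENNReal.ofReal ((1 + |ω i|) ^ 6)) := by
        refine lintegral_mono fun ω => ?_
        refine (mul_le_mul' le_rfl (ENNReal.ofReal_le_ofReal (h4 ω))).trans (le_of_eq ?_)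
        rw [ENNReal.ofReal_mul (by norm_num), ENNReal.ofReal_add zero_le_one (by positivity),
          ENNReal.ofReal_one, ENNReal.ofReal_mul (by positivity),
          ENNReal.ofReal_sum_of_nonneg (fun i _ => by positivity), ← Finset.mul_sum]
        ring
    _ = ENNReal.ofReal 32 * ((∫⁻ ω : Ix m n → ℝ, gden K ω) + ENNReal.ofReal ((M : ℝ) ^ 5) *
        ∑ i, ∫⁻ ω : Ix m n → ℝ, gden K ω * ENNReal.ofReal ((1 + |ω i|) ^ 6)) := by
        rw [lintegral_const_mul' _ _ ENNReal.ofReal_ne_top,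
          lintegral_add_left (measurable_gden K), lintegral_const_mul' _ _ ENNReal.ofReal_ne_top,
          lintegral_finsetSum]
        intro i _
        exact (measurable_gden K).mul (by fun_prop)
    _ ≤ ENNReal.ofReal 32 * (ENNReal.ofReal (Real.exp 1) + ENNReal.ofReal ((M : ℝ) ^ 5) *
        ∑ _i : Ix m n, ENNReal.ofReal (Real.exp 1 * c6)) := by
        refine mul_le_mul' le_rfl (add_le_add (lintegral_gden_le hK) (mul_le_mul' le_rfl ?_))
        exact Finset.sum_le_sum fun i _ => lintegral_gden_moment hK i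
    _ = _ := by
        have hc6 : 0 ≤ c6 := by norm_num [c6]
        rw [Finset.sum_const, Finset.card_univ, ← hM, nsmul_eq_mul, ← ENNReal.ofReal_natCast,
          ← ENNReal.ofReal_mul (Nat.cast_nonneg _), ← ENNReal.ofReal_mul (by positivity),
          ← ENNReal.ofReal_add (by positivity) (by positivity),
          ← ENNReal.ofReal_mul (by norm_num)]
        congr 1
        unfold Mo
        ring

/-! ### Duality -/

/-- The dual data. -/
def du (x : X m n) : X n m := ((fun p => -x.1 (p.2, p.1)), -x.2.2, -x.2.1)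

theorem du_du (x : X m n) : du (du x) = x := by
  refine Prod.ext ?_ (Prod.ext ?_ ?_)
  · funext p
    simp [du]
  · simp [du]
  · simp [du]

theorem measurable_du : Measurable (du : X m n → X n m) := by
  unfold du
  fun_prop

theorem neg_preserving {ι : Type*} [Fintype ι] :
    MeasurePreserving (fun x : ι → ℝ => -x) volume volume :=
  Measure.measurePreserving_neg volume

theorem du_preserving : MeasurePreserving (du : X m n → X n m) volume volume := by
  have h1 : MeasurePreserving (fun A : Fin m × Fin n → ℝ => fun p : Fin n × Fin m => -A (p.2, p.1))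
      volume volume := by
    have h2 := volume_measurePreserving_piCongrLeft (fun _ : Fin n × Fin m => ℝ)
      (Equiv.prodComm (Fin m) (Fin n))
    have h3 := (neg_preserving (ι := Fin n × Fin m)).comp h2
    have h4 : (fun A : Fin m × Fin n → ℝ => fun p : Fin n × Fin m => -A (p.2, p.1))
        = (fun x : Fin n × Fin m → ℝ => -x) ∘ (MeasurableEquiv.piCongrLeft
          (fun _ : Fin n × Fin m => ℝ) (Equiv.prodComm (Fin m) (Fin n))) := by
      funext A p
      simp only [Function.comp, Pi.neg_apply, neg_inj]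
      have := (Equiv.prodComm (Fin m) (Fin n)).apply_symm_apply p
      conv_rhs => rw [← this]
      rw [MeasurableEquiv.piCongrLeft_apply_apply]
      rfl
    rw [h4]
    exact h3
  have h5 : MeasurePreserving (fun p : (Fin m → ℝ) × (Fin n → ℝ) => (-p.2, -p.1))
      volume volume := by
    have h6 : MeasurePreserving (Prod.swap : (Fin m → ℝ) × (Fin n → ℝ) → _) volume volume :=
      Measure.measurePreserving_swap
    exact ((neg_preserving (ι := Fin n)).prod (neg_preserving (ι := Fin m))).comp h6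
  exact h1.prod h5

theorem l1_du (A : Fin m × Fin n → ℝ) : l1 (fun p : Fin n × Fin m => -A (p.2, p.1)) = l1 A := by
  unfold l1
  rw [← (Equiv.prodComm (Fin m) (Fin n)).sum_comp]
  simp

theorem Sx_du (x : X m n) : Sx (du x) = Sx x := by
  unfold Sx du
  simp only [l1_du, l1_neg]
  ring

theorem dist1_du (x y : X m n) : dist1 (du x) (du y) = dist1 x y := by
  unfold dist1 du
  have h1 : (fun p : Fin n × Fin m => -x.1 (p.2, p.1)) - (fun p => -y.1 (p.2, p.1))
      = fun p : Fin n × Fin m => -(x.1 - y.1) (p.2, p.1) := by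
    funext p
    simp only [Pi.sub_apply]
    ring
  have h2 : -x.2.2 - -y.2.2 = -(x.2.2 - y.2.2) := by abel
  have h3 : -x.2.1 - -y.2.1 = -(x.2.1 - y.2.1) := by abel
  simp only [h1, h2, h3, l1_du, l1_neg]
  ring

/-- The dual basis. -/
def dualE (e : Fin m ⊕ Fin n ≃ Fin n ⊕ Fin m) : Fin n ⊕ Fin m ≃ Fin m ⊕ Fin n :=
  (Equiv.sumComm _ _).trans (e.trans (Equiv.sumComm _ _))

theorem Pm_dual (e : Fin m ⊕ Fin n ≃ Fin n ⊕ Fin m) (x : X m n) :
    Pm (dualE e) (du x).1 = -Qm e x.1 := by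
  ext r k
  simp only [Pm, Qm, extA, extD, Matrix.of_apply, Matrix.neg_apply, dualE, Equiv.trans_apply,
    Equiv.sumComm_apply, Sum.swap_inl, du]
  rcases e (Sum.inr k) with j | l
  · simp only [Sum.swap_inl, Sum.elim_inr, Sum.elim_inl]
    split_ifs <;> simp
  · simp only [Sum.swap_inr, Sum.elim_inl, Sum.elim_inr]

theorem Qm_dual (e : Fin m ⊕ Fin n ≃ Fin n ⊕ Fin m) (x : X m n) :
    Qm (dualE e) (du x).1 = -Pm e x.1 := by
  ext r k
  simp only [Pm, Qm, extA, extD, Matrix.of_apply, Matrix.neg_apply, dualE, Equiv.trans_apply,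
    Equiv.sumComm_apply, Sum.swap_inr, du]
  rcases e (Sum.inl k) with j | l
  · simp only [Sum.swap_inl, Sum.elim_inr, Sum.elim_inl]
  · simp only [Sum.swap_inr, Sum.elim_inl, Sum.elim_inr]
    split_ifs <;> simp

theorem neg_inv_mulVec {N : ℕ} {M : Matrix (Fin N) (Fin N) ℝ} (hM : M.det ≠ 0)
    (v : Fin N → ℝ) : (-M)⁻¹ *ᵥ v = -(M⁻¹ *ᵥ v) := by
  have h : (-M)⁻¹ = -M⁻¹ := by
    apply Matrix.inv_eq_left_inv
    rw [neg_mul_neg, nonsing_inv_mul _ (isUnit_iff_ne_zero.2 hM)]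
  rw [h, neg_mulVec]

theorem HitP_dual (e : Fin m ⊕ Fin n ≃ Fin n ⊕ Fin m) (k : Fin m) {x : X m n}
    (h : HitP e k x.1 x.2.1 x.2.2) : HitD (dualE e) k (du x).1 (du x).2.1 (du x).2.2 := by
  obtain ⟨hP, h1, t, ht0, ht1, ⟨hz, hζ⟩, h0⟩ := h
  have hQ := det_Qm_ne_zero e hP
  have e1 : (fun i => (du x).2.1 i + t) = -(fun j => x.2.2 j - t) := by
    funext i
    simp only [du, Pi.neg_apply]
    ring
  have e2 : (fun i => (du x).2.2 i - t) = -(fun j => x.2.1 j + t) := by
    funext i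
    simp only [du, Pi.neg_apply]
    ring
  refine ⟨?_, ?_, t, ht0, ?_, ⟨?_, ?_⟩, ?_⟩
  · rw [Pm_dual, det_neg]
    exact mul_ne_zero (pow_ne_zero _ (by norm_num)) hQ
  · rw [Qm_dual, neg_inv_mulVec hP]
    simpa using h1
  · have : l1 (du x).2.1 + l1 (du x).2.2 = l1 x.2.1 + l1 x.2.2 := by
      simp only [du, l1_neg]
      ring
    rw [this]
    exact ht1
  · intro i
    rw [Pm_dual, neg_inv_mulVec hQ, e1, mulVec_neg, neg_neg]
    exact hζ i
  · intro i
    rw [Qm_dual, neg_inv_mulVec hP, e2, mulVec_neg, neg_neg]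
    exact hz i
  · rw [Qm_dual, neg_inv_mulVec hP, e2, mulVec_neg, neg_neg]
    exact h0

/-- Primal walls, through duality. -/
def HPs (e : Fin m ⊕ Fin n ≃ Fin n ⊕ Fin m) (k : Fin m) : Set (X m n) :=
  du ⁻¹' (HD (dualE e) k)

theorem measurableSet_HPs (e : Fin m ⊕ Fin n ≃ Fin n ⊕ Fin m) (k : Fin m) :
    MeasurableSet (HPs e k : Set (X m n)) := measurable_du (measurableSet_HD _ _)

theorem dualE_dualE (e : Fin m ⊕ Fin n ≃ Fin n ⊕ Fin m) : dualE (dualE e) = e := by
  ext i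
  simp [dualE]

theorem InjFam_dual {𝓔 : Finset (Fin m ⊕ Fin n ≃ Fin n ⊕ Fin m)} (hinj : InjFam 𝓔) :
    InjFam (𝓔.map ⟨dualE, Function.LeftInverse.injective dualE_dualE⟩) := by
  intro d hd d' hd' h
  obtain ⟨e, he, rfl⟩ := Finset.mem_map.1 hd
  obtain ⟨e', he', rfl⟩ := Finset.mem_map.1 hd'
  simp only [Function.Embedding.coeFn_mk] at h ⊢
  have h1 : ∀ l, ∃ l', e (Sum.inr l) = e' (Sum.inr l') := by
    intro l
    obtain ⟨l', hl'⟩ := h l
    refine ⟨l', ?_⟩
    simp only [dualE, Equiv.trans_apply, Equiv.sumComm_apply, Sum.swap_inl] at hl'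
    have := congrArg Sum.swap hl'
    simpa using this
  have h2 : ∀ l, ∃ l', e (Sum.inl l) = e' (Sum.inl l') := by
    -- the map `l ↦ l'` on the `inr` side is a bijection
    choose g hg using h1
    have hginj : Function.Injective g := by
      intro a b hab
      have : e (Sum.inr a) = e (Sum.inr b) := by rw [hg a, hg b, hab]
      exact Sum.inr.inj (e.injective this)
    have hgsurj : Function.Surjective g := Finite.surjective_of_injective hginj
    intro l
    obtain ⟨l' | r, hl'⟩ := e'.surjective (e (Sum.inl l))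
    · exact ⟨l', hl'.symm⟩
    · exfalso
      obtain ⟨r', hr'⟩ := hgsurj r
      have : e (Sum.inr r') = e (Sum.inl l) := by rw [hg r', hr', hl']
      simpa using e.injective this
  rw [hinj e he e' he' h2]

theorem hitP_total {𝓔 : Finset (Fin m ⊕ Fin n ≃ Fin n ⊕ Fin m)} (hinj : InjFam 𝓔) {κ₀ : ℝ}
    (hκ₀ : 0 ≤ κ₀) {f : X m n → ℝ≥0∞} (hf : Measurable f) (hLL : LL κ₀ f)
    (hfin : ∫⁻ x, ENNReal.ofReal (Sx x ^ 6) * f x ≠ ∞) :
    ∑ p ∈ 𝓔 ×ˢ (Finset.univ : Finset (Fin m)), ∫⁻ x, (HPs p.1 p.2).indicator f x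
      ≤ ENNReal.ofReal (Kc n m (κ₀ + 4) * ((n : ℝ) + m + 1) ^ 2 * Real.pi) *
        ∫⁻ x, ENNReal.ofReal (Sx x ^ 6) * f x := by
  set g : X n m → ℝ≥0∞ := fun y => f (du y) with hg
  have hgm : Measurable g := hf.comp measurable_du
  have hgL : LL κ₀ g := by
    intro x y
    have := hLL (du x) (du y)
    rwa [dist1_du] at this
  have hmom : ∫⁻ y, ENNReal.ofReal (Sx y ^ 6) * g y = ∫⁻ x, ENNReal.ofReal (Sx x ^ 6) * f x := by
    have hm : Measurable fun y : X n m => ENNReal.ofReal (Sx y ^ 6) * g y :=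
      (((continuous_Sx.measurable).pow_const 6).ennreal_ofReal).mul hgm
    rw [← (du_preserving (m := m) (n := n)).lintegral_comp hm]
    refine lintegral_congr fun x => ?_
    simp only [hg, du_du, Sx_du]
  have h := hit_total (InjFam_dual hinj) hκ₀ hgm hgL (by rw [hmom]; exact hfin)
  rw [hmom] at h
  refine le_trans (le_of_eq ?_) h
  rw [Finset.sum_product, Finset.sum_product, Finset.sum_map]
  refine Finset.sum_congr rfl fun e _ => Finset.sum_congr rfl fun k _ => ?_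
  simp only [Function.Embedding.coeFn_mk]
  rw [← (du_preserving (m := m) (n := n)).lintegral_comp
    (hgm.indicator (measurableSet_HD (dualE e) k))]
  refine lintegral_congr fun x => ?_
  by_cases hx : x ∈ HPs e k
  · rw [Set.indicator_of_mem hx, Set.indicator_of_mem (show du x ∈ HD (dualE e) k from hx)]
    simp only [hg, du_du]
  · rw [Set.indicator_of_notMem hx,
      Set.indicator_of_notMem (show du x ∉ HD (dualE e) k from hx)]

end Pool.Agent.Lib.MP_84734f_lc
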