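import Pool.Agent.Lib.MP_84734f_lc.Basic

/-!
# On a line parallel to a cost coordinate, a given level meets at most one wall of each sign
-/

set_option autoImplicit false

namespace Pool.Agent.Lib.MP_84734f_lc

open Matrix Finset

variable {m n : ℕ}

theorem updateCol_mulVec (Q : Matrix (Fin n) (Fin n) ℝ) (k : Fin n) (v ζ : Fin n → ℝ) :
    Q.updateCol k v *ᵥ ζ = Q *ᵥ Function.update ζ k 0 + ζ k • v := by
  funext r
  simp only [mulVec, dotProduct, Pi.add_apply, Pi.smul_apply, smul_eq_mul]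
  rw [← Finset.add_sum_erase _ _ (Finset.mem_univ k),
    ← Finset.add_sum_erase (s := Finset.univ) (a := k)
      (f := fun i => Q r i * Function.update ζ k 0 i) (Finset.mem_univ k)]
  simp only [updateCol_self, Function.update_self, mul_zero, zero_add]
  rw [add_comm, mul_comm (v r)]
  congr 1
  refine Finset.sum_congr rfl fun i hi => ?_
  have : i ≠ k := Finset.ne_of_mem_erase hi
  rw [updateCol_ne this, Function.update_of_ne this]

variable (e : Fin m ⊕ Fin n ≃ Fin n ⊕ Fin m)

theorem eq_smul_dir {A : Fin m × Fin n → ℝ} (hP : (Pm e A).det ≠ 0) (k : Fin n)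
    (q : Fin n ⊕ Fin m → ℝ) (hq : extA A *ᵥ q = 0) (h0 : ∀ i, i ≠ k → q (e (Sum.inr i)) = 0) :
    q = q (e (Sum.inr k)) • dir e A k := by
  set r := q - q (e (Sum.inr k)) • dir e A k with hr
  have hr0 : ∀ i, r (e (Sum.inr i)) = 0 := by
    intro i
    by_cases h : i = k
    · subst h
      simp [hr, dir_inr]
    · simp [hr, dir_inr, h, h0 i h]
  have hr1 : r = fullB e (fun l => r (e (Sum.inl l))) := by
    funext i
    obtain ⟨l | l, rfl⟩ := e.surjective i
    · simp
    · simp [hr0]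
  have hr2 : extA A *ᵥ r = 0 := by
    rw [hr, mulVec_sub, mulVec_smul, hq, extA_dir e hP, smul_zero, sub_zero]
  rw [hr1, extA_fullB] at hr2
  have hr3 : (fun l => r (e (Sum.inl l))) = 0 := by
    by_contra hne
    exact hP (Matrix.exists_mulVec_eq_zero_iff.1 ⟨_, hne, hr2⟩)
  have hr4 : r = 0 := by
    rw [hr1, hr3]
    funext i
    obtain ⟨l | l, rfl⟩ := e.surjective i <;> simp
  rw [hr, sub_eq_zero] at hr4
  exact hr4

theorem unique_wall {e e' : Fin m ⊕ Fin n ≃ Fin n ⊕ Fin m} {A : Fin m × Fin n → ℝ}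
    {k k' j : Fin n} (hP : (Pm e A).det ≠ 0) (hP' : (Pm e' A).det ≠ 0)
    {z z' : Fin m → ℝ} (hz : ∀ l, 0 < z l) (hz' : ∀ l, 0 < z' l)
    (hb : Pm e A *ᵥ z = Pm e' A *ᵥ z')
    {ζ ζ' : Fin n → ℝ} (hζ : ∀ i, i ≠ k → 0 < ζ i) (hζ' : ∀ i, i ≠ k' → 0 < ζ' i)
    (hc : (Qm e A).updateCol k (Pi.single j 1) *ᵥ ζ
      = (Qm e' A).updateCol k' (Pi.single j 1) *ᵥ ζ')
    {σ : ℝ} (hd : 0 < σ * dir e A k (Sum.inl j)) (hd' : 0 < σ * dir e' A k' (Sum.inl j))
    {ρ ρ' : ℝ} (hρ : 0 < ρ) (hρ' : 0 < ρ')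
    (hpos : ∀ l, 0 < z l + ρ * dir e A k (e (Sum.inl l)))
    (hpos' : ∀ l, 0 < z' l + ρ' * dir e' A k' (e' (Sum.inl l)))
    (hv : fullB e z (Sum.inl j) + ρ * dir e A k (Sum.inl j)
      = fullB e' z' (Sum.inl j) + ρ' * dir e' A k' (Sum.inl j)) :
    (∀ l, ∃ l', e (Sum.inl l) = e' (Sum.inl l')) ∧ e (Sum.inr k) = e' (Sum.inr k') := by
  set d := dir e A k with hdd
  set d' := dir e' A k' with hdd'
  set p : Fin n ⊕ Fin m → ℝ := fullB e z + ρ • d with hp
  set p' : Fin n ⊕ Fin m → ℝ := fullB e' z' + ρ' • d' with hp'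
  set η : Fin n ⊕ Fin m → ℝ := fullN e (Function.update ζ k 0) with hη
  set η' : Fin n ⊕ Fin m → ℝ := fullN e' (Function.update ζ' k' 0) with hη'
  have hAp : extA A *ᵥ p = Pm e A *ᵥ z := by
    rw [hp, mulVec_add, mulVec_smul, extA_dir e hP, smul_zero, add_zero, extA_fullB]
  have hAp' : extA A *ᵥ p' = Pm e A *ᵥ z := by
    rw [hp', mulVec_add, mulVec_smul, extA_dir e' hP', smul_zero, add_zero, extA_fullB, hb]
  have hq0 : extA A *ᵥ (p' - p) = 0 := by rw [mulVec_sub, hAp, hAp', sub_self]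
  have hqj : (p' - p) (Sum.inl j) = 0 := by
    simp only [hp, hp', Pi.sub_apply, Pi.add_apply, Pi.smul_apply, smul_eq_mul]
    linarith
  set c := (Qm e A).updateCol k (Pi.single j 1) *ᵥ ζ with hcdef
  have hDη : extD A *ᵥ η = c - ζ k • Pi.single j 1 := by
    rw [hη, extD_fullN, hcdef, updateCol_mulVec]
    simp
  have hDη' : extD A *ᵥ η' = c - ζ' k' • Pi.single j 1 := by
    rw [hη', extD_fullN, hc, updateCol_mulVec]
    simp
  have hsum : ∀ (a : ℝ), ∑ j', (c - a • (Pi.single j (1 : ℝ) : Fin n → ℝ)) j' * (p' - p) (Sum.inl j')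
      = ∑ j', c j' * (p' - p) (Sum.inl j') := by
    intro a
    have : ∀ j', (c - a • (Pi.single j (1 : ℝ) : Fin n → ℝ)) j' * (p' - p) (Sum.inl j')
        = c j' * (p' - p) (Sum.inl j') := by
      intro j'
      by_cases h : j' = j
      · subst h
        rw [hqj]
        ring
      · simp [Pi.single_eq_of_ne h]
    exact Finset.sum_congr rfl fun j' _ => this j'
  have h1 : ∑ i, (p' - p) i * η i = -∑ j', c j' * (p' - p) (Sum.inl j') := by
    rw [dot_eq A, hq0, hDη, hsum]
    simp
  have h2 : ∑ i, (p' - p) i * η' i = -∑ j', c j' * (p' - p) (Sum.inl j') := by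
    rw [dot_eq A, hq0, hDη', hsum]
    simp
  -- values
  have pin : ∀ l, p (e (Sum.inl l)) = z l + ρ * d (e (Sum.inl l)) := by intro l; simp [hp]
  have pir : ∀ i, p (e (Sum.inr i)) = if i = k then ρ else 0 := by
    intro i
    simp [hp, hdd, dir_inr]
  have pin' : ∀ l, p' (e' (Sum.inl l)) = z' l + ρ' * d' (e' (Sum.inl l)) := by
    intro l
    simp [hp']
  have pir' : ∀ i, p' (e' (Sum.inr i)) = if i = k' then ρ' else 0 := by
    intro i
    simp [hp', hdd', dir_inr]
  have ηin : ∀ l, η (e (Sum.inl l)) = 0 := by intro l; simp [hη]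
  have ηir : ∀ i, η (e (Sum.inr i)) = Function.update ζ k 0 i := by intro i; simp [hη]
  have ηin' : ∀ l, η' (e' (Sum.inl l)) = 0 := by intro l; simp [hη']
  have ηir' : ∀ i, η' (e' (Sum.inr i)) = Function.update ζ' k' 0 i := by intro i; simp [hη']
  have hpη : ∀ i, p i * η i = 0 := by
    intro i
    obtain ⟨l | i, rfl⟩ := e.surjective i
    · rw [ηin, mul_zero]
    · rw [pir, ηir]
      by_cases h : i = k
      · subst h
        simp
      · simp [h]
  have hpη' : ∀ i, p' i * η' i = 0 := by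
    intro i
    obtain ⟨l | i, rfl⟩ := e'.surjective i
    · rw [ηin', mul_zero]
    · rw [pir', ηir']
      by_cases h : i = k'
      · subst h
        simp
      · simp [h]
  have hp0 : ∀ i, 0 ≤ p i := by
    intro i
    obtain ⟨l | i, rfl⟩ := e.surjective i
    · rw [pin]
      exact (hpos l).le
    · rw [pir]
      split_ifs
      · exact hρ.le
      · exact le_rfl
  have hp0' : ∀ i, 0 ≤ p' i := by
    intro i
    obtain ⟨l | i, rfl⟩ := e'.surjective i
    · rw [pin']
      exact (hpos' l).le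
    · rw [pir']
      split_ifs
      · exact hρ'.le
      · exact le_rfl
  have hη0 : ∀ i, 0 ≤ η i := by
    intro i
    obtain ⟨l | i, rfl⟩ := e.surjective i
    · rw [ηin]
    · rw [ηir]
      by_cases h : i = k
      · subst h
        simp
      · rw [Function.update_of_ne h]
        exact (hζ i h).le
  have hη0' : ∀ i, 0 ≤ η' i := by
    intro i
    obtain ⟨l | i, rfl⟩ := e'.surjective i
    · rw [ηin']
    · rw [ηir']
      by_cases h : i = k'
      · subst h
        simp
      · rw [Function.update_of_ne h]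
        exact (hζ' i h).le
  have h3 : ∑ i, p' i * η i = -∑ j', c j' * (p' - p) (Sum.inl j') := by
    rw [← h1]
    refine Finset.sum_congr rfl fun i _ => ?_
    have := hpη i
    simp only [Pi.sub_apply, sub_mul]
    linarith
  have h4 : -∑ i, p i * η' i = -∑ j', c j' * (p' - p) (Sum.inl j') := by
    rw [← h2, ← Finset.sum_neg_distrib]
    refine Finset.sum_congr rfl fun i _ => ?_
    have := hpη' i
    simp only [Pi.sub_apply, sub_mul]
    linarith
  have h5 : 0 ≤ ∑ i, p' i * η i := Finset.sum_nonneg fun i _ => mul_nonneg (hp0' i) (hη0 i)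
  have h6 : 0 ≤ ∑ i, p i * η' i := Finset.sum_nonneg fun i _ => mul_nonneg (hp0 i) (hη0' i)
  have h7 : ∑ i, p' i * η i = 0 := by linarith
  have h8 : ∑ i, p i * η' i = 0 := by linarith
  have h9 : ∀ i, p' i * η i = 0 := fun i =>
    (Finset.sum_eq_zero_iff_of_nonneg fun i _ => mul_nonneg (hp0' i) (hη0 i)).1 h7 i
      (Finset.mem_univ i)
  have h10 : ∀ i, p i * η' i = 0 := fun i =>
    (Finset.sum_eq_zero_iff_of_nonneg fun i _ => mul_nonneg (hp0 i) (hη0' i)).1 h8 i
      (Finset.mem_univ i)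
  -- zero patterns
  have hz1 : ∀ i, i ≠ k → p' (e (Sum.inr i)) = 0 := by
    intro i hi
    have h := h9 (e (Sum.inr i))
    rw [ηir, Function.update_of_ne hi] at h
    exact (mul_eq_zero.1 h).resolve_right (hζ i hi).ne'
  have hz2 : ∀ i, i ≠ k' → p (e' (Sum.inr i)) = 0 := by
    intro i hi
    have h := h10 (e' (Sum.inr i))
    rw [ηir', Function.update_of_ne hi] at h
    exact (mul_eq_zero.1 h).resolve_right (hζ' i hi).ne'
  -- p' = p
  have hpp : p' = p := by
    have h := eq_smul_dir e hP k (p' - p) hq0 (by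
      intro i hi
      simp only [Pi.sub_apply, hz1 i hi, pir, if_neg hi, sub_zero])
    have hj := congrFun h (Sum.inl j)
    rw [hqj, Pi.smul_apply, smul_eq_mul] at hj
    have hdj : dir e A k (Sum.inl j) ≠ 0 := by
      intro h0
      rw [hdd, h0, mul_zero] at hd
      exact lt_irrefl _ hd
    have hγ := (mul_eq_zero.1 hj.symm).resolve_right hdj
    rw [hγ, zero_smul] at h
    exact sub_eq_zero.1 h
  -- d' is a positive multiple of d
  have hd0' : ∀ i, i ≠ k → d' (e (Sum.inr i)) = 0 := by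
    intro i hi
    have h := hz1 i hi
    obtain ⟨l | i', hx⟩ := e'.surjective (e (Sum.inr i))
    · rw [← hx, pin'] at h
      exact absurd h (hpos' l).ne'
    · rw [← hx, pir'] at h
      rw [← hx, hdd', dir_inr]
      split_ifs at h ⊢
      · exact absurd h hρ'.ne'
      · rfl
  have hdeq := eq_smul_dir e hP k d' (extA_dir e' hP' k') hd0'
  set γ := d' (e (Sum.inr k)) with hγdef
  have hγ : 0 < γ := by
    have h := congrFun hdeq (Sum.inl j)
    rw [Pi.smul_apply, smul_eq_mul] at h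
    rw [h] at hd'
    have h2 : 0 < γ * (σ * d (Sum.inl j)) := by
      have : σ * (γ * dir e A k (Sum.inl j)) = γ * (σ * d (Sum.inl j)) := by ring
      linarith
    exact (pos_iff_pos_of_mul_pos h2).2 hd
  have hdeq' : ∀ i, d' i = γ * d i := fun i => by
    have h := congrFun hdeq i
    rwa [Pi.smul_apply, smul_eq_mul] at h
  have hkk : e (Sum.inr k) = e' (Sum.inr k') := by
    by_contra hne
    have hk1 : ∃ l', e' (Sum.inl l') = e (Sum.inr k) := by
      obtain ⟨l | i', hx⟩ := e'.surjective (e (Sum.inr k))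
      · exact ⟨l, hx⟩
      · exfalso
        by_cases h : i' = k'
        · subst h
          exact hne hx.symm
        · have h1 := hz2 i' h
          rw [hx, pir, if_pos rfl] at h1
          exact hρ.ne' h1
    have hk2 : ∃ l, e (Sum.inl l) = e' (Sum.inr k') := by
      obtain ⟨l | i', hx⟩ := e.surjective (e' (Sum.inr k'))
      · exact ⟨l, hx⟩
      · exfalso
        by_cases h : i' = k
        · subst h
          exact hne hx
        · have h1 := hz1 i' h
          rw [hx, pir', if_pos rfl] at h1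
          exact hρ'.ne' h1
    obtain ⟨l', hl'⟩ := hk1
    obtain ⟨l, hl⟩ := hk2
    have a1 := pin' l'
    have b1 : d (e (Sum.inr k)) = 1 := by rw [hdd, dir_inr, if_pos rfl]
    rw [hl', hpp, pir, if_pos rfl, hdeq', b1] at a1
    have a2 := pin l
    have b2 : d' (e' (Sum.inr k')) = 1 := by rw [hdd', dir_inr, if_pos rfl]
    rw [hl, ← hpp, pir', if_pos rfl] at a2
    rw [hdeq'] at b2
    have c1 := hz' l'
    have c2 := hz l
    have c3 : 0 < z l * γ := mul_pos c2 hγ
    have c4 : z l = ρ' - ρ * d (e' (Sum.inr k')) := by linarith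
    rw [c4, sub_mul, mul_assoc, mul_comm (d _) γ, b2] at c3
    linarith
  refine ⟨fun l => ?_, hkk⟩
  obtain ⟨l' | i', hx⟩ := e'.surjective (e (Sum.inl l))
  · exact ⟨l', hx.symm⟩
  · exfalso
    by_cases h : i' = k'
    · subst h
      rw [← hkk] at hx
      simp at hx
    · have h1 := hz2 i' h
      rw [hx, pin] at h1
      exact (hpos l).ne' h1

end Pool.Agent.Lib.MP_84734f_lc
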