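import Pool.Agent.Lib.MP_84734f_lc.Path
import Pool.Agent.Lib.MP_84734f_lc.Unique
import Pool.Agent.Lib.MP_84734f_lc.Meas

/-!
# The wall measure, and how the data move along the column flow
-/

set_option autoImplicit false

namespace Pool.Agent.Lib.MP_84734f_lc

open Matrix Finset MeasureTheory
open scoped ENNReal

variable {m n : ℕ}

/-- The space of data. -/
abbrev X (m n : ℕ) := (Fin m × Fin n → ℝ) × (Fin m → ℝ) × (Fin n → ℝ)

theorem l1_add_le {ι : Type*} [Fintype ι] (u v : ι → ℝ) : l1 (u + v) ≤ l1 u + l1 v := by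
  unfold l1
  rw [← Finset.sum_add_distrib]
  exact Finset.sum_le_sum fun i _ => abs_add_le _ _

theorem l1_neg {ι : Type*} [Fintype ι] (u : ι → ℝ) : l1 (-u) = l1 u := by
  simp [l1]

theorem l1_smul {ι : Type*} [Fintype ι] (a : ℝ) (u : ι → ℝ) : l1 (a • u) = |a| * l1 u := by
  simp [l1, abs_mul, Finset.mul_sum]

theorem l1_single {ι : Type*} [Fintype ι] [DecidableEq ι] (i : ι) (a : ℝ) :
    l1 (Pi.single i a) = |a| := by
  unfold l1
  rw [Finset.sum_eq_single i]
  · simp
  · intro j _ hj
    simp [hj]
  · simp

theorem l1_zero {ι : Type*} [Fintype ι] : l1 (0 : ι → ℝ) = 0 := by simp [l1]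

theorem l1_sub_comm {ι : Type*} [Fintype ι] (u v : ι → ℝ) : l1 (u - v) = l1 (v - u) := by
  rw [← l1_neg (u - v), neg_sub]

theorem l1_le_add {ι : Type*} [Fintype ι] (u v : ι → ℝ) : l1 u ≤ l1 v + l1 (u - v) := by
  have := l1_add_le v (u - v)
  rwa [add_sub_cancel] at this

theorem continuous_l1 {ι : Type*} [Fintype ι] : Continuous (l1 : (ι → ℝ) → ℝ) := by
  unfold l1
  fun_prop

/-- The `ℓ¹` distance between data. -/
def dist1 (x y : X m n) : ℝ := l1 (x.1 - y.1) + l1 (x.2.1 - y.2.1) + l1 (x.2.2 - y.2.2)

/-- Log-Lipschitz functions. -/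
def LL (κ : ℝ) (h : X m n → ℝ≥0∞) : Prop :=
  ∀ x y, h y ≤ ENNReal.ofReal (Real.exp (κ * dist1 x y)) * h x

/-- The local scale. -/
def Rr (κ : ℝ) (A : Fin m × Fin n → ℝ) (c : Fin n → ℝ) : ℝ := 1 + κ * (l1 A + l1 c)

/-- The weights of the wall measure. -/
noncomputable def Wt (e : Fin m ⊕ Fin n ≃ Fin n ⊕ Fin m) (k j : Fin n)
    (A : Fin m × Fin n → ℝ) : ℝ := |((Qm e A).updateCol k (Pi.single j 1)).det|

/-- The domain of the coordinates. -/
def Dom (m : ℕ) {n : ℕ} (k : Fin n) (κ : ℝ) : Set (X m n) :=
  {y | (∀ l, 0 < y.2.1 l) ∧ (∀ i, i ≠ k → 0 < y.2.2 i) ∧ 0 ≤ y.2.2 k ∧ y.2.2 k ≤ 1 / κ}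

/-- The costs on the wall. -/
noncomputable def cw (e : Fin m ⊕ Fin n ≃ Fin n ⊕ Fin m) (k : Fin n) (y : X m n) : Fin n → ℝ :=
  Qm e y.1 *ᵥ Function.update y.2.2 k 0

/-- The point of the wall with given coordinates. -/
noncomputable def pt (e : Fin m ⊕ Fin n ≃ Fin n ⊕ Fin m) (k : Fin n) (y : X m n) : X m n :=
  (y.1, Pm e y.1 *ᵥ y.2.1, cw e k y)

/-- The weighted density on a wall. -/
noncomputable def Fw (e : Fin m ⊕ Fin n ≃ Fin n ⊕ Fin m) (k : Fin n) (κ : ℝ)
    (h : X m n → ℝ≥0∞) : X m n → ℝ≥0∞ :=
  (Dom m k κ).indicator fun y =>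
    ENNReal.ofReal (κ * |(Pm e y.1).det| * ∑ j, Wt e k j y.1) * h (pt e k y)

/-! ### Continuity -/

section Continuity

variable (e : Fin m ⊕ Fin n ≃ Fin n ⊕ Fin m) (k : Fin n)

theorem continuous_Pm : Continuous (Pm e : (Fin m × Fin n → ℝ) → _) := by
  refine continuous_matrix fun r l => ?_
  simp only [Pm, extA, Matrix.of_apply]
  rcases e (Sum.inl l) with j | r'
  · simp only [Sum.elim_inl]
    fun_prop
  · simp only [Sum.elim_inr]
    fun_prop

theorem continuous_Qm : Continuous (Qm e : (Fin m × Fin n → ℝ) → _) := by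
  refine continuous_matrix fun r l => ?_
  simp only [Qm, extD, Matrix.of_apply]
  rcases e (Sum.inr l) with j | r'
  · simp only [Sum.elim_inl]
    fun_prop
  · simp only [Sum.elim_inr]
    fun_prop

theorem continuous_update0 : Continuous fun ζ : Fin n → ℝ => Function.update ζ k (0 : ℝ) := by
  fun_prop

theorem continuous_cw : Continuous (cw e k : X m n → _) := by
  unfold cw
  exact ((continuous_Qm e).comp continuous_fst).matrix_mulVec
    ((continuous_update0 k).comp (continuous_snd.comp continuous_snd))

theorem continuous_pt : Continuous (pt e k : X m n → X m n) := by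
  unfold pt
  exact continuous_fst.prodMk ((((continuous_Pm e).comp continuous_fst).matrix_mulVec
    (continuous_fst.comp continuous_snd)).prodMk (continuous_cw e k))

theorem continuous_Wt (j : Fin n) : Continuous (Wt e k j : (Fin m × Fin n → ℝ) → ℝ) := by
  unfold Wt
  exact ((continuous_Qm e).matrix_updateCol k continuous_const).matrix_det.abs

theorem continuous_detP : Continuous fun A : Fin m × Fin n → ℝ => |(Pm e A).det| :=
  (continuous_Pm e).matrix_det.abs

theorem continuous_wt (κ : ℝ) :
    Continuous fun y : X m n => κ * |(Pm e y.1).det| * ∑ j, Wt e k j y.1 := by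
  have h1 := (continuous_detP e).comp (continuous_fst (X := Fin m × Fin n → ℝ)
    (Y := (Fin m → ℝ) × (Fin n → ℝ)))
  have h2 : Continuous fun y : X m n => ∑ j, Wt e k j y.1 :=
    continuous_finsetSum _ fun j _ => (continuous_Wt e k j).comp continuous_fst
  exact (continuous_const.mul h1).mul h2

end Continuity

theorem measurableSet_Dom (k : Fin n) (κ : ℝ) : MeasurableSet (Dom m k κ) := by
  have h1 : MeasurableSet {y : X m n | ∀ l, 0 < y.2.1 l} := by
    rw [Set.ofPred_forall]
    exact MeasurableSet.iInter fun l => measurableSet_lt measurable_const (by fun_prop)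
  have h2 : MeasurableSet {y : X m n | ∀ i, i ≠ k → 0 < y.2.2 i} := by
    rw [Set.ofPred_forall]
    refine MeasurableSet.iInter fun i => ?_
    by_cases h : i = k
    · simp [h]
    · simp only [ne_eq, h, not_false_eq_true, forall_const]
      exact measurableSet_lt measurable_const (by fun_prop)
  have h3 : MeasurableSet {y : X m n | 0 ≤ y.2.2 k} :=
    measurableSet_le measurable_const (by fun_prop)
  have h4 : MeasurableSet {y : X m n | y.2.2 k ≤ 1 / κ} :=
    measurableSet_le (by fun_prop) measurable_const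
  exact h1.inter (h2.inter (h3.inter h4))

theorem measurable_Fw (e : Fin m ⊕ Fin n ≃ Fin n ⊕ Fin m) (k : Fin n) (κ : ℝ)
    {h : X m n → ℝ≥0∞} (hh : Measurable h) : Measurable (Fw e k κ h) := by
  unfold Fw
  refine Measurable.indicator ?_ (measurableSet_Dom k κ)
  exact ((continuous_wt e k κ).measurable.ennreal_ofReal).mul
    (hh.comp (continuous_pt e k).measurable)

/-! ### The column flow -/

/-- Add `-s` times the basic column `l` to the column `js` of `A`. -/
def shA (e : Fin m ⊕ Fin n ≃ Fin n ⊕ Fin m) (A : Fin m × Fin n → ℝ) (s : ℝ) (l : Fin m)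
    (js : Fin n) : Fin m × Fin n → ℝ :=
  fun i => if i.2 = js then A i + (-s * Pm e A i.1 l) else A i

section ColumnFlow

variable (e : Fin m ⊕ Fin n ≃ Fin n ⊕ Fin m) (A : Fin m × Fin n → ℝ) (s : ℝ) {l ks : Fin m}
  {js : Fin n}

theorem shA_Pm (hks : e (Sum.inl ks) = Sum.inl js) :
    Pm e (shA e A s l js) = (Pm e A).updateCol ks (fun r => Pm e A r ks + -s • Pm e A r l) := by
  ext r i
  by_cases hi : i = ks
  · subst hi
    rw [updateCol_self]
    simp only [Pm, extA, Matrix.of_apply, hks, Sum.elim_inl, shA, if_true, smul_eq_mul]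
  · rw [updateCol_ne hi]
    have hne : e (Sum.inl i) ≠ Sum.inl js := by
      rw [← hks]
      intro h
      exact hi (Sum.inl.inj (e.injective h))
    simp only [Pm, extA, Matrix.of_apply, shA]
    rcases he : e (Sum.inl i) with j | r'
    · have : j ≠ js := by
        rintro rfl
        exact hne he
      simp [this]
    · simp

theorem det_shA_Pm (hks : e (Sum.inl ks) = Sum.inl js) (hne : l ≠ ks) :
    (Pm e (shA e A s l js)).det = (Pm e A).det := by
  rw [shA_Pm e A s hks]
  exact det_updateCol_add_smul_self _ hne.symm _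

theorem shA_Pm_mulVec (hks : e (Sum.inl ks) = Sum.inl js) (hne : l ≠ ks) (z : Fin m → ℝ) :
    Pm e (shA e A s l js) *ᵥ Function.update z l (z l + s * z ks) = Pm e A *ᵥ z := by
  rw [shA_Pm e A s hks]
  funext r
  simp only [mulVec, dotProduct]
  have h1 : ∀ f : Fin m → ℝ, ∑ i, f i
      = f ks + (f l + ∑ i ∈ (Finset.univ.erase ks).erase l, f i) := by
    intro f
    rw [← Finset.add_sum_erase _ _ (Finset.mem_univ ks),
      ← Finset.add_sum_erase (Finset.univ.erase ks) f (Finset.mem_erase.2 ⟨hne, Finset.mem_univ l⟩)]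
  rw [h1, h1 (fun i => Pm e A r i * z i)]
  have h2 : ∑ i ∈ (Finset.univ.erase ks).erase l,
      (Pm e A).updateCol ks (fun r => Pm e A r ks + -s • Pm e A r l) r i *
        Function.update z l (z l + s * z ks) i
      = ∑ i ∈ (Finset.univ.erase ks).erase l, Pm e A r i * z i := by
    refine Finset.sum_congr rfl fun i hi => ?_
    have hil : i ≠ l := Finset.ne_of_mem_erase hi
    have hik : i ≠ ks := Finset.ne_of_mem_erase (Finset.mem_of_mem_erase hi)
    rw [updateCol_ne hik, Function.update_of_ne hil]
  rw [h2, updateCol_self, updateCol_ne hne, Function.update_self, Function.update_of_ne hne.symm]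
  simp only [smul_eq_mul]
  ring

/-- The dual side of the column flow, when the moving column is a slack column. -/
theorem shA_Qm_inr {l' : Fin m} (hl : e (Sum.inl l) = Sum.inr l') :
    Qm e (shA e A s l js) = Qm e A := by
  ext j i
  simp only [Qm, extD, Matrix.of_apply, shA]
  rcases he : e (Sum.inr i) with j' | r
  · simp
  · simp only [Sum.elim_inr]
    by_cases hj : j = js
    · rw [if_pos hj]
      have hr : r ≠ l' := by
        rintro rfl
        rw [← hl] at he
        simpa using e.injective he
      simp [Pm, extA, hl, hr]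
    · rw [if_neg hj]

/-- The dual side of the column flow, when the moving column is a column of `A`. -/
theorem shA_Qm_inl {j' : Fin n} (hl : e (Sum.inl l) = Sum.inl j') :
    Qm e (shA e A s l js) = (Qm e A).updateRow js (Qm e A js + -s • Qm e A j') := by
  ext j i
  by_cases hj : j = js
  · subst hj
    rw [updateRow_self]
    simp only [Qm, extD, Matrix.of_apply, shA, if_true, Pi.add_apply, Pi.smul_apply, smul_eq_mul]
    rcases he : e (Sum.inr i) with j'' | r
    · have : j' ≠ j'' := by
        rintro rfl
        rw [← hl] at he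
        simpa using e.injective he
      simp [this]
    · simp [Pm, extA, hl]
  · rw [updateRow_ne hj]
    simp only [Qm, extD, Matrix.of_apply, shA]
    rcases he : e (Sum.inr i) with j'' | r
    · simp
    · simp [hj]

theorem updateRow_mulVec (Q : Matrix (Fin n) (Fin n) ℝ) (js j' : Fin n) (v : Fin n → ℝ) :
    Q.updateRow js (Q js + -s • Q j') *ᵥ v = Q *ᵥ v - (s * (Q *ᵥ v) j') • Pi.single js 1 := by
  funext j
  by_cases hj : j = js
  · subst hj
    simp only [mulVec, dotProduct, updateRow_self, Pi.add_apply, Pi.smul_apply, smul_eq_mul,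
      Pi.sub_apply, Pi.single_eq_same, mul_one, add_mul, Finset.sum_add_distrib, Finset.mul_sum]
    rw [sub_eq_add_neg, ← Finset.sum_neg_distrib]
    congr 1
    exact Finset.sum_congr rfl fun i _ => by ring
  · simp only [mulVec, dotProduct, updateRow_ne hj, Pi.sub_apply, Pi.smul_apply,
      Pi.single_eq_of_ne hj, smul_zero, sub_zero]

theorem det_updateRow_updateCol (Q : Matrix (Fin n) (Fin n) ℝ) {js j' : Fin n} (hne : js ≠ j')
    (k : Fin n) (v : Fin n → ℝ) :
    ((Q.updateRow js (Q js + -s • Q j')).updateCol k v).det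
      = (Q.updateCol k v).det + s * v j' * (Q.updateCol k (Pi.single js 1)).det := by
  have h1 : (Q.updateRow js (Q js + -s • Q j')).updateCol k v
      = (Q.updateCol k (v + (s * v j') • (Pi.single js 1 : Fin n → ℝ))).updateRow js
        ((Q.updateCol k (v + (s * v j') • (Pi.single js 1 : Fin n → ℝ))) js
          + -s • (Q.updateCol k (v + (s * v j') • (Pi.single js 1 : Fin n → ℝ))) j') := by
    ext i i'
    by_cases hi : i = js
    · subst hi
      rw [updateRow_self]
      by_cases hk : i' = k
      · subst hk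
        simp [hne.symm]
      · simp [updateCol_ne hk]
    · rw [updateRow_ne hi]
      by_cases hk : i' = k
      · subst hk
        simp [hi]
      · simp [updateCol_ne hk, updateRow_ne hi]
  rw [h1, det_updateRow_add_smul_self _ hne, det_updateCol_add, det_updateCol_smul]

/-- The sum of the weights changes by a bounded factor along the column flow. -/
theorem sum_Wt_le (hks : e (Sum.inl ks) = Sum.inl js) (hne : l ≠ ks) (hs0 : 0 ≤ s) (hs1 : s ≤ 1)
    (k : Fin n) : ∑ j, Wt e k j A ≤ 2 * ∑ j, Wt e k j (shA e A s l js) := by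
  have hnn : ∀ (B : Fin m × Fin n → ℝ) (j : Fin n), 0 ≤ Wt e k j B := fun _ _ => abs_nonneg _
  rcases hl : e (Sum.inl l) with j' | l'
  · have hjj : js ≠ j' := by
      rintro rfl
      rw [← hks] at hl
      exact hne (Sum.inl.inj (e.injective hl))
    have h1 : ∀ j, ((Qm e (shA e A s l js)).updateCol k (Pi.single j 1)).det
        = ((Qm e A).updateCol k (Pi.single j 1)).det
          + s * (Pi.single j 1 : Fin n → ℝ) j' *
            ((Qm e A).updateCol k (Pi.single js 1)).det := by
      intro j
      rw [shA_Qm_inl e A s hl, det_updateRow_updateCol s _ hjj]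
    have h2 : Wt e k js A = Wt e k js (shA e A s l js) := by
      unfold Wt
      rw [h1, Pi.single_eq_of_ne hjj.symm]
      simp
    have h3 : ∀ j, Wt e k j A ≤ Wt e k j (shA e A s l js)
        + (Pi.single j 1 : Fin n → ℝ) j' * Wt e k js (shA e A s l js) := by
      intro j
      rw [← h2]
      have h4 := h1 j
      have hp : 0 ≤ (Pi.single j 1 : Fin n → ℝ) j' := by
        by_cases h : j' = j
        · subst h
          simp
        · rw [Pi.single_eq_of_ne h]
      have h5 : ((Qm e A).updateCol k (Pi.single j 1)).det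
          = ((Qm e (shA e A s l js)).updateCol k (Pi.single j 1)).det
            + -(s * (Pi.single j 1 : Fin n → ℝ) j' *
              ((Qm e A).updateCol k (Pi.single js 1)).det) := by
        rw [h4]
        ring
      have h6 : Wt e k j A = |((Qm e (shA e A s l js)).updateCol k (Pi.single j 1)).det
            + -(s * (Pi.single j 1 : Fin n → ℝ) j' *
              ((Qm e A).updateCol k (Pi.single js 1)).det)| := by
        rw [← h5]
        rfl
      rw [h6]
      refine (abs_add_le _ _).trans ?_
      rw [abs_neg, abs_mul, abs_mul, abs_of_nonneg hs0, abs_of_nonneg hp]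
      refine add_le_add le_rfl ?_
      have h7 : (Pi.single j 1 : Fin n → ℝ) j' * Wt e k js A ≥
          s * ((Pi.single j 1 : Fin n → ℝ) j' * Wt e k js A) := by
        have := mul_nonneg hp (hnn A js)
        nlinarith
      calc s * (Pi.single j 1 : Fin n → ℝ) j' * |((Qm e A).updateCol k (Pi.single js 1)).det|
          = s * ((Pi.single j 1 : Fin n → ℝ) j' * Wt e k js A) := by
            rw [mul_assoc]
            rfl
        _ ≤ _ := h7
    calc ∑ j, Wt e k j A ≤ ∑ j, (Wt e k j (shA e A s l js)
        + (Pi.single j 1 : Fin n → ℝ) j' * Wt e k js (shA e A s l js)) :=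
          Finset.sum_le_sum fun j _ => h3 j
      _ = ∑ j, Wt e k j (shA e A s l js) + Wt e k js (shA e A s l js) := by
          rw [Finset.sum_add_distrib]
          congr 1
          rw [Finset.sum_eq_single j']
          · simp
          · intro b _ hb
            rw [Pi.single_eq_of_ne hb.symm]
            simp
          · simp
      _ ≤ 2 * ∑ j, Wt e k j (shA e A s l js) := by
          have : Wt e k js (shA e A s l js) ≤ ∑ j, Wt e k j (shA e A s l js) :=
            Finset.single_le_sum (f := fun j => Wt e k j (shA e A s l js))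
              (fun j _ => hnn _ j) (Finset.mem_univ js)
          linarith
  · have h1 : ∀ j, Wt e k j (shA e A s l js) = Wt e k j A := by
      intro j
      unfold Wt
      rw [shA_Qm_inr e A s hl]
    simp only [h1]
    have := Finset.sum_nonneg fun j (_ : j ∈ Finset.univ) => hnn A j
    linarith

end ColumnFlow

end Pool.Agent.Lib.MP_84734f_lc
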